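import Mathlib

/-! Numbers of negative circles in signed complete graphs: definitions. -/

open Finset

namespace MP_90430c

/-- `E` is the edge set of a circle of length `l` in `K_n`. -/
def IsCircle (n l : ℕ) (E : Finset (Sym2 (Fin n))) : Prop :=
  ∃ f : ZMod l → Fin n, Function.Injective f ∧
    (E : Set (Sym2 (Fin n))) = Set.range fun i => s(f i, f (i + 1))

/-- The number of negative circles of length `l` in `K_n` under the signature `σ`. -/
noncomputable def negCircles (n l : ℕ) (σ : Sym2 (Fin n) → ℤˣ) : ℕ :=
  Set.ncard {E : Finset (Sym2 (Fin n)) | IsCircle n l E ∧ ∏ e ∈ E, σ e = -1}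

/-- The set of all numbers of negative circles of length `l` over all signatures of `K_n`. -/
def SS (n l : ℕ) : Set ℕ := Set.range (negCircles n l)

/-- The greatest common divisor of the numbers `2^(s-2) (n-s)! / (n-l)!`, `2 ≤ s ≤ l`. -/
def gg (n l : ℕ) : ℕ := (Finset.Icc 2 l).gcd fun s => 2 ^ (s - 2) * (n - s).descFactorial (l - s)

section general

variable {V : Type*} [Fintype V] [DecidableEq V]

/-- Injective sequences of length `l`. -/
def inj (l : ℕ) (V : Type*) [Fintype V] [DecidableEq V] : Finset (Fin l → V) :=
  univ.filter Function.Injective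

/-- The product of the signs along the closed sequence `f`. -/
def cp (l : ℕ) [NeZero l] (σ : V → V → ℤ) (f : Fin l → V) : ℤ := ∏ i, σ (f i) (f (i + 1))

/-- The signed number of injective closed sequences of length `l`; this is `2 l` times the
signed number of circles. -/
def Z (l : ℕ) [NeZero l] (σ : V → V → ℤ) : ℤ := ∑ f ∈ inj l V, cp l σ f

/-- A signature as a symmetric matrix with entries `1`, `-1` (the diagonal plays no role). -/
structure IsSig (σ : V → V → ℤ) : Prop where
  symm : ∀ x y, σ x y = σ y x
  val : ∀ x y, σ x y = 1 ∨ σ x y = -1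

/-- Signed number of injective sequences `v_1, ..., v_m` outside `X`, with the sign of
`y v_1 ... v_m`. -/
def Sp (σ : V → V → ℤ) : ℕ → V → Finset V → ℤ
  | 0, _, _ => 1
  | m + 1, y, X => ∑ v ∈ Xᶜ, σ y v * Sp σ m v (insert v X)

/-- Signed number of injective sequences `v_1, ..., v_m` outside `X`, with the sign of
`v_1 ... v_m`. -/
def Wp (σ : V → V → ℤ) : ℕ → Finset V → ℤ
  | 0, _ => 1
  | m + 1, X => ∑ v ∈ Xᶜ, Sp σ m v (insert v X)

end general

end MP_90430c
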