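import Mathlib
import Pool.Agent.Lib.MP_90430c_co.Defs

/-! Statements of the modules (as propositions). -/

open Finset

namespace MP_90430c

/-- Task T1: each circle comes from exactly `2 l` injective closed sequences. -/
def CircStmt : Prop := ∀ (n l : ℕ) [NeZero l], 3 ≤ l → ∀ τ : Sym2 (Fin n) → ℤˣ,
  (4 * l * negCircles n l τ : ℤ) = (n.descFactorial l : ℤ) - Z l (fun x y => ((τ s(x, y) : ℤˣ) : ℤ))

/-- Task T2: for even `l` the signed number of closed sequences is almost nonnegative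
(trace of an even power of a symmetric matrix). -/
def EvenStmt : Prop := ∀ (V : Type) [Fintype V] [DecidableEq V] (l : ℕ) [NeZero l], Even l → 4 ≤ l →
  ∀ σ : V → V → ℤ, IsSig σ → -((l ^ 2 * Fintype.card V ^ (l - 1) : ℕ) : ℤ) ≤ Z l σ

/-- Task T3: existence of a balanced signature of every order (characters of `F_2^m`,
`2^(m-1) < n ≤ 2^m`, restricted to `n` points). -/
def BalStmt : Prop := ∀ n : ℕ, ∃ M : Fin n → Fin n → ℤ, IsSig M ∧
  ∀ g h : Fin n → ℤ, (∀ x, |g x| ≤ 1) → (∀ x, |h x| ≤ 1) →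
    (∑ x, ∑ y, M x y * g x * h y) ^ 2 ≤ 2 * (n : ℤ) ^ 3

end MP_90430c
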