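import Mathlib
import Pool.Agent.Lib.MP_90430c_co.Stmts

/-! Task T3: balanced signatures from the characters of `F_2^m`. -/

open Finset

namespace MP_90430c

namespace BalAux

/-- `(-1)^(a·b)` on `F_2^m`. -/
def ch {m : ℕ} (a b : Fin m → Bool) : ℤ := ∏ i, if (a i && b i) then -1 else 1

theorem ch_symm {m : ℕ} (a b : Fin m → Bool) : ch a b = ch b a := by
  unfold ch
  exact Finset.prod_congr rfl fun i _ => by rw [Bool.and_comm]

theorem ch_val {m : ℕ} (a b : Fin m → Bool) : ch a b = 1 ∨ ch a b = -1 := by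
  unfold ch
  apply Finset.prod_induction (fun i => if (a i && b i) then (-1 : ℤ) else 1)
    (fun z => z = 1 ∨ z = -1)
  · rintro x y (rfl | rfl) (rfl | rfl) <;> simp
  · left; rfl
  · intro i _; split_ifs <;> simp

theorem ch_orth {m : ℕ} (a a' : Fin m → Bool) :
    ∑ b : Fin m → Bool, ch b a * ch b a' = if a = a' then 2 ^ m else 0 := by
  have h1 : ∀ b : Fin m → Bool, ch b a * ch b a' =
      ∏ i, ((if (b i && a i) then (-1 : ℤ) else 1) * (if (b i && a' i) then -1 else 1)) := by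
    intro b; unfold ch; rw [Finset.prod_mul_distrib]
  rw [Finset.sum_congr rfl fun b _ => h1 b]
  have h2 := Finset.prod_univ_sum (fun _ : Fin m => (univ : Finset Bool))
    (fun i t => (if (t && a i) then (-1 : ℤ) else 1) * (if (t && a' i) then -1 else 1))
  rw [Fintype.piFinset_univ] at h2
  rw [← h2]
  have h3 : ∀ i, ∑ t : Bool, ((if (t && a i) then (-1 : ℤ) else 1) *
      (if (t && a' i) then -1 else 1)) = if a i = a' i then 2 else 0 := by
    intro i
    rw [Fintype.sum_bool]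
    cases a i <;> cases a' i <;> simp
  rw [Finset.prod_congr rfl fun i _ => h3 i]
  split_ifs with h
  · subst h; simp
  · obtain ⟨i, hi⟩ := Function.ne_iff.1 h
    exact Finset.prod_eq_zero (Finset.mem_univ i) (by simp [hi])

end BalAux

open BalAux

theorem balStmt : BalStmt := by
  intro n
  rcases Nat.eq_zero_or_pos n with rfl | hn
  · exact ⟨fun _ _ => 1, ⟨fun _ _ => rfl, fun _ _ => Or.inl rfl⟩, fun g h _ _ => by simp⟩
  obtain ⟨m, hm1, hm2⟩ : ∃ m : ℕ, n ≤ 2 ^ m ∧ 2 ^ m ≤ 2 * n := by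
    refine ⟨Nat.clog 2 n, Nat.le_pow_clog (by norm_num) n, ?_⟩
    rcases Nat.lt_or_ge 1 n with h1 | h1
    · have h2 := Nat.pow_pred_clog_lt_self (b := 2) (by norm_num) h1
      have h3 : 0 < Nat.clog 2 n := Nat.clog_pos (by norm_num) h1
      obtain ⟨k, hk⟩ : ∃ k, Nat.clog 2 n = k + 1 := ⟨Nat.clog 2 n - 1, by omega⟩
      rw [hk] at h2 ⊢
      simp only [Nat.pred_eq_sub_one, Nat.add_sub_cancel] at h2
      rw [pow_succ]; omega
    · have : n = 1 := by omega
      subst this; simp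
  obtain ⟨e⟩ : Nonempty (Fin n ↪ (Fin m → Bool)) :=
    Function.Embedding.nonempty_of_card_le (by simpa using hm1)
  refine ⟨fun x y => ch (e x) (e y), ⟨fun x y => ch_symm _ _, fun x y => ch_val _ _⟩, ?_⟩
  intro g h hg hh
  have hsq : ∀ z : ℤ, |z| ≤ 1 → z ^ 2 ≤ 1 := fun z hz => by
    rw [← sq_abs]; have := abs_nonneg z; nlinarith
  have hG : ∑ x, g x ^ 2 ≤ n := by
    calc ∑ x, g x ^ 2 ≤ ∑ _x : Fin n, (1 : ℤ) := Finset.sum_le_sum fun x _ => hsq _ (hg x)
      _ = n := by simp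
  have hH : ∑ x, h x ^ 2 ≤ n := by
    calc ∑ x, h x ^ 2 ≤ ∑ _x : Fin n, (1 : ℤ) := Finset.sum_le_sum fun x _ => hsq _ (hh x)
      _ = n := by simp
  let F : (Fin m → Bool) → ℤ := fun b => ∑ y, ch b (e y) * h y
  have hF : ∑ b, F b ^ 2 = 2 ^ m * ∑ y, h y ^ 2 := by
    have h1 : ∀ b, F b ^ 2 = ∑ y, ∑ y', (ch b (e y) * ch b (e y')) * (h y * h y') := by
      intro b
      simp only [F]
      rw [sq, Finset.sum_mul_sum]
      exact Finset.sum_congr rfl fun y _ => Finset.sum_congr rfl fun y' _ => by ring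
    rw [Finset.sum_congr rfl fun b _ => h1 b, Finset.sum_comm]
    rw [Finset.mul_sum]
    apply Finset.sum_congr rfl
    intro y _
    rw [Finset.sum_comm]
    have h2 : ∀ y', ∑ b, ch b (e y) * ch b (e y') * (h y * h y') =
        if y = y' then 2 ^ m * (h y * h y') else 0 := by
      intro y'
      rw [← Finset.sum_mul, ch_orth]
      by_cases hy : y = y'
      · simp [hy]
      · have : e y ≠ e y' := fun h => hy (e.injective h)
        simp [hy, this]
    rw [Finset.sum_congr rfl fun y' _ => h2 y']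
    simp [sq]
  have hE : ∑ x, F (e x) ^ 2 ≤ ∑ b, F b ^ 2 := by
    have h1 : ∑ x, F (e x) ^ 2 = ∑ b ∈ univ.map e, F b ^ 2 := by rw [Finset.sum_map]
    rw [h1]
    exact Finset.sum_le_sum_of_subset_of_nonneg (Finset.subset_univ _)
      fun b _ _ => sq_nonneg _
  have hrew : ∑ x, ∑ y, ch (e x) (e y) * g x * h y = ∑ x, g x * F (e x) := by
    apply Finset.sum_congr rfl
    intro x _
    simp only [F]
    rw [Finset.mul_sum]
    exact Finset.sum_congr rfl fun y _ => by ring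
  rw [hrew]
  have hCS := Finset.sum_mul_sq_le_sq_mul_sq univ g (fun x => F (e x))
  have hn0 : (0:ℤ) ≤ n := by positivity
  have h2m : ((2:ℤ) ^ m) ≤ 2 * n := by exact_mod_cast hm2
  have hFx : 0 ≤ ∑ x, F (e x) ^ 2 := Finset.sum_nonneg fun x _ => sq_nonneg _
  calc (∑ x, g x * F (e x)) ^ 2 ≤ (∑ x, g x ^ 2) * ∑ x, F (e x) ^ 2 := hCS
    _ ≤ n * ∑ x, F (e x) ^ 2 := mul_le_mul_of_nonneg_right hG hFx
    _ ≤ n * ∑ b, F b ^ 2 := mul_le_mul_of_nonneg_left hE hn0
    _ = n * (2 ^ m * ∑ y, h y ^ 2) := by rw [hF]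
    _ ≤ n * ((2 * n) * n) := by
        apply mul_le_mul_of_nonneg_left _ hn0
        exact mul_le_mul h2m hH (Finset.sum_nonneg fun x _ => sq_nonneg _) (by positivity)
    _ = 2 * (n : ℤ) ^ 3 := by ring

end MP_90430c
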