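import Mathlib
import Pool.Agent.Lib.MP_90430c_co.Defs

/-! Rotation, reflection, rooting at an edge, level inclusion-exclusion. -/

open Finset

set_option linter.unusedSectionVars false

namespace MP_90430c

section

variable {V : Type*} [Fintype V] [DecidableEq V] {l : ℕ} [NeZero l]

lemma mem_inj {f : Fin l → V} : f ∈ inj l V ↔ Function.Injective f := by simp [inj]

lemma sum_comp_equiv (e : Fin l ≃ Fin l) (F : (Fin l → V) → ℤ) :
    ∑ f ∈ inj l V, F (fun i => f (e i)) = ∑ f ∈ inj l V, F f := by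
  refine Finset.sum_nbij' (fun f i => f (e i)) (fun f i => f (e.symm i)) ?_ ?_ ?_ ?_ ?_
  · intro f hf
    rw [mem_inj] at hf ⊢
    exact hf.comp e.injective
  · intro f hf
    rw [mem_inj] at hf ⊢
    exact hf.comp e.symm.injective
  · intro f _; funext i; simp
  · intro f _; funext i; simp
  · intro f _; rfl

lemma sum_comp_perm (π : Equiv.Perm V) (F : (Fin l → V) → ℤ) :
    ∑ f ∈ inj l V, F (fun i => π (f i)) = ∑ f ∈ inj l V, F f := by
  refine Finset.sum_nbij' (fun f i => π (f i)) (fun f i => π.symm (f i)) ?_ ?_ ?_ ?_ ?_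
  · intro f hf
    rw [mem_inj] at hf ⊢
    exact π.injective.comp hf
  · intro f hf
    rw [mem_inj] at hf ⊢
    exact π.symm.injective.comp hf
  · intro f _; funext i; simp
  · intro f _; funext i; simp
  · intro f _; rfl

/-- A function of closed sequences which does not depend on the starting point and on the
direction. -/
structure Dih (F : (Fin l → V) → ℤ) : Prop where
  rot : ∀ (c : Fin l) (f : Fin l → V), F (fun i => f (i + c)) = F f
  refl : ∀ f : Fin l → V, F (fun i => f (1 - i)) = F f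

lemma Dih.mul {F G : (Fin l → V) → ℤ} (hF : Dih F) (hG : Dih G) : Dih (fun f => F f * G f) :=
  ⟨fun c f => by simp only [hF.rot, hG.rot], fun f => by simp only [hF.refl, hG.refl]⟩

lemma cp_rot (σ : V → V → ℤ) (c : Fin l) (f : Fin l → V) :
    cp l σ (fun i => f (i + c)) = cp l σ f := by
  unfold cp
  rw [← Equiv.prod_comp (Equiv.addRight c) (fun i => σ (f i) (f (i + 1)))]
  refine Finset.prod_congr rfl fun i _ => ?_
  simp only [Equiv.coe_addRight]
  rw [add_right_comm]

lemma cp_refl {σ : V → V → ℤ} (hσ : ∀ x y, σ x y = σ y x) (c : Fin l) (f : Fin l → V) :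
    cp l σ (fun i => f (c - i)) = cp l σ f := by
  unfold cp
  rw [← Equiv.prod_comp (Equiv.subLeft (c - 1)) (fun i => σ (f i) (f (i + 1)))]
  refine Finset.prod_congr rfl fun i _ => ?_
  simp only [Equiv.subLeft_apply]
  rw [hσ]
  congr 2
  · abel
  · abel

lemma cp_dih {σ : V → V → ℤ} (hσ : ∀ x y, σ x y = σ y x) : Dih (cp l σ) :=
  ⟨fun c f => cp_rot σ c f, fun f => cp_refl hσ 1 f⟩

/-- The closed sequence `f` uses the edge `x y`. -/
def Uses (f : Fin l → V) (x y : V) : Prop :=
  ∃ i, (f i = x ∧ f (i + 1) = y) ∨ (f i = y ∧ f (i + 1) = x)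

instance (f : Fin l → V) (x y : V) : Decidable (Uses f x y) := by
  unfold Uses; infer_instance

lemma two_ne_zero' (hl : 3 ≤ l) (i : Fin l) : i + 1 + 1 ≠ i := by
  intro h
  have h2 : (1 : Fin l) + 1 = 0 := by
    have : i + (1 + 1) = i + 0 := by rw [← add_assoc, h, add_zero]
    exact add_left_cancel this
  have h3 := congrArg Fin.val h2
  rw [Fin.val_add] at h3
  have h1 : ((1 : Fin l) : ℕ) = 1 := by
    have : (1 : Fin l) = Fin.ofNat l 1 := rfl
    rw [this]
    simp [Fin.ofNat, Nat.mod_eq_of_lt (by omega : 1 < l)]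
  rw [h1] at h3
  simp [Nat.mod_eq_of_lt (by omega : 1 + 1 < l)] at h3

lemma uses_count (hl : 3 ≤ l) {f : Fin l → V} (hf : Function.Injective f) {x y : V} :
    ∑ i, ((if f i = x ∧ f (i + 1) = y then (1 : ℤ) else 0)
      + (if f i = y ∧ f (i + 1) = x then (1 : ℤ) else 0)) = if Uses f x y then 1 else 0 := by
  by_cases h : Uses f x y
  · rw [if_pos h]
    obtain ⟨i, hi⟩ := h
    rw [Finset.sum_eq_single i]
    · rcases hi with hi | hi
      · rw [if_pos hi, if_neg]
        · rfl
        · rintro ⟨h1, h2⟩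
          have : f i = f (i + 1) := by rw [h1, hi.2]
          have h3 := hf this
          have h4 : i + 1 + 1 = i := by rw [← h3, ← h3]
          exact two_ne_zero' hl i h4
      · rw [if_pos hi, if_neg]
        · rfl
        · rintro ⟨h1, h2⟩
          have : f i = f (i + 1) := by rw [h1, hi.2]
          have h3 := hf this
          have h4 : i + 1 + 1 = i := by rw [← h3, ← h3]
          exact two_ne_zero' hl i h4
    · intro j _ hj
      rw [if_neg, if_neg]
      · rfl
      · rintro ⟨h1, h2⟩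
        rcases hi with hi | hi
        · have e1 : j = i + 1 := hf (by rw [h1, hi.2])
          have e2 : j + 1 = i := hf (by rw [h2, hi.1])
          rw [e1] at e2
          exact two_ne_zero' hl i e2
        · exact hj (hf (by rw [h1, hi.1]))
      · rintro ⟨h1, h2⟩
        rcases hi with hi | hi
        · exact hj (hf (by rw [h1, hi.1]))
        · have e1 : j = i + 1 := hf (by rw [h1, hi.2])
          have e2 : j + 1 = i := hf (by rw [h2, hi.1])
          rw [e1] at e2
          exact two_ne_zero' hl i e2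
    · simp
  · rw [if_neg h]
    refine Finset.sum_eq_zero fun i _ => ?_
    rw [if_neg, if_neg]
    · rfl
    · intro h1; exact h ⟨i, Or.inr h1⟩
    · intro h1; exact h ⟨i, Or.inl h1⟩

/-- Rooting at an edge: every closed sequence using the edge `x y` can be rotated and reflected
in exactly one way so that it starts with `x, y`. -/
theorem root (hl : 3 ≤ l) {F : (Fin l → V) → ℤ} (hF : Dih F) {x y : V} :
    ∑ f ∈ inj l V, (if Uses f x y then F f else 0)
      = 2 * l * ∑ f ∈ inj l V, (if f 0 = x ∧ f 1 = y then F f else 0) := by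
  have h1 : ∑ f ∈ inj l V, (if Uses f x y then F f else 0)
      = ∑ f ∈ inj l V, ∑ i, ((if f i = x ∧ f (i + 1) = y then F f else 0)
        + (if f i = y ∧ f (i + 1) = x then F f else 0)) := by
    refine Finset.sum_congr rfl fun f hf => ?_
    have h2 := uses_count hl (mem_inj.1 hf) (x := x) (y := y)
    have h3 := congrArg (fun z : ℤ => F f * z) h2
    simp only [Finset.mul_sum, mul_add, mul_ite, mul_one, mul_zero] at h3
    rw [← h3]
  rw [h1, Finset.sum_comm]
  have h4 : ∀ i : Fin l, ∑ f ∈ inj l V, ((if f i = x ∧ f (i + 1) = y then F f else 0)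
        + (if f i = y ∧ f (i + 1) = x then F f else 0))
      = 2 * ∑ f ∈ inj l V, (if f 0 = x ∧ f 1 = y then F f else 0) := by
    intro i
    rw [Finset.sum_add_distrib, two_mul]
    congr 1
    · rw [← sum_comp_equiv (Equiv.addRight i)
        (fun f => if f 0 = x ∧ f 1 = y then F f else 0)]
      refine Finset.sum_congr rfl fun f _ => ?_
      simp only [Equiv.coe_addRight, hF.rot, zero_add]
      rw [add_comm 1 i]
    · rw [← sum_comp_equiv ((Equiv.subLeft 1).trans (Equiv.addRight i))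
        (fun f => if f 0 = x ∧ f 1 = y then F f else 0)]
      refine Finset.sum_congr rfl fun f _ => ?_
      simp only [Equiv.trans_apply, Equiv.coe_addRight, Equiv.subLeft_apply, sub_zero, sub_self,
        zero_add]
      have : F (fun j => f (1 - j + i)) = F f := by
        rw [← hF.rot i f, ← hF.refl (fun j => f (j + i))]
      rw [this, add_comm 1 i]
      exact if_congr and_comm rfl rfl
  rw [Finset.sum_congr rfl fun i _ => h4 i]
  simp
  ring

end

section levels

variable {V : Type*} [Fintype V] [DecidableEq V] {l : ℕ} [NeZero l]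

lemma cp_mul (σ τ : V → V → ℤ) (f : Fin l → V) :
    cp l (fun x y => σ x y * τ x y) f = cp l σ f * cp l τ f := by
  simp [cp, Finset.prod_mul_distrib]

lemma cp_prod (Λ : Finset ℕ) (s : ℕ → V → V → ℤ) (f : Fin l → V) :
    cp l (fun x y => ∏ j ∈ Λ, s j x y) f = ∏ j ∈ Λ, cp l (s j) f := by
  simp only [cp]
  exact Finset.prod_comm

/-- Level inclusion-exclusion. -/
theorem levels_identity (Λ : Finset ℕ) (σ₀ : V → V → ℤ) (sY sX : ℕ → V → V → ℤ)
    (h : ∀ j ∈ Λ, ∃ π : Equiv.Perm V, (∀ x y, σ₀ (π x) (π y) = σ₀ x y) ∧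
      ∀ j' ∈ Λ, j' ≠ j → ∀ x y, sX j' (π x) (π y) = sY j' x y) :
    Z l (fun x y => σ₀ x y * ∏ j ∈ Λ, sY j x y) - Z l (fun x y => σ₀ x y * ∏ j ∈ Λ, sX j x y)
      = ∑ f ∈ inj l V, cp l σ₀ f *
        (∏ j ∈ Λ, (cp l (sY j) f - 1) - ∏ j ∈ Λ, (cp l (sX j) f - 1)) := by
  have key : ∀ L ∈ Λ.powerset.erase Λ,
      ∑ f ∈ inj l V, cp l σ₀ f * ∏ j ∈ L, cp l (sX j) f
        = ∑ f ∈ inj l V, cp l σ₀ f * ∏ j ∈ L, cp l (sY j) f := by
    intro L hL
    rw [Finset.mem_erase, Finset.mem_powerset] at hL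
    obtain ⟨j, hj, hjL⟩ : ∃ j ∈ Λ, j ∉ L := by
      by_contra hcon
      push Not at hcon
      exact hL.1 (Finset.Subset.antisymm hL.2 hcon)
    obtain ⟨π, h0, hπ⟩ := h j hj
    rw [← sum_comp_perm π]
    refine Finset.sum_congr rfl fun f _ => ?_
    congr 1
    · unfold cp
      exact Finset.prod_congr rfl fun i _ => h0 _ _
    · refine Finset.prod_congr rfl fun j' hj' => ?_
      unfold cp
      refine Finset.prod_congr rfl fun i _ => ?_
      exact hπ j' (hL.2 hj') (fun e => hjL (e ▸ hj')) _ _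
  have hexp : ∀ a : ℕ → (Fin l → V) → ℤ,
      ∑ f ∈ inj l V, cp l σ₀ f * ∏ j ∈ Λ, (a j f - 1)
        = ∑ L ∈ Λ.powerset, (∏ j ∈ Λ \ L, (-1 : ℤ)) *
          ∑ f ∈ inj l V, cp l σ₀ f * ∏ j ∈ L, a j f := by
    intro a
    have : ∀ f ∈ inj l V, cp l σ₀ f * ∏ j ∈ Λ, (a j f - 1)
        = ∑ L ∈ Λ.powerset, (∏ j ∈ Λ \ L, (-1 : ℤ)) * (cp l σ₀ f * ∏ j ∈ L, a j f) := by
      intro f _
      simp only [sub_eq_add_neg]
      rw [Finset.prod_add, Finset.mul_sum]
      refine Finset.sum_congr rfl fun L _ => ?_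
      ring
    rw [Finset.sum_congr rfl this, Finset.sum_comm]
    refine Finset.sum_congr rfl fun L _ => ?_
    rw [Finset.mul_sum]
  have hZ : ∀ s : ℕ → V → V → ℤ, Z l (fun x y => σ₀ x y * ∏ j ∈ Λ, s j x y)
      = ∑ f ∈ inj l V, cp l σ₀ f * ∏ j ∈ Λ, cp l (s j) f := by
    intro s
    unfold Z
    refine Finset.sum_congr rfl fun f _ => ?_
    rw [cp_mul, cp_prod]
  have hΛ : Λ ∈ Λ.powerset := Finset.mem_powerset_self Λ
  simp only [mul_sub]
  rw [Finset.sum_sub_distrib, hexp (fun j f => cp l (sY j) f), hexp (fun j f => cp l (sX j) f),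
    ← Finset.add_sum_erase _ _ hΛ, ← Finset.add_sum_erase _ _ hΛ, hZ, hZ]
  have : ∑ L ∈ Λ.powerset.erase Λ, (∏ j ∈ Λ \ L, (-1 : ℤ)) *
          ∑ f ∈ inj l V, cp l σ₀ f * ∏ j ∈ L, cp l (sX j) f
      = ∑ L ∈ Λ.powerset.erase Λ, (∏ j ∈ Λ \ L, (-1 : ℤ)) *
          ∑ f ∈ inj l V, cp l σ₀ f * ∏ j ∈ L, cp l (sY j) f :=
    Finset.sum_congr rfl fun L hL => by rw [key L hL]
  rw [this, Finset.sdiff_self, Finset.prod_empty]
  ring

end levels

end MP_90430c
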