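import Mathlib
import Pool.Agent.Lib.MP_90430c_co.Defs

/-! The expansion of signed path sums into marked sequences, and the ideal in which they lie. -/

open Finset

set_option linter.unusedSectionVars false

namespace MP_90430c

/-- The generators `2^j (N-j)(N-j-1)...(N-m+1)`. -/
def gen (N m j : ℕ) : ℤ := 2 ^ j * (((N - j).descFactorial (m - j) : ℕ) : ℤ)

/-- The ideal generated by the generators with index at least `t`. -/
def II (t N m : ℕ) : Submodule ℤ ℤ := Submodule.span ℤ {z | ∃ j, t ≤ j ∧ j ≤ m ∧ z = gen N m j}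

lemma gen_mem {t N m j : ℕ} (h1 : t ≤ j) (h2 : j ≤ m) : gen N m j ∈ II t N m :=
  Submodule.subset_span ⟨j, h1, h2, rfl⟩

lemma II_mono {t t' N m : ℕ} (h : t ≤ t') : II t' N m ≤ II t N m := by
  apply Submodule.span_mono
  rintro z ⟨j, h1, h2, rfl⟩
  exact ⟨j, h.trans h1, h2, rfl⟩

lemma II_last {t N m : ℕ} (hm : m ≤ N) {z : ℤ} (hz : z ∈ II t N m) :
    ((N : ℤ) - m) * z ∈ II t N (m + 1) := by
  refine Submodule.span_induction (p := fun z _ => ((N : ℤ) - m) * z ∈ II t N (m + 1))
    ?_ ?_ ?_ ?_ hz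
  · rintro z ⟨j, h1, h2, rfl⟩
    have : ((N : ℤ) - m) * gen N m j = gen N (m + 1) j := by
      unfold gen
      have e1 : m + 1 - j = (m - j) + 1 := by omega
      rw [e1, Nat.descFactorial_succ]
      have e2 : N - j - (m - j) = N - m := by omega
      rw [e2]
      push_cast [hm]
      ring
    rw [this]
    exact gen_mem h1 (by omega)
  · simp
  · intro x y _ _ hx hy
    rw [mul_add]
    exact add_mem hx hy
  · intro a x _ hx
    have : ((N : ℤ) - m) * (a • x) = a • (((N : ℤ) - m) * x) := by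
      simp only [smul_eq_mul]; ring
    rw [this]
    exact Submodule.smul_mem _ _ hx

lemma II_two {t N m : ℕ} {z : ℤ} (hz : z ∈ II t N m) : 2 * z ∈ II (t + 1) (N + 1) (m + 1) := by
  refine Submodule.span_induction (p := fun z _ => 2 * z ∈ II (t + 1) (N + 1) (m + 1))
    ?_ ?_ ?_ ?_ hz
  · rintro z ⟨j, h1, h2, rfl⟩
    have : 2 * gen N m j = gen (N + 1) (m + 1) (j + 1) := by
      unfold gen
      rw [Nat.add_sub_add_right, Nat.add_sub_add_right]
      ring
    rw [this]
    exact gen_mem (by omega) (by omega)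
  · simp
  · intro x y _ _ hx hy
    rw [mul_add]
    exact add_mem hx hy
  · intro a x _ hx
    have : 2 * (a • x) = a • (2 * x) := by
      simp only [smul_eq_mul]; ring
    rw [this]
    exact Submodule.smul_mem _ _ hx

lemma II_pow {t N m : ℕ} {z : ℤ} (a : ℕ) (hz : z ∈ II t N m) :
    2 ^ a * z ∈ II (t + a) (N + a) (m + a) := by
  induction a with
  | zero => simpa using hz
  | succ a ih =>
    have := II_two ih
    have e : (2 : ℤ) ^ (a + 1) * z = 2 * (2 ^ a * z) := by ring
    rw [e]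
    exact this

section

variable {V : Type*} [Fintype V] [DecidableEq V]

/-- Signed number of marked sequences starting after `y`: an edge may be marked with weight
`-2 h`, and the marked edges must meet all levels in `L`. -/
def SJ (h : V → V → ℤ) (lev : V → V → Finset ℕ) : ℕ → Finset ℕ → V → Finset V → ℤ
  | 0, L, _, _ => if L = ∅ then 1 else 0
  | m + 1, L, y, X => ∑ v ∈ Xᶜ, (SJ h lev m L v (insert v X)
      - 2 * h y v * SJ h lev m (L \ lev y v) v (insert v X))

/-- The same with a free first vertex. -/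
def WJ (h : V → V → ℤ) (lev : V → V → Finset ℕ) : ℕ → Finset ℕ → Finset V → ℤ
  | 0, L, _ => if L = ∅ then 1 else 0
  | m + 1, L, X => ∑ v ∈ Xᶜ, SJ h lev m L v (insert v X)

variable {h : V → V → ℤ} {lev : V → V → Finset ℕ}

lemma SJ_succ (m : ℕ) (L : Finset ℕ) (y : V) (X : Finset V) :
    SJ h lev (m + 1) L y X = WJ h lev (m + 1) L X
      - 2 * ∑ v ∈ Xᶜ, h y v * SJ h lev m (L \ lev y v) v (insert v X) := by
  rw [SJ, WJ, Finset.sum_sub_distrib, Finset.mul_sum]
  congr 1
  exact Finset.sum_congr rfl fun v _ => by ring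

lemma swap_sum (X : Finset V) (G : V → V → ℤ) :
    ∑ y ∈ Xᶜ, ∑ w ∈ (insert y X)ᶜ, G y w = ∑ w ∈ Xᶜ, ∑ y ∈ (insert w X)ᶜ, G y w := by
  refine Finset.sum_comm' ?_
  intro y w
  simp only [Finset.mem_compl, Finset.mem_insert, not_or]
  constructor
  · rintro ⟨h1, h2, h3⟩; exact ⟨⟨fun e => h2 e.symm, h1⟩, h3⟩
  · rintro ⟨⟨h1, h2⟩, h3⟩; exact ⟨h2, fun e => h1 e.symm, h3⟩

lemma card_compl_insert {X : Finset V} {w : V} (hw : w ∈ Xᶜ) :
    (((insert w X)ᶜ.card : ℕ) : ℤ) = (Xᶜ.card : ℤ) - 1 := by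
  have : (insert w X)ᶜ = Xᶜ.erase w := by
    ext z; simp only [Finset.mem_compl, Finset.mem_insert, Finset.mem_erase, not_or]
  rw [this, Finset.card_erase_of_mem hw]
  have : 1 ≤ Xᶜ.card := Finset.card_pos.2 ⟨w, hw⟩
  push_cast [this]
  ring

lemma SJ_kelly (m : ℕ) : ∀ (L : Finset ℕ) (v : V) (X : Finset V),
    ∑ y ∈ Xᶜ, SJ h lev m L v (insert y X) = ((Xᶜ.card : ℤ) - m) * SJ h lev m L v X := by
  induction m with
  | zero => intro L v X; simp [SJ]
  | succ m ih =>
    intro L v X
    simp only [SJ]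
    rw [swap_sum X (fun y w => SJ h lev m L w (insert w (insert y X))
      - 2 * h v w * SJ h lev m (L \ lev v w) w (insert w (insert y X))), Finset.mul_sum]
    refine Finset.sum_congr rfl fun w hw => ?_
    have e : ∀ y, insert w (insert y X) = insert y (insert w X) := fun y => Finset.insert_comm _ _ _
    simp only [e]
    rw [Finset.sum_sub_distrib, ih, ← Finset.mul_sum, ih, card_compl_insert hw]
    push_cast
    ring

lemma WJ_kelly (m : ℕ) (L : Finset ℕ) (X : Finset V) :
    ∑ y ∈ Xᶜ, WJ h lev m L (insert y X) = ((Xᶜ.card : ℤ) - m) * WJ h lev m L X := by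
  cases m with
  | zero => simp [WJ]
  | succ m =>
    simp only [WJ]
    rw [swap_sum X (fun y w => SJ h lev m L w (insert w (insert y X))), Finset.mul_sum]
    refine Finset.sum_congr rfl fun w hw => ?_
    have e : ∀ y, insert w (insert y X) = insert y (insert w X) := fun y => Finset.insert_comm _ _ _
    simp only [e]
    rw [SJ_kelly, card_compl_insert hw]
    push_cast
    ring

/-- Injective sequences avoiding `X`. -/
def av (a : ℕ) (X : Finset V) : Finset (Fin a → V) :=
  univ.filter fun p => Function.Injective p ∧ ∀ i, p i ∉ X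

lemma mem_av {a : ℕ} {X : Finset V} {p : Fin a → V} :
    p ∈ av a X ↔ Function.Injective p ∧ ∀ i, p i ∉ X := by simp [av]

lemma sum_cons (a : ℕ) (X : Finset V) (G : (Fin (a + 1) → V) → ℤ) :
    ∑ q ∈ av (a + 1) X, G q
      = ∑ p ∈ av a X, ∑ v ∈ (X ∪ univ.image p)ᶜ, G (Fin.cons v p : Fin (a + 1) → V) := by
  rw [Finset.sum_sigma']
  refine Finset.sum_nbij' (fun q => ⟨Fin.tail q, q 0⟩) (fun x => Fin.cons x.2 x.1) ?_ ?_ ?_ ?_ ?_
  · intro q hq
    rw [mem_av] at hq
    obtain ⟨h1, h2⟩ := hq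
    rw [← Fin.cons_self_tail q, Fin.cons_injective_iff] at h1
    simp only [Finset.mem_sigma, mem_av, Finset.mem_compl, Finset.mem_union, Finset.mem_image,
      Finset.mem_univ, true_and, not_or, not_exists]
    refine ⟨⟨h1.2, fun i => h2 _⟩, h2 0, fun i hi => h1.1 ⟨i, hi⟩⟩
  · rintro ⟨p, v⟩ hx
    simp only [Finset.mem_sigma, mem_av, Finset.mem_compl, Finset.mem_union, Finset.mem_image,
      Finset.mem_univ, true_and, not_or, not_exists] at hx
    rw [mem_av, Fin.cons_injective_iff]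
    refine ⟨⟨fun ⟨i, hi⟩ => hx.2.2 i hi, hx.1.1⟩, fun i => ?_⟩
    refine Fin.cases ?_ (fun i => ?_) i
    · simpa using hx.2.1
    · simpa using hx.1.2 i
  · intro q _; simp
  · rintro ⟨p, v⟩ _; simp
  · intro q _; simp

lemma card_av_image {a : ℕ} {X : Finset V} {p : Fin a → V} (hp : p ∈ av a X) :
    (X ∪ univ.image p)ᶜ.card + a = Xᶜ.card := by
  rw [mem_av] at hp
  have h1 : (X ∪ univ.image p)ᶜ = Xᶜ \ univ.image p := by
    ext z; simp only [Finset.mem_compl, Finset.mem_union, Finset.mem_sdiff, not_or]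
  have h2 : (univ.image p) ⊆ Xᶜ := by
    intro z hz
    rw [Finset.mem_image] at hz
    obtain ⟨i, _, rfl⟩ := hz
    rw [Finset.mem_compl]; exact hp.2 i
  rw [h1, Finset.card_sdiff_of_subset h2, Finset.card_image_of_injective _ hp.1,
    Finset.card_univ, Fintype.card_fin]
  have := Finset.card_le_card h2
  rw [Finset.card_image_of_injective _ hp.1, Finset.card_univ, Fintype.card_fin] at this
  omega

/-- The product of the weights along an arc. -/
def hp (h : V → V → ℤ) {a : ℕ} (p : Fin (a + 1) → V) : ℤ := ∏ i : Fin a, h (p i.castSucc) (p i.succ)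

/-- The levels met by an arc. -/
def levp (lev : V → V → Finset ℕ) {a : ℕ} (p : Fin (a + 1) → V) : Finset ℕ :=
  univ.biUnion fun i : Fin a => lev (p i.castSucc) (p i.succ)

lemma hp_cons {a : ℕ} (v : V) (p : Fin (a + 1) → V) :
    hp h (Fin.cons v p : Fin (a + 2) → V) = h v (p 0) * hp h p := by
  unfold hp
  rw [Fin.prod_univ_succ]
  rfl

lemma levp_cons {a : ℕ} (v : V) (p : Fin (a + 1) → V) :
    levp lev (Fin.cons v p : Fin (a + 2) → V) = lev v (p 0) ∪ levp lev p := by
  unfold levp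
  ext z
  simp only [Finset.mem_biUnion, Finset.mem_univ, true_and, Finset.mem_union]
  constructor
  · rintro ⟨i, hi⟩
    refine Fin.cases (fun hi => Or.inl hi) (fun i hi => Or.inr ⟨i, hi⟩) i hi
  · rintro (hz | ⟨i, hi⟩)
    · exact ⟨0, hz⟩
    · exact ⟨i.succ, hi⟩

lemma card_levp (hlev : ∀ x y, (lev x y).card ≤ 1) {a : ℕ} (p : Fin (a + 1) → V) :
    (levp lev p).card ≤ a := by
  unfold levp
  refine (Finset.card_biUnion_le).trans ?_
  refine (Finset.sum_le_sum fun i _ => hlev _ _).trans ?_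
  simp

lemma hp_rev (hs : ∀ x y, h x y = h y x) {a : ℕ} (p : Fin (a + 1) → V) :
    hp h (fun i => p (Fin.rev i)) = hp h p := by
  unfold hp
  rw [← Equiv.prod_comp Fin.revPerm (fun i : Fin a => h (p i.castSucc) (p i.succ))]
  refine Finset.prod_congr rfl fun i _ => ?_
  simp only [Fin.revPerm_apply]
  rw [hs, Fin.rev_succ, Fin.rev_castSucc]

lemma levp_rev (hs : ∀ x y, lev x y = lev y x) {a : ℕ} (p : Fin (a + 1) → V) :
    levp lev (fun i => p (Fin.rev i)) = levp lev p := by
  unfold levp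
  ext z
  simp only [Finset.mem_biUnion, Finset.mem_univ, true_and]
  constructor
  · rintro ⟨i, hi⟩
    refine ⟨Fin.rev i, ?_⟩
    rw [hs, Fin.rev_succ, Fin.rev_castSucc] at hi
    exact hi
  · rintro ⟨i, hi⟩
    refine ⟨Fin.rev i, ?_⟩
    rw [hs, Fin.rev_succ, Fin.rev_castSucc, Fin.rev_rev]
    exact hi

/-- Sum over arcs, continued by a path. -/
def AE (h : V → V → ℤ) (lev : V → V → Finset ℕ) (m a : ℕ) (L : Finset ℕ) (X : Finset V) : ℤ :=
  ∑ p ∈ av (a + 1) X, hp h p * SJ h lev (m - a) (L \ levp lev p) (p 0) (X ∪ univ.image p)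

/-- Sum over arcs, the rest being free. -/
def AF (h : V → V → ℤ) (lev : V → V → Finset ℕ) (m a : ℕ) (L : Finset ℕ) (X : Finset V) : ℤ :=
  ∑ p ∈ av (a + 1) X, hp h p * WJ h lev (m - a) (L \ levp lev p) (X ∪ univ.image p)

lemma image_cons {a : ℕ} (v : V) (p : Fin a → V) :
    univ.image (Fin.cons v p : Fin (a + 1) → V) = insert v (univ.image p) := by
  ext z
  simp only [Finset.mem_image, Finset.mem_univ, true_and, Finset.mem_insert]
  constructor
  · rintro ⟨i, hi⟩
    refine Fin.cases (fun hi => Or.inl ?_) (fun i hi => Or.inr ⟨i, ?_⟩) i hi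
    · simpa using hi.symm
    · simpa using hi
  · rintro (hz | ⟨i, hi⟩)
    · exact ⟨0, by simp [hz]⟩
    · exact ⟨i.succ, by simpa using hi⟩

lemma AE_step (hs : ∀ x y, h x y = h y x) (hl : ∀ x y, lev x y = lev y x) {m a : ℕ} (ha : a < m)
    (L : Finset ℕ) (X : Finset V) : AE h lev m a L X = AF h lev m a L X - 2 * AE h lev m (a + 1) L X := by
  obtain ⟨k, hk⟩ : ∃ k, m - a = k + 1 := ⟨m - a - 1, by omega⟩
  have hk' : m - (a + 1) = k := by omega
  unfold AE AF
  rw [sum_cons (a + 1) X, hk, hk']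
  rw [Finset.mul_sum, ← Finset.sum_sub_distrib]
  refine Finset.sum_congr rfl fun p _ => ?_
  rw [SJ_succ, mul_sub]
  congr 1
  rw [Finset.mul_sum, Finset.mul_sum, Finset.mul_sum]
  refine Finset.sum_congr rfl fun v _ => ?_
  rw [hp_cons, levp_cons, image_cons, hs v (p 0), hl v (p 0), Finset.union_insert]
  have e : (L \ levp lev p) \ lev (p 0) v = L \ (lev (p 0) v ∪ levp lev p) := by
    ext z; simp only [Finset.mem_sdiff, Finset.mem_union, not_or]; tauto
  rw [e]
  simp only [Fin.cons_zero]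
  ring

lemma AE_last (m : ℕ) (L : Finset ℕ) (X : Finset V) : AE h lev m m L X = AF h lev m m L X := by
  unfold AE AF
  simp [SJ, WJ]

lemma AE_zero (m : ℕ) (L : Finset ℕ) (X : Finset V) : AE h lev m 0 L X = WJ h lev (m + 1) L X := by
  unfold AE
  rw [sum_cons 0 X]
  have h0 : av 0 X = {fun i => i.elim0} := by
    ext p
    simp only [mem_av, Finset.mem_singleton]
    constructor
    · intro _; funext i; exact i.elim0
    · rintro rfl; exact ⟨fun i => i.elim0, fun i => i.elim0⟩
  rw [h0, Finset.sum_singleton, WJ]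
  have h1 : univ.image (fun i : Fin 0 => (i.elim0 : V)) = ∅ := by simp
  rw [h1, Finset.union_empty]
  refine Finset.sum_congr rfl fun v _ => ?_
  have h2 : levp lev (Fin.cons v (fun i : Fin 0 => (i.elim0 : V)) : Fin 1 → V) = ∅ := by
    simp [levp]
  have h3 : hp h (Fin.cons v (fun i : Fin 0 => (i.elim0 : V)) : Fin 1 → V) = 1 := by
    simp [hp]
  rw [h2, h3, image_cons, h1]
  simp only [Finset.sdiff_empty, one_mul, Nat.sub_zero, Fin.cons_zero]
  congr 1
  ext z; simp

lemma AF_zero (m : ℕ) (L : Finset ℕ) (X : Finset V) :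
    AF h lev m 0 L X = ((Xᶜ.card : ℤ) - m) * WJ h lev m L X := by
  unfold AF
  rw [sum_cons 0 X]
  have h0 : av 0 X = {fun i => i.elim0} := by
    ext p
    simp only [mem_av, Finset.mem_singleton]
    constructor
    · intro _; funext i; exact i.elim0
    · rintro rfl; exact ⟨fun i => i.elim0, fun i => i.elim0⟩
  rw [h0, Finset.sum_singleton, ← WJ_kelly]
  have h1 : univ.image (fun i : Fin 0 => (i.elim0 : V)) = ∅ := by simp
  rw [h1, Finset.union_empty]
  refine Finset.sum_congr rfl fun v _ => ?_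
  have h2 : levp lev (Fin.cons v (fun i : Fin 0 => (i.elim0 : V)) : Fin 1 → V) = ∅ := by
    simp [levp]
  have h3 : hp h (Fin.cons v (fun i : Fin 0 => (i.elim0 : V)) : Fin 1 → V) = 1 := by
    simp [hp]
  rw [h2, h3, image_cons, h1]
  simp only [Finset.sdiff_empty, one_mul, Nat.sub_zero]
  congr 1
  ext z; simp

/-- A sum over a set with a fixed point free involution preserving the summand. -/
lemma pair_sum {ι : Type*} [DecidableEq ι] (s : Finset ι) (r : ι → ι) (hr : ∀ p ∈ s, r p ∈ s)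
    (hrr : ∀ p ∈ s, r (r p) = p) (P : ι → Prop) [DecidablePred P] (hP : ∀ p ∈ s, P (r p) ↔ ¬ P p)
    (G : ι → ℤ) (hG : ∀ p ∈ s, G (r p) = G p) :
    ∑ p ∈ s, G p = 2 * ∑ p ∈ s.filter P, G p := by
  rw [← Finset.sum_filter_add_sum_filter_not s P, two_mul]
  congr 1
  refine Finset.sum_nbij' r r ?_ ?_ ?_ ?_ ?_
  · intro p hp
    rw [Finset.mem_filter] at hp ⊢
    exact ⟨hr p hp.1, (hP p hp.1).2 hp.2⟩
  · intro p hp
    rw [Finset.mem_filter] at hp ⊢
    exact ⟨hr p hp.1, fun h => (hP p hp.1).1 h hp.2⟩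
  · intro p hp; exact hrr p (Finset.mem_filter.1 hp).1
  · intro p hp; exact hrr p (Finset.mem_filter.1 hp).1
  · intro p hp; exact (hG p (Finset.mem_filter.1 hp).1).symm

/-- The lower bound for the index. -/
def tL (L : Finset ℕ) : ℕ := if L = ∅ then 0 else L.card + 1

lemma le_tL (L : Finset ℕ) : L.card ≤ tL L := by
  unfold tL
  split_ifs with h
  · simp [h]
  · omega

lemma tL_le (L : Finset ℕ) : tL L ≤ L.card + 1 := by
  unfold tL
  split_ifs <;> omega

lemma tL_sdiff (L M : Finset ℕ) (a : ℕ) (hM : M.card ≤ a) :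
    max (tL L) (a + 1) ≤ tL (L \ M) + a + 1 := by
  have h1 : L.card ≤ (L \ M).card + M.card := by
    have := Finset.card_le_card_sdiff_add_card (s := L) (t := M)
    exact this
  have h2 := le_tL (L \ M)
  have h3 := tL_le L
  rw [max_le_iff]
  constructor <;> omega

lemma AF_mem (hs : ∀ x y, h x y = h y x) (hl : ∀ x y, lev x y = lev y x)
    (hc : ∀ x y, (lev x y).card ≤ 1) {m a : ℕ} (ha : 1 ≤ a) (ham : a ≤ m)
    (L : Finset ℕ) (X : Finset V) (hX : m + 1 ≤ Xᶜ.card)
    (IH : ∀ k ≤ m, ∀ (L : Finset ℕ) (X : Finset V), k ≤ Xᶜ.card →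
      WJ h lev k L X ∈ II (tL L) Xᶜ.card k) :
    2 ^ a * AF h lev m a L X ∈ II (max (tL L) 2) Xᶜ.card (m + 1) := by
  classical
  let e := Fintype.equivFin V
  have hpair : AF h lev m a L X = 2 * ∑ p ∈ (av (a + 1) X).filter
      (fun p : Fin (a + 1) → V => e (p 0) < e (p (Fin.last a))),
      hp h p * WJ h lev (m - a) (L \ levp lev p) (X ∪ univ.image p) := by
    unfold AF
    refine pair_sum _ (fun p i => p (Fin.rev i)) ?_ ?_ _ ?_ _ ?_
    · intro p hp
      rw [mem_av] at hp ⊢
      exact ⟨hp.1.comp Fin.rev_injective, fun i => hp.2 _⟩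
    · intro p _; funext i; simp
    · intro p hp
      rw [mem_av] at hp
      simp only [Fin.rev_zero, Fin.rev_last, not_lt]
      constructor
      · intro h; exact h.le
      · intro h
        refine lt_of_le_of_ne h ?_
        intro h'
        have h1 := hp.1 (e.injective h')
        have h2 := congrArg Fin.val h1
        simp at h2
        omega
    · intro p _
      rw [hp_rev hs, levp_rev hl]
      congr 3
      ext z
      simp only [Finset.mem_image, Finset.mem_univ, true_and]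
      constructor
      · rintro ⟨i, hi⟩; exact ⟨_, hi⟩
      · rintro ⟨i, hi⟩; exact ⟨Fin.rev i, by simpa using hi⟩
  rw [hpair]
  have e2 : ∀ z : ℤ, 2 ^ a * (2 * z) = 2 ^ (a + 1) * z := fun z => by ring
  rw [e2, Finset.mul_sum]
  refine Submodule.sum_mem _ fun p hp => ?_
  have hp' := (Finset.mem_filter.1 hp).1
  have hcard := card_av_image hp'
  have h1 := IH (m - a) (by omega) (L \ levp lev p) (X ∪ univ.image p) (by omega)
  have h2 := II_pow (a + 1) h1
  have e3 : (X ∪ univ.image p)ᶜ.card + (a + 1) = Xᶜ.card := hcard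
  have e4 : m - a + (a + 1) = m + 1 := by omega
  rw [e3, e4] at h2
  have h3 := tL_sdiff L (levp lev p) a (card_levp hc p)
  have h4 : max (tL L) 2 ≤ tL (L \ levp lev p) + (a + 1) := by
    refine (max_le_max le_rfl (by omega : 2 ≤ a + 1)).trans (h3.trans (by omega))
  have h5 := II_mono h4 h2
  have e5 : (2 : ℤ) ^ (a + 1) * (MP_90430c.hp h p * WJ h lev (m - a) (L \ levp lev p) (X ∪ univ.image p))
      = (MP_90430c.hp h p) • (2 ^ (a + 1) * WJ h lev (m - a) (L \ levp lev p) (X ∪ univ.image p)) := by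
    simp only [smul_eq_mul]; ring
  rw [e5]
  exact Submodule.smul_mem _ _ h5

lemma AE_mem (hs : ∀ x y, h x y = h y x) (hl : ∀ x y, lev x y = lev y x)
    (hc : ∀ x y, (lev x y).card ≤ 1) {m : ℕ}
    (L : Finset ℕ) (X : Finset V) (hX : m + 1 ≤ Xᶜ.card)
    (IH : ∀ k ≤ m, ∀ (L : Finset ℕ) (X : Finset V), k ≤ Xᶜ.card →
      WJ h lev k L X ∈ II (tL L) Xᶜ.card k) : ∀ d a : ℕ, 1 ≤ a → a + d = m →
    2 ^ a * AE h lev m a L X ∈ II (max (tL L) 2) Xᶜ.card (m + 1) := by
  intro d
  induction d with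
  | zero =>
    intro a ha had
    have : a = m := by omega
    subst this
    rw [AE_last]
    exact AF_mem hs hl hc ha le_rfl L X hX IH
  | succ d ih =>
    intro a ha had
    rw [AE_step hs hl (by omega : a < m)]
    have h1 := AF_mem hs hl hc ha (by omega : a ≤ m) L X hX IH
    have h2 := ih (a + 1) (by omega) (by omega)
    have e : (2 : ℤ) ^ a * (AF h lev m a L X - 2 * AE h lev m (a + 1) L X)
        = 2 ^ a * AF h lev m a L X - 2 ^ (a + 1) * AE h lev m (a + 1) L X := by ring
    rw [e]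
    exact sub_mem h1 h2

lemma WJ_step (hs : ∀ x y, h x y = h y x) (hl : ∀ x y, lev x y = lev y x)
    (hc : ∀ x y, (lev x y).card ≤ 1) {m : ℕ}
    (L : Finset ℕ) (X : Finset V) (hX : m + 1 ≤ Xᶜ.card)
    (IH : ∀ k ≤ m, ∀ (L : Finset ℕ) (X : Finset V), k ≤ Xᶜ.card →
      WJ h lev k L X ∈ II (tL L) Xᶜ.card k) :
    WJ h lev (m + 1) L X - ((Xᶜ.card : ℤ) - m) * WJ h lev m L X
      ∈ II (max (tL L) 2) Xᶜ.card (m + 1) := by
  rw [← AE_zero, ← AF_zero]
  rcases Nat.eq_zero_or_pos m with rfl | hm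
  · rw [AE_last, sub_self]
    exact Submodule.zero_mem _
  · rw [AE_step hs hl hm]
    have h2 := AE_mem hs hl hc L X hX IH (m - 1) 1 le_rfl (by omega)
    have e : AF h lev m 0 L X - 2 * AE h lev m (0 + 1) L X - AF h lev m 0 L X
        = -(2 ^ 1 * AE h lev m 1 L X) := by simp
    rw [e]
    exact neg_mem h2

theorem WJ_mem (hs : ∀ x y, h x y = h y x) (hl : ∀ x y, lev x y = lev y x)
    (hc : ∀ x y, (lev x y).card ≤ 1) (m : ℕ) : ∀ (L : Finset ℕ) (X : Finset V), m ≤ Xᶜ.card →
    WJ h lev m L X ∈ II (tL L) Xᶜ.card m := by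
  induction m using Nat.strong_induction_on with
  | _ m IH =>
    intro L X hX
    cases m with
    | zero =>
      rw [WJ]
      split_ifs with hL
      · have : (1 : ℤ) = gen Xᶜ.card 0 0 := by simp [gen]
        rw [this]
        exact gen_mem (by simp [tL, hL]) le_rfl
      · exact Submodule.zero_mem _
    | succ m =>
      have IH' : ∀ k ≤ m, ∀ (L : Finset ℕ) (X : Finset V), k ≤ Xᶜ.card →
          WJ h lev k L X ∈ II (tL L) Xᶜ.card k := fun k hk => IH k (by omega)
      have h1 := WJ_step hs hl hc L X hX IH'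
      have h2 := II_last (by omega : m ≤ Xᶜ.card) (IH' m le_rfl L X (by omega))
      have h3 := II_mono (le_max_left _ _) h1
      have := add_mem h3 h2
      simpa using this

theorem WJ_empty (hs : ∀ x y, h x y = h y x) (hl : ∀ x y, lev x y = lev y x)
    (hc : ∀ x y, (lev x y).card ≤ 1) (m : ℕ) : ∀ X : Finset V, m ≤ Xᶜ.card →
    WJ h lev m ∅ X - (Xᶜ.card.descFactorial m : ℤ) ∈ II 2 Xᶜ.card m := by
  induction m with
  | zero => intro X _; simp [WJ]
  | succ m ih =>
    intro X hX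
    have h1 := WJ_step hs hl hc ∅ X hX (fun k hk => WJ_mem hs hl hc k)
    have h1' := II_mono (le_max_right _ _) h1
    have h2 := II_last (by omega : m ≤ Xᶜ.card) (ih X (by omega))
    have h3 := add_mem h1' h2
    have e : WJ h lev (m + 1) ∅ X - ((Xᶜ.card.descFactorial (m + 1) : ℕ) : ℤ)
        = WJ h lev (m + 1) ∅ X - ((Xᶜ.card : ℤ) - m) * WJ h lev m ∅ X
          + ((Xᶜ.card : ℤ) - m) * (WJ h lev m ∅ X - (Xᶜ.card.descFactorial m : ℤ)) := by
      rw [Nat.descFactorial_succ]
      push_cast [(by omega : m ≤ Xᶜ.card)]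
      ring
    rw [e]
    exact h3

theorem SJ_mem (hs : ∀ x y, h x y = h y x) (hl : ∀ x y, lev x y = lev y x)
    (hc : ∀ x y, (lev x y).card ≤ 1) (m : ℕ) : ∀ (L : Finset ℕ) (y : V) (X : Finset V),
    m ≤ Xᶜ.card → SJ h lev m L y X ∈ II L.card Xᶜ.card m := by
  induction m with
  | zero =>
    intro L y X _
    rw [SJ]
    split_ifs with hL
    · have : (1 : ℤ) = gen Xᶜ.card 0 0 := by simp [gen]
      rw [this]
      exact gen_mem (by simp [hL]) le_rfl
    · exact Submodule.zero_mem _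
  | succ m ih =>
    intro L y X hX
    rw [SJ_succ]
    refine sub_mem (II_mono (le_tL L) (WJ_mem hs hl hc _ L X hX)) ?_
    rw [Finset.mul_sum]
    refine Submodule.sum_mem _ fun v hv => ?_
    have hcard := card_compl_insert hv
    have hcard' : (insert v X)ᶜ.card + 1 = Xᶜ.card := by omega
    have h1 := II_two (ih (L \ lev y v) v (insert v X) (by omega))
    rw [hcard'] at h1
    have h2 : L.card ≤ (L \ lev y v).card + 1 := by
      have := Finset.card_le_card_sdiff_add_card (s := L) (t := lev y v)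
      have := hc y v
      omega
    have h3 := II_mono h2 h1
    have e : 2 * (h y v * SJ h lev m (L \ lev y v) v (insert v X))
        = (h y v) • (2 * SJ h lev m (L \ lev y v) v (insert v X)) := by
      simp only [smul_eq_mul]; ring
    rw [e]
    exact Submodule.smul_mem _ _ h3

end

end MP_90430c
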