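import Mathlib
import Pool.Agent.Lib.MP_90430c_co.Root
import Pool.Agent.Lib.MP_90430c_co.TwoAdic

/-! Closed forms of the path sums, rooted sums, edge flips and the divisibility of the number of
negative circles. -/

open Finset

set_option linter.unusedSectionVars false

namespace MP_90430c

section

variable {V : Type*} [Fintype V] [DecidableEq V]

lemma sum_cons' (a : ℕ) (X : Finset V) (G : (Fin (a + 1) → V) → ℤ) :
    ∑ q ∈ av (a + 1) X, G q
      = ∑ v ∈ Xᶜ, ∑ p ∈ av a (insert v X), G (Fin.cons v p : Fin (a + 1) → V) := by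
  rw [Finset.sum_sigma']
  refine Finset.sum_nbij' (fun q => ⟨q 0, Fin.tail q⟩) (fun x => Fin.cons x.1 x.2) ?_ ?_ ?_ ?_ ?_
  · intro q hq
    rw [mem_av] at hq
    obtain ⟨h1, h2⟩ := hq
    rw [← Fin.cons_self_tail q, Fin.cons_injective_iff] at h1
    simp only [Finset.mem_sigma, mem_av, Finset.mem_compl, Finset.mem_insert, not_or]
    exact ⟨h2 0, h1.2, fun i => ⟨fun hi => h1.1 ⟨i, hi⟩, h2 _⟩⟩
  · rintro ⟨v, p⟩ hx
    simp only [Finset.mem_sigma, mem_av, Finset.mem_compl, Finset.mem_insert, not_or] at hx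
    rw [mem_av, Fin.cons_injective_iff]
    refine ⟨⟨fun ⟨i, hi⟩ => (hx.2.2 i).1 hi, hx.2.1⟩, fun i => ?_⟩
    refine Fin.cases ?_ (fun i => ?_) i
    · simpa using hx.1
    · simpa using (hx.2.2 i).2
  · intro q _; simp
  · rintro ⟨v, p⟩ _; simp
  · intro q _; simp

lemma av_zero (X : Finset V) : av 0 X = {fun i => i.elim0} := by
  ext p
  simp only [mem_av, Finset.mem_singleton]
  constructor
  · intro _; funext i; exact i.elim0
  · rintro rfl; exact ⟨fun i => i.elim0, fun i => i.elim0⟩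

lemma cp_eq_hp (k : ℕ) (τ : V → V → ℤ) (f : Fin (k + 1) → V) :
    cp (k + 1) τ f = hp τ f * τ (f (Fin.last k)) (f 0) := by
  unfold cp hp
  rw [Fin.prod_univ_castSucc]
  congr 1
  · refine Finset.prod_congr rfl fun i _ => ?_
    rw [Fin.coeSucc_eq_succ]
  · rw [Fin.last_add_one]

/-- The weight of a marked path. -/
def wt (σ₀ : V → V → ℤ) (s : ℕ → V → V → ℤ) (Λ L : Finset ℕ) {a : ℕ} (q : Fin (a + 1) → V) : ℤ :=
  hp σ₀ q * (∏ j ∈ Λ \ L, hp (s j) q) * ∏ j ∈ L, (hp (s j) q - 1)

/-- Compatibility of the data `h, lev` with `σ₀, s`. -/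
structure Compat (h : V → V → ℤ) (lev : V → V → Finset ℕ) (σ₀ : V → V → ℤ) (s : ℕ → V → V → ℤ)
    (Λ : Finset ℕ) : Prop where
  lev_sub : ∀ x y, lev x y ⊆ Λ
  card_le : ∀ x y, (lev x y).card ≤ 1
  sig : ∀ x y, σ₀ x y = if lev x y = ∅ then 1 - 2 * h x y else 1
  one : ∀ x y, lev x y ≠ ∅ → h x y = 1
  s_eq : ∀ j ∈ Λ, ∀ x y, s j x y = if j ∈ lev x y then -1 else 1

variable {h : V → V → ℤ} {lev : V → V → Finset ℕ} {σ₀ : V → V → ℤ} {s : ℕ → V → V → ℤ}
  {Λ : Finset ℕ}

lemma wt_cons (hC : Compat h lev σ₀ s Λ) {L : Finset ℕ} (hL : L ⊆ Λ) {a : ℕ} (y : V)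
    (q : Fin (a + 1) → V) :
    wt σ₀ s Λ L (Fin.cons y q : Fin (a + 2) → V)
      = wt σ₀ s Λ L q - 2 * h y (q 0) * wt σ₀ s Λ (L \ lev y (q 0)) q := by
  unfold wt
  simp only [hp_cons]
  set w := q 0
  by_cases hlev : lev y w = ∅
  · have h1 : ∀ j ∈ Λ, s j y w = 1 := by
      intro j hj; rw [hC.s_eq j hj, hlev]; simp
    have e1 : ∏ j ∈ Λ \ L, s j y w * hp (s j) q = ∏ j ∈ Λ \ L, hp (s j) q := by
      refine Finset.prod_congr rfl fun j hj => ?_
      rw [h1 j (Finset.mem_sdiff.1 hj).1, one_mul]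
    have e2 : ∏ j ∈ L, (s j y w * hp (s j) q - 1) = ∏ j ∈ L, (hp (s j) q - 1) := by
      refine Finset.prod_congr rfl fun j hj => ?_
      rw [h1 j (hL hj), one_mul]
    rw [e1, e2, hC.sig, if_pos hlev, hlev, Finset.sdiff_empty]
    ring
  · obtain ⟨j0, hj0⟩ : ∃ j0, lev y w = {j0} := by
      rw [← Finset.card_eq_one]
      have h1 := hC.card_le y w
      have h2 : 0 < (lev y w).card := Finset.card_pos.2 (Finset.nonempty_iff_ne_empty.2 hlev)
      omega
    have hj0Λ : j0 ∈ Λ := hC.lev_sub y w (by rw [hj0]; simp)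
    have hs0 : s j0 y w = -1 := by rw [hC.s_eq j0 hj0Λ, hj0]; simp
    have hs1 : ∀ j ∈ Λ, j ≠ j0 → s j y w = 1 := by
      intro j hj hne; rw [hC.s_eq j hj, hj0]; simp [hne]
    rw [hC.sig, if_neg hlev, hC.one y w hlev, hj0]
    by_cases hmem : j0 ∈ L
    · have e1 : ∏ j ∈ Λ \ L, s j y w * hp (s j) q = ∏ j ∈ Λ \ L, hp (s j) q := by
        refine Finset.prod_congr rfl fun j hj => ?_
        rw [Finset.mem_sdiff] at hj
        rw [hs1 j hj.1 (fun e => hj.2 (e ▸ hmem)), one_mul]
      have e2 : ∏ j ∈ L, (s j y w * hp (s j) q - 1)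
          = (-hp (s j0) q - 1) * ∏ j ∈ L.erase j0, (hp (s j) q - 1) := by
        rw [← Finset.mul_prod_erase L _ hmem, hs0]
        congr 1
        · ring
        · refine Finset.prod_congr rfl fun j hj => ?_
          rw [Finset.mem_erase] at hj
          rw [hs1 j (hL hj.2) hj.1, one_mul]
      have e3 : ∏ j ∈ L, (hp (s j) q - 1)
          = (hp (s j0) q - 1) * ∏ j ∈ L.erase j0, (hp (s j) q - 1) := by
        rw [← Finset.mul_prod_erase L _ hmem]
      have e4 : ∏ j ∈ Λ \ (L \ {j0}), hp (s j) q = hp (s j0) q * ∏ j ∈ Λ \ L, hp (s j) q := by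
        have : Λ \ (L \ {j0}) = insert j0 (Λ \ L) := by
          ext z
          simp only [Finset.mem_sdiff, Finset.mem_singleton, Finset.mem_insert, not_and, not_not]
          constructor
          · rintro ⟨h1, h2⟩
            by_cases hz : z ∈ L
            · exact Or.inl (h2 hz)
            · exact Or.inr ⟨h1, hz⟩
          · rintro (rfl | ⟨h1, h2⟩)
            · exact ⟨hj0Λ, fun _ => rfl⟩
            · exact ⟨h1, fun h => absurd h h2⟩
        rw [this, Finset.prod_insert]
        simp [hmem]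
      have e5 : L \ {j0} = L.erase j0 := Finset.sdiff_singleton_eq_erase j0 L
      rw [e1, e2, e3, e4, e5]
      ring
    · have e1 : ∏ j ∈ Λ \ L, s j y w * hp (s j) q = - ∏ j ∈ Λ \ L, hp (s j) q := by
        have hm : j0 ∈ Λ \ L := by rw [Finset.mem_sdiff]; exact ⟨hj0Λ, hmem⟩
        rw [← Finset.mul_prod_erase (Λ \ L) _ hm, ← Finset.mul_prod_erase (Λ \ L) _ hm, hs0]
        have : ∏ j ∈ (Λ \ L).erase j0, s j y w * hp (s j) q
            = ∏ j ∈ (Λ \ L).erase j0, hp (s j) q := by
          refine Finset.prod_congr rfl fun j hj => ?_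
          rw [Finset.mem_erase, Finset.mem_sdiff] at hj
          rw [hs1 j hj.2.1 hj.1, one_mul]
        rw [this]
        ring
      have e2 : ∏ j ∈ L, (s j y w * hp (s j) q - 1) = ∏ j ∈ L, (hp (s j) q - 1) := by
        refine Finset.prod_congr rfl fun j hj => ?_
        rw [hs1 j (hL hj) (fun e => hmem (e ▸ hj)), one_mul]
      have e5 : L \ {j0} = L := by
        rw [Finset.sdiff_singleton_eq_erase, Finset.erase_eq_of_notMem hmem]
      rw [e1, e2, e5]
      ring

theorem SJ_closed (hC : Compat h lev σ₀ s Λ) (m : ℕ) : ∀ (L : Finset ℕ) (_ : L ⊆ Λ) (y : V)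
    (X : Finset V), SJ h lev m L y X = ∑ g ∈ av m X, wt σ₀ s Λ L (Fin.cons y g : Fin (m + 1) → V) := by
  induction m with
  | zero =>
    intro L hL y X
    rw [av_zero, Finset.sum_singleton, SJ]
    unfold wt
    have e : ∀ τ : V → V → ℤ, hp τ (Fin.cons y (fun i : Fin 0 => (i.elim0 : V)) : Fin 1 → V) = 1 := by
      intro τ; simp [hp]
    simp only [e, Finset.prod_const_one, sub_self, mul_one, one_mul]
    rw [Finset.prod_const]
    split_ifs with hL0
    · simp [hL0]
    · rw [zero_pow]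
      exact fun h => hL0 (Finset.card_eq_zero.1 h)
  | succ m ih =>
    intro L hL y X
    rw [sum_cons', SJ]
    refine Finset.sum_congr rfl fun v _ => ?_
    rw [ih L hL v, ih (L \ lev y v) ((Finset.sdiff_subset).trans hL) v, Finset.mul_sum,
      ← Finset.sum_sub_distrib]
    refine Finset.sum_congr rfl fun p _ => ?_
    rw [wt_cons hC hL y]
    simp only [Fin.cons_zero]

/-- Sums over closed sequences which start with `x, y`. -/
lemma sum_rooted (m : ℕ) {x y : V} (hxy : x ≠ y) (F : (Fin (m + 2) → V) → ℤ) :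
    ∑ f ∈ inj (m + 2) V, (if f 0 = x ∧ f 1 = y then F f else 0)
      = ∑ g ∈ av m {x, y}, F (Fin.cons x (Fin.cons y g : Fin (m + 1) → V)) := by
  rw [← Finset.sum_filter]
  refine Finset.sum_nbij' (fun f => Fin.tail (Fin.tail f))
    (fun g => Fin.cons x (Fin.cons y g : Fin (m + 1) → V)) ?_ ?_ ?_ ?_ ?_
  · intro f hf
    simp only [Finset.mem_filter, mem_inj] at hf
    obtain ⟨h1, h2, h3⟩ := hf
    rw [mem_av]
    refine ⟨fun i j hij => ?_, fun i => ?_⟩
    · have := h1 hij
      simpa using this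
    · simp only [Finset.mem_insert, Finset.mem_singleton, not_or]
      constructor
      · intro h
        have := h1 (h.trans h2.symm)
        exact absurd this (Fin.succ_ne_zero _)
      · intro h
        have h4 := h1 (h.trans h3.symm)
        have h5 : (1 : Fin (m + 2)) = Fin.succ 0 := rfl
        rw [h5] at h4
        exact absurd (Fin.succ_injective _ h4) (Fin.succ_ne_zero _)
  · intro g hg
    rw [mem_av] at hg
    simp only [Finset.mem_filter, mem_inj]
    refine ⟨?_, rfl, rfl⟩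
    rw [Fin.cons_injective_iff, Fin.cons_injective_iff]
    refine ⟨?_, ?_, hg.1⟩
    · rintro ⟨i, hi⟩
      refine Fin.cases (fun hi => ?_) (fun i hi => ?_) i hi
      · exact hxy (by simpa using hi.symm)
      · have := hg.2 i
        simp only [Finset.mem_insert, Finset.mem_singleton, not_or] at this
        exact this.1 (by simpa using hi)
    · rintro ⟨i, hi⟩
      have := hg.2 i
      simp only [Finset.mem_insert, Finset.mem_singleton, not_or] at this
      exact this.2 hi
  · intro f hf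
    simp only [Finset.mem_filter, mem_inj] at hf
    obtain ⟨h1, h2, h3⟩ := hf
    funext i
    refine Fin.cases ?_ (fun i => ?_) i
    · exact h2.symm
    · refine Fin.cases ?_ (fun i => ?_) i
      · exact h3.symm
      · rfl
  · intro g _
    rfl
  · intro f hf
    simp only [Finset.mem_filter, mem_inj] at hf
    obtain ⟨h1, h2, h3⟩ := hf
    congr 1
    funext i
    refine Fin.cases ?_ (fun i => ?_) i
    · exact h2
    · refine Fin.cases ?_ (fun i => ?_) i
      · exact h3
      · rfl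

lemma cp_cons_cons (m : ℕ) (τ : V → V → ℤ) (x y : V) (g : Fin m → V)
    (hτ : ∀ z, z ≠ x → z ≠ y → τ z x = 1) (hxy : m = 0 → τ y x = 1)
    (hg : g ∈ av m {x, y}) :
    cp (m + 2) τ (Fin.cons x (Fin.cons y g : Fin (m + 1) → V))
      = τ x y * hp τ (Fin.cons y g : Fin (m + 1) → V) := by
  rw [cp_eq_hp, hp_cons]
  have h1 : τ ((Fin.cons x (Fin.cons y g : Fin (m + 1) → V) : Fin (m + 2) → V) (Fin.last (m + 1)))
      ((Fin.cons x (Fin.cons y g : Fin (m + 1) → V) : Fin (m + 2) → V) 0) = 1 := by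
    have e1 : (Fin.cons x (Fin.cons y g : Fin (m + 1) → V) : Fin (m + 2) → V) (Fin.last (m + 1))
        = (Fin.cons y g : Fin (m + 1) → V) (Fin.last m) := rfl
    rw [e1, Fin.cons_zero]
    cases m with
    | zero => exact hxy rfl
    | succ m =>
      have e2 : (Fin.cons y g : Fin (m + 2) → V) (Fin.last (m + 1)) = g (Fin.last m) := rfl
      rw [e2]
      have := (mem_av.1 hg).2 (Fin.last m)
      simp only [Finset.mem_insert, Finset.mem_singleton, not_or] at this
      exact hτ _ this.1 this.2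
  rw [h1, mul_one]
  rfl

end

end MP_90430c
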