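import Mathlib
import Pool.Agent.Lib.MP_90430c_co.Path

/-! Flipping one edge, switching, divisibility of the number of negative circles. -/

open Finset

set_option linter.unusedSectionVars false

namespace MP_90430c

section

variable {V : Type*} [Fintype V] [DecidableEq V] {l : ℕ} [NeZero l]

lemma uses_unique (hl : 3 ≤ l) {f : Fin l → V} (hf : Function.Injective f) {x y : V} {i j : Fin l}
    (hi : (f i = x ∧ f (i + 1) = y) ∨ (f i = y ∧ f (i + 1) = x))
    (hj : (f j = x ∧ f (j + 1) = y) ∨ (f j = y ∧ f (j + 1) = x)) : i = j := by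
  rcases hi with hi | hi <;> rcases hj with hj | hj
  · exact hf (by rw [hi.1, hj.1])
  · have e1 : j = i + 1 := hf (by rw [hj.1, hi.2])
    have e2 : j + 1 = i := hf (by rw [hj.2, hi.1])
    rw [e1] at e2
    exact absurd e2 (two_ne_zero' hl i)
  · have e1 : j = i + 1 := hf (by rw [hj.1, hi.2])
    have e2 : j + 1 = i := hf (by rw [hj.2, hi.1])
    rw [e1] at e2
    exact absurd e2 (two_ne_zero' hl i)
  · exact hf (by rw [hi.1, hj.1])

/-- The signature which is negative only on the edge `x y`. -/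
def ed (x y : V) (u v : V) : ℤ := if (u = x ∧ v = y) ∨ (u = y ∧ v = x) then -1 else 1

lemma ed_symm (x y u v : V) : ed x y u v = ed x y v u := by
  unfold ed
  exact if_congr (by tauto) rfl rfl

lemma cp_ed (hl : 3 ≤ l) {f : Fin l → V} (hf : Function.Injective f) (x y : V) :
    cp l (ed x y) f = if Uses f x y then -1 else 1 := by
  unfold cp
  split_ifs with h
  · obtain ⟨i, hi⟩ := h
    rw [Finset.prod_eq_single i]
    · unfold ed; rw [if_pos hi]
    · intro j _ hj
      unfold ed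
      rw [if_neg]
      intro h'
      exact hj (uses_unique hl hf h' hi)
    · simp
  · refine Finset.prod_eq_one fun i _ => ?_
    unfold ed
    rw [if_neg]
    intro h'
    exact h ⟨i, h'⟩

/-- Flip the edge `x y`. -/
def flip (σ : V → V → ℤ) (x y : V) : V → V → ℤ := fun u v => σ u v * ed x y u v

lemma ed_val (x y u v : V) : ed x y u v = 1 ∨ ed x y u v = -1 := by
  unfold ed; split_ifs <;> simp

lemma IsSig.mul {σ τ : V → V → ℤ} (hσ : IsSig σ) (hτ : IsSig τ) :
    IsSig (fun u v => σ u v * τ u v) := by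
  refine ⟨fun x y => by rw [hσ.symm x y, hτ.symm x y], fun x y => ?_⟩
  rcases hσ.val x y with h1 | h1 <;> rcases hτ.val x y with h2 | h2 <;> simp [h1, h2]

lemma isSig_ed (x y : V) : IsSig (ed x y) := ⟨ed_symm x y, ed_val x y⟩

lemma isSig_one : IsSig (fun _ _ : V => (1 : ℤ)) := ⟨fun _ _ => rfl, fun _ _ => Or.inl rfl⟩

lemma IsSig.flip {σ : V → V → ℤ} (hσ : IsSig σ) (x y : V) : IsSig (flip σ x y) :=
  hσ.mul (isSig_ed x y)

lemma IsSig.sq {σ : V → V → ℤ} (hσ : IsSig σ) (x y : V) : σ x y * σ x y = 1 := by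
  rcases hσ.val x y with h | h <;> simp [h]

lemma IsSig.abs {σ : V → V → ℤ} (hσ : IsSig σ) (x y : V) : |σ x y| = 1 := by
  rcases hσ.val x y with h | h <;> simp [h]

lemma abs_cp {σ : V → V → ℤ} (hσ : IsSig σ) (f : Fin l → V) : |cp l σ f| = 1 := by
  unfold cp
  rw [Finset.abs_prod]
  exact Finset.prod_eq_one fun i _ => hσ.abs _ _

lemma Z_flip (hl : 3 ≤ l) {σ : V → V → ℤ} (hσ : IsSig σ) (x y : V) :
    Z l σ - Z l (flip σ x y) = 4 * l * ∑ f ∈ inj l V, (if f 0 = x ∧ f 1 = y then cp l σ f else 0) := by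
  have h1 : Z l σ - Z l (flip σ x y) = 2 * ∑ f ∈ inj l V, (if Uses f x y then cp l σ f else 0) := by
    unfold Z
    rw [← Finset.sum_sub_distrib, Finset.mul_sum]
    refine Finset.sum_congr rfl fun f hf => ?_
    have : cp l (flip σ x y) f = cp l σ f * cp l (ed x y) f := cp_mul _ _ _
    rw [this, cp_ed hl (mem_inj.1 hf)]
    split_ifs <;> ring
  rw [h1, root hl (cp_dih hσ.symm)]
  ring

/-- Switching. -/
def sw (ρ : V → ℤ) (σ : V → V → ℤ) : V → V → ℤ := fun u v => ρ u * ρ v * σ u v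

lemma Z_sw {ρ : V → ℤ} (hρ : ∀ v, ρ v * ρ v = 1) (σ : V → V → ℤ) : Z l (sw ρ σ) = Z l σ := by
  unfold Z
  refine Finset.sum_congr rfl fun f _ => ?_
  unfold cp sw
  rw [Finset.prod_mul_distrib, Finset.prod_mul_distrib]
  have h1 : ∏ i : Fin l, ρ (f (i + 1)) = ∏ i : Fin l, ρ (f i) :=
    Equiv.prod_comp (Equiv.addRight (1 : Fin l)) (fun i => ρ (f i))
  rw [h1, ← Finset.prod_mul_distrib]
  have h2 : ∏ i : Fin l, ρ (f i) * ρ (f i) = 1 := Finset.prod_eq_one fun i _ => hρ _
  rw [h2, one_mul]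

lemma IsSig.sw {σ : V → V → ℤ} (hσ : IsSig σ) {ρ : V → ℤ} (hρ : ∀ v, ρ v = 1 ∨ ρ v = -1) :
    IsSig (sw ρ σ) := by
  refine ⟨fun x y => ?_, fun x y => ?_⟩
  · unfold MP_90430c.sw; rw [hσ.symm x y]; ring
  · unfold MP_90430c.sw
    rcases hσ.val x y with h1 | h1 <;> rcases hρ x with h2 | h2 <;> rcases hρ y with h3 | h3 <;>
      simp [h1, h2, h3]

/-- The indicator of the negative edges. -/
def hh (σ : V → V → ℤ) (u v : V) : ℤ := if σ u v = -1 then 1 else 0

lemma compat_empty {σ : V → V → ℤ} (hσ : IsSig σ) :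
    Compat (hh σ) (fun _ _ => ∅) σ (fun _ _ _ => 1) ∅ := by
  refine ⟨fun _ _ => Finset.Subset.refl _, fun _ _ => by simp, fun x y => ?_, fun x y h => ?_,
    fun j hj => by simp at hj⟩
  · unfold hh
    rcases hσ.val x y with h1 | h1 <;> simp [h1]
  · exact absurd rfl h

lemma hh_symm {σ : V → V → ℤ} (hσ : IsSig σ) (x y : V) : hh σ x y = hh σ y x := by
  unfold hh; rw [hσ.symm]

lemma card_inj : (inj l V).card = (Fintype.card V).descFactorial l := by
  have h1 : (inj l V).card = Fintype.card (Fin l ↪ V) := by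
    rw [← Fintype.card_coe]
    refine Fintype.card_congr ?_
    exact { toFun := fun f => ⟨f.1, mem_inj.1 f.2⟩
            invFun := fun f => ⟨f, mem_inj.2 f.injective⟩
            left_inv := fun f => rfl
            right_inv := fun f => rfl }
  rw [h1, Fintype.card_embedding_eq, Fintype.card_fin]

lemma card_av_le (m : ℕ) (X : Finset V) : (av m X).card ≤ Fintype.card V ^ m := by
  refine (Finset.card_le_univ _).trans ?_
  rw [Fintype.card_fun, Fintype.card_fin]

/-- Flipping one edge of a signature all of whose other edges at `x` are positive. -/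
lemma Z_flip_rooted (m : ℕ) (hm : 1 ≤ m) {σ : V → V → ℤ} (hσ : IsSig σ) {x y : V} (hxy : x ≠ y)
    (hx : ∀ z, z ≠ x → z ≠ y → σ z x = 1) :
    Z (m + 2) σ - Z (m + 2) (flip σ x y)
      = 4 * ((m + 2 : ℕ) : ℤ) * (σ x y * SJ (hh σ) (fun _ _ => ∅) m ∅ y {x, y}) := by
  rw [Z_flip (by omega) hσ, sum_rooted m hxy, SJ_closed (compat_empty hσ) m ∅ (by simp)]
  have key : ∀ g ∈ av m {x, y}, cp (m + 2) σ (Fin.cons x (Fin.cons y g : Fin (m + 1) → V))
      = σ x y * wt σ (fun _ _ _ => 1) ∅ ∅ (Fin.cons y g : Fin (m + 1) → V) := by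
    intro g hg
    rw [cp_cons_cons m σ x y g hx (by omega) hg]
    unfold wt
    simp
  rw [Finset.sum_congr rfl key, ← Finset.mul_sum]

theorem Z_flip_mem (hl : 3 ≤ l) (hn : l ≤ Fintype.card V) {σ : V → V → ℤ} (hσ : IsSig σ) {x y : V}
    (hxy : x ≠ y) : ∃ z ∈ II 0 (Fintype.card V - 2) (l - 2),
      Z l σ - Z l (flip σ x y) = 4 * l * z := by
  obtain ⟨m, rfl⟩ : ∃ m, l = m + 2 := ⟨l - 2, by omega⟩
  set ρ : V → ℤ := fun z => if z = x ∨ z = y then 1 else σ z x with hρdef
  have hρ : ∀ v, ρ v = 1 ∨ ρ v = -1 := by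
    intro v
    rw [hρdef]
    dsimp only
    split_ifs
    · exact Or.inl rfl
    · exact hσ.val _ _
  have hρ2 : ∀ v, ρ v * ρ v = 1 := by
    intro v; rcases hρ v with h | h <;> simp [h]
  have hsw := hσ.sw hρ
  have h1 : ∀ z, z ≠ x → z ≠ y → sw ρ σ z x = 1 := by
    intro z hz1 hz2
    unfold sw
    have e1 : ρ z = σ z x := by rw [hρdef]; dsimp only; rw [if_neg]; tauto
    have e2 : ρ x = 1 := by rw [hρdef]; simp
    rw [e1, e2, mul_one]
    exact hσ.sq _ _
  have h2 := Z_flip_rooted m (by omega) hsw hxy h1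
  have h3 : flip (sw ρ σ) x y = sw ρ (flip σ x y) := by
    funext u v; unfold flip sw; ring
  rw [h3, Z_sw hρ2, Z_sw hρ2] at h2
  refine ⟨_, ?_, h2⟩
  have hcard : ({x, y} : Finset V)ᶜ.card = Fintype.card V - 2 := by
    rw [Finset.card_compl, Finset.card_pair hxy]
  have h4 := SJ_mem (h := hh (sw ρ σ)) (lev := fun _ _ => ∅) (hh_symm hsw) (fun _ _ => rfl)
    (fun _ _ => by simp) m ∅ y {x, y} (by rw [hcard]; omega)
  rw [hcard] at h4
  have e : m + 2 - 2 = m := by omega
  rw [e, ← smul_eq_mul]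
  exact Submodule.smul_mem _ _ (by simpa using h4)

/-- The number of negative pairs. -/
def negN (σ : V → V → ℤ) : ℕ := (univ.filter fun p : V × V => p.1 ≠ p.2 ∧ σ p.1 p.2 = -1).card

lemma Z_of_negN_eq_zero (hl : 3 ≤ l) {σ : V → V → ℤ} (hσ : IsSig σ) (h : negN σ = 0) :
    Z l σ = (Fintype.card V).descFactorial l := by
  have h1 : ∀ f ∈ inj l V, cp l σ f = 1 := by
    intro f hf
    unfold cp
    refine Finset.prod_eq_one fun i _ => ?_
    rcases hσ.val (f i) (f (i + 1)) with h2 | h2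
    · exact h2
    · exfalso
      unfold negN at h
      rw [Finset.card_eq_zero, Finset.filter_eq_empty_iff] at h
      refine h (x := (f i, f (i + 1))) (Finset.mem_univ _) ⟨?_, h2⟩
      intro h3
      have h4 := mem_inj.1 hf h3
      have h5 : (1 : Fin l) = 0 := by
        have : i + 0 = i + 1 := by rw [add_zero]; exact h4
        exact (add_left_cancel this).symm
      have h6 := two_ne_zero' hl 0
      rw [h5] at h6
      simp at h6
  unfold Z
  rw [Finset.sum_congr rfl h1, Finset.sum_const, card_inj]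
  simp

lemma negN_flip_lt {σ : V → V → ℤ} (hσ : IsSig σ) {x y : V} (hxy : x ≠ y) (h : σ x y = -1) :
    negN (flip σ x y) < negN σ := by
  unfold negN
  apply Finset.card_lt_card
  rw [Finset.ssubset_iff_subset_ne]
  constructor
  · rintro ⟨u, v⟩ hp
    simp only [Finset.mem_filter, Finset.mem_univ, true_and] at hp ⊢
    refine ⟨hp.1, ?_⟩
    have h1 := hp.2
    unfold flip ed at h1
    split_ifs at h1 with h2
    · rcases h2 with ⟨rfl, rfl⟩ | ⟨rfl, rfl⟩
      · rw [h] at h1; norm_num at h1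
      · rw [hσ.symm, h] at h1; norm_num at h1
    · simpa using h1
  · intro heq
    have h1 : (x, y) ∈ univ.filter fun p : V × V => p.1 ≠ p.2 ∧ σ p.1 p.2 = -1 := by
      simp [hxy, h]
    rw [← heq] at h1
    simp only [Finset.mem_filter, Finset.mem_univ, true_and] at h1
    have h2 := h1.2
    unfold flip ed at h2
    rw [if_pos (Or.inl ⟨rfl, rfl⟩), h] at h2
    norm_num at h2

/-- Every value lies in the ideal. -/
theorem D_mem (hl : 3 ≤ l) (hn : l ≤ Fintype.card V) {σ : V → V → ℤ} (hσ : IsSig σ) :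
    ∃ z ∈ II 0 (Fintype.card V - 2) (l - 2),
      ((Fintype.card V).descFactorial l : ℤ) - Z l σ = 4 * l * z := by
  induction hk : negN σ using Nat.strong_induction_on generalizing σ with
  | _ k ih =>
    rcases Nat.eq_zero_or_pos k with h0 | h0
    · rw [h0] at hk
      exact ⟨0, Submodule.zero_mem _, by rw [Z_of_negN_eq_zero hl hσ hk]; ring⟩
    · rw [← hk] at h0
      unfold negN at h0
      obtain ⟨⟨x, y⟩, hp⟩ := Finset.card_pos.1 h0
      simp only [Finset.mem_filter, Finset.mem_univ, true_and] at hp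
      obtain ⟨z1, hz1, e1⟩ := ih (negN (flip σ x y)) (by rw [← hk]; exact negN_flip_lt hσ hp.1 hp.2)
        (hσ.flip x y) rfl
      obtain ⟨z2, hz2, e2⟩ := Z_flip_mem hl hn hσ hp.1
      refine ⟨z1 - z2, sub_mem hz1 hz2, ?_⟩
      linear_combination e1 - e2

/-- Flipping one edge changes the number of negative circles by at most `n^(l-2)`. -/
theorem Z_flip_abs (hl : 3 ≤ l) {σ : V → V → ℤ} (hσ : IsSig σ) {x y : V} (hxy : x ≠ y) :
    |Z l σ - Z l (flip σ x y)| ≤ 4 * l * (Fintype.card V : ℤ) ^ (l - 2) := by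
  obtain ⟨m, rfl⟩ : ∃ m, l = m + 2 := ⟨l - 2, by omega⟩
  rw [Z_flip hl hσ, abs_mul, abs_of_nonneg (by positivity), sum_rooted m hxy]
  refine mul_le_mul_of_nonneg_left ?_ (by positivity)
  refine (Finset.abs_sum_le_sum_abs _ _).trans ?_
  rw [Finset.sum_congr rfl fun f _ => abs_cp hσ _, Finset.sum_const, nsmul_eq_mul, mul_one]
  have := card_av_le m ({x, y} : Finset V)
  have e : m + 2 - 2 = m := by omega
  rw [e]
  exact_mod_cast this

end

end MP_90430c
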