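import Mathlib
import Pool.Agent.Lib.MP_90430c_co.Flip

/-! Broom gadgets. -/

open Finset

set_option linter.unusedSectionVars false

namespace MP_90430c

/-- An edge of level `j` going up, in the state `Y`. -/
def upY (j : ℕ) (p q : ℕ × Bool) : Prop := p.1 + 1 = j ∧ q.1 = j ∧ 1 ≤ p.1 ∧ p.2 = q.2

instance (j : ℕ) (p q : ℕ × Bool) : Decidable (upY j p q) := by unfold upY; infer_instance

/-- An edge of level `j` going up, in the state `X`. -/
def upX (j : ℕ) (p q : ℕ × Bool) : Prop :=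
  (j = 2 ∧ p = (1, false) ∧ q = (2, true)) ∨ (j ≠ 2 ∧ upY j p q)

instance (j : ℕ) (p q : ℕ × Bool) : Decidable (upX j p q) := by unfold upX; infer_instance

section

variable {V : Type*} [Fintype V] [DecidableEq V]

/-- Signature of the edges of level `j` in the state `Y`. -/
def gY (lab : V → ℕ × Bool) (j : ℕ) (x y : V) : ℤ :=
  if upY j (lab x) (lab y) ∨ upY j (lab y) (lab x) then -1 else 1

/-- Signature of the edges of level `j` in the state `X`. -/
def gX (lab : V → ℕ × Bool) (j : ℕ) (x y : V) : ℤ :=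
  if upX j (lab x) (lab y) ∨ upX j (lab y) (lab x) then -1 else 1

/-- A broom gadget with levels `1, ..., s`, with `a` vertices of level `1` and `b` vertices of
level `s`; level `0` means: not in the gadget. -/
structure Gadget (lab : V → ℕ × Bool) (s a b : ℕ) : Prop where
  two_le : 2 ≤ s
  cardA : (univ.filter fun x => lab x = (1, false)).card = a
  noA : ∀ x, lab x ≠ (1, true)
  mid : ∀ p, 2 ≤ p → p < s → ∀ t, ∃! x, lab x = (p, t)
  cardB : (univ.filter fun x => lab x = (s, false)).card = b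
  noB : ∀ x, lab x ≠ (s, true)
  top : ∀ x, (lab x).1 ≤ s

/-- The whole signature in the state `Y`. -/
def sigY (σ₀ : V → V → ℤ) (lab : V → ℕ × Bool) (s : ℕ) : V → V → ℤ :=
  fun x y => σ₀ x y * ∏ j ∈ Icc 2 s, gY lab j x y

/-- The whole signature in the state `X`. -/
def sigX (σ₀ : V → V → ℤ) (lab : V → ℕ × Bool) (s : ℕ) : V → V → ℤ :=
  fun x y => σ₀ x y * ∏ j ∈ Icc 2 s, gX lab j x y

lemma gY_symm (lab : V → ℕ × Bool) (j : ℕ) (x y : V) : gY lab j x y = gY lab j y x := by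
  unfold gY; exact if_congr or_comm rfl rfl

lemma gX_symm (lab : V → ℕ × Bool) (j : ℕ) (x y : V) : gX lab j x y = gX lab j y x := by
  unfold gX; exact if_congr or_comm rfl rfl

lemma isSig_gY (lab : V → ℕ × Bool) (j : ℕ) : IsSig (gY lab j) :=
  ⟨gY_symm lab j, fun x y => by unfold gY; split_ifs <;> simp⟩

lemma isSig_gX (lab : V → ℕ × Bool) (j : ℕ) : IsSig (gX lab j) :=
  ⟨gX_symm lab j, fun x y => by unfold gX; split_ifs <;> simp⟩

lemma isSig_prod {ι : Type*} [DecidableEq ι] (Λ : Finset ι) (s : ι → V → V → ℤ) (h : ∀ j, IsSig (s j)) :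
    IsSig (fun x y => ∏ j ∈ Λ, s j x y) := by
  induction Λ using Finset.induction_on with
  | empty => simpa using isSig_one
  | insert j Λ hj ih =>
    simp only [Finset.prod_insert hj]
    exact (h j).mul ih

lemma isSig_sigY {σ₀ : V → V → ℤ} (hσ : IsSig σ₀) (lab : V → ℕ × Bool) (s : ℕ) :
    IsSig (sigY σ₀ lab s) := hσ.mul (isSig_prod _ _ fun j => isSig_gY lab j)

lemma isSig_sigX {σ₀ : V → V → ℤ} (hσ : IsSig σ₀) (lab : V → ℕ × Bool) (s : ℕ) :
    IsSig (sigX σ₀ lab s) := hσ.mul (isSig_prod _ _ fun j => isSig_gX lab j)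

/-- The swap of labels below level `j`. -/
def fl (j : ℕ) (p : ℕ × Bool) : ℕ × Bool := if 2 ≤ p.1 ∧ p.1 < j then (p.1, !p.2) else p

lemma upX_fl {j j' : ℕ} (hj : 2 ≤ j) (hj' : 2 ≤ j') (hne : j' ≠ j) (p q : ℕ × Bool)
    (hp : p ≠ (1, true)) (hq : q ≠ (1, true)) :
    upX j' (fl j p) (fl j q) ↔ upY j' p q := by
  obtain ⟨p1, p2⟩ := p
  obtain ⟨q1, q2⟩ := q
  unfold upX fl upY
  simp only [Prod.mk.injEq, ne_eq, not_and] at hp hq ⊢
  by_cases h2 : j' = 2
  · subst h2
    by_cases hp1 : p1 = 1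
    · subst hp1
      have hp2 : p2 = false := by cases p2 <;> simp_all
      subst hp2
      by_cases hq1 : q1 = 2
      · subst hq1
        have : 2 < j := by omega
        cases q2 <;> simp [this]
      · by_cases hq3 : 2 ≤ q1 ∧ q1 < j
        · simp [hq3, hq1]
        · simp [hq3, hq1]
    · by_cases hp3 : 2 ≤ p1 ∧ p1 < j
      · simp only [hp3, and_self, if_true, Prod.mk.injEq]
        constructor
        · rintro (⟨_, ⟨h, _⟩, _⟩ | ⟨h, _⟩)
          · omega
          · exact absurd trivial h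
        · rintro ⟨h, _⟩; omega
      · simp only [hp3, if_false, Prod.mk.injEq]
        constructor
        · rintro (⟨_, ⟨h, _⟩, _⟩ | ⟨h, _⟩)
          · exact absurd h hp1
          · exact absurd trivial h
        · rintro ⟨h, _⟩; omega
  · have hj2 : ¬ (j' = 2) := h2
    simp only [h2, false_and, false_or, not_false_eq_true, true_and]
    by_cases hpq : p1 + 1 = j' ∧ q1 = j'
    · obtain ⟨e1, e2⟩ := hpq
      by_cases hlt : j' < j
      · have c1 : 2 ≤ p1 ∧ p1 < j := by omega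
        have c2 : 2 ≤ q1 ∧ q1 < j := by omega
        rw [if_pos c1, if_pos c2]
        simp [e1, e2]
      · have c1 : ¬ (2 ≤ p1 ∧ p1 < j) := by omega
        have c2 : ¬ (2 ≤ q1 ∧ q1 < j) := by omega
        rw [if_neg c1, if_neg c2]
    · have e1 : ∀ p : ℕ × Bool, (if 2 ≤ p.1 ∧ p.1 < j then (p.1, !p.2) else p).1 = p.1 := by
        intro p; split_ifs <;> rfl
      have e2 := e1 (p1, p2)
      have e3 := e1 (q1, q2)
      simp only at e2 e3
      rw [e2, e3]
      constructor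
      · rintro ⟨h1, h2, _⟩; exact absurd ⟨h1, h2⟩ hpq
      · rintro ⟨h1, h2, _⟩; exact absurd ⟨h1, h2⟩ hpq

variable {lab : V → ℕ × Bool} {s a b : ℕ}

lemma Gadget.exists_perm (G : Gadget lab s a b) {j : ℕ} (hj : j ≤ s) :
    ∃ π : Equiv.Perm V, ∀ x, lab (π x) = fl j (lab x) ∧ ((lab x).1 = 0 → π x = x) := by
  have key : ∀ x, ∃ y, lab y = fl j (lab x) ∧ ((lab x).1 = 0 → y = x)
      ∧ (¬ (2 ≤ (lab x).1 ∧ (lab x).1 < j) → y = x) := by
    intro x
    unfold fl
    split_ifs with h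
    · obtain ⟨y, hy, _⟩ := G.mid (lab x).1 h.1 (by omega) (!(lab x).2)
      exact ⟨y, hy, fun h0 => by omega, fun h1 => absurd h h1⟩
    · exact ⟨x, rfl, fun _ => rfl, fun _ => rfl⟩
  choose θ h1 h2 h3 using key
  have hinv : ∀ x, θ (θ x) = x := by
    intro x
    by_cases h : 2 ≤ (lab x).1 ∧ (lab x).1 < j
    · have e1 := h1 x
      unfold fl at e1
      rw [if_pos h] at e1
      have e2 := h1 (θ x)
      unfold fl at e2
      rw [e1] at e2
      simp only [h, and_self, if_true, Bool.not_not] at e2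
      obtain ⟨y, _, hy⟩ := G.mid (lab x).1 h.1 (by omega) ((lab x).2)
      rw [hy _ e2, hy x rfl]
    · have e1 := h3 x h
      rw [e1, e1]
  exact ⟨⟨θ, θ, hinv, hinv⟩, fun x => ⟨h1 x, h2 x⟩⟩

/-- `σ₀` is positive at the gadget. -/
def PosAt (σ₀ : V → V → ℤ) (lab : V → ℕ × Bool) : Prop :=
  ∀ x y, (lab x).1 ≠ 0 → σ₀ x y = 1 ∧ σ₀ y x = 1

theorem Gadget.identity (G : Gadget lab s a b) {l : ℕ} [NeZero l] {σ₀ : V → V → ℤ}
    (h0 : PosAt σ₀ lab) :
    Z l (sigY σ₀ lab s) - Z l (sigX σ₀ lab s)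
      = ∑ f ∈ inj l V, cp l σ₀ f * (∏ j ∈ Icc 2 s, (cp l (gY lab j) f - 1)
        - ∏ j ∈ Icc 2 s, (cp l (gX lab j) f - 1)) := by
  apply levels_identity
  intro j hj
  rw [Finset.mem_Icc] at hj
  obtain ⟨π, hπ⟩ := G.exists_perm hj.2
  refine ⟨π, fun x y => ?_, fun j' hj' hne x y => ?_⟩
  · have hfl : ∀ x, (lab (π x)).1 = (lab x).1 := by
      intro x; rw [(hπ x).1]; unfold fl; split_ifs <;> rfl
    by_cases hx : (lab x).1 = 0
    · by_cases hy : (lab y).1 = 0
      · rw [(hπ x).2 hx, (hπ y).2 hy]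
      · rw [(h0 y x hy).2, (h0 (π y) (π x) (by rw [hfl]; exact hy)).2]
    · rw [(h0 x y hx).1, (h0 (π x) (π y) (by rw [hfl]; exact hx)).1]
  · rw [Finset.mem_Icc] at hj'
    unfold gX gY
    rw [(hπ x).1, (hπ y).1]
    exact if_congr (or_congr (upX_fl hj.1 hj'.1 hne _ _ (G.noA x) (G.noA y))
      (upX_fl hj.1 hj'.1 hne _ _ (G.noA y) (G.noA x))) rfl rfl

end

end MP_90430c
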