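import Mathlib
import Pool.Agent.Lib.MP_90430c_co.Gadget

/-! Counting sequences which hit given sets; path sums in closed form. -/

open Finset

set_option linter.unusedSectionVars false

namespace MP_90430c

section

variable {V : Type*} [Fintype V] [DecidableEq V]

lemma card_fix {l r : ℕ} (q : Fin r → Fin l) (hq : Function.Injective q) (D : Fin r → Finset V) :
    (univ.filter fun f : Fin l → V => ∀ p, f (q p) ∈ D p).card
      = (∏ p, (D p).card) * Fintype.card V ^ (l - r) := by
  classical
  set t : Fin l → Finset V := fun i => if h : ∃ p, q p = i then D h.choose else univ with ht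
  have h1 : (univ.filter fun f : Fin l → V => ∀ p, f (q p) ∈ D p) = Fintype.piFinset t := by
    ext f
    simp only [Finset.mem_filter, Finset.mem_univ, true_and, Fintype.mem_piFinset]
    constructor
    · intro h i
      rw [ht]
      dsimp only
      split_ifs with hi
      · have := h hi.choose
        rw [hi.choose_spec] at this
        exact this
      · exact Finset.mem_univ _
    · intro h p
      have h2 := h (q p)
      rw [ht] at h2
      dsimp only at h2
      have hi : ∃ p', q p' = q p := ⟨p, rfl⟩
      rw [dif_pos hi] at h2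
      have h3 : hi.choose = p := hq hi.choose_spec
      rw [h3] at h2
      exact h2
  rw [h1, Fintype.card_piFinset]
  rw [← Finset.prod_mul_prod_compl (univ.image q) (fun i => (t i).card)]
  congr 1
  · rw [Finset.prod_image (fun x _ y _ h => hq h)]
    refine Finset.prod_congr rfl fun p _ => ?_
    rw [ht]
    dsimp only
    have hi : ∃ p', q p' = q p := ⟨p, rfl⟩
    rw [dif_pos hi]
    have h3 : hi.choose = p := hq hi.choose_spec
    rw [h3]
  · have h2 : ∀ i ∈ (univ.image q)ᶜ, (t i).card = Fintype.card V := by
      intro i hi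
      rw [Finset.mem_compl, Finset.mem_image] at hi
      rw [ht]
      dsimp only
      rw [dif_neg, Finset.card_univ]
      rintro ⟨p, hp⟩
      exact hi ⟨p, Finset.mem_univ _, hp⟩
    rw [Finset.prod_congr rfl h2, Finset.prod_const, Finset.card_compl,
      Finset.card_image_of_injective _ hq, Finset.card_univ, Fintype.card_fin, Fintype.card_fin]

lemma card_hit {l r : ℕ} (D : Fin r → Finset V) (S : Finset (Fin l → V))
    (hS : ∀ f ∈ S, ∃ q : Fin r → Fin l, Function.Injective q ∧ ∀ p, f (q p) ∈ D p) :
    S.card ≤ l ^ r * ((∏ p, (D p).card) * Fintype.card V ^ (l - r)) := by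
  classical
  have h1 : S ⊆ ((univ : Finset (Fin r → Fin l)).filter Function.Injective).biUnion
      (fun q => univ.filter fun f : Fin l → V => ∀ p, f (q p) ∈ D p) := by
    intro f hf
    obtain ⟨q, hq, hf'⟩ := hS f hf
    rw [Finset.mem_biUnion]
    exact ⟨q, by simp [hq], by simp [hf']⟩
  refine (Finset.card_le_card h1).trans (Finset.card_biUnion_le.trans ?_)
  have h2 : ∀ q ∈ (univ : Finset (Fin r → Fin l)).filter Function.Injective,
      (univ.filter fun f : Fin l → V => ∀ p, f (q p) ∈ D p).card
        = (∏ p, (D p).card) * Fintype.card V ^ (l - r) := by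
    intro q hq
    rw [Finset.mem_filter] at hq
    exact card_fix q hq.2 D
  rw [Finset.sum_congr rfl h2, Finset.sum_const, smul_eq_mul]
  refine Nat.mul_le_mul_right _ ?_
  refine (Finset.card_le_univ _).trans ?_
  rw [Fintype.card_fun, Fintype.card_fin, Fintype.card_fin]

lemma Sp_closed (σ : V → V → ℤ) (m : ℕ) : ∀ (y : V) (X : Finset V),
    Sp σ m y X = ∑ g ∈ av m X, hp σ (Fin.cons y g : Fin (m + 1) → V) := by
  induction m with
  | zero =>
    intro y X
    have h0 : av 0 X = {fun i => i.elim0} := by
      ext p
      simp only [mem_av, Finset.mem_singleton]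
      constructor
      · intro _; funext i; exact i.elim0
      · rintro rfl; exact ⟨fun i => i.elim0, fun i => i.elim0⟩
    rw [h0, Finset.sum_singleton, Sp]
    simp [hp]
  | succ m ih =>
    intro y X
    rw [Sp, sum_cons']
    refine Finset.sum_congr rfl fun v _ => ?_
    rw [ih, Finset.mul_sum]
    refine Finset.sum_congr rfl fun p _ => ?_
    rw [hp_cons y, Fin.cons_zero]

lemma Wp_closed (σ : V → V → ℤ) (m : ℕ) (X : Finset V) :
    Wp σ (m + 1) X = ∑ g ∈ av (m + 1) X, hp σ g := by
  rw [Wp, sum_cons']
  refine Finset.sum_congr rfl fun v _ => ?_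
  rw [Sp_closed]

/-- The weight of a path with `m` vertices. -/
def pw (σ : V → V → ℤ) : (m : ℕ) → (Fin m → V) → ℤ
  | 0, _ => 1
  | _ + 1, f => hp σ f

lemma Wp_pw (σ : V → V → ℤ) (m : ℕ) (X : Finset V) : Wp σ m X = ∑ g ∈ av m X, pw σ m g := by
  cases m with
  | zero =>
    have h0 : av 0 X = {fun i => i.elim0} := by
      ext p
      simp only [mem_av, Finset.mem_singleton]
      constructor
      · intro _; funext i; exact i.elim0
      · rintro rfl; exact ⟨fun i => i.elim0, fun i => i.elim0⟩
    rw [h0, Finset.sum_singleton]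
    rfl
  | succ m => exact Wp_closed σ m X

lemma pw_cons (σ : V → V → ℤ) (m : ℕ) (v : V) (f : Fin m → V) (hv : ∀ w, σ v w = 1) :
    pw σ (m + 1) (Fin.cons v f) = pw σ m f := by
  cases m with
  | zero => simp [pw, hp]
  | succ m =>
    show hp σ (Fin.cons v f : Fin (m + 2) → V) = hp σ f
    rw [hp_cons, hv, one_mul]

lemma abs_hp {σ : V → V → ℤ} (hσ : IsSig σ) {a : ℕ} (p : Fin (a + 1) → V) : |hp σ p| = 1 := by
  unfold hp
  rw [Finset.abs_prod]
  exact Finset.prod_eq_one fun i _ => hσ.abs _ _

end

end MP_90430c
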