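import Mathlib
import Pool.Agent.Lib.MP_90430c_co.Count

/-! The size of the effect of a gadget. -/

open Finset

set_option linter.unusedSectionVars false

namespace MP_90430c

section

variable {V : Type*} [Fintype V] [DecidableEq V] {lab : V → ℕ × Bool} {s a b : ℕ}
  {l : ℕ} [NeZero l] {σ₀ : V → V → ℤ}

/-- The vertices of the gadget. -/
def UU (lab : V → ℕ × Bool) : Finset V := univ.filter fun x => (lab x).1 ≠ 0

/-- The vertices of level `p`. -/
def CC (lab : V → ℕ × Bool) (p : ℕ) : Finset V := univ.filter fun x => (lab x).1 = p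

lemma mem_UU {x : V} : x ∈ UU lab ↔ (lab x).1 ≠ 0 := by simp [UU]

lemma mem_CC {p : ℕ} {x : V} : x ∈ CC lab p ↔ (lab x).1 = p := by simp [CC]

lemma Gadget.lab_one (G : Gadget lab s a b) {x : V} (h : (lab x).1 = 1) : lab x = (1, false) := by
  apply Prod.ext h
  by_contra hcon
  refine G.noA x (Prod.ext h (by simpa using hcon))

lemma Gadget.lab_top (G : Gadget lab s a b) {x : V} (h : (lab x).1 = s) : lab x = (s, false) := by
  apply Prod.ext h
  by_contra hcon
  refine G.noB x (Prod.ext h (by simpa using hcon))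

lemma Gadget.card_CC_one (G : Gadget lab s a b) : (CC lab 1).card = a := by
  rw [← G.cardA]
  congr 1
  ext x
  simp only [CC, Finset.mem_filter, Finset.mem_univ, true_and]
  exact ⟨fun h => G.lab_one h, fun h => by rw [h]⟩

lemma Gadget.card_CC_top (G : Gadget lab s a b) : (CC lab s).card = b := by
  rw [← G.cardB]
  congr 1
  ext x
  simp only [CC, Finset.mem_filter, Finset.mem_univ, true_and]
  exact ⟨fun h => G.lab_top h, fun h => by rw [h]⟩

lemma Gadget.card_CC_mid (G : Gadget lab s a b) {p : ℕ} (h1 : 2 ≤ p) (h2 : p < s) :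
    (CC lab p).card ≤ 2 := by
  obtain ⟨x, _, hx⟩ := G.mid p h1 h2 false
  obtain ⟨y, _, hy⟩ := G.mid p h1 h2 true
  have : CC lab p ⊆ {x, y} := by
    intro z hz
    rw [mem_CC] at hz
    simp only [Finset.mem_insert, Finset.mem_singleton]
    rcases hb : (lab z).2 with _ | _
    · exact Or.inl (hx z (Prod.ext hz hb))
    · exact Or.inr (hy z (Prod.ext hz hb))
  exact (Finset.card_le_card this).trans Finset.card_le_two

lemma cp_eq_or (hσ : IsSig σ₀) (f : Fin l → V) : cp l σ₀ f = 1 ∨ cp l σ₀ f = -1 := by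
  have := abs_cp hσ f
  rcases abs_eq (by norm_num : (0 : ℤ) ≤ 1) |>.1 this with h | h
  · exact Or.inl h
  · exact Or.inr h

/-- All levels are used an odd number of times. -/
def KK (g : ℕ → V → V → ℤ) (s : ℕ) (f : Fin l → V) : Prop := ∀ j ∈ Icc 2 s, cp l (g j) f = -1

instance (g : ℕ → V → V → ℤ) (s : ℕ) (f : Fin l → V) : Decidable (KK g s f) := by
  unfold KK; infer_instance

lemma kappa {g : ℕ → V → V → ℤ} (hg : ∀ j, IsSig (g j)) (f : Fin l → V) :
    ∏ j ∈ Icc 2 s, (cp l (g j) f - 1) = if KK g s f then (-2) ^ (s - 1) else 0 := by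
  split_ifs with h
  · rw [Finset.prod_congr rfl fun j hj => by rw [h j hj], Finset.prod_const, Nat.card_Icc]
    congr 1
  · unfold KK at h
    push Not at h
    obtain ⟨j, hj, h1⟩ := h
    refine Finset.prod_eq_zero hj ?_
    rw [(cp_eq_or (hg j) f).resolve_right h1]
    norm_num

lemma gY_eq_neg' {j : ℕ} {x y : V} :
    gY lab j x y = -1 ↔ upY j (lab x) (lab y) ∨ upY j (lab y) (lab x) := by
  unfold gY
  split_ifs with h
  · simp [h]
  · simp [h]

lemma exists_of_cp_neg {τ : V → V → ℤ} (hτ : IsSig τ) {f : Fin l → V} (h : cp l τ f = -1) :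
    ∃ i, τ (f i) (f (i + 1)) = -1 := by
  by_contra hcon
  push Not at hcon
  have : cp l τ f = 1 := by
    unfold cp
    exact Finset.prod_eq_one fun i _ => ((hτ.val _ _).resolve_right (hcon i))
  rw [this] at h
  norm_num at h

lemma exists_up_Y {j : ℕ} {f : Fin l → V} (h : cp l (gY lab j) f = -1) :
    ∃ i, upY j (lab (f i)) (lab (f (i + 1))) ∨ upY j (lab (f (i + 1))) (lab (f i)) := by
  obtain ⟨i, hi⟩ := exists_of_cp_neg (isSig_gY lab j) h
  refine ⟨i, ?_⟩
  unfold gY at hi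
  by_contra hcon
  rw [if_neg hcon] at hi
  norm_num at hi

lemma exists_up_X {j : ℕ} {f : Fin l → V} (h : cp l (gX lab j) f = -1) :
    ∃ i, upX j (lab (f i)) (lab (f (i + 1))) ∨ upX j (lab (f (i + 1))) (lab (f i)) := by
  obtain ⟨i, hi⟩ := exists_of_cp_neg (isSig_gX lab j) h
  refine ⟨i, ?_⟩
  unfold gX at hi
  by_contra hcon
  rw [if_neg hcon] at hi
  norm_num at hi

lemma upX_levels {j : ℕ} (hj : 2 ≤ j) {p q : ℕ × Bool} (h : upX j p q) : p.1 + 1 = j ∧ q.1 = j := by
  rcases h with ⟨h1, h2, h3⟩ | ⟨_, h1⟩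
  · rw [h2, h3, h1]; simp
  · exact ⟨h1.1, h1.2.1⟩

lemma hit_Y (hs : 2 ≤ s) {f : Fin l → V} (h : KK (gY lab) s f) :
    ∀ p, 1 ≤ p → p ≤ s → ∃ i, (lab (f i)).1 = p := by
  intro p hp1 hp2
  rcases Nat.lt_or_ge 1 p with h1 | h1
  · obtain ⟨i, hi | hi⟩ := exists_up_Y (h p (Finset.mem_Icc.2 ⟨h1, hp2⟩))
    · exact ⟨i + 1, hi.2.1⟩
    · exact ⟨i, hi.2.1⟩
  · obtain ⟨i, hi | hi⟩ := exists_up_Y (h 2 (Finset.mem_Icc.2 ⟨le_rfl, hs⟩))
    · refine ⟨i, ?_⟩; have := hi.1; omega
    · refine ⟨i + 1, ?_⟩; have := hi.1; omega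

lemma hit_X (hs : 2 ≤ s) {f : Fin l → V} (h : KK (gX lab) s f) :
    ∀ p, 1 ≤ p → p ≤ s → ∃ i, (lab (f i)).1 = p := by
  intro p hp1 hp2
  rcases Nat.lt_or_ge 1 p with h1 | h1
  · obtain ⟨i, hi | hi⟩ := exists_up_X (h p (Finset.mem_Icc.2 ⟨h1, hp2⟩))
    · exact ⟨i + 1, (upX_levels h1 hi).2⟩
    · exact ⟨i, (upX_levels h1 hi).2⟩
  · obtain ⟨i, hi | hi⟩ := exists_up_X (h 2 (Finset.mem_Icc.2 ⟨le_rfl, hs⟩))
    · refine ⟨i, ?_⟩; have := (upX_levels le_rfl hi).1; omega
    · refine ⟨i + 1, ?_⟩; have := (upX_levels le_rfl hi).1; omega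

/-- The number of positions in the gadget. -/
def NU (lab : V → ℕ × Bool) (f : Fin l → V) : ℕ := (univ.filter fun i => (lab (f i)).1 ≠ 0).card

lemma le_NU {f : Fin l → V} (h : ∀ p, 1 ≤ p → p ≤ s → ∃ i, (lab (f i)).1 = p) : s ≤ NU lab f := by
  classical
  have h1 : Icc 1 s ⊆ (univ.filter fun i => (lab (f i)).1 ≠ 0).image fun i => (lab (f i)).1 := by
    intro p hp
    rw [Finset.mem_Icc] at hp
    obtain ⟨i, hi⟩ := h p hp.1 hp.2
    rw [Finset.mem_image]
    exact ⟨i, by simp [hi]; omega, hi⟩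
  have h2 := (Finset.card_le_card h1).trans Finset.card_image_le
  rw [Nat.card_Icc] at h2
  unfold NU
  omega

/-- If exactly `s` positions lie in the gadget then each level occurs exactly once. -/
lemma level_unique (hs : ∀ x, (lab x).1 ≤ s) {f : Fin l → V}
    (h : ∀ p, 1 ≤ p → p ≤ s → ∃ i, (lab (f i)).1 = p) (hN : NU lab f = s) {i j : Fin l}
    (hi : (lab (f i)).1 ≠ 0) (hij : (lab (f i)).1 = (lab (f j)).1) : i = j := by
  classical
  have h1 : (univ.filter fun i => (lab (f i)).1 ≠ 0).image (fun i => (lab (f i)).1) = Icc 1 s := by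
    ext p
    rw [Finset.mem_image, Finset.mem_Icc]
    constructor
    · rintro ⟨i, hi, rfl⟩
      rw [Finset.mem_filter] at hi
      exact ⟨Nat.one_le_iff_ne_zero.2 hi.2, hs _⟩
    · rintro ⟨h2, h3⟩
      obtain ⟨i, hi⟩ := h p h2 h3
      exact ⟨i, by simp [hi]; omega, hi⟩
  have h2 : ((univ.filter fun i => (lab (f i)).1 ≠ 0).image (fun i => (lab (f i)).1)).card
      = (univ.filter fun i => (lab (f i)).1 ≠ 0).card := by
    rw [h1, Nat.card_Icc]
    unfold NU at hN
    omega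
  rw [Finset.card_image_iff] at h2
  refine h2 (by simp [hi]) (by simp; rw [← hij]; exact hi) hij

/-- The sets which are hit by a sequence with too many vertices in the gadget. -/
def DD (lab : V → ℕ × Bool) (s : ℕ) (p : Fin (s + 1)) : Finset V :=
  if (p : ℕ) < s then CC lab (p + 1) else UU lab

lemma exists_q {f : Fin l → V} (h : ∀ p, 1 ≤ p → p ≤ s → ∃ i, (lab (f i)).1 = p)
    (hN : s + 1 ≤ NU lab f) :
    ∃ q : Fin (s + 1) → Fin l, Function.Injective q ∧ ∀ p, f (q p) ∈ DD lab s p := by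
  classical
  have h1 : ∀ p : Fin s, ∃ i, (lab (f i)).1 = (p : ℕ) + 1 := fun p => h _ (by omega) (by omega)
  choose i hi using h1
  obtain ⟨i0, h2, h3⟩ : ∃ i0, (lab (f i0)).1 ≠ 0 ∧ ∀ p, i p ≠ i0 := by
    have hcard : (univ.image i).card < (univ.filter fun i => (lab (f i)).1 ≠ 0).card := by
      refine lt_of_le_of_lt Finset.card_image_le ?_
      rw [Finset.card_univ, Fintype.card_fin]
      exact hN
    obtain ⟨i0, h2, h3⟩ := Finset.exists_mem_notMem_of_card_lt_card hcard
    refine ⟨i0, by simpa using h2, fun p hp => h3 ?_⟩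
    rw [Finset.mem_image]; exact ⟨p, Finset.mem_univ _, hp⟩
  refine ⟨Fin.snoc i i0, ?_, ?_⟩
  · intro p q hpq
    refine Fin.lastCases ?_ ?_ p (motive := fun p => (Fin.snoc i i0 : Fin (s + 1) → Fin l) p = (Fin.snoc i i0 : Fin (s + 1) → Fin l) q → p = q) hpq
    · refine Fin.lastCases (fun _ => rfl) (fun q h => ?_) q
      simp only [Fin.snoc_last, Fin.snoc_castSucc] at h
      exact absurd h.symm (h3 q)
    · intro p
      refine Fin.lastCases (fun h => ?_) (fun q h => ?_) q
      · simp only [Fin.snoc_last, Fin.snoc_castSucc] at h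
        exact absurd h (h3 p)
      · simp only [Fin.snoc_castSucc] at h
        congr 1
        have e1 := hi p
        rw [h, hi q] at e1
        ext
        omega
  · intro p
    refine Fin.lastCases ?_ (fun p => ?_) p
    · rw [Fin.snoc_last]
      unfold DD
      simp only [Fin.val_last, lt_irrefl, if_false]
      rw [mem_UU]
      exact h2
    · rw [Fin.snoc_castSucc]
      unfold DD
      simp only [Fin.val_castSucc, Fin.is_lt, if_true]
      rw [mem_CC]
      exact hi p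

lemma Gadget.prod_DD (G : Gadget lab s a b) :
    ∏ p, (DD lab s p).card ≤ a * 2 ^ s * b * (UU lab).card := by
  have hs := G.two_le
  rw [Fin.prod_univ_castSucc]
  have h1 : (DD lab s (Fin.last s)).card = (UU lab).card := by
    unfold DD; simp
  rw [h1]
  refine Nat.mul_le_mul_right _ ?_
  have h2 : ∀ p : Fin s, (DD lab s p.castSucc).card = (CC lab (p + 1)).card := by
    intro p; unfold DD; simp
  rw [Finset.prod_congr rfl fun p _ => h2 p]
  obtain ⟨t, rfl⟩ : ∃ t, s = t + 2 := ⟨s - 2, by omega⟩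
  rw [Fin.prod_univ_succ, Fin.prod_univ_castSucc]
  have h3 : ∏ i : Fin t, (CC lab (((Fin.castSucc i).succ : Fin (t + 2)) + 1)).card ≤ 2 ^ t := by
    refine (Finset.prod_le_prod' (g := fun _ => 2) fun i _ => ?_).trans ?_
    · apply G.card_CC_mid
      · simp
      · simp
    · simp
  have h4 : (CC lab (((Fin.last t).succ : Fin (t + 2)) + 1)).card = b := by
    have : (((Fin.last t).succ : Fin (t + 2)) : ℕ) + 1 = t + 2 := by simp
    rw [this]; exact G.card_CC_top
  have h5 : (CC lab (((0 : Fin (t + 2)) : ℕ) + 1)).card = a := by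
    simp only [Fin.val_zero, zero_add]; exact G.card_CC_one
  rw [h4, h5]
  calc a * ((∏ i : Fin t, (CC lab (((Fin.castSucc i).succ : Fin (t + 2)) + 1)).card) * b)
      ≤ a * (2 ^ t * b) := Nat.mul_le_mul_left _ (Nat.mul_le_mul_right _ h3)
    _ ≤ a * (2 ^ (t + 2) * b) := Nat.mul_le_mul_left _ (Nat.mul_le_mul_right _
        (Nat.pow_le_pow_right (by norm_num) (by omega)))
    _ = a * 2 ^ (t + 2) * b := by ring

/-- The number of sequences with too many vertices in the gadget. -/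
lemma Gadget.card_many (G : Gadget lab s a b) (S : Finset (Fin l → V))
    (hS : ∀ f ∈ S, (∀ p, 1 ≤ p → p ≤ s → ∃ i, (lab (f i)).1 = p) ∧ s + 1 ≤ NU lab f) :
    S.card ≤ l ^ (s + 1) * ((a * 2 ^ s * b * (UU lab).card) * Fintype.card V ^ (l - (s + 1))) := by
  refine (card_hit (DD lab s) S fun f hf => exists_q (hS f hf).1 (hS f hf).2).trans ?_
  exact Nat.mul_le_mul_left _ (Nat.mul_le_mul_right _ G.prod_DD)

lemma NU_le (f : Fin l → V) : NU lab f ≤ l := by
  unfold NU
  refine (Finset.card_le_univ _).trans ?_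
  rw [Fintype.card_fin]

end

end MP_90430c
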