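import Mathlib
import Pool.Agent.Lib.MP_90430c_co.Effect

/-! The main term of the effect of a gadget. -/

open Finset

set_option linter.unusedSectionVars false

namespace MP_90430c

section

variable {V : Type*} [Fintype V] [DecidableEq V] {lab : V → ℕ × Bool} {s a b : ℕ}
  {l : ℕ} [NeZero l] {σ₀ : V → V → ℤ}

/-- The closed sequences which run through the gadget once, starting with level `1`. -/
def M0 (lab : V → ℕ × Bool) (s : ℕ) (f : Fin l → V) : Prop :=
  (∀ i : Fin l, (i : ℕ) < s → lab (f i) = ((i : ℕ) + 1, false)) ∧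
    ∀ i : Fin l, s ≤ (i : ℕ) → (lab (f i)).1 = 0

instance (lab : V → ℕ × Bool) (s : ℕ) (f : Fin l → V) : Decidable (M0 lab s f) := by
  unfold M0; infer_instance

lemma val_add_one_of_lt' {i : Fin l} (h : (i : ℕ) + 1 < l) : ((i + 1 : Fin l) : ℕ) = i + 1 := by
  rw [Fin.val_add]
  have h1 : ((1 : Fin l) : ℕ) = 1 := by
    have : (1 : Fin l) = Fin.ofNat l 1 := rfl
    rw [this]
    simp [Fin.ofNat, Nat.mod_eq_of_lt (by omega : 1 < l)]
  rw [h1, Nat.mod_eq_of_lt h]

lemma val_add_one_of_last' {i : Fin l} (h : (i : ℕ) + 1 = l) : ((i + 1 : Fin l) : ℕ) = 0 := by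
  rw [Fin.val_add]
  rcases Nat.lt_or_ge 1 l with h2 | h2
  · have h1 : ((1 : Fin l) : ℕ) = 1 := by
      have : (1 : Fin l) = Fin.ofNat l 1 := rfl
      rw [this]
      simp [Fin.ofNat, Nat.mod_eq_of_lt h2]
    rw [h1, h, Nat.mod_self]
  · have : l = 1 := by have := i.2; omega
    subst this
    simp

lemma M0_of (G : Gadget lab s a b) (hl : 3 ≤ l) (hsl : s ≤ l) {f : Fin l → V}
    (hK : KK (gY lab) s f) (hN : NU lab f = s) (h0 : (lab (f 0)).1 = 1)
    (h1 : (lab (f 1)).1 = 2) : M0 lab s f := by
  have hs := G.two_le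
  have hit := hit_Y hs hK
  have huniq : ∀ {i j : Fin l}, (lab (f i)).1 ≠ 0 → (lab (f i)).1 = (lab (f j)).1 → i = j :=
    fun hi hij => level_unique G.top hit hN hi hij
  have v0 : ((0 : Fin l) : ℕ) = 0 := by simp
  have v1 : ((1 : Fin l) : ℕ) = 1 := by
    have : (1 : Fin l) = Fin.ofNat l 1 := rfl
    rw [this]
    simp [Fin.ofNat, Nat.mod_eq_of_lt (by omega : 1 < l)]
  have key : ∀ p : ℕ, ∀ i : Fin l, (i : ℕ) = p → p < s → lab (f i) = (p + 1, false) := by
    intro p
    induction p using Nat.strong_induction_on with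
    | _ p ih =>
      intro i hip hps
      rcases Nat.eq_zero_or_pos p with rfl | hp
      · have : i = 0 := Fin.ext (by rw [hip, v0])
        rw [this]
        exact G.lab_one h0
      · -- the vertex before
        have hi0 : 0 < l := by omega
        set i' : Fin l := ⟨p - 1, by omega⟩ with hi'
        have hlab' := ih (p - 1) (by omega) i' rfl (by omega)
        have hi'1 : i' + 1 = i := by
          apply Fin.ext
          rw [val_add_one_of_lt' (by rw [hi']; simp only; omega)]
          rw [hi']; simp only; omega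
        have hlev' : (lab (f i')).1 = p := by rw [hlab']; simp only; omega
        obtain ⟨k, hk⟩ := exists_up_Y (hK (p + 1) (Finset.mem_Icc.2 ⟨by omega, by omega⟩))
        rcases hk with hk | hk
        · have hk1 : k = i' := huniq (by have := hk.1; omega) (by rw [hlev']; have := hk.1; omega)
          rw [hk1, hi'1] at hk
          apply Prod.ext
          · exact hk.2.1
          · simp only
            rw [← hk.2.2.2, hlab']
        · have hk1 : k + 1 = i' := huniq (by have := hk.1; omega) (by rw [hlev']; have := hk.1; omega)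
          exfalso
          rcases Nat.lt_or_ge 1 p with hp2 | hp2
          · set i'' : Fin l := ⟨p - 2, by omega⟩ with hi''
            have h2 : i'' + 1 = i' := by
              apply Fin.ext
              rw [val_add_one_of_lt' (by rw [hi'']; simp only; omega)]
              rw [hi', hi'']; simp only; omega
            have h3 : k = i'' := add_right_cancel (hk1.trans h2.symm)
            have h4 := ih (p - 2) (by omega) i'' rfl (by omega)
            have h5 := hk.2.1
            rw [h3, h4] at h5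
            simp only at h5
            omega
          · have hp1 : p = 1 := by omega
            have h3 : (lab (f k)).1 = 2 := by have := hk.2.1; omega
            have h4 : k = 1 := huniq (by omega) (by rw [h3, h1])
            have h5 : i' = 0 := by
              apply Fin.ext
              rw [hi', v0]; simp only; omega
            rw [h4, h5] at hk1
            have h6 := congrArg Fin.val hk1
            rw [val_add_one_of_lt' (by rw [v1]; omega), v1, v0] at h6
            omega
  refine ⟨fun i hi => key i i rfl hi, fun i hi => ?_⟩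
  by_contra hcon
  set q := (lab (f i)).1 with hq
  have hqs : q ≤ s := G.top _
  have hq1 : 1 ≤ q := Nat.one_le_iff_ne_zero.2 hcon
  set j : Fin l := ⟨q - 1, by omega⟩ with hj
  have h2 := key (q - 1) j rfl (by omega)
  have h3 : i = j := huniq hcon (by rw [h2, ← hq]; simp only; omega)
  rw [h3, hj] at hi
  simp only at hi
  omega

lemma M0.levels {f : Fin l → V} (h : M0 lab s f) (i : Fin l) :
    (lab (f i)).1 = if (i : ℕ) < s then (i : ℕ) + 1 else 0 := by
  split_ifs with hi
  · rw [h.1 i hi]
  · exact h.2 i (by omega)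

lemma M0.KK (hs : 2 ≤ s) (hl : 3 ≤ l) (hsl : s ≤ l) {f : Fin l → V} (h : M0 lab s f) :
    KK (gY lab) s f := by
  intro j hj
  rw [Finset.mem_Icc] at hj
  unfold cp
  have hil : j - 2 < l := by omega
  set i0 : Fin l := ⟨j - 2, hil⟩ with hi0
  have e0 : ((i0 + 1 : Fin l) : ℕ) = j - 1 := by
    rw [val_add_one_of_lt' (by rw [hi0]; simp only; omega)]
    rw [hi0]; simp only; omega
  rw [Finset.prod_eq_single i0]
  · rw [gY_eq_neg']
    left
    rw [h.1 i0 (by rw [hi0]; simp only; omega), h.1 (i0 + 1) (by rw [e0]; omega), e0]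
    refine ⟨?_, ?_, ?_, rfl⟩
    · rw [hi0]; simp only; omega
    · simp only; omega
    · simp only; omega
  · intro i _ hne
    have hne' : (i : ℕ) ≠ j - 2 := fun e => hne (Fin.ext (by rw [e]))
    have hl1 := h.levels i
    have hl2 := h.levels (i + 1)
    unfold gY
    rw [if_neg]
    have hcases : ((i + 1 : Fin l) : ℕ) = i + 1 ∧ (i : ℕ) + 1 < l
        ∨ ((i + 1 : Fin l) : ℕ) = 0 ∧ (i : ℕ) + 1 = l := by
      have := i.2
      rcases Nat.lt_or_ge ((i : ℕ) + 1) l with h1 | h1
      · exact Or.inl ⟨val_add_one_of_lt' h1, h1⟩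
      · exact Or.inr ⟨val_add_one_of_last' (by omega), by omega⟩
    rintro (hu | hu)
    · obtain ⟨u1, u2, u3, _⟩ := hu
      rw [hl1] at u1 u3
      rw [hl2] at u2
      rcases hcases with ⟨e1, e2⟩ | ⟨e1, e2⟩
      · rw [e1] at u2
        split_ifs at u1 u2 u3 <;> omega
      · rw [e1] at u2
        split_ifs at u1 u2 u3 <;> omega
    · obtain ⟨u1, u2, u3, _⟩ := hu
      rw [hl2] at u1 u3
      rw [hl1] at u2
      rcases hcases with ⟨e1, e2⟩ | ⟨e1, e2⟩
      · rw [e1] at u1 u3
        split_ifs at u1 u2 u3 <;> omega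
      · rw [e1] at u1 u3
        split_ifs at u1 u2 u3 <;> omega
  · simp

lemma M0.NU (hsl : s ≤ l) {f : Fin l → V} (h : M0 lab s f) : NU lab f = s := by
  unfold MP_90430c.NU
  have : (univ.filter fun i => (lab (f i)).1 ≠ 0)
      = univ.filter fun i : Fin l => (i : ℕ) < s := by
    ext i
    simp only [Finset.mem_filter, Finset.mem_univ, true_and]
    rw [h.levels i]
    split_ifs with h1 <;> simp [h1]
  rw [this]
  rw [Fin.card_filter_val_lt]
  omega

/-- The sequences of length `k + d` whose first `d` vertices are the unprimed vertices of the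
last `d` levels. -/
def CD (lab : V → ℕ × Bool) (s k d : ℕ) (f : Fin (k + d) → V) : Prop :=
  (∀ i : Fin (k + d), (i : ℕ) < d → lab (f i) = (s - d + 1 + (i : ℕ), false)) ∧
    ∀ i : Fin (k + d), d ≤ (i : ℕ) → (lab (f i)).1 = 0

instance (lab : V → ℕ × Bool) (s k d : ℕ) (f : Fin (k + d) → V) : Decidable (CD lab s k d f) := by
  unfold CD; infer_instance

/-- The number of unprimed vertices of level `q`. -/
def wl (lab : V → ℕ × Bool) (q : ℕ) : ℕ := (univ.filter fun x => lab x = (q, false)).card

lemma CD_cons {k d : ℕ} (hd : d + 1 ≤ s) (v : V) (f : Fin (k + d) → V) :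
    CD lab s k (d + 1) (Fin.cons v f : Fin (k + d + 1) → V) ↔ lab v = (s - d, false) ∧ CD lab s k d f := by
  unfold CD
  constructor
  · rintro ⟨h1, h2⟩
    refine ⟨?_, fun i hi => ?_, fun i hi => ?_⟩
    · have := h1 0 (by simp)
      simp only [Fin.cons_zero] at this
      rw [this]
      apply Prod.ext
      · have e : (((0 : Fin (k + (d + 1))) : ℕ)) = 0 := rfl
        simp only [e]; omega
      · rfl
    · have := h1 i.succ (by have e : ((i.succ : Fin (k + d + 1)) : ℕ) = i + 1 := rfl
                            show ((i.succ : Fin (k + d + 1)) : ℕ) < d + 1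
                            omega)
      simp only [Fin.cons_succ] at this
      rw [this]
      apply Prod.ext
      · show s - (d + 1) + 1 + ((i.succ : Fin (k + d + 1)) : ℕ) = s - d + 1 + (i : ℕ)
        have e : ((i.succ : Fin (k + d + 1)) : ℕ) = i + 1 := rfl
        omega
      · rfl
    · have := h2 i.succ (by have e : ((i.succ : Fin (k + d + 1)) : ℕ) = i + 1 := rfl
                            show d + 1 ≤ ((i.succ : Fin (k + d + 1)) : ℕ)
                            omega)
      simpa only [Fin.cons_succ] using this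
  · rintro ⟨h0, h1, h2⟩
    have key : ∀ P : Fin (k + d + 1) → Prop, P 0 → (∀ i : Fin (k + d), P i.succ) → ∀ i, P i :=
      fun P h0 h1 i => Fin.cases h0 h1 i
    refine ⟨key _ (fun _ => ?_) (fun i hi => ?_), key _ (fun h => ?_) (fun i hi => ?_)⟩
    · simp only [Fin.cons_zero]
      rw [h0]
      apply Prod.ext
      · have e : (((0 : Fin (k + (d + 1))) : ℕ)) = 0 := rfl
        simp only [e]
        show s - d = s - (d + 1) + 1 + 0
        omega
      · rfl
    · simp only [Fin.cons_succ]
      have e : ((i.succ : Fin (k + d + 1)) : ℕ) = i + 1 := rfl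
      have hi' : ((i.succ : Fin (k + d + 1)) : ℕ) < d + 1 := hi
      rw [h1 i (by omega)]
      apply Prod.ext
      · show s - d + 1 + (i : ℕ) = s - (d + 1) + 1 + ((i.succ : Fin (k + d + 1)) : ℕ)
        omega
      · rfl
    · exact absurd h (by simp)
    · simp only [Fin.cons_succ]
      have e : ((i.succ : Fin (k + d + 1)) : ℕ) = i + 1 := rfl
      have hi' : d + 1 ≤ ((i.succ : Fin (k + d + 1)) : ℕ) := hi
      exact h2 i (by omega)

lemma R_sum (h0 : PosAt σ₀ lab) (k : ℕ) : ∀ d ≤ s, ∀ X : Finset V, X ⊆ UU lab →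
    (∀ x ∈ X, (lab x).1 ≤ s - d) →
    ∑ f ∈ av (k + d) X, (if CD lab s k d f then pw σ₀ (k + d) f else 0)
      = ((∏ i ∈ range d, wl lab (s - i) : ℕ) : ℤ) * Wp σ₀ k (UU lab) := by
  intro d
  induction d with
  | zero =>
    intro _ X hX _
    rw [Finset.prod_range_zero, Nat.cast_one, one_mul, Wp_pw, ← Finset.sum_filter]
    refine Finset.sum_congr ?_ fun _ _ => rfl
    ext f
    rw [Finset.mem_filter, mem_av, mem_av]
    unfold CD
    constructor
    · rintro ⟨⟨h1, _⟩, _, h2⟩
      exact ⟨h1, fun i => by rw [mem_UU, not_not]; exact h2 i (Nat.zero_le _)⟩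
    · rintro ⟨h1, h2⟩
      refine ⟨⟨h1, fun i hi => h2 i (hX hi)⟩, fun i hi => absurd hi (Nat.not_lt_zero _), fun i _ => ?_⟩
      have := h2 i
      rw [mem_UU, not_not] at this
      exact this
  | succ d ih =>
    intro hd X hX hXl
    have hsum := sum_cons' (k + d) X
      (fun f => if CD lab s k (d + 1) f then pw σ₀ (k + (d + 1)) f else 0)
    refine hsum.trans ?_
    have hin : ∀ v ∈ Xᶜ, ∑ p ∈ av (k + d) (insert v X),
        (if CD lab s k (d + 1) (Fin.cons v p : Fin (k + d + 1) → V)
          then pw σ₀ (k + (d + 1)) (Fin.cons v p : Fin (k + d + 1) → V) else 0)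
        = if lab v = (s - d, false) then
          ((∏ i ∈ range d, wl lab (s - i) : ℕ) : ℤ) * Wp σ₀ k (UU lab) else 0 := by
      intro v _
      by_cases hv : lab v = (s - d, false)
      · rw [if_pos hv]
        have hv0 : (lab v).1 ≠ 0 := by rw [hv]; simp only; omega
        rw [← ih (by omega) (insert v X)]
        · refine Finset.sum_congr rfl fun p _ => ?_
          have e1 : CD lab s k (d + 1) (Fin.cons v p : Fin (k + d + 1) → V) ↔ CD lab s k d p := by
            rw [CD_cons hd]; simp [hv]
          have e2 : pw σ₀ (k + (d + 1)) (Fin.cons v p : Fin (k + d + 1) → V) = pw σ₀ (k + d) p :=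
            pw_cons σ₀ (k + d) v p (fun w => (h0 v w hv0).1)
          rw [e2]
          exact if_congr e1 rfl rfl
        · intro x hx
          rw [Finset.mem_insert] at hx
          rcases hx with rfl | hx
          · rw [mem_UU]; exact hv0
          · exact hX hx
        · intro x hx
          rw [Finset.mem_insert] at hx
          rcases hx with rfl | hx
          · rw [hv]
          · have := hXl x hx
            omega
      · rw [if_neg hv]
        refine Finset.sum_eq_zero fun p _ => ?_
        rw [if_neg]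
        rw [CD_cons hd]
        exact fun h => hv h.1
    rw [Finset.sum_congr rfl hin, ← Finset.sum_filter, Finset.sum_const, Finset.prod_range_succ]
    have hc : (Xᶜ.filter fun v => lab v = (s - d, false)).card = wl lab (s - d) := by
      unfold wl
      congr 1
      ext v
      simp only [Finset.mem_filter, Finset.mem_compl, Finset.mem_univ, true_and, and_iff_right_iff_imp]
      intro hv hvX
      have := hXl v hvX
      rw [hv] at this
      simp only at this
      omega
    rw [hc]
    push_cast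
    simp only [nsmul_eq_mul]
    ring

lemma Gadget.prod_wl (G : Gadget lab s a b) : ∏ i ∈ range s, wl lab (s - i) = a * b := by
  have hs := G.two_le
  obtain ⟨t, rfl⟩ : ∃ t, s = t + 2 := ⟨s - 2, by omega⟩
  rw [Finset.prod_range_succ, Finset.prod_range_succ']
  have h1 : wl lab (t + 2 - 0) = b := by
    rw [Nat.sub_zero]; exact G.cardB
  have h2 : wl lab (t + 2 - (t + 1)) = a := by
    have : t + 2 - (t + 1) = 1 := by omega
    rw [this]; exact G.cardA
  have h3 : ∏ i ∈ range t, wl lab (t + 2 - (i + 1)) = 1 := by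
    refine Finset.prod_eq_one fun i hi => ?_
    rw [Finset.mem_range] at hi
    unfold wl
    rw [Finset.card_eq_one]
    obtain ⟨x, hx, hxu⟩ := G.mid (t + 2 - (i + 1)) (by omega) (by omega) false
    refine ⟨x, ?_⟩
    ext z
    simp only [Finset.mem_filter, Finset.mem_univ, true_and, Finset.mem_singleton]
    exact ⟨fun hz => hxu z hz, fun hz => by rw [hz]; exact hx⟩
  rw [h1, h2, h3]
  ring

lemma sum_M0 (G : Gadget lab s a b) (h0 : PosAt σ₀ lab) (hsl : s ≤ l) :
    ∑ f ∈ inj l V, (if M0 lab s f then cp l σ₀ f else 0)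
      = ((a * b : ℕ) : ℤ) * Wp σ₀ (l - s) (UU lab) := by
  obtain ⟨k, rfl⟩ : ∃ k, l = k + s := ⟨l - s, by omega⟩
  rw [Nat.add_sub_cancel, ← G.prod_wl, ← R_sum h0 k s le_rfl ∅ (by simp) (by simp)]
  have hs := G.two_le
  have hinj : inj (k + s) V = av (k + s) ∅ := by
    ext f; simp [mem_inj, mem_av]
  rw [hinj]
  refine Finset.sum_congr rfl fun f _ => ?_
  have e1 : M0 lab s f ↔ CD lab s k s f := by
    unfold M0 CD
    have : ∀ i : ℕ, s - s + 1 + i = i + 1 := fun i => by omega
    simp only [this]
  by_cases h : M0 lab s f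
  · rw [if_pos h, if_pos (e1.1 h)]
    obtain ⟨t, rfl⟩ : ∃ t, s = t + 2 := ⟨s - 2, by omega⟩
    have h1 : cp (k + (t + 2)) σ₀ f = hp (a := k + t + 1) σ₀ f * σ₀ (f (Fin.last (k + t + 1))) (f (0 : Fin (k + t + 1 + 1))) :=
      cp_eq_hp (k + t + 1) σ₀ f
    rw [h1]
    have h2 : (lab (f (0 : Fin (k + t + 1 + 1)))).1 ≠ 0 := by
      have := h.1 (0 : Fin (k + t + 1 + 1)) (by simp)
      rw [this]; simp
    rw [(h0 _ _ h2).2, mul_one]
    rfl
  · rw [if_neg h, if_neg (fun h' => h (e1.2 h'))]

lemma NU_rot (c : Fin l) (f : Fin l → V) : NU lab (fun i => f (i + c)) = NU lab f := by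
  unfold MP_90430c.NU
  refine Finset.card_nbij' (fun i => i + c) (fun i => i - c) ?_ ?_ ?_ ?_
  · intro i hi; simpa using hi
  · intro i hi; simpa using hi
  · intro i _; simp
  · intro i _; simp

lemma NU_refl (f : Fin l → V) : NU lab (fun i => f (1 - i)) = NU lab f := by
  unfold MP_90430c.NU
  refine Finset.card_nbij' (fun i => 1 - i) (fun i => 1 - i) ?_ ?_ ?_ ?_
  · intro i hi; simpa using hi
  · intro i hi; simpa using hi
  · intro i _; simp
  · intro i _; simp

lemma main_sum (G : Gadget lab s a b) (hσ : IsSig σ₀) (h0 : PosAt σ₀ lab) (hl : 3 ≤ l)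
    (hsl : s ≤ l) :
    ∑ f ∈ inj l V, (if KK (gY lab) s f ∧ NU lab f = s then cp l σ₀ f else 0)
      = 2 * l * (((a * b : ℕ) : ℤ) * Wp σ₀ (l - s) (UU lab)) := by
  have hs := G.two_le
  set F : (Fin l → V) → ℤ := fun f => if KK (gY lab) s f ∧ NU lab f = s then cp l σ₀ f else 0
    with hF
  have hD : Dih F := by
    refine ⟨fun c f => ?_, fun f => ?_⟩
    · rw [hF]
      dsimp only
      rw [NU_rot, cp_rot]
      refine if_congr (and_congr_left fun _ => ?_) rfl rfl
      unfold KK
      simp only [cp_rot]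
    · rw [hF]
      dsimp only
      rw [NU_refl, cp_refl hσ.symm]
      refine if_congr (and_congr_left fun _ => ?_) rfl rfl
      unfold KK
      simp only [cp_refl (gY_symm lab _)]
  have step1 : ∀ f ∈ inj l V, F f
      = ∑ x ∈ CC lab 1, ∑ y ∈ CC lab 2, (if Uses f x y then F f else 0) := by
    intro f hf
    by_cases hc : KK (gY lab) s f ∧ NU lab f = s
    · obtain ⟨hK, hN⟩ := hc
      have hit := hit_Y hs hK
      have huniq : ∀ {i j : Fin l}, (lab (f i)).1 ≠ 0 → (lab (f i)).1 = (lab (f j)).1 → i = j :=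
        fun hi hij => level_unique G.top hit hN hi hij
      obtain ⟨i1, hi1⟩ := hit 1 le_rfl (by omega)
      obtain ⟨i2, hi2⟩ := hit 2 (by omega) hs
      have hU : Uses f (f i1) (f i2) := by
        obtain ⟨i, hi | hi⟩ := exists_up_Y (hK 2 (Finset.mem_Icc.2 ⟨le_rfl, hs⟩))
        · have e1 : i = i1 := huniq (by have := hi.1; omega) (by have := hi.1; omega)
          have e2 : i + 1 = i2 := huniq (by have := hi.2.1; omega) (by have := hi.2.1; omega)
          exact ⟨i, Or.inl ⟨by rw [e1], by rw [e2]⟩⟩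
        · have e1 : i + 1 = i1 := huniq (by have := hi.1; omega) (by have := hi.1; omega)
          have e2 : i = i2 := huniq (by have := hi.2.1; omega) (by have := hi.2.1; omega)
          exact ⟨i, Or.inr ⟨by rw [e2], by rw [e1]⟩⟩
      have hx : ∀ x y, (lab x).1 = 1 → Uses f x y → x = f i1 := by
        rintro x y hx ⟨i, ⟨h1, _⟩ | ⟨_, h1⟩⟩
        · rw [← h1, huniq (i := i) (j := i1) (by rw [h1]; omega) (by rw [h1]; omega)]
        · rw [← h1, huniq (i := i + 1) (j := i1) (by rw [h1]; omega) (by rw [h1]; omega)]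
      have hy : ∀ x y, (lab y).1 = 2 → Uses f x y → y = f i2 := by
        rintro x y hy ⟨i, ⟨_, h1⟩ | ⟨h1, _⟩⟩
        · rw [← h1, huniq (i := i + 1) (j := i2) (by rw [h1]; omega) (by rw [h1]; omega)]
        · rw [← h1, huniq (i := i) (j := i2) (by rw [h1]; omega) (by rw [h1]; omega)]
      rw [Finset.sum_eq_single (f i1), Finset.sum_eq_single (f i2), if_pos hU]
      · intro y hy1 hne
        rw [if_neg]
        intro h
        exact hne (hy _ _ (mem_CC.1 hy1) h)
      · intro h
        exact absurd (mem_CC.2 hi2) h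
      · intro x hx1 hne
        refine Finset.sum_eq_zero fun y _ => ?_
        rw [if_neg]
        intro h
        exact hne (hx _ _ (mem_CC.1 hx1) h)
      · intro h
        exact absurd (mem_CC.2 hi1) h
    · have hz : F f = 0 := by rw [hF]; dsimp only; rw [if_neg hc]
      rw [hz]
      simp
  rw [Finset.sum_congr rfl step1, Finset.sum_comm]
  have step2 : ∀ x ∈ CC lab 1, ∑ f ∈ inj l V, ∑ y ∈ CC lab 2, (if Uses f x y then F f else 0)
      = 2 * l * ∑ f ∈ inj l V, ∑ y ∈ CC lab 2, (if f 0 = x ∧ f 1 = y then F f else 0) := by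
    intro x _
    rw [Finset.sum_comm, Finset.sum_comm (s := inj l V), Finset.mul_sum]
    exact Finset.sum_congr rfl fun y _ => root hl hD
  rw [Finset.sum_congr rfl step2, ← Finset.mul_sum, Finset.sum_comm, ← sum_M0 G h0 hsl]
  congr 1
  refine Finset.sum_congr rfl fun f hf => ?_
  have step3 : ∑ x ∈ CC lab 1, ∑ y ∈ CC lab 2, (if f 0 = x ∧ f 1 = y then F f else 0)
      = if f 0 ∈ CC lab 1 ∧ f 1 ∈ CC lab 2 then F f else 0 := by
    by_cases h1 : f 0 ∈ CC lab 1
    · by_cases h2 : f 1 ∈ CC lab 2
      · rw [if_pos ⟨h1, h2⟩, Finset.sum_eq_single (f 0), Finset.sum_eq_single (f 1),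
          if_pos ⟨rfl, rfl⟩]
        · intro y _ hne
          rw [if_neg]; rintro ⟨_, h⟩; exact hne h.symm
        · intro h; exact absurd h2 h
        · intro x _ hne
          refine Finset.sum_eq_zero fun y _ => ?_
          rw [if_neg]; rintro ⟨h, _⟩; exact hne h.symm
        · intro h; exact absurd h1 h
      · rw [if_neg (fun h => h2 h.2)]
        refine Finset.sum_eq_zero fun x _ => Finset.sum_eq_zero fun y hy => ?_
        rw [if_neg]
        rintro ⟨_, h⟩
        exact h2 (h ▸ hy)
    · rw [if_neg (fun h => h1 h.1)]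
      refine Finset.sum_eq_zero fun x hx => Finset.sum_eq_zero fun y _ => ?_
      rw [if_neg]
      rintro ⟨h, _⟩
      exact h1 (h ▸ hx)
  rw [step3]
  by_cases hM : M0 lab s f
  · have v1 : ((1 : Fin l) : ℕ) = 1 := by
      have : (1 : Fin l) = Fin.ofNat l 1 := rfl
      rw [this]
      simp [Fin.ofNat, Nat.mod_eq_of_lt (by omega : 1 < l)]
    have c1 : f 0 ∈ CC lab 1 := by
      rw [mem_CC, hM.levels 0]; simp; omega
    have c2 : f 1 ∈ CC lab 2 := by
      rw [mem_CC, hM.levels 1, v1]; simp; omega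
    rw [if_pos hM, if_pos ⟨c1, c2⟩, hF]
    dsimp only
    rw [if_pos ⟨hM.KK hs hl hsl, hM.NU hsl⟩]
  · rw [if_neg hM]
    split_ifs with hc
    · rw [hF]
      dsimp only
      rw [if_neg]
      rintro ⟨hK, hN⟩
      exact hM (M0_of G hl hsl hK hN (mem_CC.1 hc.1) (mem_CC.1 hc.2))
    · rfl

lemma KX_many (G : Gadget lab s a b) {f : Fin l → V} (hK : KK (gX lab) s f) :
    s + 1 ≤ NU lab f := by
  have hs := G.two_le
  have hit := hit_X hs hK
  by_contra hcon
  have hN : NU lab f = s := by
    have := le_NU hit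
    omega
  have huniq : ∀ {i j : Fin l}, (lab (f i)).1 ≠ 0 → (lab (f i)).1 = (lab (f j)).1 → i = j :=
    fun hi hij => level_unique G.top hit hN hi hij
  have key : ∀ p, 2 ≤ p → p ≤ s → ∃ i, lab (f i) = (p, true) := by
    intro p hp
    induction p, hp using Nat.le_induction with
    | base =>
      intro _
      obtain ⟨i, hi | hi⟩ := exists_up_X (hK 2 (Finset.mem_Icc.2 ⟨le_rfl, hs⟩))
      · rcases hi with ⟨_, _, h3⟩ | ⟨h, _⟩
        · exact ⟨i + 1, h3⟩
        · exact absurd rfl h
      · rcases hi with ⟨_, _, h3⟩ | ⟨h, _⟩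
        · exact ⟨i, h3⟩
        · exact absurd rfl h
    | succ p hp ih =>
      intro hps
      obtain ⟨i0, hi0⟩ := ih (by omega)
      obtain ⟨i, hi | hi⟩ := exists_up_X (hK (p + 1) (Finset.mem_Icc.2 ⟨by omega, hps⟩))
      · rcases hi with ⟨h, _⟩ | ⟨_, h⟩
        · omega
        · have e : i = i0 := huniq (by have := h.1; omega) (by rw [hi0]; have := h.1; simp only; omega)
          refine ⟨i + 1, Prod.ext h.2.1 ?_⟩
          simp only
          rw [← h.2.2.2, e, hi0]
      · rcases hi with ⟨h, _⟩ | ⟨_, h⟩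
        · omega
        · have e : i + 1 = i0 := huniq (by have := h.1; omega) (by rw [hi0]; have := h.1; simp only; omega)
          refine ⟨i, Prod.ext h.2.1 ?_⟩
          simp only
          rw [← h.2.2.2, e, hi0]
  obtain ⟨i, hi⟩ := key s hs le_rfl
  exact G.noB _ hi

/-- The effect of a gadget. -/
theorem effect (G : Gadget lab s a b) (hσ : IsSig σ₀) (h0 : PosAt σ₀ lab) (hl : 3 ≤ l)
    (hsl : s ≤ l) :
    ∃ E : ℤ, Z l (sigY σ₀ lab s) - Z l (sigX σ₀ lab s)
        = (-2) ^ (s - 1) * (2 * l * (((a * b : ℕ) : ℤ) * Wp σ₀ (l - s) (UU lab)) + E) ∧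
      |E| ≤ 2 * ((l ^ (s + 1) * ((a * 2 ^ s * b * (UU lab).card)
        * Fintype.card V ^ (l - (s + 1))) : ℕ) : ℤ) ∧ (s = l → E = 0) := by
  classical
  have hs := G.two_le
  set E1 : ℤ := ∑ f ∈ inj l V, (if KK (gY lab) s f ∧ NU lab f ≠ s then cp l σ₀ f else 0) with hE1
  set E2 : ℤ := ∑ f ∈ inj l V, (if KK (gX lab) s f then cp l σ₀ f else 0) with hE2
  have hbound : ∀ P : (Fin l → V) → Prop, ∀ _ : DecidablePred P,
      (∀ f, P f → (∀ p, 1 ≤ p → p ≤ s → ∃ i, (lab (f i)).1 = p) ∧ s + 1 ≤ NU lab f) →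
      |∑ f ∈ inj l V, (if P f then cp l σ₀ f else 0)|
        ≤ ((l ^ (s + 1) * ((a * 2 ^ s * b * (UU lab).card)
        * Fintype.card V ^ (l - (s + 1))) : ℕ) : ℤ) := by
    intro P _ hP
    rw [← Finset.sum_filter]
    refine (Finset.abs_sum_le_sum_abs _ _).trans ?_
    rw [Finset.sum_congr rfl fun f _ => abs_cp hσ f, Finset.sum_const, nsmul_eq_mul, mul_one]
    exact_mod_cast G.card_many _ fun f hf => hP f (Finset.mem_filter.1 hf).2
  refine ⟨E1 - E2, ?_, ?_, ?_⟩
  · rw [G.identity h0, ← main_sum G hσ h0 hl hsl, hE1, hE2]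
    simp only [kappa (isSig_gY lab), kappa (isSig_gX lab)]
    rw [← Finset.sum_sub_distrib, ← Finset.sum_add_distrib, Finset.mul_sum]
    refine Finset.sum_congr rfl fun f _ => ?_
    by_cases h1 : KK (gY lab) s f <;> by_cases h2 : KK (gX lab) s f <;>
      by_cases h3 : NU lab f = s <;> simp [h1, h2, h3] <;> ring
  · refine (abs_sub _ _).trans ?_
    rw [two_mul]
    refine add_le_add ?_ ?_
    · refine hbound _ _ fun f hf => ?_
      have hit := hit_Y hs hf.1
      refine ⟨hit, ?_⟩
      have := le_NU hit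
      have := hf.2
      omega
    · exact hbound _ _ fun f hf => ⟨hit_X hs hf, KX_many G hf⟩
  · intro hsl'
    have z1 : E1 = 0 := by
      rw [hE1]
      refine Finset.sum_eq_zero fun f _ => ?_
      rw [if_neg]
      rintro ⟨hK, hN⟩
      have h1 := le_NU (hit_Y hs hK)
      have h2 := NU_le (lab := lab) f
      omega
    have z2 : E2 = 0 := by
      rw [hE2]
      refine Finset.sum_eq_zero fun f _ => ?_
      rw [if_neg]
      intro hK
      have h1 := KX_many G hK
      have h2 := NU_le (lab := lab) f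
      omega
    rw [z1, z2, sub_zero]

end

end MP_90430c
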