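import Mathlib
import Pool.Agent.Lib.MP_90430c_co.Main

/-! The effect of a gadget with `a` twins of level `1` is divisible by `a`. -/

open Finset

set_option linter.unusedSectionVars false

namespace MP_90430c

section

variable {V : Type*} [Fintype V] [DecidableEq V] {lab : V → ℕ × Bool} {s a b : ℕ}
  {l : ℕ} [NeZero l] {σ₀ : V → V → ℤ}

lemma swap_mem_iff {A : Finset V} {x y : V} (hx : x ∈ A) (hy : y ∈ A) (z : V) :
    Equiv.swap x y z ∈ A ↔ z ∈ A := by
  rcases eq_or_ne z x with rfl | h1
  · rw [Equiv.swap_apply_left]; simp [hx, hy]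
  · rcases eq_or_ne z y with rfl | h2
    · rw [Equiv.swap_apply_right]; simp [hx, hy]
    · rw [Equiv.swap_apply_of_ne_of_ne h1 h2]

lemma dvd_sum_twins (A : Finset V) (F : (Fin l → V) → ℤ)
    (h0 : ∀ f : Fin l → V, (∀ i, f i ∉ A) → F f = 0)
    (hperm : ∀ x ∈ A, ∀ y ∈ A, ∀ f : Fin l → V, F (fun i => Equiv.swap x y (f i)) = F f) :
    (A.card : ℤ) ∣ ∑ f ∈ inj l V, F f := by
  classical
  have h1 : ∀ f : Fin l → V, F f
      = ∑ i, ∑ x ∈ A, (if f i = x ∧ ∀ j < i, f j ∉ A then F f else 0) := by
    intro f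
    by_cases hf : ∀ i, f i ∉ A
    · rw [h0 f hf]; simp
    · push Not at hf
      have hne : (univ.filter fun i => f i ∈ A).Nonempty := by
        obtain ⟨i, hi⟩ := hf
        exact ⟨i, by simp [hi]⟩
      set i0 := (univ.filter fun i => f i ∈ A).min' hne with hi0
      have m0 : f i0 ∈ A := by
        have := Finset.min'_mem _ hne
        rw [← hi0] at this
        simpa using this
      have m1 : ∀ j < i0, f j ∉ A := by
        intro j hj hA
        have := Finset.min'_le (univ.filter fun i => f i ∈ A) j (by simp [hA])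
        rw [← hi0] at this
        exact absurd hj (not_lt.2 this)
      rw [Finset.sum_eq_single i0, Finset.sum_eq_single (f i0), if_pos ⟨rfl, m1⟩]
      · intro x _ hne
        rw [if_neg]
        rintro ⟨h, _⟩
        exact hne h.symm
      · intro h; exact absurd m0 h
      · intro i _ hne
        refine Finset.sum_eq_zero fun x hx => ?_
        rw [if_neg]
        rintro ⟨h2, h3⟩
        have hiA : f i ∈ A := h2 ▸ hx
        rcases lt_trichotomy i i0 with h4 | h4 | h4
        · exact m1 i h4 hiA
        · exact hne h4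
        · exact h3 i0 h4 m0
      · simp
  rw [Finset.sum_congr rfl fun f _ => h1 f, Finset.sum_comm]
  refine Finset.dvd_sum fun i _ => ?_
  rw [Finset.sum_comm]
  rcases A.eq_empty_or_nonempty with hA | ⟨x0, hx0⟩
  · rw [hA]; simp
  · have h2 : ∀ x ∈ A, ∑ f ∈ inj l V, (if f i = x ∧ ∀ j < i, f j ∉ A then F f else 0)
        = ∑ f ∈ inj l V, (if f i = x0 ∧ ∀ j < i, f j ∉ A then F f else 0) := by
      intro x hx
      rw [← sum_comp_perm (Equiv.swap x x0)
        (fun f => if f i = x ∧ ∀ j < i, f j ∉ A then F f else 0)]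
      refine Finset.sum_congr rfl fun f _ => ?_
      rw [hperm x hx x0 hx0]
      refine if_congr ?_ rfl rfl
      simp only [swap_mem_iff hx hx0]
      refine and_congr_left fun _ => ?_
      constructor
      · intro h
        have := congrArg (Equiv.swap x x0) h
        rw [Equiv.swap_apply_self, Equiv.swap_apply_left] at this
        exact this
      · intro h
        rw [h, Equiv.swap_apply_right]
    rw [Finset.sum_congr rfl h2, Finset.sum_const, nsmul_eq_mul]
    exact dvd_mul_right _ _

theorem Gadget.dvd (G : Gadget lab s a b) (hσ : IsSig σ₀) (h0 : PosAt σ₀ lab) :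
    (a : ℤ) ∣ Z l (sigY σ₀ lab s) - Z l (sigX σ₀ lab s) := by
  have hs := G.two_le
  rw [G.identity h0, ← G.card_CC_one]
  have hlab : ∀ x ∈ CC lab 1, ∀ y ∈ CC lab 1, ∀ z, lab (Equiv.swap x y z) = lab z := by
    intro x hx y hy z
    have ex := G.lab_one (mem_CC.1 hx)
    have ey := G.lab_one (mem_CC.1 hy)
    rcases eq_or_ne z x with rfl | h1
    · rw [Equiv.swap_apply_left, ex, ey]
    · rcases eq_or_ne z y with rfl | h2
      · rw [Equiv.swap_apply_right, ex, ey]
      · rw [Equiv.swap_apply_of_ne_of_ne h1 h2]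
  have hcp : ∀ x ∈ CC lab 1, ∀ y ∈ CC lab 1, ∀ f : Fin l → V,
      cp l σ₀ (fun i => Equiv.swap x y (f i)) = cp l σ₀ f := by
    intro x hx y hy f
    unfold cp
    refine Finset.prod_congr rfl fun i _ => ?_
    dsimp only
    have hfix : ∀ z, (lab z).1 = 0 → Equiv.swap x y z = z := by
      intro z hz
      refine Equiv.swap_apply_of_ne_of_ne ?_ ?_
      · rintro rfl; rw [mem_CC] at hx; omega
      · rintro rfl; rw [mem_CC] at hy; omega
    by_cases hu : (lab (f i)).1 = 0
    · by_cases hv : (lab (f (i + 1))).1 = 0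
      · rw [hfix _ hu, hfix _ hv]
      · rw [(h0 _ (Equiv.swap x y (f i)) (by rw [hlab x hx y hy]; exact hv)).2,
          (h0 _ (f i) hv).2]
    · rw [(h0 _ (Equiv.swap x y (f (i + 1))) (by rw [hlab x hx y hy]; exact hu)).1,
        (h0 _ (f (i + 1)) hu).1]
  apply dvd_sum_twins
  · intro f hf
    have hf' : ∀ i, (lab (f i)).1 ≠ 1 := fun i h => hf i (mem_CC.2 h)
    rw [kappa (isSig_gY lab), kappa (isSig_gX lab), if_neg, if_neg]
    · simp
    · intro hK
      obtain ⟨i, hi⟩ := hit_X hs hK 1 le_rfl (by omega)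
      exact hf' i hi
    · intro hK
      obtain ⟨i, hi⟩ := hit_Y hs hK 1 le_rfl (by omega)
      exact hf' i hi
  · intro x hx y hy f
    rw [hcp x hx y hy f]
    have e1 : ∀ j, cp l (gY lab j) (fun i => Equiv.swap x y (f i)) = cp l (gY lab j) f := by
      intro j
      unfold cp gY
      simp only [hlab x hx y hy]
    have e2 : ∀ j, cp l (gX lab j) (fun i => Equiv.swap x y (f i)) = cp l (gX lab j) f := by
      intro j
      unfold cp gX
      simp only [hlab x hx y hy]
    simp only [e1, e2]

end

end MP_90430c
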