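import Mathlib
import Pool.Agent.Lib.MP_90430c_co.Gadget

/-! The exact 2-adic effect of a unit gadget. -/

open Finset

set_option linter.unusedSectionVars false

namespace MP_90430c

section

variable {V : Type*} [Fintype V] [DecidableEq V] {lab : V → ℕ × Bool} {s a b : ℕ}

/-- Levels of an edge. -/
def levs (lab : V → ℕ × Bool) (s : ℕ) (x y : V) : Finset ℕ :=
  (Icc 3 s).filter fun j => gY lab j x y = -1

/-- Negative edges of `σ₀` and of levels at least `3`. -/
def hs (σ₀ : V → V → ℤ) (lab : V → ℕ × Bool) (s : ℕ) (x y : V) : ℤ :=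
  if σ₀ x y = -1 ∨ levs lab s x y ≠ ∅ then 1 else 0

lemma levs_symm (x y : V) : levs lab s x y = levs lab s y x := by
  unfold levs; simp only [gY_symm]

lemma hs_symm {σ₀ : V → V → ℤ} (hσ : IsSig σ₀) (x y : V) : hs σ₀ lab s x y = hs σ₀ lab s y x := by
  unfold hs; rw [hσ.symm, levs_symm]

lemma gY_eq_neg {j : ℕ} {x y : V} :
    gY lab j x y = -1 ↔ upY j (lab x) (lab y) ∨ upY j (lab y) (lab x) := by
  unfold gY
  split_ifs with h
  · simp [h]
  · simp [h]

lemma mem_levs {j : ℕ} {x y : V} :
    j ∈ levs lab s x y ↔ (3 ≤ j ∧ j ≤ s) ∧ (upY j (lab x) (lab y) ∨ upY j (lab y) (lab x)) := by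
  unfold levs; rw [Finset.mem_filter, Finset.mem_Icc, gY_eq_neg]

lemma levs_card (x y : V) : (levs lab s x y).card ≤ 1 := by
  rw [Finset.card_le_one]
  intro j hj j' hj'
  rw [mem_levs] at hj hj'
  unfold upY at hj hj'
  omega

lemma compat_levs {σ₀ : V → V → ℤ} (hσ : IsSig σ₀) (h0 : PosAt σ₀ lab) :
    Compat (hs σ₀ lab s) (levs lab s) σ₀ (gY lab) (Icc 3 s) := by
  refine ⟨fun x y => Finset.filter_subset _ _, levs_card, fun x y => ?_, fun x y h => ?_,
    fun j hj x y => ?_⟩
  · split_ifs with h
    · unfold hs
      rw [h]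
      rcases hσ.val x y with h1 | h1 <;> simp [h1]
    · obtain ⟨j, hj⟩ := Finset.nonempty_iff_ne_empty.2 h
      rw [mem_levs] at hj
      unfold upY at hj
      rcases hj.2 with h2 | h2
      · exact (h0 x y (by omega)).1
      · exact (h0 y x (by omega)).2
  · unfold hs
    rw [if_pos (Or.inr h)]
  · have : j ∈ levs lab s x y ↔ gY lab j x y = -1 := by
      unfold levs; rw [Finset.mem_filter]; simp [hj]
    rw [if_congr this rfl rfl]
    split_ifs with h
    · exact h
    · exact ((isSig_gY lab j).val x y).resolve_right h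

variable {σ₀ : V → V → ℤ}

lemma compl_card_insert {X : Finset V} {v : V} (hv : v ∉ X) :
    (insert v X)ᶜ.card + 1 = Xᶜ.card := by
  have := card_compl_insert (Finset.mem_compl.2 hv)
  omega

/-- The path starting at an unprimed vertex of level `p`. -/
theorem SJ_path (G : Gadget lab s 1 1) (hσ : IsSig σ₀) (h0 : PosAt σ₀ lab) : ∀ d m p : ℕ, ∀ y : V,
    ∀ X : Finset V, 2 ≤ p → p + d = s → lab y = (p, false) → y ∈ X → (∀ x ∈ X, (lab x).1 ≤ p) →
    (∀ x, lab x = (p - 1, false) → x ∈ X) → d ≤ m → m ≤ Xᶜ.card →
    SJ (hs σ₀ lab s) (levs lab s) m (Icc (p + 1) s) y X - (-1) ^ d * gen Xᶜ.card m d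
      ∈ II (d + 1) Xᶜ.card m := by
  intro d
  induction d with
  | zero =>
    intro m p y X hp hps hy hyX hXp hXm _ hm
    have hp' : p = s := by omega
    have hL : Icc (p + 1) s = ∅ := by rw [Finset.Icc_eq_empty]; omega
    rw [hL]
    cases m with
    | zero =>
      rw [SJ]
      have : gen Xᶜ.card 0 0 = 1 := by simp [gen]
      rw [this]
      simp
    | succ m =>
      have hz : ∑ v ∈ Xᶜ, hs σ₀ lab s y v * SJ (hs σ₀ lab s) (levs lab s) m
          (∅ \ levs lab s y v) v (insert v X) = 0 := by
        refine Finset.sum_eq_zero fun v hv => ?_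
        rw [Finset.mem_compl] at hv
        have : hs σ₀ lab s y v = 0 := by
          unfold hs
          rw [if_neg]
          rintro (h | h)
          · rw [(h0 y v (by rw [hy]; simp; omega)).1] at h
            norm_num at h
          · obtain ⟨j, hj⟩ := Finset.nonempty_iff_ne_empty.2 h
            rw [mem_levs, hy] at hj
            obtain ⟨hj1, hj2 | hj2⟩ := hj
            · unfold upY at hj2
              simp only at hj2
              omega
            · unfold upY at hj2
              simp only at hj2
              refine hv (hXm v ?_)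
              apply Prod.ext
              · simp only; omega
              · simp only; exact hj2.2.2.2
        rw [this, zero_mul]
      rw [SJ_succ, hz, mul_zero, sub_zero]
      have h1 := WJ_empty (h := hs σ₀ lab s) (lev := levs lab s) (hs_symm hσ) levs_symm levs_card
        (m + 1) X hm
      have e : (-1 : ℤ) ^ 0 * gen Xᶜ.card (m + 1) 0 = ((Xᶜ.card.descFactorial (m + 1) : ℕ) : ℤ) := by
        simp [gen]
      rw [e]
      exact II_mono (by omega) h1
  | succ d ih =>
    intro m p y X hp hps hy hyX hXp hXm hdm hm
    obtain ⟨m, rfl⟩ : ∃ k, m = k + 1 := ⟨m - 1, by omega⟩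
    obtain ⟨y', hy', huniq⟩ : ∃ y', lab y' = (p + 1, false) ∧ ∀ z, lab z = (p + 1, false) → z = y' := by
      rcases Nat.lt_or_ge (p + 1) s with h | h
      · obtain ⟨y', h1, h2⟩ := G.mid (p + 1) (by omega) h false
        exact ⟨y', h1, h2⟩
      · have hs' : p + 1 = s := by omega
        have := G.cardB
        rw [Finset.card_eq_one] at this
        obtain ⟨y', h1⟩ := this
        refine ⟨y', ?_, fun z hz => ?_⟩
        · have : y' ∈ univ.filter fun x => lab x = (s, false) := by rw [h1]; simp
          rw [hs']; simpa using this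
        · have : z ∈ univ.filter fun x => lab x = (s, false) := by simp [hz, hs']
          rw [h1] at this; simpa using this
    have hy'X : y' ∉ X := by
      intro h
      have := hXp y' h
      rw [hy'] at this
      simp only at this
      omega
    have hs1 : hs σ₀ lab s y y' = 1 := by
      unfold hs
      rw [if_pos]
      right
      refine Finset.Nonempty.ne_empty ⟨p + 1, ?_⟩
      rw [mem_levs]
      refine ⟨⟨by omega, by omega⟩, Or.inl ?_⟩
      rw [hy, hy']
      exact ⟨rfl, rfl, by simp only; omega, by simp⟩
    have hlev : levs lab s y y' = {p + 1} := by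
      ext j
      rw [mem_levs, hy, hy', Finset.mem_singleton]
      unfold upY
      simp only
      constructor
      · rintro ⟨_, h | h⟩ <;> omega
      · rintro rfl; exact ⟨⟨by omega, by omega⟩, Or.inl ⟨rfl, rfl, by omega, by simp⟩⟩
    have hz : ∑ v ∈ Xᶜ, hs σ₀ lab s y v * SJ (hs σ₀ lab s) (levs lab s) m
          (Icc (p + 1) s \ levs lab s y v) v (insert v X)
          = SJ (hs σ₀ lab s) (levs lab s) m (Icc (p + 2) s) y' (insert y' X) := by
      rw [Finset.sum_eq_single y']
      · rw [hs1, hlev, one_mul]
        congr 1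
        ext j
        simp only [Finset.mem_sdiff, Finset.mem_Icc, Finset.mem_singleton]
        omega
      · intro v hv hne
        rw [Finset.mem_compl] at hv
        have : hs σ₀ lab s y v = 0 := by
          unfold hs
          rw [if_neg]
          rintro (h | h)
          · rw [(h0 y v (by rw [hy]; simp; omega)).1] at h
            norm_num at h
          · obtain ⟨j, hj⟩ := Finset.nonempty_iff_ne_empty.2 h
            rw [mem_levs, hy] at hj
            obtain ⟨hj1, hj2 | hj2⟩ := hj
            · unfold upY at hj2
              simp only at hj2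
              refine hne (huniq v ?_)
              apply Prod.ext
              · simp only; omega
              · simp only; exact hj2.2.2.2.symm
            · unfold upY at hj2
              simp only at hj2
              refine hv (hXm v ?_)
              apply Prod.ext
              · simp only; omega
              · simp only; exact hj2.2.2.2
        rw [this, zero_mul]
      · intro h
        exact absurd (Finset.mem_compl.2 hy'X) h
    rw [SJ_succ, hz]
    have hcard := compl_card_insert hy'X
    have h1 := ih m (p + 1) y' (insert y' X) (by omega) (by omega) hy' (Finset.mem_insert_self _ _)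
      (by
        intro x hx
        rw [Finset.mem_insert] at hx
        rcases hx with rfl | hx
        · rw [hy']
        · have := hXp x hx
          omega)
      (by
        intro x hx
        rw [Nat.add_sub_cancel] at hx
        rw [Finset.mem_insert]
        right
        obtain ⟨z, _, h2⟩ := G.mid p hp (by omega) false
        rw [h2 x hx, ← h2 y hy]
        exact hyX)
      (by omega) (by omega)
    have h2 := II_two h1
    rw [hcard] at h2
    have h3 := WJ_mem (h := hs σ₀ lab s) (lev := levs lab s) (hs_symm hσ) levs_symm levs_card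
        (m + 1) (Icc (p + 1) s) X hm
    have htL : tL (Icc (p + 1) s) = d + 1 + 1 := by
      unfold tL
      rw [if_neg, Nat.card_Icc]
      · omega
      · rw [← Finset.card_eq_zero, Nat.card_Icc]; omega
    rw [htL] at h3
    have hgen : 2 * gen (insert y' X)ᶜ.card m d = gen Xᶜ.card (m + 1) (d + 1) := by
      rw [← hcard]
      unfold gen
      rw [Nat.add_sub_add_right, Nat.add_sub_add_right]
      ring
    have h4 := sub_mem h3 h2
    have e : WJ (hs σ₀ lab s) (levs lab s) (m + 1) (Icc (p + 1) s) X
        - 2 * SJ (hs σ₀ lab s) (levs lab s) m (Icc (p + 2) s) y' (insert y' X)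
        - (-1) ^ (d + 1) * gen Xᶜ.card (m + 1) (d + 1)
        = WJ (hs σ₀ lab s) (levs lab s) (m + 1) (Icc (p + 1) s) X
          - 2 * (SJ (hs σ₀ lab s) (levs lab s) m (Icc (p + 1 + 1) s) y' (insert y' X)
            - (-1) ^ d * gen (insert y' X)ᶜ.card m d) := by
      rw [← hgen]; ring
    rw [e]
    exact h4

/-- The path starting at a primed vertex of level `p` is a dead end. -/
theorem SJ_dead (G : Gadget lab s 1 1) (hσ : IsSig σ₀) (h0 : PosAt σ₀ lab) : ∀ d m p : ℕ, ∀ y : V,
    ∀ X : Finset V, 2 ≤ p → p + d + 1 = s → lab y = (p, true) → y ∈ X → (∀ x ∈ X, (lab x).1 ≤ p) →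
    (∀ x, lab x = (p - 1, true) → x ∈ X) → m ≤ Xᶜ.card →
    SJ (hs σ₀ lab s) (levs lab s) m (Icc (p + 1) s) y X ∈ II (d + 2) Xᶜ.card m := by
  intro d
  induction d with
  | zero =>
    intro m p y X hp hps hy hyX hXp hXm hm
    have hcardL : (Icc (p + 1) s).card = 1 := by rw [Nat.card_Icc]; omega
    have hne : Icc (p + 1) s ≠ ∅ := by
      intro h; rw [h] at hcardL; simp at hcardL
    cases m with
    | zero =>
      rw [SJ, if_neg hne]
      exact Submodule.zero_mem _
    | succ m =>
      have hz : ∑ v ∈ Xᶜ, hs σ₀ lab s y v * SJ (hs σ₀ lab s) (levs lab s) m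
          (Icc (p + 1) s \ levs lab s y v) v (insert v X) = 0 := by
        refine Finset.sum_eq_zero fun v hv => ?_
        rw [Finset.mem_compl] at hv
        have : hs σ₀ lab s y v = 0 := by
          unfold hs
          rw [if_neg]
          rintro (h | h)
          · rw [(h0 y v (by rw [hy]; simp; omega)).1] at h
            norm_num at h
          · obtain ⟨j, hj⟩ := Finset.nonempty_iff_ne_empty.2 h
            rw [mem_levs, hy] at hj
            obtain ⟨hj1, hj2 | hj2⟩ := hj
            · unfold upY at hj2
              simp only at hj2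
              refine G.noB v ?_
              apply Prod.ext
              · simp only; omega
              · simp only; exact hj2.2.2.2.symm
            · unfold upY at hj2
              simp only at hj2
              refine hv (hXm v ?_)
              apply Prod.ext
              · simp only; omega
              · simp only; exact hj2.2.2.2
        rw [this, zero_mul]
      rw [SJ_succ, hz, mul_zero, sub_zero]
      have h1 := WJ_mem (h := hs σ₀ lab s) (lev := levs lab s) (hs_symm hσ) levs_symm levs_card
        (m + 1) (Icc (p + 1) s) X hm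
      have htL : tL (Icc (p + 1) s) = 2 := by
        unfold tL
        rw [if_neg hne, hcardL]
      rw [htL] at h1
      exact h1
  | succ d ih =>
    intro m p y X hp hps hy hyX hXp hXm hm
    have hcardL : (Icc (p + 1) s).card = d + 2 := by rw [Nat.card_Icc]; omega
    have hne : Icc (p + 1) s ≠ ∅ := by
      intro h; rw [h] at hcardL; simp at hcardL
    cases m with
    | zero =>
      rw [SJ, if_neg hne]
      exact Submodule.zero_mem _
    | succ m =>
      obtain ⟨y', hy', huniq⟩ := G.mid (p + 1) (by omega) (by omega) true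
      have hy'X : y' ∉ X := by
        intro h
        have := hXp y' h
        rw [hy'] at this
        simp only at this
        omega
      have hs1 : hs σ₀ lab s y y' = 1 := by
        unfold hs
        rw [if_pos]
        right
        refine Finset.Nonempty.ne_empty ⟨p + 1, ?_⟩
        rw [mem_levs]
        refine ⟨⟨by omega, by omega⟩, Or.inl ?_⟩
        rw [hy, hy']
        exact ⟨rfl, rfl, by simp only; omega, by simp⟩
      have hlev : levs lab s y y' = {p + 1} := by
        ext j
        rw [mem_levs, hy, hy', Finset.mem_singleton]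
        unfold upY
        simp only
        constructor
        · rintro ⟨_, h | h⟩ <;> omega
        · rintro rfl; exact ⟨⟨by omega, by omega⟩, Or.inl ⟨rfl, rfl, by omega, by simp⟩⟩
      have hz : ∑ v ∈ Xᶜ, hs σ₀ lab s y v * SJ (hs σ₀ lab s) (levs lab s) m
            (Icc (p + 1) s \ levs lab s y v) v (insert v X)
            = SJ (hs σ₀ lab s) (levs lab s) m (Icc (p + 2) s) y' (insert y' X) := by
        rw [Finset.sum_eq_single y']
        · rw [hs1, hlev, one_mul]
          congr 1
          ext j
          simp only [Finset.mem_sdiff, Finset.mem_Icc, Finset.mem_singleton]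
          omega
        · intro v hv hne
          rw [Finset.mem_compl] at hv
          have : hs σ₀ lab s y v = 0 := by
            unfold hs
            rw [if_neg]
            rintro (h | h)
            · rw [(h0 y v (by rw [hy]; simp; omega)).1] at h
              norm_num at h
            · obtain ⟨j, hj⟩ := Finset.nonempty_iff_ne_empty.2 h
              rw [mem_levs, hy] at hj
              obtain ⟨hj1, hj2 | hj2⟩ := hj
              · unfold upY at hj2
                simp only at hj2
                refine hne (huniq v ?_)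
                apply Prod.ext
                · simp only; omega
                · simp only; exact hj2.2.2.2.symm
              · unfold upY at hj2
                simp only at hj2
                refine hv (hXm v ?_)
                apply Prod.ext
                · simp only; omega
                · simp only; exact hj2.2.2.2
          rw [this, zero_mul]
        · intro h
          exact absurd (Finset.mem_compl.2 hy'X) h
      rw [SJ_succ, hz]
      have hcard := compl_card_insert hy'X
      have h1 := ih m (p + 1) y' (insert y' X) (by omega) (by omega) hy' (Finset.mem_insert_self _ _)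
        (by
          intro x hx
          rw [Finset.mem_insert] at hx
          rcases hx with rfl | hx
          · rw [hy']
          · have := hXp x hx
            omega)
        (by
          intro x hx
          rw [Nat.add_sub_cancel] at hx
          rw [Finset.mem_insert]
          right
          obtain ⟨z, _, h2⟩ := G.mid p hp (by omega) true
          rw [h2 x hx, ← h2 y hy]
          exact hyX)
        (by omega)
      have h2 := II_two h1
      rw [hcard] at h2
      have h3 := WJ_mem (h := hs σ₀ lab s) (lev := levs lab s) (hs_symm hσ) levs_symm levs_card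
          (m + 1) (Icc (p + 1) s) X hm
      have htL : tL (Icc (p + 1) s) = d + 2 + 1 := by
        unfold tL
        rw [if_neg hne, hcardL]
      rw [htL] at h3
      exact sub_mem h3 h2

lemma Dih.prod {l : ℕ} [NeZero l] (Λ : Finset ℕ) {F : ℕ → (Fin l → V) → ℤ}
    (hF : ∀ j, Dih (F j)) : Dih (fun f => ∏ j ∈ Λ, (F j f - 1)) :=
  ⟨fun c f => by simp only [(hF _).rot], fun f => by simp only [(hF _).refl]⟩

lemma gX_eq_gY {j : ℕ} (hj : j ≠ 2) (x y : V) : gX lab j x y = gY lab j x y := by
  unfold gX gY upX
  exact if_congr (by simp [hj]) rfl rfl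

lemma Icc_two (hs2 : 2 ≤ s) : Icc 2 s = insert 2 (Icc 3 s) := by
  ext j; simp only [Finset.mem_Icc, Finset.mem_insert]; omega

/-- The rooted sum for an edge `x y` with `x` of level `1` and `y` of level `2`. -/
lemma rooted_sum {m : ℕ} (hm : 1 ≤ m) (hσ : IsSig σ₀) (h0 : PosAt σ₀ lab) {x y : V}
    (hx : lab x = (1, false)) (hy : (lab y).1 = 2) :
    ∑ f ∈ inj (m + 2) V, cp (m + 2) σ₀ f * ((cp (m + 2) (ed x y) f - 1)
        * ∏ j ∈ Icc 3 s, (cp (m + 2) (gY lab j) f - 1))
      = -(4 * ((m + 2 : ℕ) : ℤ)) * SJ (hs σ₀ lab s) (levs lab s) m (Icc 3 s) y {x, y} := by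
  have hxy : x ≠ y := by
    intro e; rw [← e, hx] at hy; simp at hy
  set GY : (Fin (m + 2) → V) → ℤ := fun f => cp (m + 2) σ₀ f
    * ∏ j ∈ Icc 3 s, (cp (m + 2) (gY lab j) f - 1) with hGY
  have hD : Dih GY := (cp_dih hσ.symm).mul (Dih.prod _ fun j => cp_dih (gY_symm lab j))
  have h1 : ∑ f ∈ inj (m + 2) V, cp (m + 2) σ₀ f * ((cp (m + 2) (ed x y) f - 1)
        * ∏ j ∈ Icc 3 s, (cp (m + 2) (gY lab j) f - 1))
      = -2 * ∑ f ∈ inj (m + 2) V, (if Uses f x y then GY f else 0) := by
    rw [Finset.mul_sum]
    refine Finset.sum_congr rfl fun f hf => ?_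
    rw [cp_ed (by omega) (mem_inj.1 hf), hGY]
    split_ifs
    · ring
    · ring
  rw [h1, root (by omega) hD, sum_rooted m hxy,
    SJ_closed (compat_levs (s := s) hσ h0) m (Icc 3 s) (Finset.Subset.refl _)]
  have key : ∀ g ∈ av m {x, y}, GY (Fin.cons x (Fin.cons y g : Fin (m + 1) → V))
      = wt σ₀ (gY lab) (Icc 3 s) (Icc 3 s) (Fin.cons y g : Fin (m + 1) → V) := by
    intro g hg
    rw [hGY]
    dsimp only
    have hx0 : (lab x).1 ≠ 0 := by rw [hx]; simp
    rw [cp_cons_cons m σ₀ x y g (fun z _ _ => (h0 x z hx0).2) (by omega) hg, (h0 x y hx0).1,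
      one_mul]
    unfold wt
    rw [Finset.sdiff_self, Finset.prod_empty, mul_one]
    congr 1
    refine Finset.prod_congr rfl fun j hj => ?_
    rw [Finset.mem_Icc] at hj
    have hg1 : ∀ z, gY lab j z x = 1 := by
      intro z
      unfold gY upY
      rw [if_neg]
      rw [hx]
      simp only
      omega
    have hg2 : gY lab j x y = 1 := by rw [gY_symm]; exact hg1 y
    rw [cp_cons_cons m (gY lab j) x y g (fun z _ _ => hg1 z) (by omega) hg, hg2, one_mul]
  rw [Finset.sum_congr rfl key]
  ring

theorem unit_effect {l : ℕ} [NeZero l] (G : Gadget lab s 1 1) (hσ : IsSig σ₀)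
    (h0 : PosAt σ₀ lab) (hl : 3 ≤ l) (hsl : s ≤ l) (hn : l ≤ Fintype.card V) :
    ∃ w, Z l (sigX σ₀ lab s) - Z l (sigY σ₀ lab s) = 4 * l * w ∧
      w - (-1) ^ s * gen (Fintype.card V - 2) (l - 2) (s - 2)
        ∈ II (s - 1) (Fintype.card V - 2) (l - 2) := by
  obtain ⟨m, rfl⟩ : ∃ m, l = m + 2 := ⟨l - 2, by omega⟩
  have hs2 := G.two_le
  obtain ⟨x, hxA⟩ := Finset.card_eq_one.1 G.cardA
  have hx : lab x = (1, false) := by
    have : x ∈ univ.filter fun x => lab x = (1, false) := by rw [hxA]; simp
    simpa using this
  have hxu : ∀ z, lab z = (1, false) → z = x := by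
    intro z hz
    have : z ∈ univ.filter fun x => lab x = (1, false) := by simp [hz]
    rw [hxA] at this; simpa using this
  obtain ⟨y, hy, hyu⟩ : ∃ y, lab y = (2, false) ∧ ∀ z, lab z = (2, false) → z = y := by
    rcases Nat.lt_or_ge 2 s with h | h
    · obtain ⟨y', h1, h2⟩ := G.mid 2 le_rfl h false
      exact ⟨y', h1, h2⟩
    · have hs' : 2 = s := by omega
      obtain ⟨y', h1⟩ := Finset.card_eq_one.1 G.cardB
      refine ⟨y', ?_, fun z hz => ?_⟩
      · have : y' ∈ univ.filter fun x => lab x = (s, false) := by rw [h1]; simp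
        rw [hs']; simpa using this
      · have : z ∈ univ.filter fun x => lab x = (s, false) := by simp [hz, hs']
        rw [h1] at this; simpa using this
  have hxy : x ≠ y := by
    intro e; rw [← e, hx] at hy; simp at hy
  have hgY2 : ∀ u v, gY lab 2 u v = ed x y u v := by
    intro u v
    unfold gY ed
    refine if_congr ?_ rfl rfl
    have h1 : ∀ u v, upY 2 (lab u) (lab v) ↔ u = x ∧ v = y := by
      intro u v
      constructor
      · rintro ⟨h1, h2, h3, h4⟩
        have hu : lab u = (1, false) := by
          apply Prod.ext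
          · simp only; omega
          · simp only
            by_contra hcon
            refine G.noA u (Prod.ext (by simp only; omega) (by simpa using hcon))
        refine ⟨hxu u hu, hyu v (Prod.ext h2 ?_)⟩
        rw [← h4, hu]
      · rintro ⟨rfl, rfl⟩
        rw [hx, hy]
        exact ⟨rfl, rfl, le_rfl, rfl⟩
    rw [h1, h1]
    tauto
  have hSY := rooted_sum (s := s) (m := m) (by omega) hσ h0 hx (by rw [hy] : (lab y).1 = 2)
  have hcardX : ∀ y', x ≠ y' → ({x, y'} : Finset V)ᶜ.card = Fintype.card V - 2 := by
    intro y' hy'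
    rw [Finset.card_compl, Finset.card_pair hy']
  have hYmem := SJ_path G hσ h0 (s - 2) m 2 y {x, y} le_rfl (by omega) hy (by simp)
    (by
      intro z hz
      simp only [Finset.mem_insert, Finset.mem_singleton] at hz
      rcases hz with rfl | rfl
      · rw [hx]; simp
      · rw [hy])
    (by
      intro z hz
      simp only [Finset.mem_insert, Finset.mem_singleton]
      exact Or.inl (hxu z hz))
    (by omega) (by rw [hcardX y hxy]; omega)
  rw [hcardX y hxy] at hYmem
  have hid := G.identity (l := m + 2) h0
  have hsplit : ∀ (g : ℕ → V → V → ℤ) (f : Fin (m + 2) → V),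
      ∏ j ∈ Icc 2 s, (cp (m + 2) (g j) f - 1)
        = (cp (m + 2) (g 2) f - 1) * ∏ j ∈ Icc 3 s, (cp (m + 2) (g j) f - 1) := by
    intro g f
    rw [Icc_two hs2, Finset.prod_insert (by simp)]
  have hcpY : ∀ f : Fin (m + 2) → V, cp (m + 2) (gY lab 2) f = cp (m + 2) (ed x y) f := by
    intro f; unfold cp; exact Finset.prod_congr rfl fun i _ => hgY2 _ _
  have hcpX : ∀ (f : Fin (m + 2) → V) (j : ℕ), j ∈ Icc 3 s →
      cp (m + 2) (gX lab j) f = cp (m + 2) (gY lab j) f := by
    intro f j hj
    rw [Finset.mem_Icc] at hj
    unfold cp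
    exact Finset.prod_congr rfl fun i _ => gX_eq_gY (by omega) _ _
  have e2 : m + 2 - 2 = m := by omega
  have e3 : (-1 : ℤ) ^ s = (-1) ^ (s - 2) := by
    conv_lhs => rw [show s = (s - 2) + 2 by omega, pow_add]
    norm_num
  have e4 : s - 2 + 1 = s - 1 := by omega
  rw [e4] at hYmem
  rcases Nat.lt_or_ge 2 s with hs3 | hs3
  · obtain ⟨y', hy', hyu'⟩ := G.mid 2 le_rfl hs3 true
    have hxy' : x ≠ y' := by
      intro e; rw [← e, hx] at hy'; simp at hy'
    have hgX2 : ∀ u v, gX lab 2 u v = ed x y' u v := by
      intro u v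
      unfold gX ed
      refine if_congr ?_ rfl rfl
      have h1 : ∀ u v, upX 2 (lab u) (lab v) ↔ u = x ∧ v = y' := by
        intro u v
        constructor
        · rintro (⟨_, h2, h3⟩ | ⟨h1, _⟩)
          · exact ⟨hxu u h2, hyu' v h3⟩
          · exact absurd rfl h1
        · rintro ⟨rfl, rfl⟩
          rw [hx, hy']
          exact Or.inl ⟨rfl, rfl, rfl⟩
      rw [h1, h1]
      tauto
    have hcpX2 : ∀ f : Fin (m + 2) → V, cp (m + 2) (gX lab 2) f = cp (m + 2) (ed x y') f := by
      intro f; unfold cp; exact Finset.prod_congr rfl fun i _ => hgX2 _ _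
    have hSX := rooted_sum (s := s) (m := m) (by omega) hσ h0 hx (by rw [hy'] : (lab y').1 = 2)
    have hXmem := SJ_dead G hσ h0 (s - 3) m 2 y' {x, y'} le_rfl (by omega) hy' (by simp)
      (by
        intro z hz
        simp only [Finset.mem_insert, Finset.mem_singleton] at hz
        rcases hz with rfl | rfl
        · rw [hx]; simp
        · rw [hy'])
      (by
        intro z hz
        exact absurd hz (G.noA z))
      (by rw [hcardX y' hxy']; omega)
    rw [hcardX y' hxy'] at hXmem
    refine ⟨SJ (hs σ₀ lab s) (levs lab s) m (Icc 3 s) y {x, y}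
      - SJ (hs σ₀ lab s) (levs lab s) m (Icc 3 s) y' {x, y'}, ?_, ?_⟩
    · have hid2 : Z (m + 2) (sigY σ₀ lab s) - Z (m + 2) (sigX σ₀ lab s)
          = ∑ f ∈ inj (m + 2) V, cp (m + 2) σ₀ f * ((cp (m + 2) (ed x y) f - 1)
            * ∏ j ∈ Icc 3 s, (cp (m + 2) (gY lab j) f - 1))
            - ∑ f ∈ inj (m + 2) V, cp (m + 2) σ₀ f * ((cp (m + 2) (ed x y') f - 1)
            * ∏ j ∈ Icc 3 s, (cp (m + 2) (gY lab j) f - 1)) := by
        rw [hid, ← Finset.sum_sub_distrib]
        refine Finset.sum_congr rfl fun f _ => ?_
        rw [hsplit, hsplit, hcpY, hcpX2]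
        have : ∏ j ∈ Icc 3 s, (cp (m + 2) (gX lab j) f - 1)
            = ∏ j ∈ Icc 3 s, (cp (m + 2) (gY lab j) f - 1) :=
          Finset.prod_congr rfl fun j hj => by rw [hcpX f j hj]
        rw [this]
        ring
      rw [hSY, hSX] at hid2
      linear_combination -hid2
    · rw [e2, e3]
      have e5 : s - 3 + 2 = s - 1 := by omega
      rw [e5] at hXmem
      have := sub_mem hYmem hXmem
      have e6 : ∀ A B C : ℤ, A - B - C = A - C - B := fun A B C => by ring
      rw [e6]
      exact this
  · have hs' : s = 2 := by omega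
    have hgX2 : ∀ u v, gX lab 2 u v = 1 := by
      intro u v
      unfold gX upX
      rw [if_neg]
      rintro ((⟨_, _, h3⟩ | ⟨h1, _⟩) | (⟨_, _, h3⟩ | ⟨h1, _⟩))
      · exact G.noB v (by rw [hs']; exact h3)
      · exact h1 rfl
      · exact G.noB u (by rw [hs']; exact h3)
      · exact h1 rfl
    refine ⟨SJ (hs σ₀ lab s) (levs lab s) m (Icc 3 s) y {x, y}, ?_, ?_⟩
    · have hid2 : Z (m + 2) (sigY σ₀ lab s) - Z (m + 2) (sigX σ₀ lab s)
          = ∑ f ∈ inj (m + 2) V, cp (m + 2) σ₀ f * ((cp (m + 2) (ed x y) f - 1)
            * ∏ j ∈ Icc 3 s, (cp (m + 2) (gY lab j) f - 1)) := by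
        rw [hid]
        refine Finset.sum_congr rfl fun f _ => ?_
        have hcpX2 : cp (m + 2) (gX lab 2) f = 1 := by
          unfold cp; exact Finset.prod_eq_one fun i _ => hgX2 _ _
        rw [hsplit, hsplit, hcpY, hcpX2]
        ring
      rw [hSY] at hid2
      linear_combination -hid2
    · rw [e2, e3]
      exact hYmem

end

end MP_90430c
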