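import Mathlib
import Pool.Agent.Lib.MP_90430c_co.Unit
import Pool.Agent.Lib.MP_90430c_co.Div

/-! Many gadgets and an environment. -/

open Finset

set_option linter.unusedSectionVars false

namespace MP_90430c

/-- Vertices of a gadget. -/
abbrev SV (s a b : ℕ) : Type := Fin a ⊕ ((Fin (s - 2) × Bool) ⊕ Fin b)

/-- Labels of the vertices of a gadget. -/
def lb (s : ℕ) {a b : ℕ} : SV s a b → ℕ × Bool
  | Sum.inl _ => (1, false)
  | Sum.inr (Sum.inl p) => ((p.1 : ℕ) + 2, p.2)
  | Sum.inr (Sum.inr _) => (s, false)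

section

variable {I : Type} [Fintype I] [DecidableEq I] (N : ℕ) (s a b : I → ℕ)

/-- The vertex set: `N` vertices of the environment and the vertices of the gadgets. -/
abbrev VV : Type := Fin N ⊕ (Σ i : I, SV (s i) (a i) (b i))

variable {N s a b}

/-- The labels for the gadget `i`. -/
def labI (i : I) : VV N s a b → ℕ × Bool
  | Sum.inl _ => (0, false)
  | Sum.inr p => if p.1 = i then lb (s p.1) p.2 else (0, false)

lemma labI_inl (i : I) (x : Fin N) : labI (N := N) (s := s) (a := a) (b := b) i (Sum.inl x) = (0, false) := rfl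

lemma labI_self (i : I) (u : SV (s i) (a i) (b i)) :
    labI (N := N) (s := s) (a := a) (b := b) i (Sum.inr ⟨i, u⟩) = lb (s i) u := by
  simp [labI]

lemma labI_ne {i i' : I} (h : i' ≠ i) (u : SV (s i') (a i') (b i')) :
    labI (N := N) (s := s) (a := a) (b := b) i (Sum.inr ⟨i', u⟩) = (0, false) := by
  simp [labI, h]

lemma labI_cases (i : I) (x : VV N s a b) (hx : labI i x ≠ (0, false)) :
    ∃ u : SV (s i) (a i) (b i), x = Sum.inr ⟨i, u⟩ ∧ labI i x = lb (s i) u := by
  rcases x with x | ⟨i', u⟩
  · exact absurd rfl hx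
  · by_cases h : i' = i
    · subst h
      exact ⟨u, rfl, labI_self _ _⟩
    · exact absurd (labI_ne h u) hx

lemma labI_fst (i : I) (x : VV N s a b) (hx : (labI i x).1 = 0) (hs : 2 ≤ s i) :
    labI i x = (0, false) := by
  by_contra h
  obtain ⟨u, _, hu⟩ := labI_cases i x h
  rw [hu] at hx
  rcases u with u | u | u
  · simp [lb] at hx
  · simp [lb] at hx
  · simp [lb] at hx; omega

theorem gadget_lab (i : I) (hs : 2 ≤ s i) :
    Gadget (labI (N := N) (s := s) (a := a) (b := b) i) (s i) (a i) (b i) := by
  refine ⟨hs, ?_, ?_, ?_, ?_, ?_, ?_⟩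
  · have : (univ.filter fun x : VV N s a b => labI i x = (1, false))
        = (univ : Finset (Fin (a i))).image (fun k => (Sum.inr ⟨i, Sum.inl k⟩ : VV N s a b)) := by
      ext x
      simp only [Finset.mem_filter, Finset.mem_univ, true_and, Finset.mem_image]
      constructor
      · intro h
        obtain ⟨u, rfl, hu⟩ := labI_cases i x (by rw [h]; simp)
        rw [h] at hu
        rcases u with u | u | u
        · exact ⟨u, rfl⟩
        · simp [lb] at hu
        · simp only [lb, Prod.mk.injEq, and_true] at hu; omega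
      · rintro ⟨k, rfl⟩
        rw [labI_self]; rfl
    rw [this, Finset.card_image_of_injective, Finset.card_univ, Fintype.card_fin]
    intro k k' h
    simpa using h
  · intro x h
    obtain ⟨u, rfl, hu⟩ := labI_cases i x (by rw [h]; simp)
    rw [h] at hu
    rcases u with u | u | u
    · simp [lb] at hu
    · simp [lb] at hu
    · simp [lb] at hu
  · intro p hp1 hp2 t
    refine ⟨Sum.inr ⟨i, Sum.inr (Sum.inl (⟨p - 2, by omega⟩, t))⟩, ?_, ?_⟩
    · beta_reduce
      rw [labI_self]
      simp only [lb]
      congr 1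
      omega
    · intro x h
      beta_reduce at h
      obtain ⟨u, rfl, hu⟩ := labI_cases i x (by rw [h]; intro h'; simp at h'; omega)
      rw [h] at hu
      rcases u with u | ⟨u, t'⟩ | u
      · simp only [lb, Prod.mk.injEq] at hu; omega
      · simp only [lb, Prod.mk.injEq] at hu
        obtain ⟨h1, h2⟩ := hu
        subst h2
        congr 5
        apply Fin.ext
        simp only
        omega
      · simp only [lb, Prod.mk.injEq] at hu; omega
  · have : (univ.filter fun x : VV N s a b => labI i x = (s i, false))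
        = (univ : Finset (Fin (b i))).image (fun k => (Sum.inr ⟨i, Sum.inr (Sum.inr k)⟩ : VV N s a b)) := by
      ext x
      simp only [Finset.mem_filter, Finset.mem_univ, true_and, Finset.mem_image]
      constructor
      · intro h
        obtain ⟨u, rfl, hu⟩ := labI_cases i x (by rw [h]; intro h'; simp at h'; omega)
        rw [h] at hu
        rcases u with u | ⟨u, t⟩ | u
        · simp only [lb, Prod.mk.injEq, and_true] at hu; omega
        · simp only [lb, Prod.mk.injEq] at hu
          have := u.2
          omega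
        · exact ⟨u, rfl⟩
      · rintro ⟨k, rfl⟩
        rw [labI_self]; rfl
    rw [this, Finset.card_image_of_injective, Finset.card_univ, Fintype.card_fin]
    intro k k' h
    simpa using h
  · intro x h
    obtain ⟨u, rfl, hu⟩ := labI_cases i x (by rw [h]; simp)
    rw [h] at hu
    rcases u with u | ⟨u, t⟩ | u
    · simp [lb] at hu
    · simp only [lb, Prod.mk.injEq] at hu
      have := u.2
      omega
    · simp [lb] at hu
  · intro x
    by_cases h : labI i x = (0, false)
    · rw [h]; simp
    · obtain ⟨u, rfl, hu⟩ := labI_cases i x h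
      rw [hu]
      rcases u with u | ⟨u, t⟩ | u
      · simp [lb]; omega
      · simp only [lb]
        have := u.2
        omega
      · simp [lb]

/-- The signature of the environment, extended. -/
def ext (φ : Fin N → Fin N → ℤ) : VV N s a b → VV N s a b → ℤ
  | Sum.inl x, Sum.inl y => φ x y
  | _, _ => 1

/-- The signature of gadget `i` in state `t`. -/
def ggs (i : I) (t : Bool) (x y : VV N s a b) : ℤ :=
  if t then ∏ j ∈ Icc 2 (s i), gY (labI i) j x y else ∏ j ∈ Icc 2 (s i), gX (labI i) j x y

/-- The whole signature. -/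
def sgn (φ : Fin N → Fin N → ℤ) (τ : I → Bool) (x y : VV N s a b) : ℤ :=
  ext φ x y * ∏ i, ggs i (τ i) x y

/-- The signature without gadget `i`. -/
def sg0 (φ : Fin N → Fin N → ℤ) (τ : I → Bool) (i : I) (x y : VV N s a b) : ℤ :=
  ext φ x y * ∏ i' ∈ univ.erase i, ggs i' (τ i') x y

lemma isSig_ext {φ : Fin N → Fin N → ℤ} (hφ : IsSig φ) :
    IsSig (ext φ : VV N s a b → VV N s a b → ℤ) := by
  constructor
  · rintro (x | x) (y | y)
    · exact hφ.symm x y
    · rfl
    · rfl
    · rfl
  · rintro (x | x) (y | y)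
    · exact hφ.val x y
    · exact Or.inl rfl
    · exact Or.inl rfl
    · exact Or.inl rfl

lemma isSig_ggs (i : I) (t : Bool) : IsSig (ggs i t : VV N s a b → VV N s a b → ℤ) := by
  cases t
  · exact isSig_prod (Icc 2 (s i)) (gX (labI i)) (isSig_gX (labI i))
  · exact isSig_prod (Icc 2 (s i)) (gY (labI i)) (isSig_gY (labI i))

lemma isSig_sgn {φ : Fin N → Fin N → ℤ} (hφ : IsSig φ) (τ : I → Bool) :
    IsSig (sgn φ τ : VV N s a b → VV N s a b → ℤ) :=
  (isSig_ext hφ).mul (isSig_prod univ (fun i => ggs i (τ i)) fun i => isSig_ggs i (τ i))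

lemma isSig_sg0 {φ : Fin N → Fin N → ℤ} (hφ : IsSig φ) (τ : I → Bool) (i : I) :
    IsSig (sg0 φ τ i : VV N s a b → VV N s a b → ℤ) :=
  (isSig_ext hφ).mul (isSig_prod (univ.erase i) (fun i => ggs i (τ i)) fun i => isSig_ggs i (τ i))

lemma sg0_update (φ : Fin N → Fin N → ℤ) (τ : I → Bool) (i : I) (t : Bool) :
    (sg0 φ (Function.update τ i t) i : VV N s a b → VV N s a b → ℤ) = sg0 φ τ i := by
  funext x y
  unfold sg0
  congr 1
  refine Finset.prod_congr rfl fun i' hi' => ?_
  rw [Finset.mem_erase] at hi'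
  rw [Function.update_of_ne hi'.1]

lemma sgn_true (φ : Fin N → Fin N → ℤ) (τ : I → Bool) (i : I) (h : τ i = true) :
    (sgn φ τ : VV N s a b → VV N s a b → ℤ) = sigY (sg0 φ τ i) (labI i) (s i) := by
  funext x y
  unfold sgn sigY sg0
  rw [← Finset.mul_prod_erase univ _ (Finset.mem_univ i)]
  unfold ggs
  rw [h]
  simp only [if_true]
  ring

lemma sgn_false (φ : Fin N → Fin N → ℤ) (τ : I → Bool) (i : I) (h : τ i = false) :
    (sgn φ τ : VV N s a b → VV N s a b → ℤ) = sigX (sg0 φ τ i) (labI i) (s i) := by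
  funext x y
  unfold sgn sigX sg0
  rw [← Finset.mul_prod_erase univ _ (Finset.mem_univ i)]
  unfold ggs
  rw [h]
  simp only [if_false, Bool.false_eq_true]
  ring

lemma ggs_eq_one {i : I} {t : Bool} {x y : VV N s a b} (h : labI i x = (0, false)) :
    ggs i t x y = 1 := by
  have h1 : ∀ j ∈ Icc 2 (s i), gY (labI i) j x y = 1 := by
    intro j hj
    rw [Finset.mem_Icc] at hj
    unfold gY upY
    rw [if_neg]
    rw [h]
    simp only
    omega
  have h2 : ∀ j ∈ Icc 2 (s i), gX (labI i) j x y = 1 := by
    intro j hj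
    rw [Finset.mem_Icc] at hj
    unfold gX
    rw [if_neg]
    rintro (h' | h')
    · have := (upX_levels hj.1 h').1
      rw [h] at this
      simp only at this
      rcases h' with ⟨_, h2, _⟩ | ⟨_, h2⟩
      · rw [h] at h2; simp at h2
      · have := h2.2.2.1
        rw [h] at this
        simp at this
    · have := (upX_levels hj.1 h').2
      rw [h] at this
      simp only at this
      omega
  unfold ggs
  split_ifs
  · exact Finset.prod_eq_one h1
  · exact Finset.prod_eq_one h2

lemma ggs_eq_one' {i : I} {t : Bool} {x y : VV N s a b} (h : labI i y = (0, false)) :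
    ggs i t x y = 1 := by
  rw [(isSig_ggs i t).symm]
  exact ggs_eq_one h

lemma posAt_sg0 (φ : Fin N → Fin N → ℤ) (τ : I → Bool) (i : I) :
    PosAt (sg0 φ τ i : VV N s a b → VV N s a b → ℤ) (labI i) := by
  intro x y hx
  obtain ⟨u, rfl, _⟩ := labI_cases i x (by intro h; rw [h] at hx; exact hx rfl)
  have key : ∀ i' ∈ univ.erase i, ∀ y, ggs i' (τ i') (Sum.inr ⟨i, u⟩ : VV N s a b) y = 1 := by
    intro i' hi' y
    rw [Finset.mem_erase] at hi'
    exact ggs_eq_one (labI_ne (fun h => hi'.1 h.symm) u)
  have key' : ∀ i' ∈ univ.erase i, ∀ y, ggs i' (τ i') y (Sum.inr ⟨i, u⟩ : VV N s a b) = 1 := by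
    intro i' hi' y
    rw [(isSig_ggs i' (τ i')).symm]
    exact key i' hi' y
  constructor
  · unfold sg0
    rw [Finset.prod_eq_one fun i' hi' => key i' hi' y]
    rcases y with y | y <;> rfl
  · unfold sg0
    rw [Finset.prod_eq_one fun i' hi' => key' i' hi' y]
    rcases y with y | y <;> rfl

lemma sg0_inl (φ : Fin N → Fin N → ℤ) (τ : I → Bool) (i : I) (x y : Fin N) :
    (sg0 φ τ i : VV N s a b → VV N s a b → ℤ) (Sum.inl x) (Sum.inl y) = φ x y := by
  unfold sg0
  rw [Finset.prod_eq_one fun i' _ => ggs_eq_one (labI_inl i' x)]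
  simp [ext]

lemma sgn_inl (φ : Fin N → Fin N → ℤ) (τ : I → Bool) (x y : Fin N) :
    (sgn φ τ : VV N s a b → VV N s a b → ℤ) (Sum.inl x) (Sum.inl y) = φ x y := by
  unfold sgn
  rw [Finset.prod_eq_one fun i' _ => ggs_eq_one (labI_inl i' x)]
  simp [ext]

/-- The number of vertices in all gadgets. -/
def gadN (s a b : I → ℕ) : ℕ := ∑ i, (a i + (2 * (s i - 2) + b i))

lemma card_VV : Fintype.card (VV N s a b) = N + gadN s a b := by
  unfold gadN
  simp only [Fintype.card_sum, Fintype.card_sigma, Fintype.card_fin, Fintype.card_prod,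
    Fintype.card_bool]
  congr 1
  refine Finset.sum_congr rfl fun i _ => ?_
  ring

/-- All gadget vertices. -/
def X0 : Finset (VV N s a b) := univ.filter fun x => x.isRight = true

lemma card_X0 : (X0 : Finset (VV N s a b)).card = gadN s a b := by
  have h1 : (X0 : Finset (VV N s a b)) = (univ : Finset (Σ i : I, SV (s i) (a i) (b i))).image Sum.inr := by
    ext x
    unfold X0
    simp only [Finset.mem_filter, Finset.mem_univ, true_and, Finset.mem_image]
    rcases x with x | x
    · simp
    · simp
  rw [h1, Finset.card_image_of_injective _ Sum.inr_injective, Finset.card_univ]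
  have h2 := card_VV (N := N) (s := s) (a := a) (b := b)
  rw [Fintype.card_sum, Fintype.card_fin] at h2
  omega

lemma UU_subset (i : I) : UU (labI i) ⊆ (X0 : Finset (VV N s a b)) := by
  intro x hx
  rw [mem_UU] at hx
  obtain ⟨u, rfl, _⟩ := labI_cases i x (by intro h; rw [h] at hx; exact hx rfl)
  simp [X0]

end

end MP_90430c
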