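import Mathlib
import Pool.Agent.Lib.MP_90430c_co.Flip

/-! Lower bounds for signed path sums in a balanced environment. -/

open Finset

set_option linter.unusedSectionVars false

namespace MP_90430c

section

variable {V : Type*} [Fintype V] [DecidableEq V] {σ : V → V → ℤ}

lemma abs_Sp_le (hσ : IsSig σ) (m : ℕ) : ∀ (y : V) (X : Finset V),
    |Sp σ m y X| ≤ (Fintype.card V : ℤ) ^ m := by
  induction m with
  | zero => intro y X; simp [Sp]
  | succ m ih =>
    intro y X
    rw [Sp]
    refine (Finset.abs_sum_le_sum_abs _ _).trans ?_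
    have : ∀ v ∈ Xᶜ, |σ y v * Sp σ m v (insert v X)| ≤ (Fintype.card V : ℤ) ^ m := by
      intro v _
      rw [abs_mul, hσ.abs, one_mul]
      exact ih _ _
    refine (Finset.sum_le_sum this).trans ?_
    rw [Finset.sum_const, nsmul_eq_mul, pow_succ, mul_comm]
    refine mul_le_mul_of_nonneg_left ?_ (by positivity)
    exact_mod_cast Finset.card_le_univ _

lemma abs_Wp_le (hσ : IsSig σ) (m : ℕ) (X : Finset V) : |Wp σ m X| ≤ (Fintype.card V : ℤ) ^ m := by
  cases m with
  | zero => simp [Wp]
  | succ m =>
    rw [Wp]
    refine (Finset.abs_sum_le_sum_abs _ _).trans ?_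
    refine (Finset.sum_le_sum fun v _ => abs_Sp_le hσ m v (insert v X)).trans ?_
    rw [Finset.sum_const, nsmul_eq_mul, pow_succ, mul_comm]
    refine mul_le_mul_of_nonneg_left ?_ (by positivity)
    exact_mod_cast Finset.card_le_univ _

lemma compl_insert_eq (v : V) (X : Finset V) : (insert v X)ᶜ = Xᶜ.erase v := by
  ext z; simp only [Finset.mem_compl, Finset.mem_insert, Finset.mem_erase, not_or]

/-- Removing a vertex changes a path sum by little. -/
lemma Sp_insert (hσ : IsSig σ) (m : ℕ) : ∀ (w v : V) (X : Finset V), v ∉ X →
    |Sp σ m w X - Sp σ m w (insert v X)| ≤ m * (Fintype.card V : ℤ) ^ (m - 1) := by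
  induction m with
  | zero => intro w v X _; simp [Sp]
  | succ m ih =>
    intro w v X hv
    have hv' : v ∈ Xᶜ := Finset.mem_compl.2 hv
    rw [Sp, Sp, compl_insert_eq, ← Finset.add_sum_erase _ _ hv']
    rw [add_sub_assoc, ← Finset.sum_sub_distrib]
    refine (abs_add_le _ _).trans ?_
    have h1 : |σ w v * Sp σ m v (insert v X)| ≤ (Fintype.card V : ℤ) ^ m := by
      rw [abs_mul, hσ.abs, one_mul]
      exact abs_Sp_le hσ _ _ _
    have h2 : |∑ u ∈ Xᶜ.erase v, (σ w u * Sp σ m u (insert u X)
        - σ w u * Sp σ m u (insert u (insert v X)))| ≤ m * (Fintype.card V : ℤ) ^ m := by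
      refine (Finset.abs_sum_le_sum_abs _ _).trans ?_
      have h3 : ∀ u ∈ Xᶜ.erase v, |σ w u * Sp σ m u (insert u X)
          - σ w u * Sp σ m u (insert u (insert v X))| ≤ m * (Fintype.card V : ℤ) ^ (m - 1) := by
        intro u hu
        rw [Finset.mem_erase, Finset.mem_compl] at hu
        rw [← mul_sub, abs_mul, hσ.abs, one_mul, Finset.insert_comm]
        refine ih u v (insert u X) ?_
        rw [Finset.mem_insert]
        push Not
        exact ⟨fun h => hu.1 h.symm, hv⟩
      refine (Finset.sum_le_sum h3).trans ?_
      rw [Finset.sum_const, nsmul_eq_mul]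
      have hcard : ((Xᶜ.erase v).card : ℤ) ≤ Fintype.card V := by
        exact_mod_cast Finset.card_le_univ _
      rcases Nat.eq_zero_or_pos m with rfl | hm
      · simp
      · have e : (Fintype.card V : ℤ) ^ m = Fintype.card V * (Fintype.card V : ℤ) ^ (m - 1) := by
          rw [← pow_succ']
          congr 1
          omega
        rw [e]
        calc ((Xᶜ.erase v).card : ℤ) * (m * (Fintype.card V : ℤ) ^ (m - 1))
            ≤ Fintype.card V * (m * (Fintype.card V : ℤ) ^ (m - 1)) :=
              mul_le_mul_of_nonneg_right hcard (by positivity)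
          _ = _ := by ring
    have h4 : m + 1 - 1 = m := by omega
    rw [h4]
    push_cast
    linarith

lemma Wp_insert (hσ : IsSig σ) (m : ℕ) (v : V) (X : Finset V) (hv : v ∉ X) :
    |Wp σ m X - Wp σ m (insert v X)| ≤ m * (Fintype.card V : ℤ) ^ (m - 1) := by
  cases m with
  | zero => simp [Wp]
  | succ m =>
    have hv' : v ∈ Xᶜ := Finset.mem_compl.2 hv
    rw [Wp, Wp, compl_insert_eq, ← Finset.add_sum_erase _ _ hv']
    rw [add_sub_assoc, ← Finset.sum_sub_distrib]
    refine (abs_add_le _ _).trans ?_
    have h1 : |Sp σ m v (insert v X)| ≤ (Fintype.card V : ℤ) ^ m := abs_Sp_le hσ _ _ _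
    have h2 : |∑ u ∈ Xᶜ.erase v, (Sp σ m u (insert u X)
        - Sp σ m u (insert u (insert v X)))| ≤ m * (Fintype.card V : ℤ) ^ m := by
      refine (Finset.abs_sum_le_sum_abs _ _).trans ?_
      have h3 : ∀ u ∈ Xᶜ.erase v, |Sp σ m u (insert u X)
          - Sp σ m u (insert u (insert v X))| ≤ m * (Fintype.card V : ℤ) ^ (m - 1) := by
        intro u hu
        rw [Finset.mem_erase, Finset.mem_compl] at hu
        rw [Finset.insert_comm]
        refine Sp_insert hσ m u v (insert u X) ?_
        rw [Finset.mem_insert]
        push Not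
        exact ⟨fun h => hu.1 h.symm, hv⟩
      refine (Finset.sum_le_sum h3).trans ?_
      rw [Finset.sum_const, nsmul_eq_mul]
      have hcard : ((Xᶜ.erase v).card : ℤ) ≤ Fintype.card V := by
        exact_mod_cast Finset.card_le_univ _
      rcases Nat.eq_zero_or_pos m with rfl | hm
      · simp
      · have e : (Fintype.card V : ℤ) ^ m = Fintype.card V * (Fintype.card V : ℤ) ^ (m - 1) := by
          rw [← pow_succ']
          congr 1
          omega
        rw [e]
        calc ((Xᶜ.erase v).card : ℤ) * (m * (Fintype.card V : ℤ) ^ (m - 1))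
            ≤ Fintype.card V * (m * (Fintype.card V : ℤ) ^ (m - 1)) :=
              mul_le_mul_of_nonneg_right hcard (by positivity)
          _ = _ := by ring
    have h4 : m + 1 - 1 = m := by omega
    rw [h4]
    push_cast
    linarith

lemma Wp_union (hσ : IsSig σ) (m : ℕ) (X Y : Finset V) :
    |Wp σ m X - Wp σ m (X ∪ Y)| ≤ Y.card * (m * (Fintype.card V : ℤ) ^ (m - 1)) := by
  induction Y using Finset.induction_on with
  | empty => simp
  | insert v Y hv ih =>
    rw [Finset.union_insert, Finset.card_insert_of_notMem hv]
    by_cases h : v ∈ X ∪ Y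
    · rw [Finset.insert_eq_self.2 h]
      refine ih.trans ?_
      push_cast
      nlinarith [show (0 : ℤ) ≤ m * (Fintype.card V : ℤ) ^ (m - 1) by positivity]
    · have h1 := Wp_insert hσ m v (X ∪ Y) h
      have h2 : Wp σ m X - Wp σ m (insert v (X ∪ Y))
          = (Wp σ m X - Wp σ m (X ∪ Y)) + (Wp σ m (X ∪ Y) - Wp σ m (insert v (X ∪ Y))) := by ring
      rw [h2]
      refine (abs_add_le _ _).trans ?_
      push_cast
      linarith

/-- Starting at a positive vertex. -/
lemma Sp_pos {y : V} {X : Finset V} (m : ℕ) (hy : ∀ u ∉ X, σ y u = 1) : Sp σ m y X = Wp σ m X := by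
  cases m with
  | zero => rfl
  | succ m =>
    rw [Sp, Wp]
    refine Finset.sum_congr rfl fun v hv => ?_
    rw [hy v (Finset.mem_compl.1 hv), one_mul]

/-- Lower bound for path sums when the signature is positive at `A0` and has small row sums
elsewhere. -/
theorem Wp_lower (hσ : IsSig σ) (X0 A0 : Finset V) (hA0 : Disjoint A0 X0)
    (hpos : ∀ x ∈ A0, ∀ y ∉ X0, σ x y = 1) (K : ℕ) (α : ℝ) (hα : 0 < α) (hα1 : α ≤ 1)
    (hA0c : α * Fintype.card V ≤ A0.card)
    (hK : 2 * K ≤ α * Fintype.card V)
    (hR : ((∑ w ∈ (X0 ∪ A0)ᶜ, |∑ v ∈ (X0 ∪ A0)ᶜ.erase w, σ v w| : ℤ) : ℝ)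
      + 2 * K * Fintype.card V ≤ (α / 4) ^ K * (Fintype.card V : ℝ) ^ 2) (hn : 1 ≤ Fintype.card V) :
    ∀ k : ℕ, ∀ X : Finset V, X0 ⊆ X → (X \ X0).card + k ≤ K →
      (α / 4) ^ k * (Fintype.card V : ℝ) ^ k ≤ Wp σ k X := by
  intro k
  induction k using Nat.strong_induction_on with
  | _ k ih =>
    intro X hX hXK
    set n : ℝ := (Fintype.card V : ℝ) with hndef
    have hn0 : (1 : ℝ) ≤ n := by rw [hndef]; exact_mod_cast hn
    -- the number of vertices of A0 outside X
    have hA : α / 2 * n ≤ ((A0 \ X).card : ℝ) := by
      have h1 : A0.card ≤ (A0 \ X).card + (X \ X0).card := by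
        have h2 : A0 ⊆ (A0 \ X) ∪ (X \ X0) := by
          intro z hz
          rw [Finset.mem_union, Finset.mem_sdiff, Finset.mem_sdiff]
          by_cases hzX : z ∈ X
          · exact Or.inr ⟨hzX, Finset.disjoint_left.1 hA0 hz⟩
          · exact Or.inl ⟨hz, hzX⟩
        exact (Finset.card_le_card h2).trans (Finset.card_union_le _ _)
      have h3 : ((X \ X0).card : ℝ) ≤ K := by
        exact_mod_cast (by omega : (X \ X0).card ≤ K)
      have h4 : (A0.card : ℝ) ≤ (A0 \ X).card + (X \ X0).card := by exact_mod_cast h1
      linarith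
    rcases Nat.eq_zero_or_pos k with rfl | hk
    · simp [Wp]
    · obtain ⟨m, rfl⟩ : ∃ m, k = m + 1 := ⟨k - 1, by omega⟩
      set B := (X0 ∪ A0)ᶜ with hB
      have hsplit : Xᶜ = (A0 \ X) ∪ (B \ X) := by
        ext z
        rw [hB]
        simp only [Finset.mem_compl, Finset.mem_union, Finset.mem_sdiff, not_or]
        constructor
        · intro hz
          by_cases hzA : z ∈ A0
          · exact Or.inl ⟨hzA, hz⟩
          · exact Or.inr ⟨⟨fun h => hz (hX h), hzA⟩, hz⟩
        · rintro (⟨_, h⟩ | ⟨_, h⟩) <;> exact h
      have hdisj : Disjoint (A0 \ X) (B \ X) := by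
        rw [Finset.disjoint_left]
        intro z hz hz'
        rw [hB] at hz'
        simp only [Finset.mem_compl, Finset.mem_union, Finset.mem_sdiff, not_or] at hz hz'
        exact hz'.1.2 hz.1
      have hcardX : ∀ v ∈ Xᶜ, (insert v X \ X0).card + m ≤ K := by
        intro v hv
        have : (insert v X \ X0) ⊆ insert v (X \ X0) := by
          intro z hz
          simp only [Finset.mem_sdiff, Finset.mem_insert] at hz ⊢
          tauto
        have := (Finset.card_le_card this).trans (Finset.card_insert_le _ _)
        omega
      rw [Wp, hsplit, Finset.sum_union hdisj]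
      -- first part
      have p1 : α / 2 * n * ((α / 4) ^ m * n ^ m)
          ≤ ((∑ v ∈ A0 \ X, Sp σ m v (insert v X) : ℤ) : ℝ) := by
        push_cast
        have h1 : ∀ v ∈ A0 \ X, (α / 4) ^ m * n ^ m ≤ ((Sp σ m v (insert v X) : ℤ) : ℝ) := by
          intro v hv
          rw [Finset.mem_sdiff] at hv
          rw [Sp_pos m (fun u hu => hpos v hv.1 u (fun h => hu (Finset.mem_insert_of_mem (hX h))))]
          exact ih m (by omega) (insert v X) (hX.trans (Finset.subset_insert _ _))
            (hcardX v (Finset.mem_compl.2 hv.2))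
        refine le_trans ?_ (Finset.card_nsmul_le_sum _ _ _ h1)
        rw [nsmul_eq_mul]
        exact mul_le_mul_of_nonneg_right hA (by positivity)
      rcases Nat.eq_zero_or_pos m with rfl | hm
      · -- k = 1
        push_cast at p1 ⊢
        have h2 : (0 : ℝ) ≤ ∑ v ∈ B \ X, ((Sp σ 0 v (insert v X) : ℤ) : ℝ) := by
          refine Finset.sum_nonneg fun v _ => ?_
          simp [Sp]
        have h3 : 0 < α * n := by positivity
        simp only [pow_zero, mul_one] at p1
        rw [pow_one, pow_one]
        nlinarith
      · obtain ⟨r, rfl⟩ : ∃ r, m = r + 1 := ⟨m - 1, by omega⟩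
        -- second part
        have e1 : ∀ v ∈ B \ X, Sp σ (r + 1) v (insert v X)
            = ∑ u ∈ A0 \ X, Wp σ r (insert u (insert v X))
              + ∑ u ∈ (B \ X).erase v, σ v u * Sp σ r u (insert u (insert v X)) := by
          intro v hv
          have hvX : v ∉ X := (Finset.mem_sdiff.1 hv).2
          have hvB : v ∈ B := (Finset.mem_sdiff.1 hv).1
          have hvA : v ∉ A0 := by
            rw [hB] at hvB
            simp only [Finset.mem_compl, Finset.mem_union, not_or] at hvB
            exact hvB.2
          have hvX0 : v ∉ X0 := fun h => hvX (hX h)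
          have hs2 : (insert v X)ᶜ = (A0 \ X) ∪ ((B \ X).erase v) := by
            rw [compl_insert_eq, hsplit, Finset.erase_union_distrib,
              Finset.erase_eq_of_notMem (s := A0 \ X) (fun h => hvA (Finset.mem_sdiff.1 h).1)]
          rw [Sp, hs2, Finset.sum_union (hdisj.mono_right (Finset.erase_subset _ _))]
          congr 1
          refine Finset.sum_congr rfl fun u hu => ?_
          rw [Finset.mem_sdiff] at hu
          rw [hσ.symm v u, hpos u hu.1 v hvX0, one_mul]
          refine Sp_pos r fun z hz => hpos u hu.1 z fun h => hz ?_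
          exact Finset.mem_insert_of_mem (Finset.mem_insert_of_mem (hX h))
        have e2 : ∑ v ∈ B \ X, Sp σ (r + 1) v (insert v X)
            = ∑ v ∈ B \ X, ∑ u ∈ A0 \ X, Wp σ r (insert u (insert v X))
              + ∑ v ∈ B \ X, ∑ u ∈ (B \ X).erase v, σ v u * Sp σ r u (insert u (insert v X)) := by
          rw [← Finset.sum_add_distrib]
          exact Finset.sum_congr rfl e1
        have p2 : (0 : ℝ) ≤ ((∑ v ∈ B \ X, ∑ u ∈ A0 \ X, Wp σ r (insert u (insert v X)) : ℤ) : ℝ) := by
          push_cast
          refine Finset.sum_nonneg fun v hv => Finset.sum_nonneg fun u hu => ?_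
          have hc : (insert u (insert v X) \ X0).card + r ≤ K := by
            have h1 : (insert u (insert v X) \ X0) ⊆ insert u (insert v (X \ X0)) := by
              intro z hz
              simp only [Finset.mem_sdiff, Finset.mem_insert] at hz ⊢
              tauto
            have h2 := (Finset.card_le_card h1).trans (Finset.card_insert_le _ _)
            have h3 := Finset.card_insert_le v (X \ X0)
            omega
          refine le_trans ?_ (ih r (by omega) (insert u (insert v X))
            ((hX.trans (Finset.subset_insert _ _)).trans (Finset.subset_insert _ _)) hc)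
          positivity
        -- third part
        have p3 : |((∑ v ∈ B \ X, ∑ u ∈ (B \ X).erase v,
            σ v u * Sp σ r u (insert u (insert v X)) : ℤ) : ℝ)| ≤ (α / 4) ^ K * n ^ (r + 2) := by
          have hswap : ∑ v ∈ B \ X, ∑ u ∈ (B \ X).erase v, σ v u * Sp σ r u (insert u (insert v X))
              = ∑ u ∈ B \ X, ∑ v ∈ (B \ X).erase u, σ v u * Sp σ r u (insert u (insert v X)) := by
            refine Finset.sum_comm' ?_
            intro v u
            simp only [Finset.mem_erase, ne_eq]
            constructor
            · rintro ⟨h1, h2, h3⟩; exact ⟨⟨fun h => h2 h.symm, h1⟩, h3⟩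
            · rintro ⟨⟨h1, h2⟩, h3⟩; exact ⟨h2, fun h => h1 h.symm, h3⟩
          rw [hswap]
          have hterm : ∀ u ∈ B \ X, |∑ v ∈ (B \ X).erase u, σ v u * Sp σ r u (insert u (insert v X))|
              ≤ (|∑ v ∈ B.erase u, σ v u| + K) * (Fintype.card V : ℤ) ^ r
                + Fintype.card V * (r * (Fintype.card V : ℤ) ^ (r - 1)) := by
            intro u hu
            have hu' := Finset.mem_sdiff.1 hu
            have hd : ∑ v ∈ (B \ X).erase u, σ v u * Sp σ r u (insert u (insert v X))
                = (∑ v ∈ (B \ X).erase u, σ v u) * Sp σ r u (insert u X)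
                  - ∑ v ∈ (B \ X).erase u, σ v u * (Sp σ r u (insert u X)
                    - Sp σ r u (insert v (insert u X))) := by
              rw [Finset.sum_mul, ← Finset.sum_sub_distrib]
              refine Finset.sum_congr rfl fun v _ => ?_
              rw [Finset.insert_comm u v]
              ring
            rw [hd]
            refine (abs_sub _ _).trans ?_
            refine add_le_add ?_ ?_
            · rw [abs_mul]
              refine mul_le_mul ?_ (abs_Sp_le hσ _ _ _) (abs_nonneg _) (by positivity)
              have h1 : B.erase u = ((B \ X).erase u) ∪ ((B ∩ X).erase u) := by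
                ext z
                simp only [Finset.mem_erase, Finset.mem_union, Finset.mem_sdiff, Finset.mem_inter]
                tauto
              have h2 : Disjoint ((B \ X).erase u) ((B ∩ X).erase u) := by
                rw [Finset.disjoint_left]
                intro z hz hz'
                simp only [Finset.mem_erase, Finset.mem_sdiff, Finset.mem_inter] at hz hz'
                exact hz.2.2 hz'.2.2
              have h3 : ∑ v ∈ (B \ X).erase u, σ v u
                  = ∑ v ∈ B.erase u, σ v u - ∑ v ∈ (B ∩ X).erase u, σ v u := by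
                rw [h1, Finset.sum_union h2]; ring
              rw [h3]
              refine (abs_sub _ _).trans (add_le_add_right ?_ _)
              refine (Finset.abs_sum_le_sum_abs _ _).trans ?_
              rw [Finset.sum_congr rfl fun v _ => hσ.abs v u, Finset.sum_const, nsmul_eq_mul, mul_one]
              have h4 : ((B ∩ X).erase u) ⊆ X \ X0 := by
                intro z hz
                simp only [Finset.mem_erase, Finset.mem_inter, Finset.mem_sdiff] at hz ⊢
                refine ⟨hz.2.2, fun h => ?_⟩
                have := hz.2.1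
                rw [hB] at this
                simp only [Finset.mem_compl, Finset.mem_union, not_or] at this
                exact this.1 h
              have h5 := Finset.card_le_card h4
              exact_mod_cast (by omega : ((B ∩ X).erase u).card ≤ K)
            · refine (Finset.abs_sum_le_sum_abs _ _).trans ?_
              have h6 : ∀ v ∈ (B \ X).erase u, |σ v u * (Sp σ r u (insert u X)
                    - Sp σ r u (insert v (insert u X)))| ≤ r * (Fintype.card V : ℤ) ^ (r - 1) := by
                intro v hv
                rw [Finset.mem_erase, Finset.mem_sdiff] at hv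
                rw [abs_mul, hσ.abs, one_mul]
                refine Sp_insert hσ r u v (insert u X) ?_
                rw [Finset.mem_insert]
                push Not
                exact ⟨hv.1, hv.2.2⟩
              refine (Finset.sum_le_sum h6).trans ?_
              rw [Finset.sum_const, nsmul_eq_mul]
              refine mul_le_mul_of_nonneg_right ?_ (by positivity)
              exact_mod_cast Finset.card_le_univ _
          have habs : |(∑ u ∈ B \ X, ∑ v ∈ (B \ X).erase u,
              σ v u * Sp σ r u (insert u (insert v X)) : ℤ)|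
              ≤ (∑ w ∈ B, |∑ v ∈ B.erase w, σ v w|) * (Fintype.card V : ℤ) ^ r
                + 2 * K * (Fintype.card V : ℤ) ^ (r + 1) := by
            refine (Finset.abs_sum_le_sum_abs _ _).trans ?_
            refine (Finset.sum_le_sum hterm).trans ?_
            refine (Finset.sum_le_sum_of_subset_of_nonneg (Finset.sdiff_subset (s := B) (t := X))
              (fun u _ _ => by positivity)).trans ?_
            rw [Finset.sum_add_distrib, ← Finset.sum_mul, Finset.sum_add_distrib, Finset.sum_const,
              Finset.sum_const, nsmul_eq_mul, nsmul_eq_mul]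
            have hBc : (B.card : ℤ) ≤ Fintype.card V := by exact_mod_cast Finset.card_le_univ _
            have hrK : (r : ℤ) ≤ K := by exact_mod_cast (by omega : r ≤ K)
            have hr0 : (r : ℤ) * (Fintype.card V : ℤ) ^ (r - 1) * Fintype.card V
                ≤ K * (Fintype.card V : ℤ) ^ r := by
              rcases Nat.eq_zero_or_pos r with rfl | hr
              · simp
              · have e : (Fintype.card V : ℤ) ^ r = (Fintype.card V : ℤ) ^ (r - 1) * Fintype.card V := by
                  rw [← pow_succ]; congr 1; omega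
                rw [e, mul_assoc]
                exact mul_le_mul_of_nonneg_right hrK (by positivity)
            have h7 : (B.card : ℤ) * K * (Fintype.card V : ℤ) ^ r
                ≤ K * (Fintype.card V : ℤ) ^ (r + 1) := by
              calc (B.card : ℤ) * K * (Fintype.card V : ℤ) ^ r
                  ≤ Fintype.card V * K * (Fintype.card V : ℤ) ^ r := by
                    refine mul_le_mul_of_nonneg_right (mul_le_mul_of_nonneg_right hBc ?_) ?_ <;>
                      positivity
                _ = K * (Fintype.card V : ℤ) ^ (r + 1) := by ring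
            have h8 : (B.card : ℤ) * (Fintype.card V * (r * (Fintype.card V : ℤ) ^ (r - 1)))
                ≤ K * (Fintype.card V : ℤ) ^ (r + 1) := by
              calc (B.card : ℤ) * (Fintype.card V * (r * (Fintype.card V : ℤ) ^ (r - 1)))
                  = B.card * (r * (Fintype.card V : ℤ) ^ (r - 1) * Fintype.card V) := by ring
                _ ≤ Fintype.card V * (K * (Fintype.card V : ℤ) ^ r) := by
                    refine mul_le_mul hBc hr0 ?_ ?_ <;> positivity
                _ = K * (Fintype.card V : ℤ) ^ (r + 1) := by ring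
            have h9 : (∑ w ∈ B, |∑ v ∈ B.erase w, σ v w| + (B.card : ℤ) * K)
                * (Fintype.card V : ℤ) ^ r = (∑ w ∈ B, |∑ v ∈ B.erase w, σ v w|)
                * (Fintype.card V : ℤ) ^ r + (B.card : ℤ) * K * (Fintype.card V : ℤ) ^ r := by ring
            rw [h9]
            linarith
          have habs' : |((∑ u ∈ B \ X, ∑ v ∈ (B \ X).erase u,
              σ v u * Sp σ r u (insert u (insert v X)) : ℤ) : ℝ)|
              ≤ ((∑ w ∈ B, |∑ v ∈ B.erase w, σ v w| : ℤ) : ℝ) * n ^ r + 2 * K * n ^ (r + 1) := by
            rw [← Int.cast_abs]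
            rw [hndef]
            exact_mod_cast habs
          refine habs'.trans ?_
          have e : ((∑ w ∈ B, |∑ v ∈ B.erase w, σ v w| : ℤ) : ℝ) * n ^ r + 2 * K * n ^ (r + 1)
              = (((∑ w ∈ B, |∑ v ∈ B.erase w, σ v w| : ℤ) : ℝ) + 2 * K * n) * n ^ r := by ring
          rw [e]
          calc _ ≤ ((α / 4) ^ K * n ^ 2) * n ^ r := mul_le_mul_of_nonneg_right hR (by positivity)
            _ = _ := by ring
        rw [e2, ← add_assoc]
        rw [Int.cast_add, Int.cast_add]
        have h10 := (abs_le.1 p3).1
        have h11 : (α / 4) ^ K ≤ (α / 4) ^ (r + 1 + 1) :=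
          pow_le_pow_of_le_one (by positivity) (by linarith) (by omega)
        have h12 : (α / 4) ^ K * n ^ (r + 2) ≤ (α / 4) ^ (r + 1 + 1) * n ^ (r + 2) :=
          mul_le_mul_of_nonneg_right h11 (by positivity)
        have h13 : α / 2 * n * ((α / 4) ^ (r + 1) * n ^ (r + 1))
            = 2 * ((α / 4) ^ (r + 1 + 1) * n ^ (r + 1 + 1)) := by ring
        rw [h13] at p1
        have h14 : n ^ (r + 2) = n ^ (r + 1 + 1) := rfl
        rw [h14] at h10 h12
        linarith

end

end MP_90430c
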