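import Mathlib
import Pool.Agent.Lib.MP_90430c_co.Unit
import Pool.Agent.Lib.MP_90430c_co.Div
import Pool.Agent.Lib.MP_90430c_co.Env

/-! The number of negative circles and its change when a gadget is toggled. -/

open Finset

set_option linter.unusedSectionVars false

namespace MP_90430c

section

variable {V : Type*} [Fintype V] [DecidableEq V] {lab : V → ℕ × Bool} {s a b : ℕ}
  {l : ℕ} [NeZero l] {σ₀ σ : V → V → ℤ}

/-- The number of negative circles of length `l`. -/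
def cc (l : ℕ) [NeZero l] (σ : V → V → ℤ) : ℤ :=
  (((Fintype.card V).descFactorial l : ℤ) - Z l σ) / (4 * l)

lemma cc_spec (hl : 3 ≤ l) (hn : l ≤ Fintype.card V) (hσ : IsSig σ) :
    4 * l * cc l σ = ((Fintype.card V).descFactorial l : ℤ) - Z l σ := by
  obtain ⟨z, _, hz⟩ := D_mem hl hn hσ
  unfold cc
  rw [hz, Int.mul_ediv_cancel_left]
  positivity

lemma cc_sub (hl : 3 ≤ l) (hn : l ≤ Fintype.card V) {τ : V → V → ℤ} (hσ : IsSig σ)
    (hτ : IsSig τ) : 4 * l * (cc l σ - cc l τ) = Z l τ - Z l σ := by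
  rw [mul_sub, cc_spec hl hn hσ, cc_spec hl hn hτ]; ring

lemma cc_flip_abs (hl : 3 ≤ l) (hn : l ≤ Fintype.card V) (hσ : IsSig σ) {x y : V} (hxy : x ≠ y) :
    |cc l (flip σ x y) - cc l σ| ≤ (Fintype.card V : ℤ) ^ (l - 2) := by
  have h1 := cc_sub hl hn (hσ.flip x y) hσ
  have h2 := Z_flip_abs hl hσ hxy
  rw [← h1, abs_mul, abs_of_nonneg (by positivity : (0 : ℤ) ≤ 4 * l)] at h2
  refine le_of_mul_le_mul_left h2 ?_
  have : (0 : ℤ) < l := by exact_mod_cast (by omega : 0 < l)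
  positivity

theorem toggle_formula (G : Gadget lab s a b) (hσ : IsSig σ₀) (h0 : PosAt σ₀ lab) (hl : 3 ≤ l)
    (hsl : s ≤ l) (hn : l ≤ Fintype.card V) :
    ∃ E : ℤ, 4 * l * ((-1) ^ s * (cc l (sigY σ₀ lab s) - cc l (sigX σ₀ lab s)))
        = 2 ^ (s - 1) * (2 * l * (((a * b : ℕ) : ℤ) * Wp σ₀ (l - s) (UU lab)) + E) ∧
      |E| ≤ 2 * ((l ^ (s + 1) * ((a * 2 ^ s * b * (UU lab).card)
        * Fintype.card V ^ (l - (s + 1))) : ℕ) : ℤ) ∧ (s = l → E = 0) := by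
  obtain ⟨E, hE, h2, h3⟩ := effect G hσ h0 hl hsl
  refine ⟨E, ?_, h2, h3⟩
  have h4 := cc_sub hl hn (isSig_sigY hσ lab s) (isSig_sigX hσ lab s)
  have hs := G.two_le
  obtain ⟨t, rfl⟩ : ∃ t, s = t + 2 := ⟨s - 2, by omega⟩
  have e1 : t + 2 - 1 = t + 1 := by omega
  rw [e1] at hE ⊢
  have e2 : 4 * (l : ℤ) * ((-1) ^ (t + 2) * (cc l (sigY σ₀ lab (t + 2)) - cc l (sigX σ₀ lab (t + 2))))
      = (-1) ^ (t + 2) * (4 * l * (cc l (sigY σ₀ lab (t + 2)) - cc l (sigX σ₀ lab (t + 2)))) := by ring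
  rw [e2, h4]
  have e3 : Z l (sigX σ₀ lab (t + 2)) - Z l (sigY σ₀ lab (t + 2))
      = -((-2) ^ (t + 1) * (2 * l * (((a * b : ℕ) : ℤ) * Wp σ₀ (l - (t + 2)) (UU lab)) + E)) := by
    rw [← hE]; ring
  rw [e3]
  have e4 : (-2 : ℤ) ^ (t + 1) = (-1) ^ (t + 1) * 2 ^ (t + 1) := by
    rw [← mul_pow]; norm_num
  rw [e4]
  have e5 : (-1 : ℤ) ^ (t + 2) * (-1) ^ (t + 1) = -1 := by
    rw [← pow_add]
    have : Odd (t + 2 + (t + 1)) := ⟨t + 1, by ring⟩
    exact this.neg_one_pow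
  linear_combination (-(2 : ℤ) ^ (t + 1) * (2 * l * (((a * b : ℕ) : ℤ)
    * Wp σ₀ (l - (t + 2)) (UU lab)) + E)) * e5

/-- The exact effect of a gadget with `l` levels. -/
theorem toggle_last (G : Gadget lab l a b) (hσ : IsSig σ₀) (h0 : PosAt σ₀ lab) (hl : 3 ≤ l)
    (hn : l ≤ Fintype.card V) :
    (-1) ^ l * (cc l (sigY σ₀ lab l) - cc l (sigX σ₀ lab l)) = 2 ^ (l - 2) * ((a * b : ℕ) : ℤ) := by
  obtain ⟨E, h1, _, h3⟩ := toggle_formula G hσ h0 hl le_rfl hn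
  rw [h3 rfl, Nat.sub_self, Wp] at h1
  have e : (2 : ℤ) ^ (l - 1) = 2 * 2 ^ (l - 2) := by
    rw [← pow_succ']; congr 1; omega
  rw [e] at h1
  have hl0 : (4 * (l : ℤ)) ≠ 0 := by
    have : (l : ℤ) ≠ 0 := by exact_mod_cast (by omega : l ≠ 0)
    positivity
  refine mul_left_cancel₀ hl0 ?_
  rw [h1]; ring

/-- The size of the effect of a gadget. -/
theorem toggle_size (G : Gadget lab s a b) (hσ : IsSig σ₀) (h0 : PosAt σ₀ lab) (hl : 3 ≤ l)
    (hsl : s < l) (hn : l ≤ Fintype.card V) {δ : ℝ} (hδ1 : δ ≤ 1)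
    (hW : δ * (Fintype.card V : ℝ) ^ (l - s) ≤ Wp σ₀ (l - s) (UU lab))
    (hU : (2 * l : ℝ) ^ s * (UU lab).card ≤ δ / 2 * Fintype.card V) :
    2 ^ (s - 2) * (a * b) * (Fintype.card V : ℝ) ^ (l - s) * (δ / 2)
        ≤ (((-1) ^ s * (cc l (sigY σ₀ lab s) - cc l (sigX σ₀ lab s)) : ℤ) : ℝ) ∧
      (((-1) ^ s * (cc l (sigY σ₀ lab s) - cc l (sigX σ₀ lab s)) : ℤ) : ℝ)
        ≤ 2 ^ (s - 2) * (a * b) * (Fintype.card V : ℝ) ^ (l - s) * 2 := by
  obtain ⟨E, h1, h2, _⟩ := toggle_formula G hσ h0 hl hsl.le hn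
  have hs := G.two_le
  set n : ℝ := (Fintype.card V : ℝ) with hndef
  set W : ℝ := ((Wp σ₀ (l - s) (UU lab) : ℤ) : ℝ) with hWdef
  set D : ℤ := (-1) ^ s * (cc l (sigY σ₀ lab s) - cc l (sigX σ₀ lab s)) with hD
  have hl0 : (0 : ℝ) < l := by exact_mod_cast (by omega : 0 < l)
  have e1 : (2 : ℝ) ^ (s - 1) = 2 * 2 ^ (s - 2) := by
    rw [← pow_succ']; congr 1; omega
  have h1' : 4 * (l : ℝ) * (D : ℝ) = 2 ^ (s - 1) * (2 * l * (((a : ℝ) * b) * W) + E) := by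
    have := congrArg (fun z : ℤ => (z : ℝ)) h1
    push_cast at this
    rw [← hWdef] at this
    exact this
  rw [e1] at h1'
  have h3 : (D : ℝ) = 2 ^ (s - 2) * ((a : ℝ) * b * W + E / (2 * l)) := by
    field_simp
    linarith
  have h4 : |(E : ℝ)| ≤ 2 * ((l : ℝ) ^ (s + 1) * ((a * 2 ^ s * b * (UU lab).card)
        * n ^ (l - (s + 1)))) := by
    have : ((|E| : ℤ) : ℝ) ≤ ((2 * ((l ^ (s + 1) * ((a * 2 ^ s * b * (UU lab).card)
        * Fintype.card V ^ (l - (s + 1))) : ℕ) : ℤ) : ℤ) : ℝ) := by exact_mod_cast h2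
    push_cast at this
    rw [hndef]
    exact this
  have e2 : n ^ (l - s) = n * n ^ (l - (s + 1)) := by
    rw [← pow_succ']; congr 1; omega
  have hn0 : 0 ≤ n := by rw [hndef]; positivity
  have hab0 : (0 : ℝ) ≤ (a : ℝ) * b := by positivity
  have h5 : |(E : ℝ) / (2 * l)| ≤ (a : ℝ) * b * (δ / 2) * n ^ (l - s) := by
    rw [abs_div, abs_of_pos (by positivity : (0 : ℝ) < 2 * l), div_le_iff₀ (by positivity)]
    refine h4.trans ?_
    have h6 : (l : ℝ) ^ (s + 1) * ((a * 2 ^ s * b * (UU lab).card) * n ^ (l - (s + 1)))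
        = (l * (a * b) * n ^ (l - (s + 1))) * ((2 * l : ℝ) ^ s * (UU lab).card) := by
      rw [mul_pow]; ring
    rw [h6]
    calc 2 * ((l * (a * b) * n ^ (l - (s + 1))) * ((2 * l : ℝ) ^ s * (UU lab).card))
        ≤ 2 * ((l * (a * b) * n ^ (l - (s + 1))) * (δ / 2 * n)) := by
          refine mul_le_mul_of_nonneg_left (mul_le_mul_of_nonneg_left hU ?_) (by norm_num)
          positivity
      _ = (a : ℝ) * b * (δ / 2) * (n * n ^ (l - (s + 1))) * (2 * l) := by ring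
      _ = _ := by rw [← e2]
  have hWup : W ≤ n ^ (l - s) := by
    have := abs_Wp_le hσ (l - s) (UU lab)
    have := (abs_le.1 this).2
    rw [hWdef, hndef]
    exact_mod_cast this
  have h7 := abs_le.1 h5
  have hp : (0 : ℝ) < 2 ^ (s - 2) := by positivity
  have hnl : (0 : ℝ) ≤ n ^ (l - s) := by positivity
  rw [h3]
  constructor
  · have h8 : (a : ℝ) * b * n ^ (l - s) * (δ / 2) ≤ (a : ℝ) * b * W + E / (2 * l) := by
      have h9 : (a : ℝ) * b * (δ * n ^ (l - s)) ≤ (a : ℝ) * b * W :=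
        mul_le_mul_of_nonneg_left hW hab0
      have := h7.1
      nlinarith
    calc 2 ^ (s - 2) * ((a : ℝ) * b) * n ^ (l - s) * (δ / 2)
        = 2 ^ (s - 2) * ((a : ℝ) * b * n ^ (l - s) * (δ / 2)) := by ring
      _ ≤ _ := mul_le_mul_of_nonneg_left h8 hp.le
  · have h8 : (a : ℝ) * b * W + E / (2 * l) ≤ (a : ℝ) * b * n ^ (l - s) * 2 := by
      have h9 : (a : ℝ) * b * W ≤ (a : ℝ) * b * n ^ (l - s) :=
        mul_le_mul_of_nonneg_left hWup hab0
      have h10 := h7.2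
      have h11 : (a : ℝ) * b * (δ / 2) * n ^ (l - s) ≤ (a : ℝ) * b * n ^ (l - s) := by
        have : (a : ℝ) * b * (δ / 2) * n ^ (l - s) = ((a : ℝ) * b * n ^ (l - s)) * (δ / 2) := by ring
        rw [this]
        refine mul_le_of_le_one_right (by positivity) (by linarith)
      linarith
    calc 2 ^ (s - 2) * ((a : ℝ) * b * W + E / (2 * l))
        ≤ 2 ^ (s - 2) * ((a : ℝ) * b * n ^ (l - s) * 2) := mul_le_mul_of_nonneg_left h8 hp.le
      _ = _ := by ring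

/-- The effect of a gadget with many twins is divisible by a power of two. -/
theorem toggle_dvd {a' : ℕ} (G : Gadget lab s (l * 2 ^ l * a') b) (hσ : IsSig σ₀)
    (h0 : PosAt σ₀ lab) (hl : 3 ≤ l) (hn : l ≤ Fintype.card V) :
    (2 ^ (l - 2) : ℤ) ∣ cc l (sigY σ₀ lab s) - cc l (sigX σ₀ lab s) := by
  have h1 := G.dvd (l := l) hσ h0
  have h2 := cc_sub hl hn (isSig_sigY hσ lab s) (isSig_sigX hσ lab s)
  obtain ⟨k, hk⟩ := h1
  have e : (2 : ℤ) ^ l = 4 * 2 ^ (l - 2) := by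
    conv_lhs => rw [show l = (l - 2) + 2 by omega, pow_add]
    ring
  refine ⟨-(a' * k), ?_⟩
  have hl0 : (4 * (l : ℤ)) ≠ 0 := by
    have : (l : ℤ) ≠ 0 := by exact_mod_cast (by omega : l ≠ 0)
    positivity
  refine mul_left_cancel₀ hl0 ?_
  rw [h2]
  push_cast at hk
  rw [e] at hk
  linear_combination -hk

lemma dvd_of_mem_II {t N m i : ℕ} (h : ∀ j, t ≤ j → j ≤ m → (2 ^ i : ℤ) ∣ gen N m j) {z : ℤ}
    (hz : z ∈ II t N m) : (2 ^ i : ℤ) ∣ z := by
  refine Submodule.span_induction (p := fun z _ => (2 ^ i : ℤ) ∣ z) ?_ ?_ ?_ ?_ hz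
  · rintro z ⟨j, h1, h2, rfl⟩
    exact h j h1 h2
  · exact dvd_zero _
  · intro x y _ _ hx hy
    exact dvd_add hx hy
  · intro a x _ hx
    exact Dvd.dvd.mul_left hx a

lemma gg_dvd_gen {n : ℕ} {j : ℕ} (hl : 2 ≤ l) (hj : j ≤ l - 2) (hn : l ≤ n) :
    (gg n l : ℤ) ∣ gen (n - 2) (l - 2) j := by
  unfold gg gen
  have h1 : (Finset.Icc 2 l).gcd (fun s => 2 ^ (s - 2) * (n - s).descFactorial (l - s))
      ∣ 2 ^ (j + 2 - 2) * (n - (j + 2)).descFactorial (l - (j + 2)) :=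
    Finset.gcd_dvd (Finset.mem_Icc.2 ⟨by omega, by omega⟩)
  have e1 : j + 2 - 2 = j := by omega
  have e2 : n - (j + 2) = n - 2 - j := by omega
  have e3 : l - (j + 2) = l - 2 - j := by omega
  rw [e1, e2, e3] at h1
  exact_mod_cast h1

lemma gg_eq_pow {n : ℕ} (hl : 2 ≤ l) : ∃ v ≤ l - 2, gg n l = 2 ^ v := by
  have h1 : gg n l ∣ 2 ^ (l - 2) := by
    unfold gg
    have h2 : (Finset.Icc 2 l).gcd (fun s => 2 ^ (s - 2) * (n - s).descFactorial (l - s))
        ∣ 2 ^ (l - 2) * (n - l).descFactorial (l - l) :=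
      Finset.gcd_dvd (Finset.mem_Icc.2 ⟨by omega, le_rfl⟩)
    simpa using h2
  exact (Nat.dvd_prime_pow Nat.prime_two).1 h1

/-- For each bit there is a unit gadget which changes exactly this bit. -/
lemma exists_level {n v i : ℕ} (hl : 3 ≤ l) (hn : l ≤ n) (hv : gg n l = 2 ^ v) (hvi : v ≤ i)
    (hi : i < l - 2) : ∃ j < l - 2, (∀ j', j + 1 ≤ j' → j' ≤ l - 2 →
      (2 ^ (i + 1) : ℤ) ∣ gen (n - 2) (l - 2) j') ∧
      ∃ z, gen (n - 2) (l - 2) j = 2 ^ i * (2 * z + 1) := by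
  classical
  set m := l - 2 with hm
  set N := n - 2 with hN
  have hex : ((Finset.range (m + 1)).filter fun j => ¬ (2 ^ (i + 1) : ℤ) ∣ gen N m j).Nonempty := by
    by_contra hcon
    rw [Finset.not_nonempty_iff_eq_empty, Finset.filter_eq_empty_iff] at hcon
    have h1 : 2 ^ (i + 1) ∣ gg n l := by
      unfold gg
      refine Finset.dvd_gcd fun s hs => ?_
      rw [Finset.mem_Icc] at hs
      have h2 := hcon (x := s - 2) (Finset.mem_range.2 (by omega))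
      rw [not_not] at h2
      unfold gen at h2
      have e2 : N - (s - 2) = n - s := by omega
      have e3 : m - (s - 2) = l - s := by omega
      rw [e2, e3] at h2
      exact_mod_cast h2
    rw [hv] at h1
    have := (Nat.pow_dvd_pow_iff_le_right (by norm_num : 1 < 2)).1 h1
    omega
  set j := ((Finset.range (m + 1)).filter fun j => ¬ (2 ^ (i + 1) : ℤ) ∣ gen N m j).max' hex with hj
  have hj1 := Finset.max'_mem _ hex
  rw [← hj, Finset.mem_filter, Finset.mem_range] at hj1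
  have hmax : ∀ j', j + 1 ≤ j' → j' ≤ m → (2 ^ (i + 1) : ℤ) ∣ gen N m j' := by
    intro j' h1 h2
    by_contra hcon
    have h3 := Finset.le_max' ((Finset.range (m + 1)).filter fun j => ¬ (2 ^ (i + 1) : ℤ) ∣ gen N m j)
      j' (Finset.mem_filter.2 ⟨Finset.mem_range.2 (by omega), hcon⟩)
    rw [← hj] at h3
    omega
  have hjm : j < m := by
    rcases Nat.lt_or_ge j m with h | h
    · exact h
    · exfalso
      have e : j = m := by omega
      apply hj1.2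
      rw [e]
      unfold gen
      simp only [Nat.sub_self, Nat.descFactorial_zero, Nat.cast_one, mul_one]
      exact pow_dvd_pow _ (by omega)
  refine ⟨j, hjm, hmax, ?_⟩
  have h1 := hmax (j + 1) le_rfl (by omega)
  have h2 : 2 * gen N m j = ((N - j : ℕ) : ℤ) * gen N m (j + 1) := by
    unfold gen
    have e1 : m - j = (m - (j + 1)) + 1 := by omega
    have e2 : N - j = (N - (j + 1)) + 1 := by omega
    rw [e1, e2, Nat.succ_descFactorial_succ]
    push_cast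
    ring
  have h3 : (2 ^ (i + 1) : ℤ) ∣ 2 * gen N m j := by rw [h2]; exact Dvd.dvd.mul_left h1 _
  rw [pow_succ, mul_comm ((2 : ℤ) ^ i) 2] at h3
  have h4 : (2 ^ i : ℤ) ∣ gen N m j := (mul_dvd_mul_iff_left (by norm_num : (2 : ℤ) ≠ 0)).1 h3
  obtain ⟨w, hw⟩ := h4
  rcases Int.even_or_odd' w with ⟨w', hw' | hw'⟩
  · exfalso
    apply hj1.2
    rw [hw, hw']
    exact ⟨w', by ring⟩
  · exact ⟨w', by rw [hw, hw']⟩

/-- The effect of the unit gadget for the bit `i`. -/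
theorem toggle_bit {i j : ℕ} (hl : 3 ≤ l) (hn : l ≤ Fintype.card V) (hj : j < l - 2)
    (hmax : ∀ j', j + 1 ≤ j' → j' ≤ l - 2 →
      (2 ^ (i + 1) : ℤ) ∣ gen (Fintype.card V - 2) (l - 2) j')
    (hz : ∃ z, gen (Fintype.card V - 2) (l - 2) j = 2 ^ i * (2 * z + 1))
    (G : Gadget lab (j + 2) 1 1) (hσ : IsSig σ₀) (h0 : PosAt σ₀ lab) :
    ∃ z, cc l (sigY σ₀ lab (j + 2)) - cc l (sigX σ₀ lab (j + 2)) = 2 ^ i * (2 * z + 1) := by
  obtain ⟨w, hw, hmem⟩ := unit_effect (l := l) G hσ h0 hl (by omega) hn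
  have h1 := cc_sub hl hn (isSig_sigY hσ lab (j + 2)) (isSig_sigX hσ lab (j + 2))
  have hl0 : (4 * (l : ℤ)) ≠ 0 := by
    have : (l : ℤ) ≠ 0 := by exact_mod_cast (by omega : l ≠ 0)
    positivity
  have h2 : cc l (sigY σ₀ lab (j + 2)) - cc l (sigX σ₀ lab (j + 2)) = w :=
    mul_left_cancel₀ hl0 (h1.trans hw)
  rw [h2]
  have e1 : j + 2 - 1 = j + 1 := by omega
  have e2 : j + 2 - 2 = j := by omega
  rw [e1, e2] at hmem
  obtain ⟨q, hq⟩ := dvd_of_mem_II hmax hmem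
  obtain ⟨z, hz⟩ := hz
  rw [hz] at hq
  rcases Nat.even_or_odd (j + 2) with h | h
  · rw [h.neg_one_pow] at hq
    refine ⟨z + q, ?_⟩
    rw [pow_succ] at hq
    linear_combination hq
  · rw [h.neg_one_pow] at hq
    refine ⟨-z - 1 + q, ?_⟩
    rw [pow_succ] at hq
    linear_combination hq

end

end MP_90430c
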