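import Mathlib
import Pool.Agent.Lib.MP_90430c_co.Config
import Pool.Agent.Lib.MP_90430c_co.Toggle

/-! Toggling a gadget in a configuration. -/

open Finset

set_option linter.unusedSectionVars false
set_option synthInstance.maxSize 4096

namespace MP_90430c

section

variable {I : Type} [Fintype I] [DecidableEq I] {N : ℕ} {s a b : I → ℕ} {l : ℕ} [NeZero l]

/-- The number of negative circles of a configuration. -/
def cfg (l : ℕ) [NeZero l] (N : ℕ) (s a b : I → ℕ) (φ : Fin N → Fin N → ℤ) (τ : I → Bool) : ℤ :=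
  cc l (sgn φ τ : VV N s a b → VV N s a b → ℤ)

lemma compl_X0_union (A' : Finset (Fin N)) :
    ((X0 : Finset (VV N s a b)) ∪ A'.image (Sum.inl : Fin N → VV N s a b))ᶜ
      = A'ᶜ.image (Sum.inl : Fin N → VV N s a b) := by
  ext x
  simp only [X0, Finset.mem_compl, Finset.mem_union, Finset.mem_filter, Finset.mem_univ, true_and,
    Finset.mem_image, not_or]
  rcases x with x | x
  · simp
  · simp

lemma W_cfg {φ : Fin N → Fin N → ℤ} (hφ : IsSig φ) (A' : Finset (Fin N))
    (hpos : ∀ x ∈ A', ∀ y, φ x y = 1) (K : ℕ) (α : ℝ) (hα : 0 < α) (hα1 : α ≤ 1)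
    (hA : α * Fintype.card (VV N s a b) ≤ A'.card) (hK : 2 * K ≤ α * Fintype.card (VV N s a b))
    (hR : ((∑ w ∈ A'ᶜ, |∑ v ∈ A'ᶜ.erase w, φ v w| : ℤ) : ℝ)
      + 2 * K * Fintype.card (VV N s a b) ≤ (α / 4) ^ K * (Fintype.card (VV N s a b) : ℝ) ^ 2)
    (hX : 2 * K * (gadN s a b : ℝ) ≤ (α / 4) ^ K * Fintype.card (VV N s a b))
    (hn : 1 ≤ Fintype.card (VV N s a b)) (τ : I → Bool) (i : I) {k : ℕ} (hk : k ≤ K) :
    (α / 4) ^ K / 2 * (Fintype.card (VV N s a b) : ℝ) ^ k
      ≤ Wp (sg0 φ τ i : VV N s a b → VV N s a b → ℤ) k (UU (labI i)) := by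
  classical
  set σ : VV N s a b → VV N s a b → ℤ := sg0 φ τ i with hσdef
  have hσ : IsSig σ := isSig_sg0 hφ τ i
  set n : ℝ := (Fintype.card (VV N s a b) : ℝ) with hndef
  have hn0 : (1 : ℝ) ≤ n := by rw [hndef]; exact_mod_cast hn
  have hsum : ∑ w ∈ ((X0 : Finset (VV N s a b)) ∪ A'.image (Sum.inl : Fin N → VV N s a b))ᶜ,
      |∑ v ∈ ((X0 : Finset (VV N s a b)) ∪ A'.image (Sum.inl : Fin N → VV N s a b))ᶜ.erase w, σ v w|
      = ∑ w ∈ A'ᶜ, |∑ v ∈ A'ᶜ.erase w, φ v w| := by
    rw [compl_X0_union, Finset.sum_image (fun x _ y _ h => Sum.inl_injective h)]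
    refine Finset.sum_congr rfl fun w _ => ?_
    congr 1
    have : (A'ᶜ.image (Sum.inl : Fin N → VV N s a b)).erase (Sum.inl w)
        = (A'ᶜ.erase w).image (Sum.inl : Fin N → VV N s a b) := by
      ext x
      simp only [Finset.mem_erase, Finset.mem_image]
      constructor
      · rintro ⟨h1, y, h2, rfl⟩
        exact ⟨y, ⟨fun h => h1 (by rw [h]), h2⟩, rfl⟩
      · rintro ⟨y, ⟨h1, h2⟩, rfl⟩
        exact ⟨fun h => h1 (Sum.inl_injective h), y, h2, rfl⟩
    rw [this, Finset.sum_image (fun x _ y _ h => Sum.inl_injective h)]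
    refine Finset.sum_congr rfl fun v _ => ?_
    rw [hσdef]
    exact sg0_inl φ τ i v w
  have h1 := Wp_lower hσ (X0 : Finset (VV N s a b)) (A'.image (Sum.inl : Fin N → VV N s a b))
    (by
      rw [Finset.disjoint_left]
      intro x hx hx'
      simp only [Finset.mem_image] at hx
      obtain ⟨y, _, rfl⟩ := hx
      simp [X0] at hx')
    (by
      intro x hx y hy
      simp only [Finset.mem_image] at hx
      obtain ⟨x, hx, rfl⟩ := hx
      rcases y with y | y
      · rw [hσdef, sg0_inl]; exact hpos x hx y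
      · simp [X0] at hy)
    K α hα hα1
    (by rw [Finset.card_image_of_injective _ Sum.inl_injective]; exact hA) hK
    (by rw [hsum]; exact hR) hn k X0 (Finset.Subset.refl _)
    (by rw [Finset.sdiff_self]; simpa using hk)
  have h2 := Wp_union hσ k (UU (labI i)) X0
  rw [Finset.union_eq_right.2 (UU_subset i), card_X0] at h2
  have h3 : (Wp σ k X0 : ℝ) - gadN s a b * (k * n ^ (k - 1)) ≤ Wp σ k (UU (labI i)) := by
    have h4 := (abs_le.1 h2).1
    have h5 : (((-(gadN s a b * (k * (Fintype.card (VV N s a b) : ℤ) ^ (k - 1)))) : ℤ) : ℝ)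
        ≤ ((Wp σ k (UU (labI i)) - Wp σ k X0 : ℤ) : ℝ) := by exact_mod_cast h4
    push_cast at h5
    rw [← hndef] at h5
    linarith
  have h6 : (gadN s a b : ℝ) * (k * n ^ (k - 1)) ≤ (α / 4) ^ K / 2 * n ^ k := by
    rcases Nat.eq_zero_or_pos k with rfl | hk0
    · simp; positivity
    · have e : n ^ k = n * n ^ (k - 1) := by rw [← pow_succ']; congr 1; omega
      rw [e]
      have hkK : (k : ℝ) ≤ K := by exact_mod_cast hk
      have h7 : (gadN s a b : ℝ) * k ≤ (α / 4) ^ K / 2 * n := by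
        calc (gadN s a b : ℝ) * k ≤ gadN s a b * K := by
              exact mul_le_mul_of_nonneg_left hkK (by positivity)
          _ ≤ (α / 4) ^ K / 2 * n := by linarith
      calc (gadN s a b : ℝ) * (k * n ^ (k - 1)) = (gadN s a b * k) * n ^ (k - 1) := by ring
        _ ≤ ((α / 4) ^ K / 2 * n) * n ^ (k - 1) := mul_le_mul_of_nonneg_right h7 (by positivity)
        _ = _ := by ring
  have h8 : (α / 4) ^ K * n ^ k ≤ (α / 4) ^ k * n ^ k := by
    refine mul_le_mul_of_nonneg_right ?_ (by positivity)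
    exact pow_le_pow_of_le_one (by positivity) (by linarith) hk
  linarith

lemma cfg_update_true {φ : Fin N → Fin N → ℤ} {τ : I → Bool} {i : I} (hτ : τ i = false) :
    cfg l N s a b φ (Function.update τ i true) - cfg l N s a b φ τ
      = cc l (sigY (sg0 φ τ i : VV N s a b → VV N s a b → ℤ) (labI i) (s i))
        - cc l (sigX (sg0 φ τ i : VV N s a b → VV N s a b → ℤ) (labI i) (s i)) := by
  unfold cfg
  rw [sgn_true φ (Function.update τ i true) i (by simp), sg0_update, sgn_false φ τ i hτ]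

lemma isSig_flip_inl {φ : Fin N → Fin N → ℤ} (τ : I → Bool) (x y : Fin N) :
    (sgn (flip φ x y) τ : VV N s a b → VV N s a b → ℤ) = flip (sgn φ τ) (Sum.inl x) (Sum.inl y) := by
  funext u v
  unfold sgn flip
  have h : (ext (fun u v => φ u v * ed x y u v) u v : ℤ)
      = ext φ u v * ed (Sum.inl x) (Sum.inl y : VV N s a b) u v := by
    rcases u with u | u <;> rcases v with v | v
    · simp only [ext, ed, Sum.inl.injEq]
    · simp [ext, ed]
    · simp [ext, ed]
    · simp [ext, ed]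
  rw [h]
  ring

end

end MP_90430c
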