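import Mathlib
import Pool.Agent.Lib.MP_90430c_co.Cfg

/-! A path of environments from the all positive one to a given one. -/

open Finset

set_option linter.unusedSectionVars false

namespace MP_90430c

section

variable {N : ℕ}

/-- The index of a pair. -/
def idx (x y : Fin N) : ℕ := max (x : ℕ) y * N + min (x : ℕ) y

lemma idx_symm (x y : Fin N) : idx x y = idx y x := by
  unfold idx; rw [max_comm, min_comm]

lemma idx_inj {x y u v : Fin N} (h : idx u v = idx x y) : (u = x ∧ v = y) ∨ (u = y ∧ v = x) := by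
  unfold idx at h
  have hx := x.2
  have hy := y.2
  have hu := u.2
  have hv := v.2
  have h1 : min (u : ℕ) v < N := by omega
  have h2 : min (x : ℕ) y < N := by omega
  have hN : 0 < N := by omega
  have e1 : max (u : ℕ) v = max (x : ℕ) y := by
    have a1 : (max (u : ℕ) v * N + min (u : ℕ) v) / N = max (u : ℕ) v := by
      rw [mul_comm, Nat.mul_add_div hN, Nat.div_eq_of_lt h1, add_zero]
    have a2 : (max (x : ℕ) y * N + min (x : ℕ) y) / N = max (x : ℕ) y := by
      rw [mul_comm, Nat.mul_add_div hN, Nat.div_eq_of_lt h2, add_zero]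
    rw [← a1, ← a2, h]
  have e2 : min (u : ℕ) v = min (x : ℕ) y := by
    rw [e1] at h; omega
  simp only [Fin.ext_iff]
  omega

/-- The environment at time `t`: the pairs of index smaller than `t` are taken from `M`, the others
are positive. -/
def pth (M : Fin N → Fin N → ℤ) (t : ℕ) (x y : Fin N) : ℤ :=
  if x ≠ y ∧ idx x y < t then M x y else 1

lemma isSig_pth {M : Fin N → Fin N → ℤ} (hM : IsSig M) (t : ℕ) : IsSig (pth M t) := by
  refine ⟨fun x y => ?_, fun x y => ?_⟩
  · unfold pth
    rw [idx_symm, hM.symm x y]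
    exact if_congr (and_congr_left' ne_comm) rfl rfl
  · unfold pth
    split_ifs
    · exact hM.val x y
    · exact Or.inl rfl

lemma pth_zero (M : Fin N → Fin N → ℤ) : pth M 0 = fun _ _ => 1 := by
  funext x y; simp [pth]

lemma pth_succ {M : Fin N → Fin N → ℤ} (hM : IsSig M) (t : ℕ) :
    pth M (t + 1) = pth M t ∨ ∃ x y, x ≠ y ∧ pth M (t + 1) = flip (pth M t) x y := by
  by_cases h : ∃ x y : Fin N, x ≠ y ∧ idx x y = t ∧ M x y = -1
  · obtain ⟨x, y, hxy, hi, hm⟩ := h
    refine Or.inr ⟨x, y, hxy, ?_⟩
    funext u v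
    unfold flip ed pth
    by_cases h1 : (u = x ∧ v = y) ∨ (u = y ∧ v = x)
    · rw [if_pos h1]
      rcases h1 with ⟨rfl, rfl⟩ | ⟨rfl, rfl⟩
      · rw [if_pos ⟨hxy, by omega⟩, if_neg (by omega), hm]; norm_num
      · rw [if_pos ⟨hxy.symm, by rw [idx_symm]; omega⟩, if_neg (by rw [idx_symm]; omega), hM.symm, hm]
        norm_num
    · rw [if_neg h1, mul_one]
      refine if_congr ?_ rfl rfl
      constructor
      · rintro ⟨h2, h3⟩
        refine ⟨h2, ?_⟩
        rcases Nat.lt_or_ge (idx u v) t with h4 | h4
        · exact h4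
        · exfalso
          exact h1 (idx_inj (by omega))
      · rintro ⟨h2, h3⟩
        exact ⟨h2, by omega⟩
  · left
    funext u v
    unfold pth
    by_cases h1 : u ≠ v ∧ idx u v < t
    · rw [if_pos h1, if_pos ⟨h1.1, by omega⟩]
    · rw [if_neg h1]
      split_ifs with h2
      · have h3 : idx u v = t := by
          have := h2.2
          have : ¬ idx u v < t := fun h => h1 ⟨h2.1, h⟩
          omega
        rcases hM.val u v with h4 | h4
        · exact h4
        · exact absurd ⟨u, v, h2.1, h3, h4⟩ h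
      · rfl

lemma pth_pos (M : Fin N → Fin N → ℤ) (t : ℕ) {x : Fin N} (hx : t / N < x) (y : Fin N) :
    pth M t x y = 1 := by
  unfold pth
  rw [if_neg]
  rintro ⟨_, h⟩
  unfold idx at h
  have hN : 0 < N := by have := x.2; omega
  have h1 : t < (t / N + 1) * N := by
    have := Nat.lt_div_mul_add hN (a := t)
    rw [add_mul, one_mul]; exact this
  have h2 : (t / N + 1) * N ≤ max (x : ℕ) y * N := Nat.mul_le_mul_right _ (by omega)
  omega

lemma pth_on (M : Fin N → Fin N → ℤ) (t : ℕ) {x y : Fin N} (hxy : x ≠ y) (hx : (x : ℕ) < t / N)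
    (hy : (y : ℕ) < t / N) : pth M t x y = M x y := by
  have h0 : idx x y < t := by
    unfold idx
    have hN : 0 < N := by have := x.2; omega
    have h1 : (t / N) * N ≤ t := Nat.div_mul_le_self t N
    have h2 : (max (x : ℕ) y + 1) * N ≤ (t / N) * N := Nat.mul_le_mul_right _ (by omega)
    have h3 : min (x : ℕ) y < N := by have := x.2; omega
    rw [add_mul, one_mul] at h2
    omega
  unfold pth
  rw [if_pos ⟨hxy, h0⟩]

/-- The sum of the absolute values of the row sums of a square part of `M`. -/
def rowB (M : Fin N → Fin N → ℤ) (q : ℕ) : ℤ :=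
  ∑ w ∈ univ.filter (fun w : Fin N => (w : ℕ) < q), |∑ v ∈ univ.filter (fun v : Fin N => (v : ℕ) < q), M v w|

lemma pth_rows {M : Fin N → Fin N → ℤ} (hM : IsSig M) (t : ℕ) (A' : Finset (Fin N))
    (hA : A' = univ.filter fun x : Fin N => t / N < x) :
    ∑ w ∈ A'ᶜ, |∑ v ∈ A'ᶜ.erase w, pth M t v w| ≤ rowB M (t / N) + 3 * N := by
  set q := t / N with hq
  have hmem : ∀ x : Fin N, x ∈ A'ᶜ ↔ (x : ℕ) ≤ q := by
    intro x; rw [hA]; simp
  have hrow : ∀ w ∈ A'ᶜ, |∑ v ∈ A'ᶜ.erase w, pth M t v w|
      ≤ (if (w : ℕ) < q then |∑ v ∈ univ.filter (fun v : Fin N => (v : ℕ) < q), M v w| else 0) + 2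
        + (if (w : ℕ) = q then (N : ℤ) else 0) := by
    intro w hw
    rw [hmem] at hw
    rcases Nat.lt_or_ge w q with h | h
    · rw [if_pos h, if_neg (by omega), add_zero]
      have h1 : |∑ v ∈ A'ᶜ.erase w, pth M t v w
          - ∑ v ∈ univ.filter (fun v : Fin N => (v : ℕ) < q), M v w| ≤ 2 := by
        have e1 : ∑ v ∈ A'ᶜ.erase w, pth M t v w
            = ∑ v : Fin N, if v ∈ A'ᶜ.erase w then pth M t v w else 0 := by
          rw [Finset.sum_ite_mem, Finset.univ_inter]
        rw [e1, Finset.sum_filter, ← Finset.sum_sub_distrib]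
        refine (Finset.abs_sum_le_sum_abs _ _).trans ?_
        have h2 : ∀ v ∈ (univ : Finset (Fin N)), |(if v ∈ A'ᶜ.erase w then pth M t v w else 0)
            - (if (v : ℕ) < q then M v w else 0)| ≤ (if v = w then 1 else 0)
              + (if (v : ℕ) = q then 1 else 0) := by
          intro v _
          by_cases hvw : v = w
          · subst hvw
            rw [if_neg (Finset.notMem_erase _ _), if_pos h, if_pos rfl, zero_sub, abs_neg, hM.abs]
            split_ifs <;> simp
          · rw [if_neg hvw, zero_add]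
            rcases Nat.lt_trichotomy v q with h3 | h3 | h3
            · rw [if_pos (Finset.mem_erase.2 ⟨hvw, (hmem v).2 h3.le⟩), if_pos h3,
                if_neg (by omega), pth_on M t hvw h3 h, sub_self, abs_zero]
            · rw [if_pos (Finset.mem_erase.2 ⟨hvw, (hmem v).2 h3.le⟩), if_neg (by omega), if_pos h3,
                sub_zero, (isSig_pth hM t).abs]
            · rw [if_neg (fun h4 => by
                have := (hmem v).1 (Finset.mem_erase.1 h4).2
                omega), if_neg (by omega), if_neg (by omega), sub_self, abs_zero]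
        refine (Finset.sum_le_sum h2).trans ?_
        rw [Finset.sum_add_distrib, Finset.sum_ite_eq' univ w, if_pos (Finset.mem_univ _)]
        have h4 : ∑ v : Fin N, (if (v : ℕ) = q then (1 : ℤ) else 0) ≤ 1 := by
          rw [← Finset.sum_filter, Finset.sum_const, nsmul_eq_mul, mul_one]
          have : (univ.filter fun v : Fin N => (v : ℕ) = q).card ≤ 1 := by
            rw [Finset.card_le_one]
            intro a ha b hb
            simp only [Finset.mem_filter, Finset.mem_univ, true_and] at ha hb
            exact Fin.ext (by omega)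
          exact_mod_cast this
        linarith
      have h5 := abs_sub_abs_le_abs_sub (∑ v ∈ A'ᶜ.erase w, pth M t v w)
        (∑ v ∈ univ.filter (fun v : Fin N => (v : ℕ) < q), M v w)
      linarith
    · rw [if_neg (by omega), if_pos (by omega)]
      refine (Finset.abs_sum_le_sum_abs _ _).trans ?_
      rw [Finset.sum_congr rfl fun v _ => (isSig_pth hM t).abs v w, Finset.sum_const, nsmul_eq_mul,
        mul_one]
      have := Finset.card_le_univ (A'ᶜ.erase w)
      rw [Fintype.card_fin] at this
      have h6 : ((A'ᶜ.erase w).card : ℤ) ≤ N := by exact_mod_cast this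
      linarith
  refine (Finset.sum_le_sum hrow).trans ?_
  rw [Finset.sum_add_distrib, Finset.sum_add_distrib]
  have h7 : ∑ w ∈ A'ᶜ, (if (w : ℕ) < q then |∑ v ∈ univ.filter (fun v : Fin N => (v : ℕ) < q), M v w|
      else 0) ≤ rowB M q := by
    unfold rowB
    rw [Finset.sum_filter]
    exact Finset.sum_le_sum_of_subset_of_nonneg (Finset.subset_univ _) (fun w _ _ => by
      split_ifs <;> positivity)
  have h8 : ∑ w ∈ A'ᶜ, (if (w : ℕ) = q then (N : ℤ) else 0) ≤ N := by
    rw [← Finset.sum_filter, Finset.sum_const, nsmul_eq_mul]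
    have : (A'ᶜ.filter fun v : Fin N => (v : ℕ) = q).card ≤ 1 := by
      rw [Finset.card_le_one]
      intro a ha b hb
      simp only [Finset.mem_filter] at ha hb
      exact Fin.ext (by omega)
    have h9 : (((A'ᶜ.filter fun v : Fin N => (v : ℕ) = q).card : ℕ) : ℤ) ≤ 1 := by exact_mod_cast this
    exact mul_le_of_le_one_left (by positivity) h9
  have h10 : ∑ _w ∈ A'ᶜ, (2 : ℤ) ≤ 2 * N := by
    rw [Finset.sum_const, nsmul_eq_mul]
    have := Finset.card_le_univ (A'ᶜ)
    rw [Fintype.card_fin] at this
    have h6 : ((A'ᶜ).card : ℤ) ≤ N := by exact_mod_cast this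
    linarith
  linarith

end

end MP_90430c
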