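import Mathlib
import Pool.Agent.Lib.MP_90430c_co.EnvPath

/-! The two ends of the path of environments. -/

open Finset

set_option linter.unusedSectionVars false
set_option synthInstance.maxSize 4096

namespace MP_90430c

section

variable {V : Type*} [Fintype V] [DecidableEq V] {l : ℕ} [NeZero l]

lemma cc_zero (hl : 3 ≤ l) (hn : l ≤ Fintype.card V) {σ : V → V → ℤ} (hσ : IsSig σ)
    (h : negN σ = 0) : cc l σ = 0 := by
  have h1 := cc_spec hl hn hσ
  rw [Z_of_negN_eq_zero hl hσ h, sub_self] at h1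
  have hl0 : (4 * (l : ℤ)) ≠ 0 := by
    have : (l : ℤ) ≠ 0 := by exact_mod_cast (by omega : l ≠ 0)
    positivity
  exact (mul_eq_zero.1 h1).resolve_left hl0

lemma cc_le_negN (hl : 3 ≤ l) (hn : l ≤ Fintype.card V) {σ : V → V → ℤ} (hσ : IsSig σ) :
    cc l σ ≤ negN σ * (Fintype.card V : ℤ) ^ (l - 2) := by
  induction hk : negN σ using Nat.strong_induction_on generalizing σ with
  | _ k ih =>
    rcases Nat.eq_zero_or_pos k with h0 | h0
    · rw [h0] at hk
      rw [cc_zero hl hn hσ hk, h0]; simp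
    · have h0' := h0
      rw [← hk] at h0'
      unfold negN at h0'
      obtain ⟨⟨x, y⟩, hp⟩ := Finset.card_pos.1 h0'
      simp only [Finset.mem_filter, Finset.mem_univ, true_and] at hp
      have hlt := negN_flip_lt hσ hp.1 hp.2
      have h1 := ih (negN (flip σ x y)) (by rw [← hk]; exact hlt) (hσ.flip x y) rfl
      have h2 := (abs_le.1 (cc_flip_abs hl hn hσ hp.1)).1
      have h3 : ((negN (flip σ x y) : ℕ) : ℤ) * (Fintype.card V : ℤ) ^ (l - 2)
          ≤ ((k : ℤ) - 1) * (Fintype.card V : ℤ) ^ (l - 2) := by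
        refine mul_le_mul_of_nonneg_right ?_ (by positivity)
        rw [hk] at hlt
        have : ((negN (flip σ x y) : ℕ) : ℤ) + 1 ≤ k := by exact_mod_cast hlt
        linarith
      have h4 : ((k : ℤ) - 1) * (Fintype.card V : ℤ) ^ (l - 2)
          = k * (Fintype.card V : ℤ) ^ (l - 2) - (Fintype.card V : ℤ) ^ (l - 2) := by ring
      linarith

lemma card_meet (B : Finset V) (S : Finset (Fin l → V)) (hS : ∀ f ∈ S, ∃ i, f i ∈ B) :
    S.card ≤ l * (B.card * Fintype.card V ^ (l - 1)) := by
  have h := card_hit (V := V) (l := l) (r := 1) (fun _ => B) S (by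
    intro f hf
    obtain ⟨i, hi⟩ := hS f hf
    exact ⟨fun _ => i, fun a b _ => Subsingleton.elim _ _, fun _ => hi⟩)
  simpa using h

end

section

variable {I : Type} [Fintype I] [DecidableEq I] {N : ℕ} {s a b : I → ℕ} {l : ℕ} [NeZero l]

lemma cfg_step (hl : 3 ≤ l) (hn : l ≤ Fintype.card (VV N s a b)) {M : Fin N → Fin N → ℤ}
    (hM : IsSig M) (t : ℕ) (τ : I → Bool) :
    |cfg l N s a b (pth M (t + 1)) τ - cfg l N s a b (pth M t) τ|
      ≤ (Fintype.card (VV N s a b) : ℤ) ^ (l - 2) := by
  rcases pth_succ hM t with h | ⟨x, y, hxy, h⟩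
  · rw [h, sub_self, abs_zero]; positivity
  · rw [h]
    unfold cfg
    rw [isSig_flip_inl]
    exact cc_flip_abs hl hn (isSig_sgn (isSig_pth hM t) τ) (fun h => hxy (Sum.inl_injective h))

/-- The upward edges of the gadgets in the state `X`. -/
def upR (x y : VV N s a b) : Prop := ∃ i, ∃ j ∈ Icc 2 (s i), upX j (labI i x) (labI i y)

lemma neg_upR {τ : I → Bool} (hτ : ∀ i, τ i = false) {x y : VV N s a b}
    (h : sgn (fun _ _ => 1) τ x y = -1) : upR x y ∨ upR y x := by
  by_contra hcon
  rw [not_or] at hcon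
  have h1 : sgn (fun _ _ => 1) τ x y = 1 := by
    unfold sgn
    have e1 : ext (fun _ _ => 1) x y = 1 := by
      rcases x with x | x <;> rcases y with y | y <;> rfl
    rw [e1, one_mul]
    refine Finset.prod_eq_one fun i _ => ?_
    unfold ggs
    rw [hτ i]
    simp only [if_false, Bool.false_eq_true]
    refine Finset.prod_eq_one fun j hj => ?_
    unfold gX
    rw [if_neg]
    rintro (h' | h')
    · exact hcon.1 ⟨i, j, hj, h'⟩
    · exact hcon.2 ⟨i, j, hj, h'⟩
  rw [h1] at h
  norm_num at h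

lemma upX_val {j : ℕ} {p q q' : ℕ × Bool} (h : upX j p q) (h' : upX j p q') : q = q' := by
  rcases h with ⟨h1, h2, h3⟩ | ⟨h1, h2⟩ <;> rcases h' with ⟨h1', h2', h3'⟩ | ⟨h1', h2'⟩
  · rw [h3, h3']
  · exact absurd h1 h1'
  · exact absurd h1' h1
  · exact Prod.ext (h2.2.1.trans h2'.2.1.symm) (h2.2.2.2.symm.trans h2'.2.2.2)

lemma upX_val' {j : ℕ} {p p' q : ℕ × Bool} (h : upX j p q) (h' : upX j p' q) : p = p' := by
  rcases h with ⟨h1, h2, h3⟩ | ⟨h1, h2⟩ <;> rcases h' with ⟨h1', h2', h3'⟩ | ⟨h1', h2'⟩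
  · rw [h2, h2']
  · exact absurd h1 h1'
  · exact absurd h1' h1
  · have e1 := h2.1
    have e2 := h2'.1
    exact Prod.ext (by omega) (h2.2.2.2.trans h2'.2.2.2.symm)

lemma lab_site {i i' : I} {x : VV N s a b} (h : labI i x ≠ (0, false)) (h' : labI i' x ≠ (0, false)) :
    i = i' := by
  obtain ⟨u, rfl, _⟩ := labI_cases i x h
  by_contra hne
  exact h' (labI_ne hne u)

lemma mem_X0_of_lab {i : I} {x : VV N s a b} (h : labI i x ≠ (0, false)) :
    x ∈ (X0 : Finset (VV N s a b)) := by
  obtain ⟨u, rfl, _⟩ := labI_cases i x h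
  simp [X0]

lemma card_upR (hs : ∀ i, 2 ≤ s i) :
    {p : VV N s a b × VV N s a b | upR p.1 p.2}.ncard ≤ 2 * gadN s a b := by
  classical
  set P1 : Set (VV N s a b × VV N s a b) :=
    {p | ∃ i, (∃ j ∈ Icc 2 (s i), upX j (labI i p.1) (labI i p.2)) ∧ (labI i p.2).1 < s i} with hP1
  set P2 : Set (VV N s a b × VV N s a b) :=
    {p | ∃ i, (∃ j ∈ Icc 2 (s i), upX j (labI i p.1) (labI i p.2)) ∧ (labI i p.2).1 = s i} with hP2
  have hsub : {p : VV N s a b × VV N s a b | upR p.1 p.2} ⊆ P1 ∪ P2 := by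
    rintro p ⟨i, j, hj, h⟩
    have h1 := (upX_levels (Finset.mem_Icc.1 hj).1 h).2
    rcases Nat.lt_or_ge j (s i) with h2 | h2
    · exact Or.inl ⟨i, ⟨j, hj, h⟩, by omega⟩
    · exact Or.inr ⟨i, ⟨j, hj, h⟩, by have := (Finset.mem_Icc.1 hj).2; omega⟩
  have hX : (↑(X0 : Finset (VV N s a b)) : Set (VV N s a b)).ncard = gadN s a b := by
    rw [Set.ncard_coe_finset, card_X0]
  have hlev : ∀ {i : I} {p : VV N s a b × VV N s a b}, (∃ j ∈ Icc 2 (s i),
      upX j (labI i p.1) (labI i p.2)) → labI i p.1 ≠ (0, false) ∧ labI i p.2 ≠ (0, false) := by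
    rintro i p ⟨j, hj, h⟩
    have h1 := upX_levels (Finset.mem_Icc.1 hj).1 h
    have h2 := (Finset.mem_Icc.1 hj).1
    constructor
    · intro h3
      rw [h3] at h1
      have := h1.1
      simp only at this
      omega
    · intro h3
      rw [h3] at h1
      have := h1.2
      simp only at this
      omega
  have hc1 : P1.ncard ≤ gadN s a b := by
    rw [← hX]
    refine Set.ncard_le_ncard_of_injOn (fun p => p.1) ?_ ?_ (Set.toFinite _)
    · rintro p ⟨i, h, _⟩
      exact mem_X0_of_lab (hlev h).1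
    · rintro ⟨x, y⟩ ⟨i, h, h2⟩ ⟨x', y'⟩ ⟨i', h', h2'⟩ hxx
      simp only at hxx
      subst hxx
      have hii := lab_site (hlev h).1 (hlev h').1
      subst hii
      obtain ⟨j, hj, h⟩ := h
      obtain ⟨j', hj', h'⟩ := h'
      have e1 := upX_levels (Finset.mem_Icc.1 hj).1 h
      have e2 := upX_levels (Finset.mem_Icc.1 hj').1 h'
      have hjj : j' = j := by
        have := e1.1
        have := e2.1
        simp only at *
        omega
      subst hjj
      have e3 := upX_val h h'
      simp only at e3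
      have hj2 := (Finset.mem_Icc.1 hj).1
      have hy := e1.2
      obtain ⟨z, _, hz⟩ := (gadget_lab (N := N) (s := s) (a := a) (b := b) i (hs i)).mid
        (labI i y).1 (by simp only at hy; omega) h2 (labI i y).2
      have e4 := hz y rfl
      have e5 := hz y' (by beta_reduce; rw [← e3])
      rw [e4, e5]
  have hc2 : P2.ncard ≤ gadN s a b := by
    rw [← hX]
    refine Set.ncard_le_ncard_of_injOn (fun p => p.2) ?_ ?_ (Set.toFinite _)
    · rintro p ⟨i, h, _⟩
      exact mem_X0_of_lab (hlev h).2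
    · rintro ⟨x, y⟩ ⟨i, h, h2⟩ ⟨x', y'⟩ ⟨i', h', h2'⟩ hyy
      simp only at hyy
      subst hyy
      have hii := lab_site (hlev h).2 (hlev h').2
      subst hii
      obtain ⟨j, hj, h⟩ := h
      obtain ⟨j', hj', h'⟩ := h'
      have e1 := upX_levels (Finset.mem_Icc.1 hj).1 h
      have e2 := upX_levels (Finset.mem_Icc.1 hj').1 h'
      have hjj : j' = j := by
        have := e1.2
        have := e2.2
        simp only at *
        omega
      subst hjj
      have e3 := upX_val' h h'
      simp only at e3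
      have hj2 := (Finset.mem_Icc.1 hj).1
      have G := gadget_lab (N := N) (s := s) (a := a) (b := b) i (hs i)
      have hne2 : s i ≠ 2 := by
        intro hs2
        have hjs : j' = 2 := by
          have := (Finset.mem_Icc.1 hj).2
          omega
        rcases h with ⟨_, _, h5⟩ | ⟨h5, _⟩
        · exact G.noB y (by rw [hs2]; exact h5)
        · exact h5 hjs
      obtain ⟨z, _, hz⟩ := G.mid
        (labI i x).1 (by have := e1.1; have := e1.2; simp only at *; omega)
        (by have := e1.1; have := e1.2; simp only at *; omega) (labI i x).2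
      have e4 := hz x rfl
      have e5 := hz x' (by beta_reduce; rw [← e3])
      rw [e4, e5]
  calc {p : VV N s a b × VV N s a b | upR p.1 p.2}.ncard ≤ (P1 ∪ P2).ncard :=
        Set.ncard_le_ncard hsub (Set.toFinite _)
    _ ≤ P1.ncard + P2.ncard := Set.ncard_union_le _ _
    _ ≤ 2 * gadN s a b := by omega

lemma negN_base (hs : ∀ i, 2 ≤ s i) {τ : I → Bool} (hτ : ∀ i, τ i = false) :
    negN (sgn (fun _ _ => 1) τ : VV N s a b → VV N s a b → ℤ) ≤ 4 * gadN s a b := by
  classical
  unfold negN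
  rw [← Set.ncard_coe_finset]
  have hsub : (↑(univ.filter fun p : VV N s a b × VV N s a b =>
      p.1 ≠ p.2 ∧ sgn (fun _ _ => 1) τ p.1 p.2 = -1) : Set (VV N s a b × VV N s a b))
      ⊆ {p | upR p.1 p.2} ∪ Prod.swap ⁻¹' {p | upR p.1 p.2} := by
    intro p hp
    simp only [Finset.coe_filter, Finset.mem_univ, true_and, Set.mem_setOf_eq] at hp
    exact neg_upR hτ hp.2
  have h1 : (Prod.swap ⁻¹' {p : VV N s a b × VV N s a b | upR p.1 p.2}).ncard
      = {p : VV N s a b × VV N s a b | upR p.1 p.2}.ncard := by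
    refine Set.ncard_congr (fun p _ => p.swap) (fun p hp => hp) (fun p q _ _ h => Prod.swap_injective h)
      (fun p hp => ⟨p.swap, by simpa using hp, by simp⟩)
  have h2 := card_upR (N := N) (s := s) (a := a) (b := b) hs
  calc _ ≤ ({p : VV N s a b × VV N s a b | upR p.1 p.2}
        ∪ Prod.swap ⁻¹' {p | upR p.1 p.2}).ncard := Set.ncard_le_ncard hsub (Set.toFinite _)
    _ ≤ _ := Set.ncard_union_le _ _
    _ ≤ 4 * gadN s a b := by omega

lemma cfg_base (hl : 3 ≤ l) (hn : l ≤ Fintype.card (VV N s a b)) (hs : ∀ i, 2 ≤ s i)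
    {τ : I → Bool} (hτ : ∀ i, τ i = false) (M : Fin N → Fin N → ℤ) :
    cfg l N s a b (pth M 0) τ ≤ 4 * gadN s a b * (Fintype.card (VV N s a b) : ℤ) ^ (l - 2) := by
  rw [pth_zero]
  have h1 := cc_le_negN hl hn (isSig_sgn (N := N) (s := s) (a := a) (b := b)
    (isSig_one (V := Fin N)) τ)
  refine h1.trans (mul_le_mul_of_nonneg_right ?_ (by positivity))
  exact_mod_cast negN_base hs hτ

/-- The signed number of closed sequences within the first `m` vertices. -/
def ZB (l : ℕ) [NeZero l] {N : ℕ} (m : ℕ) (M : Fin N → Fin N → ℤ) : ℤ :=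
  ∑ f ∈ (inj l (Fin N)).filter (fun f => ∀ i, (f i : ℕ) < m), cp l M f

lemma one_ne_zero_fin (hl : 3 ≤ l) : (1 : Fin l) ≠ 0 := by
  intro h
  have h6 := two_ne_zero' hl 0
  rw [h] at h6
  simp at h6

lemma cfg_end (hl : 3 ≤ l) {M : Fin N → Fin N → ℤ} (hM : IsSig M) {m : ℕ} (hm : m ≤ N)
    (τ : I → Bool) : Z l (sgn (pth M (m * N)) τ : VV N s a b → VV N s a b → ℤ)
      ≤ ZB l m M + (((l * ((Fintype.card (VV N s a b) - m) * Fintype.card (VV N s a b) ^ (l - 1)) : ℕ)) : ℤ) := by
  classical
  set B : Finset (VV N s a b) := (univ.filter fun x : Fin N => (x : ℕ) < m).image Sum.inl with hB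
  have hBcard : B.card = m := by
    rw [hB, Finset.card_image_of_injective _ Sum.inl_injective]
    have : (univ.filter fun x : Fin N => (x : ℕ) < m) = (Finset.range m).attachFin (fun x hx => by
        have := Finset.mem_range.1 hx; omega) := by
      ext x; simp
    rw [this, Finset.card_attachFin, Finset.card_range]
  have hsig := isSig_sgn (N := N) (s := s) (a := a) (b := b) (isSig_pth hM (m * N)) τ
  unfold Z
  rw [← Finset.sum_filter_add_sum_filter_not (inj l (VV N s a b)) (fun f => ∀ i, f i ∈ B)]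
  refine add_le_add (le_of_eq ?_) ?_
  · unfold ZB
    symm
    refine Finset.sum_bij (fun f _ i => Sum.inl (f i)) ?_ ?_ ?_ ?_
    · intro f hf
      simp only [Finset.mem_filter, mem_inj] at hf ⊢
      refine ⟨fun i j h => hf.1 (Sum.inl_injective h), fun i => ?_⟩
      rw [hB, Finset.mem_image]
      exact ⟨f i, by simpa using hf.2 i, rfl⟩
    · intro f _ f' _ h
      funext i
      exact Sum.inl_injective (congrFun h i)
    · intro g hg
      simp only [Finset.mem_filter, mem_inj] at hg
      have h1 : ∀ i, ∃ x : Fin N, (x : ℕ) < m ∧ Sum.inl x = g i := by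
        intro i
        have := hg.2 i
        rw [hB, Finset.mem_image] at this
        obtain ⟨x, hx, hx'⟩ := this
        exact ⟨x, by simpa using hx, hx'⟩
      choose f hf1 hf2 using h1
      refine ⟨f, ?_, ?_⟩
      · simp only [Finset.mem_filter, mem_inj]
        refine ⟨fun i j h => hg.1 ?_, hf1⟩
        rw [← hf2, ← hf2, h]
      · funext i; exact hf2 i
    · intro f hf
      simp only [Finset.mem_filter, mem_inj] at hf
      unfold cp
      refine Finset.prod_congr rfl fun i _ => ?_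
      rw [sgn_inl]
      have hN : 0 < N := by have := (f i).2; omega
      have e : m * N / N = m := Nat.mul_div_cancel m hN
      rw [pth_on M (m * N) ?_ (by rw [e]; exact hf.2 _) (by rw [e]; exact hf.2 _)]
      intro h
      have h2 := hf.1 h
      have : i + 0 = i + 1 := by rw [add_zero]; exact h2
      exact one_ne_zero_fin hl (add_left_cancel this).symm
  · refine (le_abs_self _).trans ((Finset.abs_sum_le_sum_abs _ _).trans ?_)
    rw [Finset.sum_congr rfl fun f _ => abs_cp hsig _, Finset.sum_const, nsmul_eq_mul, mul_one]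
    have h1 := card_meet (l := l) Bᶜ ((inj l (VV N s a b)).filter fun f => ¬ ∀ i, f i ∈ B) (by
      intro f hf
      simp only [Finset.mem_filter] at hf
      obtain ⟨i, hi⟩ := not_forall.1 hf.2
      exact ⟨i, by simpa using hi⟩)
    rw [Finset.card_compl, hBcard] at h1
    exact_mod_cast h1

end

end MP_90430c
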