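import Mathlib
import Pool.Agent.Lib.MP_90430c_co.Ends
import Pool.Agent.Lib.MP_90430c_co.Bal

/-! The two base signatures. -/

open Finset

set_option linter.unusedSectionVars false

namespace MP_90430c

section

variable {N : ℕ}

/-- The signature for odd `l`: switching equivalent to the all negative one. -/
def oddM (x y : Fin N) : ℤ := -(-1) ^ ((x : ℕ) + y)

lemma isSig_oddM : IsSig (oddM : Fin N → Fin N → ℤ) := by
  refine ⟨fun x y => by unfold oddM; rw [add_comm], fun x y => ?_⟩
  unfold oddM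
  rcases Nat.even_or_odd ((x : ℕ) + y) with h | h
  · right; rw [h.neg_one_pow]
  · left; rw [h.neg_one_pow]; norm_num

lemma card_lt {q : ℕ} (hq : q ≤ N) : (univ.filter fun x : Fin N => (x : ℕ) < q).card = q := by
  have : (univ.filter fun x : Fin N => (x : ℕ) < q) = (Finset.range q).attachFin (fun x hx => by
      have := Finset.mem_range.1 hx; omega) := by
    ext x; simp
  rw [this, Finset.card_attachFin, Finset.card_range]

lemma sum_lt (f : ℕ → ℤ) {q : ℕ} (hq : q ≤ N) :
    ∑ x ∈ univ.filter (fun x : Fin N => (x : ℕ) < q), f x = ∑ i ∈ range q, f i := by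
  refine Finset.sum_bij (fun x _ => (x : ℕ)) ?_ ?_ ?_ ?_
  · intro x hx; simpa using hx
  · intro x _ y _ h; exact Fin.ext h
  · intro i hi
    rw [Finset.mem_range] at hi
    exact ⟨⟨i, by omega⟩, by simpa using hi, rfl⟩
  · intro x _; rfl

lemma sum_alt (q : ℕ) : ∑ i ∈ range q, (-1 : ℤ) ^ i = if Even q then 0 else 1 := by
  induction q with
  | zero => simp
  | succ q ih =>
    rw [Finset.sum_range_succ, ih]
    rcases Nat.even_or_odd q with h | h
    · rw [if_pos h, if_neg (by rw [Nat.not_even_iff_odd]; exact h.add_one), h.neg_one_pow]; norm_num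
    · rw [if_neg (by rw [Nat.not_even_iff_odd]; exact h), if_pos h.add_one, h.neg_one_pow]; norm_num

lemma rowB_oddM {q : ℕ} (hq : q ≤ N) : rowB (oddM : Fin N → Fin N → ℤ) q ≤ q := by
  unfold rowB
  have h1 : ∀ w ∈ univ.filter (fun w : Fin N => (w : ℕ) < q),
      |∑ v ∈ univ.filter (fun v : Fin N => (v : ℕ) < q), oddM v w| ≤ 1 := by
    intro w _
    have e1 : ∀ v ∈ univ.filter (fun v : Fin N => (v : ℕ) < q), oddM v w = -(-1) ^ (w : ℕ) * (-1) ^ (v : ℕ) := by
      intro v _
      unfold oddM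
      rw [pow_add]; ring
    rw [Finset.sum_congr rfl e1, ← Finset.mul_sum, sum_lt (fun i => (-1) ^ i) hq, sum_alt, abs_mul,
      abs_neg, abs_pow, abs_neg, abs_one, one_pow, one_mul]
    split_ifs <;> simp
  refine (Finset.sum_le_sum h1).trans ?_
  rw [Finset.sum_const, card_lt hq]
  simp

variable {l : ℕ} [NeZero l]

lemma ZB_oddM (hl : Odd l) {m : ℕ} (hm : m ≤ N) :
    ZB l m (oddM : Fin N → Fin N → ℤ) = -((m.descFactorial l : ℕ) : ℤ) := by
  have h1 : ∀ f : Fin l → Fin N, cp l oddM f = -1 := by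
    intro f
    unfold cp oddM
    have e1 : ∀ i : Fin l, -(-1 : ℤ) ^ ((f i : ℕ) + (f (i + 1) : ℕ))
        = (-1) * ((-1) ^ (f i : ℕ) * (-1) ^ (f (i + 1) : ℕ)) := by
      intro i; rw [pow_add]; ring
    rw [Finset.prod_congr rfl fun i _ => e1 i, Finset.prod_mul_distrib, Finset.prod_mul_distrib,
      Finset.prod_const, Finset.card_univ, Fintype.card_fin, hl.neg_one_pow]
    have e2 : ∏ i : Fin l, (-1 : ℤ) ^ (f (i + 1) : ℕ) = ∏ i : Fin l, (-1 : ℤ) ^ (f i : ℕ) :=
      Equiv.prod_comp (Equiv.addRight (1 : Fin l)) (fun i => (-1 : ℤ) ^ (f i : ℕ))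
    rw [e2, ← Finset.prod_mul_distrib]
    have e3 : ∏ i : Fin l, (-1 : ℤ) ^ (f i : ℕ) * (-1) ^ (f i : ℕ) = 1 :=
      Finset.prod_eq_one fun i _ => by rw [← mul_pow]; simp
    rw [e3]; norm_num
  unfold ZB
  rw [Finset.sum_congr rfl fun f _ => h1 f, Finset.sum_const, nsmul_eq_mul]
  have h2 : ((inj l (Fin N)).filter fun f => ∀ i, (f i : ℕ) < m).card = m.descFactorial l := by
    have h3 : ((inj l (Fin N)).filter fun f => ∀ i, (f i : ℕ) < m).card = (inj l (Fin m)).card := by
      refine Finset.card_bij' (fun f hf i => ⟨f i, (Finset.mem_filter.1 hf).2 i⟩)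
        (fun f _ i => ⟨f i, lt_of_lt_of_le (f i).2 hm⟩) ?_ ?_ ?_ ?_
      · intro f hf
        rw [Finset.mem_filter, mem_inj] at hf
        rw [mem_inj]
        intro i j h
        apply hf.1
        simp only [Fin.mk.injEq] at h
        exact Fin.ext h
      · intro f hf
        rw [mem_inj] at hf
        rw [Finset.mem_filter, mem_inj]
        refine ⟨fun i j h => hf ?_, fun i => (f i).2⟩
        simp only [Fin.mk.injEq] at h
        exact Fin.ext h
      · intro f _; rfl
      · intro f _; rfl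
    rw [h3, card_inj, Fintype.card_fin]
  rw [h2]; ring

/-- Balancedness. -/
def BalM (M : Fin N → Fin N → ℤ) : Prop := ∀ g h : Fin N → ℤ, (∀ x, |g x| ≤ 1) → (∀ x, |h x| ≤ 1) →
    (∑ x, ∑ y, M x y * g x * h y) ^ 2 ≤ 2 * (N : ℤ) ^ 3

lemma BalM.abs_le {M : Fin N → Fin N → ℤ} (hB : BalM M) {g h : Fin N → ℤ} (hg : ∀ x, |g x| ≤ 1)
    (hh : ∀ x, |h x| ≤ 1) : |((∑ x, ∑ y, M x y * g x * h y : ℤ) : ℝ)| ≤ √(2 * (N : ℝ) ^ 3) := by
  apply Real.abs_le_sqrt
  have := hB g h hg hh
  exact_mod_cast this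

lemma rowB_bal {M : Fin N → Fin N → ℤ} (hB : BalM M) (q : ℕ) :
    ((rowB M q : ℤ) : ℝ) ≤ √(2 * (N : ℝ) ^ 3) := by
  set g : Fin N → ℤ := fun v => if (v : ℕ) < q then 1 else 0 with hg
  set S : Fin N → ℤ := fun w => ∑ v ∈ univ.filter (fun v : Fin N => (v : ℕ) < q), M v w with hS
  set h : Fin N → ℤ := fun w => if (w : ℕ) < q then (if 0 ≤ S w then 1 else -1) else 0 with hh
  have h1 := hB.abs_le (g := g) (h := h)
    (by intro x; rw [hg]; dsimp only; split_ifs <;> simp)
    (by intro x; rw [hh]; dsimp only; split_ifs <;> simp)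
  have h2 : ∑ x, ∑ y, M x y * g x * h y = rowB M q := by
    rw [Finset.sum_comm]
    unfold rowB
    rw [Finset.sum_filter]
    refine Finset.sum_congr rfl fun w _ => ?_
    rw [hh]
    dsimp only
    by_cases hw : (w : ℕ) < q
    · rw [if_pos hw, if_pos hw]
      have h3 : ∑ v, M v w * g v = S w := by
        rw [hS, hg]
        dsimp only
        rw [Finset.sum_filter]
        refine Finset.sum_congr rfl fun v _ => ?_
        split_ifs <;> simp
      rw [← Finset.sum_mul, h3]
      have h4 : S w = ∑ v ∈ univ.filter (fun v : Fin N => (v : ℕ) < q), M v w := rfl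
      rw [← h4]
      split_ifs with h5
      · rw [abs_of_nonneg h5, mul_one]
      · rw [abs_of_neg (not_le.1 h5)]; ring
    · rw [if_neg hw, if_neg hw]
      simp
  rw [h2] at h1
  exact (le_abs_self _).trans h1

lemma filter_eq_av (l m : ℕ) [NeZero l] : (inj l (Fin N)).filter (fun f => ∀ i, (f i : ℕ) < m)
    = av l (univ.filter fun x : Fin N => ¬ (x : ℕ) < m) := by
  ext f
  simp only [Finset.mem_filter, mem_inj, mem_av, Finset.mem_univ, true_and, not_not]

lemma ZB_bal (k : ℕ) {M : Fin N → Fin N → ℤ} (hM : IsSig M) (hB : BalM M) (m : ℕ) :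
    |((ZB (k + 3) m M : ℤ) : ℝ)| ≤ (N : ℝ) ^ (k + 1) * (√(2 * (N : ℝ) ^ 3) + N) := by
  classical
  unfold ZB
  rw [filter_eq_av]
  set X : Finset (Fin N) := univ.filter fun x : Fin N => ¬ (x : ℕ) < m with hX
  rw [sum_cons (k + 2), sum_cons (k + 1)]
  rw [Int.cast_sum]
  refine (Finset.abs_sum_le_sum_abs _ _).trans ?_
  have hterm : ∀ g ∈ av (k + 1) X, |((∑ y ∈ (X ∪ univ.image g)ᶜ,
      ∑ x ∈ (X ∪ univ.image (Fin.cons y g : Fin (k + 2) → Fin N))ᶜ,
        cp (k + 3) M (Fin.cons x (Fin.cons y g : Fin (k + 2) → Fin N) : Fin (k + 3) → Fin N) : ℤ) : ℝ)|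
      ≤ √(2 * (N : ℝ) ^ 3) + N := by
    intro g hg
    set D := (X ∪ univ.image g)ᶜ with hD
    have e1 : ∀ x y : Fin N, cp (k + 3) M (Fin.cons x (Fin.cons y g : Fin (k + 2) → Fin N) : Fin (k + 3) → Fin N)
        = hp M g * (M x y * M (g (Fin.last k)) x * M y (g 0)) := by
      intro x y
      rw [cp_eq_hp, hp_cons, hp_cons]
      have e2 : (Fin.cons x (Fin.cons y g : Fin (k + 2) → Fin N) : Fin (k + 3) → Fin N) (Fin.last (k + 2))
          = g (Fin.last k) := rfl
      rw [e2]
      simp only [Fin.cons_zero]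
      ring
    have e3 : ∀ y ∈ D, (X ∪ univ.image (Fin.cons y g : Fin (k + 2) → Fin N))ᶜ = D.erase y := by
      intro y _
      rw [image_cons, hD]
      ext z
      simp only [Finset.mem_compl, Finset.mem_union, Finset.mem_insert, Finset.mem_erase, not_or]
      tauto
    set A : Fin N → ℤ := fun x => if x ∈ D then M (g (Fin.last k)) x else 0 with hA
    set C : Fin N → ℤ := fun y => if y ∈ D then M y (g 0) else 0 with hC
    have e4 : ∑ y ∈ D, ∑ x ∈ (X ∪ univ.image (Fin.cons y g : Fin (k + 2) → Fin N))ᶜ,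
        cp (k + 3) M (Fin.cons x (Fin.cons y g : Fin (k + 2) → Fin N) : Fin (k + 3) → Fin N)
        = hp M g * (∑ x, ∑ y, M x y * A x * C y
          - ∑ y ∈ D, M y y * M (g (Fin.last k)) y * M y (g 0)) := by
      have e5 : ∑ x, ∑ y, M x y * A x * C y
          = ∑ y ∈ D, ∑ x ∈ D, M x y * M (g (Fin.last k)) x * M y (g 0) := by
        rw [Finset.sum_comm]
        have h1 : ∀ y ∈ (univ : Finset (Fin N)), ∑ x, M x y * A x * C y
            = if y ∈ D then ∑ x ∈ D, M x y * M (g (Fin.last k)) x * M y (g 0) else 0 := by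
          intro y _
          rw [hC, hA]
          dsimp only
          split_ifs with hy
          · rw [← Finset.sum_filter_add_sum_filter_not univ (fun x => x ∈ D)]
            have h2 : ∑ x ∈ univ.filter (fun x => x ∉ D),
                M x y * (if x ∈ D then M (g (Fin.last k)) x else 0) * M y (g 0) = 0 := by
              refine Finset.sum_eq_zero fun x hx => ?_
              rw [if_neg (Finset.mem_filter.1 hx).2]; ring
            rw [h2, add_zero, Finset.filter_mem_eq_inter, Finset.univ_inter]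
            refine Finset.sum_congr rfl fun x hx => ?_
            rw [if_pos hx]
          · simp
        rw [Finset.sum_congr rfl h1, Finset.sum_ite_mem, Finset.univ_inter]
      rw [e5, ← Finset.sum_sub_distrib, Finset.mul_sum]
      refine Finset.sum_congr rfl fun y hy => ?_
      rw [e3 y hy, Finset.sum_congr rfl fun x _ => e1 x y, ← Finset.mul_sum]
      congr 1
      rw [← Finset.add_sum_erase D _ hy]
      ring
    rw [e4]
    have h1 := hB.abs_le (g := A) (h := C)
      (by intro x; rw [hA]; dsimp only; split_ifs; exact (hM.abs _ _).le; simp)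
      (by intro x; rw [hC]; dsimp only; split_ifs; exact (hM.abs _ _).le; simp)
    have h2 : |((∑ y ∈ D, M y y * M (g (Fin.last k)) y * M y (g 0) : ℤ) : ℝ)| ≤ N := by
      rw [← Int.cast_abs]
      have h3 : |∑ y ∈ D, M y y * M (g (Fin.last k)) y * M y (g 0)| ≤ (N : ℤ) := by
        refine (Finset.abs_sum_le_sum_abs _ _).trans ?_
        have h4 : ∀ y ∈ D, |M y y * M (g (Fin.last k)) y * M y (g 0)| = 1 := by
          intro y _
          rw [abs_mul, abs_mul, hM.abs, hM.abs, hM.abs]; norm_num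
        rw [Finset.sum_congr rfl h4, Finset.sum_const, nsmul_eq_mul, mul_one]
        have := Finset.card_le_univ D
        rw [Fintype.card_fin] at this
        exact_mod_cast this
      exact_mod_cast h3
    rw [Int.cast_mul, abs_mul]
    have h5 : |((hp M g : ℤ) : ℝ)| = 1 := by
      rw [← Int.cast_abs, abs_hp hM]; simp
    rw [h5, one_mul, Int.cast_sub]
    exact (abs_sub _ _).trans (add_le_add h1 h2)
  refine (Finset.sum_le_sum hterm).trans ?_
  rw [Finset.sum_const, nsmul_eq_mul]
  refine mul_le_mul_of_nonneg_right ?_ (by positivity)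
  have := card_av_le (k + 1) X
  rw [Fintype.card_fin] at this
  exact_mod_cast this

end

end MP_90430c
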