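import Pool.Agent.Lib.MP_90430c_co.Stmts

/-! Task T1: each circle of length `l ≥ 3` comes from exactly `2 l` injective closed sequences. -/

open Finset

namespace MP_90430c

namespace Circ

set_option linter.unusedSectionVars false

variable {k : ℕ} {V : Type*} [DecidableEq V]

theorem add_two_ne (i : Fin (k + 3)) : i + 2 ≠ i := by
  intro h
  have h1 : (2 : Fin (k + 3)) = 0 := by
    have := add_left_cancel (a := i) (b := 2) (c := 0) (by rw [h, add_zero])
    exact this
  have h2 := congrArg Fin.val h1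
  have h3 : ((2 : Fin (k + 3)) : ℕ) = 2 := by
    rw [Fin.val_two]
  rw [h3] at h2
  simp at h2

theorem one_add_one : (1 : Fin (k + 3)) + 1 = 2 := by
  apply Fin.ext
  simp [Fin.val_add]

/-- the edge set of a closed sequence -/
def es (f : Fin (k + 3) → V) : Finset (Sym2 V) := univ.image fun i => s(f i, f (i + 1))

theorem mem_es {f : Fin (k + 3) → V} {e : Sym2 V} : e ∈ es f ↔ ∃ i, s(f i, f (i + 1)) = e := by
  simp [es]

theorem edge_inj {f : Fin (k + 3) → V} (hf : Function.Injective f) :
    Function.Injective fun i => s(f i, f (i + 1)) := by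
  intro i j h
  simp only [Sym2.eq_iff] at h
  rcases h with ⟨h1, -⟩ | ⟨h1, h2⟩
  · exact hf h1
  · have h3 := hf h1
    have h4 := hf h2
    exfalso
    rw [h3, add_assoc, one_add_one] at h4
    exact add_two_ne j h4

theorem step {f g : Fin (k + 3) → V} (hf : Function.Injective f) (hg : Function.Injective g)
    (h : es g ⊆ es f) {i : Fin (k + 3)} (h0 : g 0 = f i) (h1 : g 1 = f (i + 1)) :
    ∀ j : ℕ, g (Fin.ofNat (k + 3) j) = f (i + Fin.ofNat (k + 3) j) ∧
      g (Fin.ofNat (k + 3) j + 1) = f (i + Fin.ofNat (k + 3) j + 1) := by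
  intro j
  induction j with
  | zero =>
    have : Fin.ofNat (k + 3) 0 = 0 := rfl
    rw [this, add_zero, zero_add]
    exact ⟨h0, h1⟩
  | succ j ih =>
    have e1 : Fin.ofNat (k + 3) (j + 1) = Fin.ofNat (k + 3) j + 1 := by
      apply Fin.ext
      simp [Fin.val_add, Fin.ofNat]
    rw [e1]
    set a := Fin.ofNat (k + 3) j with ha
    obtain ⟨i1, i2⟩ := ih
    refine ⟨by rw [i2, add_assoc], ?_⟩
    have h2 : s(g (a + 1), g (a + 1 + 1)) ∈ es f := h (mem_es.mpr ⟨a + 1, rfl⟩)
    obtain ⟨m, hm⟩ := mem_es.mp h2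
    rw [Sym2.eq_iff] at hm
    rcases hm with ⟨h3, h4⟩ | ⟨h3, h4⟩
    · have h5 : m = i + a + 1 := hf (h3.trans i2)
      rw [← h4, h5]
      congr 1
      abel
    · have h5 : m + 1 = i + a + 1 := hf (h4.trans i2)
      have h6 : m = i + a := add_right_cancel h5
      exfalso
      rw [h6, ← i1] at h3
      have h7 := hg h3
      rw [add_assoc, one_add_one] at h7
      exact add_two_ne a h7.symm

theorem eq_shift {f g : Fin (k + 3) → V} (hf : Function.Injective f) (hg : Function.Injective g)
    (h : es g ⊆ es f) {i : Fin (k + 3)} (h0 : g 0 = f i) (h1 : g 1 = f (i + 1)) (j : Fin (k + 3)) :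
    g j = f (i + j) := by
  have := (step hf hg h h0 h1 j.val).1
  have e : Fin.ofNat (k + 3) j.val = j := by
    apply Fin.ext
    simp [Fin.ofNat, Nat.mod_eq_of_lt j.isLt]
  rwa [e] at this

theorem es_neg (f : Fin (k + 3) → V) : es (fun j => f (-j)) = es f := by
  ext e
  rw [mem_es, mem_es]
  constructor
  · rintro ⟨i, rfl⟩
    refine ⟨-(i + 1), ?_⟩
    rw [Sym2.eq_swap]
    congr 3
    abel
  · rintro ⟨i, rfl⟩
    refine ⟨-(i + 1), ?_⟩
    rw [Sym2.eq_swap]
    congr 3
    · abel
    · abel

theorem es_shift (f : Fin (k + 3) → V) (c : Fin (k + 3)) : es (fun j => f (c + j)) = es f := by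
  ext e
  rw [mem_es, mem_es]
  constructor
  · rintro ⟨i, rfl⟩
    exact ⟨c + i, by rw [add_assoc]⟩
  · rintro ⟨i, rfl⟩
    refine ⟨i - c, ?_⟩
    rw [show c + (i - c) = i by abel, show c + (i - c + 1) = i + 1 by abel]

theorem es_refl (f : Fin (k + 3) → V) (c : Fin (k + 3)) : es (fun j => f (c - j)) = es f := by
  rw [← es_shift f c, ← es_neg]
  congr 1
  funext j
  congr 1
  abel

/-- the `2 (k + 3)` reparametrisations of `f` -/
def rp (f : Fin (k + 3) → V) (x : Fin (k + 3) × Bool) : Fin (k + 3) → V :=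
  fun j => if x.2 then f (x.1 + j) else f (x.1 - j)

theorem rp_inj {f : Fin (k + 3) → V} (hf : Function.Injective f) : Function.Injective (rp f) := by
  rintro ⟨c, ε⟩ ⟨d, η⟩ h
  have h0 := congrFun h 0
  have h1 := congrFun h 1
  simp only [rp, add_zero, sub_zero, ite_self] at h0 h1
  have hc : c = d := hf h0
  subst hc
  have key : c + 1 ≠ c - 1 := by
    intro h2
    apply add_two_ne (c - 1)
    rw [← one_add_one, ← add_assoc, sub_add_cancel, h2]
  cases ε <;> cases η
  · rfl
  · simp only [Bool.false_eq_true, if_false, if_true] at h1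
    exact absurd (hf h1).symm key
  · simp only [Bool.false_eq_true, if_false, if_true] at h1
    exact absurd (hf h1) key
  · rfl

theorem rp_injective {f : Fin (k + 3) → V} (hf : Function.Injective f) (x : Fin (k + 3) × Bool) :
    Function.Injective (rp f x) := by
  intro i j h
  unfold rp at h
  split_ifs at h
  · exact add_left_cancel (hf h)
  · have := hf h
    exact neg_injective (add_left_cancel (a := x.1) (by rwa [← sub_eq_add_neg, ← sub_eq_add_neg]))

theorem es_rp (f : Fin (k + 3) → V) (x : Fin (k + 3) × Bool) : es (rp f x) = es f := by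
  obtain ⟨c, ε⟩ := x
  cases ε
  · exact es_refl f c
  · exact es_shift f c

theorem exists_rp {f g : Fin (k + 3) → V} (hf : Function.Injective f) (hg : Function.Injective g)
    (h : es g = es f) : ∃ x, rp f x = g := by
  have h1 : s(g 0, g (0 + 1)) ∈ es f := by
    rw [← h]; exact mem_es.mpr ⟨0, rfl⟩
  rw [zero_add] at h1
  obtain ⟨i, hi⟩ := mem_es.mp h1
  rw [Sym2.eq_iff] at hi
  rcases hi with ⟨h2, h3⟩ | ⟨h2, h3⟩
  · refine ⟨(i, true), ?_⟩
    funext j
    simp only [rp, if_true]
    exact (eq_shift hf hg h.le h2.symm h3.symm j).symm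
  · refine ⟨(i + 1, false), ?_⟩
    have hf' : Function.Injective fun j => f (-j) := fun a b hab => neg_injective (hf hab)
    have h4 : g 0 = (fun j => f (-j)) (-(i + 1)) := by
      simp only [neg_neg]; exact h3.symm
    have h5 : g 1 = (fun j => f (-j)) (-(i + 1) + 1) := by
      simp only
      rw [← h2]
      congr 1
      abel
    have h6 := eq_shift hf' hg (by rw [es_neg, h]) h4 h5
    funext j
    rw [h6 j]
    simp only [rp, Bool.false_eq_true, if_false]
    congr 1
    abel

theorem card_fiber [Fintype V] {f : Fin (k + 3) → V} (hf : Function.Injective f) :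
    ((inj (k + 3) V).filter (fun g => es g = es f)).card = 2 * (k + 3) := by
  have h1 : (inj (k + 3) V).filter (fun g => es g = es f) = univ.image (rp f) := by
    ext g
    simp only [inj, mem_filter, mem_univ, true_and, mem_image]
    constructor
    · rintro ⟨h1, h2⟩
      exact exists_rp hf h1 h2
    · rintro ⟨x, rfl⟩
      exact ⟨rp_injective hf x, es_rp f x⟩
  rw [h1, card_image_of_injective _ (rp_inj hf)]
  simp [mul_comm]

theorem prod_es {f : Fin (k + 3) → V} (hf : Function.Injective f) (τ : Sym2 V → ℤˣ) :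
    ∏ e ∈ es f, τ e = ∏ i, τ s(f i, f (i + 1)) := by
  unfold es
  rw [prod_image]
  intro i _ j _ h
  exact edge_inj hf h

end Circ

open Circ in
theorem circStmt : CircStmt := by
  intro n l hne hl τ
  obtain ⟨k, rfl⟩ : ∃ k, l = k + 3 := ⟨l - 3, by omega⟩
  set σ : Fin n → Fin n → ℤ := fun x y => ((τ s(x, y) : ℤˣ) : ℤ) with hσ
  have hcp : ∀ f : Fin (k + 3) → Fin n, Function.Injective f →
      cp (k + 3) σ f = ((∏ e ∈ es f, τ e : ℤˣ) : ℤ) := by
    intro f hf
    rw [prod_es hf, Units.coe_prod]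
    rfl
  -- the negative circles
  set A : Set (Finset (Sym2 (Fin n))) :=
    {E | IsCircle n (k + 3) E ∧ ∏ e ∈ E, τ e = -1} with hA
  have hcirc : ∀ E : Finset (Sym2 (Fin n)), IsCircle n (k + 3) E ↔
      ∃ f : Fin (k + 3) → Fin n, Function.Injective f ∧ E = es f := by
    intro E
    constructor
    · rintro ⟨f, hf, h⟩
      refine ⟨f, hf, ?_⟩
      apply Finset.coe_injective
      rw [h]
      unfold es
      rw [coe_image, coe_univ, Set.image_univ]
      rfl
    · rintro ⟨f, hf, rfl⟩
      refine ⟨f, hf, ?_⟩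
      unfold es
      rw [coe_image, coe_univ, Set.image_univ]
      rfl
  have hfin : A.Finite := Set.toFinite A
  set N := (inj (k + 3) (Fin n)).filter (fun f => ∏ e ∈ es f, τ e = -1) with hN
  have h1 : N.card = ∑ E ∈ hfin.toFinset, (N.filter (fun f => es f = E)).card := by
    apply card_eq_sum_card_fiberwise
    intro f hf
    rw [hN, mem_coe, mem_filter] at hf
    rw [mem_coe, Set.Finite.mem_toFinset]
    exact ⟨(hcirc _).mpr ⟨f, (mem_filter.mp hf.1).2, rfl⟩, hf.2⟩
  have h2 : ∀ E ∈ hfin.toFinset, (N.filter (fun f => es f = E)).card = 2 * (k + 3) := by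
    intro E hE
    rw [Set.Finite.mem_toFinset] at hE
    obtain ⟨h3, h4⟩ := hE
    obtain ⟨f, hf, rfl⟩ := (hcirc _).mp h3
    rw [← card_fiber hf]
    congr 1
    ext g
    rw [hN]
    simp only [mem_filter]
    constructor
    · rintro ⟨⟨h5, -⟩, h6⟩
      exact ⟨h5, h6⟩
    · rintro ⟨h5, h6⟩
      exact ⟨⟨h5, by rw [h6]; exact h4⟩, h6⟩
  have h3 : N.card = negCircles n (k + 3) τ * (2 * (k + 3)) := by
    rw [h1, sum_congr rfl h2, sum_const, smul_eq_mul]
    congr 1
    unfold negCircles
    rw [Set.ncard_eq_toFinset_card _ hfin]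
  have h4 : ∑ f ∈ inj (k + 3) (Fin n), (1 - cp (k + 3) σ f) = 2 * (N.card : ℤ) := by
    have h5 : ∀ f ∈ inj (k + 3) (Fin n), 1 - cp (k + 3) σ f =
        if ∏ e ∈ es f, τ e = -1 then 2 else 0 := by
      intro f hf
      rw [hcp f (mem_filter.mp hf).2]
      rcases Int.units_eq_one_or (∏ e ∈ es f, τ e) with h6 | h6
      · rw [h6, if_neg (by decide)]
        rfl
      · rw [h6, if_pos rfl]
        rfl
    rw [sum_congr rfl h5, ← sum_filter, sum_const, nsmul_eq_mul, mul_comm]
  have h5 : ((inj (k + 3) (Fin n)).card : ℤ) = (n.descFactorial (k + 3) : ℤ) := by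
    have h6 : (inj (k + 3) (Fin n)).card = Fintype.card (Fin (k + 3) ↪ Fin n) := by
      rw [← Fintype.card_coe]
      apply Fintype.card_congr
      exact {
        toFun := fun f => ⟨f.1, (mem_filter.mp f.2).2⟩
        invFun := fun f => ⟨f.1, mem_filter.mpr ⟨mem_univ _, f.2⟩⟩
        left_inv := fun f => rfl
        right_inv := fun f => rfl }
    rw [h6, Fintype.card_embedding_eq, Fintype.card_fin, Fintype.card_fin]
  rw [sum_sub_distrib, sum_const, nsmul_eq_mul, mul_one, h5, h3] at h4
  unfold Z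
  rw [h4]
  push_cast
  ring

end MP_90430c
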