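import Mathlib

/-! The sizes of the gadgets and the numerical inequalities of the greedy algorithm. -/

open Finset

namespace MP_90430c

/-- The number of levels of the gadgets in group `g`. -/
def sv (κ g : ℕ) : ℕ := 3 + g / (κ + 1)

/-- The exponent of the gadgets in group `g`. -/
def kv (κ g : ℕ) : ℕ := κ - g % (κ + 1)

/-- The multiplier. -/
def mv (l s : ℕ) : ℕ := if s < l then l * 2 ^ l else 1

/-- Lower bound for the effect in group `g`. -/
noncomputable def lov (l κ : ℕ) (n δ : ℝ) (g : ℕ) : ℝ :=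
  if sv κ g < l then 2 ^ (sv κ g - 2) * (l * 2 ^ l) * 4 ^ kv κ g * n ^ (l - sv κ g) * (δ / 2)
  else 2 ^ (l - 2) * 4 ^ kv κ g

/-- Upper bound for the effect in group `g`. -/
noncomputable def hiv (l κ : ℕ) (n : ℝ) (g : ℕ) : ℝ :=
  if sv κ g < l then 2 ^ (sv κ g - 2) * (l * 2 ^ l) * 4 ^ kv κ g * n ^ (l - sv κ g) * 2
  else 2 ^ (l - 2) * 4 ^ kv κ g

lemma sv_le {l κ g : ℕ} (hl : 3 ≤ l) (hg : g < (l - 2) * (κ + 1)) : sv κ g ≤ l := by
  unfold sv
  have : g / (κ + 1) < l - 2 := Nat.div_lt_of_lt_mul (by rw [mul_comm]; exact hg)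
  omega

lemma sv_two (κ g : ℕ) : 2 ≤ sv κ g := by
  unfold sv
  generalize g / (κ + 1) = q
  omega

lemma succ_cases (κ g : ℕ) : (sv κ (g + 1) = sv κ g ∧ kv κ g = kv κ (g + 1) + 1) ∨
    (sv κ (g + 1) = sv κ g + 1 ∧ kv κ g = 0 ∧ kv κ (g + 1) = κ) := by
  unfold sv kv
  have hm : g % (κ + 1) < κ + 1 := Nat.mod_lt g (Nat.succ_pos κ)
  have hdm := Nat.div_add_mod g (κ + 1)
  rcases Nat.lt_or_ge (g % (κ + 1) + 1) (κ + 1) with h | h
  · left
    have e0 : g + 1 = (κ + 1) * (g / (κ + 1)) + (g % (κ + 1) + 1) := by omega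
    have e1 : (g + 1) / (κ + 1) = g / (κ + 1) := by
      conv_lhs => rw [e0]
      rw [Nat.mul_add_div (Nat.succ_pos κ), Nat.div_eq_of_lt h, add_zero]
    have e2 : (g + 1) % (κ + 1) = g % (κ + 1) + 1 := by
      rw [Nat.add_mod, Nat.mod_eq_of_lt (a := 1) (by omega), Nat.mod_eq_of_lt h]
    rw [e1, e2]
    refine ⟨rfl, ?_⟩
    omega
  · right
    have h' : g % (κ + 1) = κ := by omega
    have e0 : g + 1 = (κ + 1) * (g / (κ + 1) + 1) := by
      rw [mul_add, mul_one]; omega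
    have e1 : (g + 1) / (κ + 1) = g / (κ + 1) + 1 := by
      conv_lhs => rw [e0]
      rw [Nat.mul_div_cancel_left _ (Nat.succ_pos κ)]
    have e2 : (g + 1) % (κ + 1) = 0 := by
      conv_lhs => rw [e0]
      rw [Nat.mul_mod_right]
    rw [e1, e2, h']
    refine ⟨by ring, by omega, by omega⟩

variable {l κ : ℕ} {n δ : ℝ}

lemma lov_nonneg (hn : 0 ≤ n) (hδ : 0 ≤ δ) (g : ℕ) : 0 ≤ lov l κ n δ g := by
  unfold lov; split_ifs <;> positivity

lemma lov_le_hiv (hn : 0 ≤ n) (hδ : δ ≤ 1) (g : ℕ) : lov l κ n δ g ≤ hiv l κ n g := by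
  unfold lov hiv
  split_ifs
  · exact mul_le_mul_of_nonneg_left (by linarith) (by positivity)
  · exact le_rfl

lemma ratio {Q : ℕ} (hl : 3 ≤ l) (hδ : 0 < δ) (hδ1 : δ ≤ 1) (hn : 0 ≤ n) (hκ : n ≤ 4 ^ κ)
    (hQ : 2 * (l * 2 ^ l) + 16 ≤ δ * Q) {g : ℕ} (hg : g + 1 < (l - 2) * (κ + 1)) :
    hiv l κ n g ≤ Q * lov l κ n δ (g + 1) := by
  have hQ0 : (0 : ℝ) ≤ Q := by positivity
  have hQ1 : 2 * (l * 2 ^ l) + 16 ≤ (Q : ℝ) := by
    refine hQ.trans ?_
    exact mul_le_of_le_one_left hQ0 hδ1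
  have hL : (0 : ℝ) ≤ l * 2 ^ l := by positivity
  rcases succ_cases κ g with ⟨h1, h2⟩ | ⟨h1, h2, h3⟩
  · unfold hiv lov
    rw [h1, h2]
    split_ifs with hs
    · rw [pow_succ]
      calc 2 ^ (sv κ g - 2) * (l * 2 ^ l) * (4 ^ kv κ (g + 1) * 4) * n ^ (l - sv κ g) * 2
          = (2 ^ (sv κ g - 2) * (l * 2 ^ l) * 4 ^ kv κ (g + 1) * n ^ (l - sv κ g)) * 8 := by ring
        _ ≤ (2 ^ (sv κ g - 2) * (l * 2 ^ l) * 4 ^ kv κ (g + 1) * n ^ (l - sv κ g)) * (δ * Q / 2) := by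
            refine mul_le_mul_of_nonneg_left ?_ (by positivity)
            linarith
        _ = _ := by ring
    · rw [pow_succ]
      calc (2 : ℝ) ^ (l - 2) * (4 ^ kv κ (g + 1) * 4) = (2 ^ (l - 2) * 4 ^ kv κ (g + 1)) * 4 := by ring
        _ ≤ (2 ^ (l - 2) * 4 ^ kv κ (g + 1)) * Q := by
            refine mul_le_mul_of_nonneg_left ?_ (by positivity)
            linarith
        _ = _ := by ring
  · have hs1 := sv_le hl hg
    rw [h1] at hs1
    have hs2 := sv_two κ g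
    unfold hiv lov
    rw [h1, h2, h3, if_pos (by omega)]
    have e2 : (2 : ℝ) ^ (sv κ g + 1 - 2) = 2 * 2 ^ (sv κ g - 2) := by
      rw [← pow_succ']; congr 1; omega
    split_ifs with hs
    · rw [e2]
      have e1 : n ^ (l - sv κ g) = n * n ^ (l - (sv κ g + 1)) := by
        rw [← pow_succ']; congr 1; omega
      rw [e1]
      calc 2 ^ (sv κ g - 2) * (l * 2 ^ l) * 4 ^ 0 * (n * n ^ (l - (sv κ g + 1))) * 2
          = (2 ^ (sv κ g - 2) * (l * 2 ^ l) * n ^ (l - (sv κ g + 1))) * (2 * n) := by ring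
        _ ≤ (2 ^ (sv κ g - 2) * (l * 2 ^ l) * n ^ (l - (sv κ g + 1))) * ((δ * Q) * 4 ^ κ) := by
            refine mul_le_mul_of_nonneg_left ?_ (by positivity)
            refine mul_le_mul (by linarith) hκ hn (by positivity)
        _ = _ := by ring
    · have e3 : l - sv κ g = 1 := by omega
      have e4 : l - 2 = sv κ g + 1 - 2 := by omega
      rw [e3, e4, e2]
      calc 2 ^ (sv κ g - 2) * (l * 2 ^ l) * 4 ^ 0 * n ^ 1 * 2
          = (2 * 2 ^ (sv κ g - 2)) * ((l * 2 ^ l) * n) := by ring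
        _ ≤ (2 * 2 ^ (sv κ g - 2)) * (Q * 4 ^ κ) := by
            refine mul_le_mul_of_nonneg_left ?_ (by positivity)
            refine mul_le_mul (by linarith) hκ hn (by positivity)
        _ = _ := by ring

lemma first {Q : ℕ} (hl : 3 ≤ l) (hδ : 0 < δ) (hδ1 : δ ≤ 1) (hn : 0 ≤ n) (hκ : n ≤ 4 ^ κ)
    (hQ : 2 * (l * 2 ^ l) + 16 ≤ δ * Q) :
    (2 * (l * 2 ^ l) + 1) * n ^ (l - 2) ≤ Q * lov l κ n δ 0 := by
  have hQ0 : (0 : ℝ) ≤ Q := by positivity
  have hQ1 : 2 * (l * 2 ^ l) + 16 ≤ (Q : ℝ) := by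
    refine hQ.trans ?_
    exact mul_le_of_le_one_left hQ0 hδ1
  have hL : (0 : ℝ) ≤ l * 2 ^ l := by positivity
  have hL1 : (1 : ℝ) ≤ l * 2 ^ l := by
    have h1 : (1 : ℝ) ≤ l := by exact_mod_cast (by omega : 1 ≤ l)
    have h2 : (1 : ℝ) ≤ 2 ^ l := one_le_pow₀ (by norm_num)
    nlinarith
  have hs : sv κ 0 = 3 := by simp [sv]
  have hk : kv κ 0 = κ := by simp [kv]
  unfold lov
  rw [hs, hk]
  split_ifs with h
  · have e1 : n ^ (l - 2) = n * n ^ (l - 3) := by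
      rw [← pow_succ']; congr 1; omega
    rw [e1]
    calc (2 * (l * 2 ^ l) + 1) * (n * n ^ (l - 3))
        = ((2 * (l * 2 ^ l) + 1) * n ^ (l - 3)) * n := by ring
      _ ≤ ((2 * (l * 2 ^ l) + 1) * n ^ (l - 3)) * 4 ^ κ := mul_le_mul_of_nonneg_left hκ (by positivity)
      _ = (2 * (l * 2 ^ l) + 1) * (n ^ (l - 3) * 4 ^ κ) := by ring
      _ ≤ (δ * Q * (l * 2 ^ l)) * (n ^ (l - 3) * 4 ^ κ) := by
          refine mul_le_mul_of_nonneg_right ?_ (by positivity)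
          have h3 : (2 * (l * 2 ^ l) + 16) * 1 ≤ δ * Q * (l * 2 ^ l : ℝ) :=
            mul_le_mul hQ hL1 (by norm_num) (by positivity)
          linarith
      _ = _ := by norm_num; ring
  · have e3 : l = 3 := by omega
    subst e3
    have hQ2 : (49 : ℝ) ≤ Q * 2 := by
      push_cast at hQ1
      linarith
    norm_num
    calc 49 * n ≤ (Q * 2) * n := mul_le_mul_of_nonneg_right hQ2 hn
      _ ≤ (Q * 2) * 4 ^ κ := mul_le_mul_of_nonneg_left hκ (by positivity)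
      _ = _ := by ring

lemma last_group (hl : 3 ≤ l) : sv κ ((l - 2) * (κ + 1) - 1) = l ∧ kv κ ((l - 2) * (κ + 1) - 1) = 0 := by
  obtain ⟨c, rfl⟩ : ∃ c, l = c + 3 := ⟨l - 3, by omega⟩
  have e0 : (c + 3 - 2) * (κ + 1) - 1 = (κ + 1) * c + κ := by
    have : (c + 3 - 2) * (κ + 1) = (κ + 1) * c + κ + 1 := by
      have : c + 3 - 2 = c + 1 := by omega
      rw [this]; ring
    omega
  unfold sv kv
  rw [e0]
  have e1 : ((κ + 1) * c + κ) / (κ + 1) = c := by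
    rw [Nat.mul_add_div (Nat.succ_pos κ), Nat.div_eq_of_lt (Nat.lt_succ_self κ), add_zero]
  have e2 : ((κ + 1) * c + κ) % (κ + 1) = κ := by
    rw [Nat.mul_add_mod, Nat.mod_eq_of_lt (Nat.lt_succ_self κ)]
  rw [e1, e2]
  exact ⟨by ring, by omega⟩

lemma sum_kv (κ : ℕ) : ∀ c : ℕ, ∑ g ∈ range (c * (κ + 1)), 2 ^ kv κ g ≤ c * 2 ^ (κ + 1) := by
  intro c
  induction c with
  | zero => simp
  | succ c ih =>
    have e : (c + 1) * (κ + 1) = c * (κ + 1) + (κ + 1) := by ring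
    rw [e, Finset.sum_range_add]
    have h1 : ∑ x ∈ range (κ + 1), 2 ^ kv κ (c * (κ + 1) + x) = ∑ x ∈ range (κ + 1), 2 ^ (κ - x) := by
      refine Finset.sum_congr rfl fun x hx => ?_
      rw [Finset.mem_range] at hx
      unfold kv
      rw [mul_comm c, Nat.mul_add_mod, Nat.mod_eq_of_lt hx]
    have h2 : ∑ x ∈ range (κ + 1), 2 ^ (κ - x) = ∑ x ∈ range (κ + 1), 2 ^ x := by
      rw [← Finset.sum_range_reflect]
      refine Finset.sum_congr rfl fun x hx => ?_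
      rw [Finset.mem_range] at hx
      congr 1
      omega
    have h3 : ∑ x ∈ range (κ + 1), 2 ^ x ≤ 2 ^ (κ + 1) := by
      have := Nat.geomSum_eq (le_refl 2) (κ + 1)
      rw [this]
      simp
    rw [h1, h2, add_mul, one_mul]
    omega

end MP_90430c
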