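import Mathlib

/-! Numerical lemmas: greedy approximation, bits, discrete intermediate values. -/

open Finset

namespace MP_90430c

/-- Processing one group of `Q` sites. -/
lemma one_group {Q : ℕ} (e : ℕ → ℝ) {lo hi : ℝ} (hlo : 0 ≤ lo) (hle : lo ≤ hi)
    (hstep : ∀ j < Q, lo ≤ e j - e (j + 1) ∧ e j - e (j + 1) ≤ hi) (h0 : 0 ≤ e 0)
    (hQ : e 0 ≤ Q * lo) :
    (∃ j ≤ Q, 0 ≤ e j ∧ e j ≤ hi) ∧ (∃ j ≤ Q, 0 ≤ -e j ∧ -e j ≤ hi) := by
  have hend : ∀ j ≤ Q, e j ≤ e 0 - j * lo := by
    intro j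
    induction j with
    | zero => intro _; simp
    | succ j ih =>
      intro hj
      have h1 := ih (by omega)
      have h2 := (hstep j (by omega)).1
      push_cast
      linarith
  have hendQ := hend Q le_rfl
  have hneg : e Q ≤ 0 := by linarith
  have hex : ∃ j, j ≤ Q ∧ e j ≤ 0 := ⟨Q, le_rfl, hneg⟩
  classical
  set j := Nat.find hex with hj
  obtain ⟨hjQ, hje⟩ := Nat.find_spec hex
  rw [← hj] at hjQ hje
  rcases Nat.eq_zero_or_pos j with hj0 | hj0
  · rw [hj0] at hje
    have he0 : e 0 = 0 := le_antisymm hje h0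
    exact ⟨⟨0, Nat.zero_le _, by rw [he0], by rw [he0]; linarith⟩,
        ⟨0, Nat.zero_le _, by rw [he0]; simp, by rw [he0]; linarith⟩⟩
  · have h1 : ¬ (j - 1 ≤ Q ∧ e (j - 1) ≤ 0) := Nat.find_min hex (by omega)
    have h2 : 0 < e (j - 1) := by
      by_contra hcon
      exact h1 ⟨by omega, by linarith⟩
    have h3 := hstep (j - 1) (by omega)
    have e1 : j - 1 + 1 = j := by omega
    rw [e1] at h3
    refine ⟨⟨j - 1, by omega, h2.le, ?_⟩, ⟨j, hjQ, by linarith, by linarith⟩⟩
    linarith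

/-- The greedy algorithm: groups of `Q` sites with effects of decreasing size. -/
theorem greedy (G Q : ℕ) (c : Finset (ℕ × ℕ) → ℤ) (x : ℤ) (sg : ℕ → ℤ) (lo hi : ℕ → ℝ) (u : ℤ)
    (hG : 0 < G) (hu : 0 < u) (hsg : ∀ g, sg g = 1 ∨ sg g = -1)
    (hlo : ∀ g < G, 0 ≤ lo g) (hle : ∀ g < G, lo g ≤ hi g)
    (hstep : ∀ g < G, ∀ q < Q, ∀ τ, (g, q) ∉ τ →
      lo g ≤ ((sg g * (c (insert (g, q) τ) - c τ) : ℤ) : ℝ) ∧
        ((sg g * (c (insert (g, q) τ) - c τ) : ℤ) : ℝ) ≤ hi g)
    (hratio : ∀ g, g + 1 < G → hi g ≤ Q * lo (g + 1))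
    (hlast : lo (G - 1) = u) (hlast' : hi (G - 1) = u)
    (hdvd : ∀ g < G, ∀ q < Q, ∀ τ, (g, q) ∉ τ → u ∣ c (insert (g, q) τ) - c τ)
    (hx : u ∣ x - c ∅) (h0 : 0 ≤ sg 0 * (x - c ∅)) (h1 : ((sg 0 * (x - c ∅) : ℤ) : ℝ) ≤ Q * lo 0) :
    ∃ τ, c τ = x := by
  classical
  have hτ : ∀ (g : ℕ) (τ : Finset (ℕ × ℕ)), (∀ p ∈ τ, p.1 < g) → ∀ j : ℕ,
      τ ∪ (range (j + 1)).image (fun q => (g, q))
        = insert (g, j) (τ ∪ (range j).image (fun q => (g, q))) ∧
      (g, j) ∉ τ ∪ (range j).image (fun q => (g, q)) := by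
    intro g τ hτ j
    constructor
    · rw [Finset.range_add_one, Finset.image_insert, Finset.union_insert]
    · rw [Finset.mem_union, Finset.mem_image]
      rintro (h | ⟨q, hq, h⟩)
      · exact absurd (hτ _ h) (lt_irrefl _)
      · simp only [Prod.mk.injEq, true_and] at h
        rw [Finset.mem_range] at hq
        omega
  have hP : ∀ g, g < G → ∃ τ : Finset (ℕ × ℕ), (∀ p ∈ τ, p.1 < g) ∧ u ∣ x - c τ ∧
      0 ≤ sg g * (x - c τ) ∧ ((sg g * (x - c τ) : ℤ) : ℝ) ≤ Q * lo g := by
    intro g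
    induction g with
    | zero => intro _; exact ⟨∅, by simp, hx, h0, h1⟩
    | succ g ih =>
      intro hg
      obtain ⟨τ, ht1, ht2, ht3, ht4⟩ := ih (by omega)
      set T : ℕ → Finset (ℕ × ℕ) := fun j => τ ∪ (range j).image (fun q => (g, q)) with hT
      have hT0 : T 0 = τ := by rw [hT]; simp
      have hTs : ∀ j, T (j + 1) = insert (g, j) (T j) := fun j => (hτ g τ ht1 j).1
      have hTn : ∀ j, (g, j) ∉ T j := fun j => (hτ g τ ht1 j).2
      have hTd : ∀ j ≤ Q, u ∣ x - c (T j) := by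
        intro j
        induction j with
        | zero => intro _; rw [hT0]; exact ht2
        | succ j ihj =>
          intro hj
          have h2 := ihj (by omega)
          have h3 := hdvd g (by omega) j (by omega) (T j) (hTn j)
          rw [hTs]
          have := dvd_sub h2 h3
          have e : x - c (T j) - (c (insert (g, j) (T j)) - c (T j)) = x - c (insert (g, j) (T j)) := by
            ring
          rw [e] at this
          exact this
      have hTl : ∀ j, ∀ p ∈ T j, p.1 < g + 1 := by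
        intro j p hp
        rw [hT] at hp
        simp only [Finset.mem_union, Finset.mem_image] at hp
        rcases hp with h | ⟨q, _, rfl⟩
        · have := ht1 p h; omega
        · simp
      obtain ⟨hA, hB⟩ := one_group (Q := Q) (fun j => ((sg g * (x - c (T j)) : ℤ) : ℝ)) (hlo g (by omega))
        (hle g (by omega)) (by
          intro j hj
          have h2 := hstep g (by omega) j hj (T j) (hTn j)
          have e : ((sg g * (x - c (T j)) : ℤ) : ℝ) - ((sg g * (x - c (T (j + 1))) : ℤ) : ℝ)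
              = ((sg g * (c (insert (g, j) (T j)) - c (T j)) : ℤ) : ℝ) := by
            rw [hTs, ← Int.cast_sub]
            congr 1
            ring
          rw [e]
          exact h2)
        (by rw [hT0]; exact_mod_cast ht3) (by rw [hT0]; exact ht4)
      have hr := hratio g hg
      by_cases hs : sg (g + 1) = sg g
      · obtain ⟨j, hj, h2, h3⟩ := hA
        refine ⟨T j, hTl j, hTd j hj, ?_, ?_⟩
        · rw [hs]; exact_mod_cast h2
        · rw [hs]; exact h3.trans hr
      · have hs' : sg (g + 1) = - sg g := by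
          rcases hsg g with h | h
          · rcases hsg (g + 1) with h' | h'
            · exact absurd (h'.trans h.symm) hs
            · rw [h, h']
          · rcases hsg (g + 1) with h' | h'
            · rw [h, h']; norm_num
            · exact absurd (h'.trans h.symm) hs
        obtain ⟨j, hj, h2, h3⟩ := hB
        refine ⟨T j, hTl j, hTd j hj, ?_, ?_⟩
        · rw [hs']
          have : (0 : ℝ) ≤ ((-sg g * (x - c (T j)) : ℤ) : ℝ) := by
            have e : ((-sg g * (x - c (T j)) : ℤ) : ℝ) = -((sg g * (x - c (T j)) : ℤ) : ℝ) := by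
              push_cast; ring
            rw [e]; exact h2
          exact_mod_cast this
        · rw [hs']
          have e : ((-sg g * (x - c (T j)) : ℤ) : ℝ) = -((sg g * (x - c (T j)) : ℤ) : ℝ) := by
            push_cast; ring
          rw [e]
          exact h3.trans hr
  obtain ⟨τ, ht1, ht2, ht3, ht4⟩ := hP (G - 1) (by omega)
  set g := G - 1 with hgdef
  set T : ℕ → Finset (ℕ × ℕ) := fun j => τ ∪ (range j).image (fun q => (g, q)) with hT
  have hT0 : T 0 = τ := by rw [hT]; simp
  have hTs : ∀ j, T (j + 1) = insert (g, j) (T j) := fun j => (hτ g τ ht1 j).1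
  have hTn : ∀ j, (g, j) ∉ T j := fun j => (hτ g τ ht1 j).2
  obtain ⟨k, hk⟩ : ∃ k, sg g * (x - c τ) = u * k := by
    obtain ⟨k, hk⟩ := ht2
    exact ⟨sg g * k, by rw [hk]; ring⟩
  have hk0 : 0 ≤ k := by
    rw [hk] at ht3
    by_contra hcon
    push Not at hcon
    have := mul_neg_of_pos_of_neg hu hcon
    linarith
  have hkQ : k ≤ Q := by
    rw [hk, hlast] at ht4
    have : (u * k : ℤ) ≤ (Q : ℤ) * u := by exact_mod_cast ht4
    rw [mul_comm] at this
    exact le_of_mul_le_mul_right this hu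
  have hstepu : ∀ j < Q, sg g * (c (T (j + 1)) - c (T j)) = u := by
    intro j hj
    have h2 := hstep g (by omega) j hj (T j) (hTn j)
    rw [hlast, hlast', ← hTs] at h2
    have h3 : (((sg g * (c (T (j + 1)) - c (T j))) : ℤ) : ℝ) = u := le_antisymm h2.2 h2.1
    exact_mod_cast h3
  have hlin : ∀ j ≤ Q, sg g * (x - c (T j)) = u * k - u * j := by
    intro j
    induction j with
    | zero => intro _; rw [hT0, hk]; simp
    | succ j ih =>
      intro hj
      have h2 := ih (by omega)
      have h3 := hstepu j (by omega)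
      push_cast
      linear_combination h2 - h3
  have hfin := hlin k.toNat (by omega)
  have e : ((k.toNat : ℕ) : ℤ) = k := Int.toNat_of_nonneg hk0
  rw [e, sub_self] at hfin
  refine ⟨T k.toNat, ?_⟩
  have hs0 : sg g ≠ 0 := by
    rcases hsg g with h | h <;> rw [h] <;> norm_num
  have := (mul_eq_zero.1 hfin).resolve_left hs0
  linarith

/-- Correcting the residue bit by bit. -/
theorem bits (v : ℕ) (c : Finset ℕ → ℤ) (x : ℤ) : ∀ m : ℕ, v ≤ m →
    (∀ i, v ≤ i → i < m → ∀ τ, i ∉ τ → ∃ z, c (insert i τ) - c τ = 2 ^ i * (2 * z + 1)) →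
    (2 ^ v : ℤ) ∣ x - c ∅ → ∃ τ ⊆ Finset.Ico v m, (2 ^ m : ℤ) ∣ x - c τ := by
  intro m hm
  induction m, hm using Nat.le_induction with
  | base => intro _ h; exact ⟨∅, by simp, h⟩
  | succ m hm ih =>
    intro hstep h0
    obtain ⟨τ, h1, w, hw⟩ := ih (fun i hi him => hstep i hi (by omega)) h0
    have hsub : τ ⊆ Finset.Ico v (m + 1) := by
      refine h1.trans ?_
      intro i hi
      rw [Finset.mem_Ico] at hi ⊢
      omega
    rcases Int.even_or_odd' w with ⟨w', hw' | hw'⟩
    · exact ⟨τ, hsub, w', by rw [hw, hw']; ring⟩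
    · have hmτ : m ∉ τ := by
        intro h
        have := h1 h
        rw [Finset.mem_Ico] at this
        omega
      obtain ⟨z, hz⟩ := hstep m hm (by omega) τ hmτ
      refine ⟨insert m τ, ?_, w' - z, ?_⟩
      · intro i hi
        rw [Finset.mem_insert] at hi
        rcases hi with rfl | hi
        · rw [Finset.mem_Ico]; omega
        · exact hsub hi
      · have e : x - c (insert m τ) = (x - c τ) - (c (insert m τ) - c τ) := by ring
        rw [e, hw, hz, hw']
        ring

/-- Discrete intermediate values. -/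
theorem ivt (c : ℕ → ℤ) (T : ℕ) (x M : ℤ) (hM : 0 ≤ M) (h0 : c 0 ≤ x) (hT : x ≤ c T)
    (hstep : ∀ t < T, |c (t + 1) - c t| ≤ M) : ∃ t ≤ T, x ≤ c t ∧ c t ≤ x + M := by
  classical
  have hex : ∃ t, x ≤ c t := ⟨T, hT⟩
  set t := Nat.find hex with ht
  have h1 := Nat.find_spec hex
  rw [← ht] at h1
  have h2 : t ≤ T := Nat.find_min' hex hT
  refine ⟨t, h2, h1, ?_⟩
  rcases Nat.eq_zero_or_pos t with h | h
  · rw [h]; linarith
  · have h3 : ¬ x ≤ c (t - 1) := Nat.find_min hex (by omega)
    have h4 := hstep (t - 1) (by omega)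
    have e : t - 1 + 1 = t := by omega
    rw [e] at h4
    have := (abs_le.1 h4).2
    linarith

end MP_90430c
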