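import Mathlib
import Pool.Agent.Lib.MP_90430c_co.Base
import Pool.Agent.Lib.MP_90430c_co.Greedy

/-! Toggling in a configuration; the final algorithm for fixed `n`. -/

open Finset

set_option linter.unusedSectionVars false
set_option synthInstance.maxSize 4096

namespace MP_90430c

section

variable {I : Type} [Fintype I] [DecidableEq I] {N : ℕ} {s a b : I → ℕ} {l : ℕ} [NeZero l]

lemma cfg_tog_size (hl : 3 ≤ l) (hn : l ≤ Fintype.card (VV N s a b)) {φ : Fin N → Fin N → ℤ}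
    (hφ : IsSig φ) {τ : I → Bool} {i : I} (hs : 2 ≤ s i) (hsl : s i < l) (hτ : τ i = false)
    {δ : ℝ} (hδ1 : δ ≤ 1)
    (hW : δ * (Fintype.card (VV N s a b) : ℝ) ^ (l - s i)
      ≤ Wp (sg0 φ τ i : VV N s a b → VV N s a b → ℤ) (l - s i) (UU (labI i)))
    (hU : (2 * l : ℝ) ^ l * (gadN s a b) ≤ δ / 2 * Fintype.card (VV N s a b)) :
    2 ^ (s i - 2) * (a i * b i) * (Fintype.card (VV N s a b) : ℝ) ^ (l - s i) * (δ / 2)
        ≤ (((-1) ^ (s i) * (cfg l N s a b φ (Function.update τ i true) - cfg l N s a b φ τ) : ℤ) : ℝ) ∧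
      (((-1) ^ (s i) * (cfg l N s a b φ (Function.update τ i true) - cfg l N s a b φ τ) : ℤ) : ℝ)
        ≤ 2 ^ (s i - 2) * (a i * b i) * (Fintype.card (VV N s a b) : ℝ) ^ (l - s i) * 2 := by
  rw [cfg_update_true hτ]
  refine toggle_size (gadget_lab i hs) (isSig_sg0 hφ τ i) (posAt_sg0 φ τ i) hl hsl hn hδ1 hW ?_
  have h1 : ((UU (labI (N := N) (s := s) (a := a) (b := b) i)).card : ℝ) ≤ gadN s a b := by
    have := Finset.card_le_card (UU_subset (N := N) (s := s) (a := a) (b := b) i)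
    rw [card_X0] at this
    exact_mod_cast this
  have hl1 : (1 : ℝ) ≤ 2 * l := by
    have : (1 : ℝ) ≤ l := by exact_mod_cast (by omega : 1 ≤ l)
    linarith
  calc (2 * l : ℝ) ^ (s i) * ((UU (labI (N := N) (s := s) (a := a) (b := b) i)).card : ℝ)
      ≤ (2 * l : ℝ) ^ l * gadN s a b := by
        refine mul_le_mul (pow_le_pow_right₀ hl1 hsl.le) h1 (by positivity) (by positivity)
    _ ≤ _ := hU

lemma cfg_tog_last (hl : 3 ≤ l) (hn : l ≤ Fintype.card (VV N s a b)) {φ : Fin N → Fin N → ℤ}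
    (hφ : IsSig φ) {τ : I → Bool} {i : I} (hsl : s i = l) (hτ : τ i = false) :
    (-1) ^ l * (cfg l N s a b φ (Function.update τ i true) - cfg l N s a b φ τ)
      = 2 ^ (l - 2) * ((a i * b i : ℕ) : ℤ) := by
  rw [cfg_update_true hτ]
  have G := gadget_lab (N := N) (s := s) (a := a) (b := b) i (by omega)
  have h0 := posAt_sg0 (s := s) (a := a) (b := b) φ τ i
  have h1 := isSig_sg0 (s := s) (a := a) (b := b) hφ τ i
  rw [hsl] at G ⊢
  exact toggle_last G h1 h0 hl hn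

lemma cfg_tog_dvd (hl : 3 ≤ l) (hn : l ≤ Fintype.card (VV N s a b)) {φ : Fin N → Fin N → ℤ}
    (hφ : IsSig φ) {τ : I → Bool} {i : I} (hs : 2 ≤ s i) (ha : l * 2 ^ l ∣ a i) (hτ : τ i = false) :
    (2 ^ (l - 2) : ℤ) ∣ cfg l N s a b φ (Function.update τ i true) - cfg l N s a b φ τ := by
  rw [cfg_update_true hτ]
  have G := gadget_lab (N := N) (s := s) (a := a) (b := b) i hs
  obtain ⟨a', ha'⟩ := ha
  rw [ha'] at G
  exact toggle_dvd G (isSig_sg0 hφ τ i) (posAt_sg0 φ τ i) hl hn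

lemma cfg_tog_bit (hl : 3 ≤ l) (hn : l ≤ Fintype.card (VV N s a b)) {φ : Fin N → Fin N → ℤ}
    (hφ : IsSig φ) {τ : I → Bool} {i : I} {j e : ℕ} (hj : j < l - 2)
    (hmax : ∀ j', j + 1 ≤ j' → j' ≤ l - 2 →
      (2 ^ (e + 1) : ℤ) ∣ gen (Fintype.card (VV N s a b) - 2) (l - 2) j')
    (hz : ∃ z, gen (Fintype.card (VV N s a b) - 2) (l - 2) j = 2 ^ e * (2 * z + 1))
    (hs : s i = j + 2) (ha : a i = 1) (hb : b i = 1) (hτ : τ i = false) :
    ∃ z, cfg l N s a b φ (Function.update τ i true) - cfg l N s a b φ τ = 2 ^ e * (2 * z + 1) := by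
  rw [cfg_update_true hτ]
  have G := gadget_lab (N := N) (s := s) (a := a) (b := b) i (by omega)
  rw [hs, ha, hb] at G
  rw [hs]
  exact toggle_bit hl hn hj hmax hz G (isSig_sg0 hφ τ i) (posAt_sg0 φ τ i)

lemma cfg_dvd (hl : 3 ≤ l) (hn : l ≤ Fintype.card (VV N s a b)) {φ : Fin N → Fin N → ℤ}
    (hφ : IsSig φ) (τ : I → Bool) :
    ((gg (Fintype.card (VV N s a b)) l : ℕ) : ℤ) ∣ cfg l N s a b φ τ := by
  obtain ⟨v, hv, hg⟩ := gg_eq_pow (l := l) (n := Fintype.card (VV N s a b)) (by omega)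
  obtain ⟨z, hz, h1⟩ := D_mem hl hn (isSig_sgn (s := s) (a := a) (b := b) hφ τ)
  have h2 := cc_spec hl hn (isSig_sgn (s := s) (a := a) (b := b) hφ τ)
  rw [h1] at h2
  have hl0 : (4 * (l : ℤ)) ≠ 0 := by
    have : (l : ℤ) ≠ 0 := by exact_mod_cast (by omega : l ≠ 0)
    positivity
  have h3 : cfg l N s a b φ τ = z := mul_left_cancel₀ hl0 h2
  rw [h3, hg]
  push_cast
  refine dvd_of_mem_II (t := 0) (N := Fintype.card (VV N s a b) - 2) (m := l - 2) (i := v) ?_ hz
  intro j _ hj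
  have h4 := gg_dvd_gen (l := l) (n := Fintype.card (VV N s a b)) (j := j) (by omega) hj hn
  rw [hg] at h4
  exact_mod_cast h4

end

/-! ### The sites -/

section sites

variable {G Q r : ℕ}

/-- The state given by two finite sets. -/
def tauOf (G Q r : ℕ) (T : Finset (ℕ × ℕ)) (R : Finset ℕ) : (Fin G × Fin Q) ⊕ Fin r → Bool
  | Sum.inl p => decide (((p.1 : ℕ), (p.2 : ℕ)) ∈ T)
  | Sum.inr i => decide ((i : ℕ) ∈ R)

lemma tauOf_empty (i : (Fin G × Fin Q) ⊕ Fin r) : tauOf G Q r ∅ ∅ i = false := by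
  rcases i with i | i <;> simp [tauOf]

lemma tauOf_insert {g q : ℕ} (hg : g < G) (hq : q < Q) (T : Finset (ℕ × ℕ)) (R : Finset ℕ) :
    tauOf G Q r (insert (g, q) T) R
      = Function.update (tauOf G Q r T R) (Sum.inl (⟨g, hg⟩, ⟨q, hq⟩)) true := by
  funext i
  rcases i with ⟨g', q'⟩ | i
  · by_cases h : g' = ⟨g, hg⟩ ∧ q' = ⟨q, hq⟩
    · obtain ⟨rfl, rfl⟩ := h
      rw [Function.update_self]
      simp [tauOf]
    · rw [Function.update_of_ne (by
        intro h'
        apply h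
        simpa using h')]
      unfold tauOf
      simp only [Finset.mem_insert, Prod.mk.injEq]
      have : ¬ ((g' : ℕ) = g ∧ (q' : ℕ) = q) := fun h' => h ⟨Fin.ext h'.1, Fin.ext h'.2⟩
      simp only [this, false_or]
  · rw [Function.update_of_ne (by simp)]
    rfl

lemma tauOf_insert' {e : ℕ} (he : e < r) (T : Finset (ℕ × ℕ)) (R : Finset ℕ) :
    tauOf G Q r T (insert e R)
      = Function.update (tauOf G Q r T R) (Sum.inr ⟨e, he⟩) true := by
  funext i
  rcases i with i | i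
  · rw [Function.update_of_ne (by simp)]
    rfl
  · by_cases h : i = ⟨e, he⟩
    · subst h
      rw [Function.update_self]
      simp [tauOf]
    · rw [Function.update_of_ne (by
        intro h'
        apply h
        simpa using h')]
      unfold tauOf
      simp only [Finset.mem_insert]
      have : ¬ ((i : ℕ) = e) := fun h' => h (Fin.ext h')
      simp only [this, false_or]

lemma tauOf_false {g q : ℕ} (hg : g < G) (hq : q < Q) {T : Finset (ℕ × ℕ)} (h : (g, q) ∉ T)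
    (R : Finset ℕ) : tauOf G Q r T R (Sum.inl (⟨g, hg⟩, ⟨q, hq⟩)) = false := by
  simp [tauOf, h]

lemma tauOf_false' {e : ℕ} (he : e < r) (T : Finset (ℕ × ℕ)) {R : Finset ℕ} (h : e ∉ R) :
    tauOf G Q r T R (Sum.inr ⟨e, he⟩) = false := by
  simp [tauOf, h]

end sites

end MP_90430c
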