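import Mathlib
import Pool.Agent.Lib.MP_90430c_co.Tog
import Pool.Agent.Lib.MP_90430c_co.Sizes

/-! The algorithm for fixed `n`. -/

open Finset

set_option linter.unusedSectionVars false
set_option synthInstance.maxSize 4096

namespace MP_90430c

/-- Sites. -/
abbrev Site (l κ Q : ℕ) : Type := (Fin ((l - 2) * (κ + 1)) × Fin Q) ⊕ Fin (l - 2)

/-- Numbers of levels. -/
def sS (l κ Q : ℕ) (j : ℕ → ℕ) : Site l κ Q → ℕ
  | Sum.inl p => sv κ p.1
  | Sum.inr i => j i + 2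

/-- Numbers of vertices of level one. -/
def aS (l κ Q : ℕ) : Site l κ Q → ℕ
  | Sum.inl p => mv l (sv κ p.1) * 2 ^ kv κ p.1
  | Sum.inr _ => 1

/-- Numbers of vertices of the last level. -/
def bS (l κ Q : ℕ) : Site l κ Q → ℕ
  | Sum.inl p => 2 ^ kv κ p.1
  | Sum.inr _ => 1

/-- The vertex set. -/
abbrev VF (l κ Q N : ℕ) (j : ℕ → ℕ) : Type := VV N (sS l κ Q j) (aS l κ Q) (bS l κ Q)

/-- The number of negative circles. -/
def cF (l : ℕ) [NeZero l] (κ Q N : ℕ) (j : ℕ → ℕ) (φ : Fin N → Fin N → ℤ) (τ : Site l κ Q → Bool) : ℤ :=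
  cfg l N (sS l κ Q j) (aS l κ Q) (bS l κ Q) φ τ

lemma gadN_le {l κ Q : ℕ} {j : ℕ → ℕ} (hl : 3 ≤ l) (hj : ∀ e < l - 2, j e ≤ l) :
    gadN (sS l κ Q j) (aS l κ Q) (bS l κ Q)
      ≤ (2 * Q * l * (l * 2 ^ l + 2 * l + 1) + 4 * l ^ 2) * 2 ^ κ := by
  unfold gadN
  rw [Fintype.sum_sum_type, Fintype.sum_prod_type]
  have h1 : ∑ x : Fin ((l - 2) * (κ + 1)), ∑ y : Fin Q, (aS l κ Q (Sum.inl (x, y))
      + (2 * (sS l κ Q j (Sum.inl (x, y)) - 2) + bS l κ Q (Sum.inl (x, y))))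
      ≤ 2 * Q * l * (l * 2 ^ l + 2 * l + 1) * 2 ^ κ := by
    have h2 : ∀ x ∈ (univ : Finset (Fin ((l - 2) * (κ + 1)))), ∑ y : Fin Q, (aS l κ Q (Sum.inl (x, y))
      + (2 * (sS l κ Q j (Sum.inl (x, y)) - 2) + bS l κ Q (Sum.inl (x, y))))
        ≤ Q * (l * 2 ^ l + 2 * l + 1) * 2 ^ kv κ x := by
      intro x _
      simp only [aS, sS, bS]
      rw [Finset.sum_const, Finset.card_univ, Fintype.card_fin, smul_eq_mul, mul_assoc]
      refine Nat.mul_le_mul_left _ ?_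
      have h3 : sv κ x ≤ l := sv_le hl x.2
      have h4 : mv l (sv κ x) ≤ l * 2 ^ l := by
        unfold mv
        split_ifs
        · exact le_rfl
        · exact Nat.mul_pos (by omega) (by positivity)
      have h5 : 1 ≤ 2 ^ kv κ x := Nat.one_le_two_pow
      calc mv l (sv κ x) * 2 ^ kv κ x + (2 * (sv κ x - 2) + 2 ^ kv κ x)
          ≤ (l * 2 ^ l) * 2 ^ kv κ x + (2 * l * 2 ^ kv κ x + 2 ^ kv κ x) := by
            refine Nat.add_le_add (Nat.mul_le_mul_right _ h4) (Nat.add_le_add_right ?_ _)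
            calc 2 * (sv κ x - 2) ≤ 2 * l * 1 := by omega
              _ ≤ _ := Nat.mul_le_mul_left _ h5
        _ = _ := by ring
    refine (Finset.sum_le_sum h2).trans ?_
    rw [← Finset.mul_sum, Fin.sum_univ_eq_sum_range (fun g => 2 ^ kv κ g)]
    calc Q * (l * 2 ^ l + 2 * l + 1) * ∑ g ∈ range ((l - 2) * (κ + 1)), 2 ^ kv κ g
        ≤ Q * (l * 2 ^ l + 2 * l + 1) * (l * 2 ^ (κ + 1)) := by
          refine Nat.mul_le_mul_left _ ((sum_kv κ (l - 2)).trans (Nat.mul_le_mul_right _ (by omega)))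
      _ = _ := by rw [pow_succ]; ring
  have h6 : ∑ x : Fin (l - 2), (aS l κ Q (Sum.inr x)
      + (2 * (sS l κ Q j (Sum.inr x) - 2) + bS l κ Q (Sum.inr x))) ≤ 4 * l ^ 2 * 2 ^ κ := by
    have h7 : ∀ x ∈ (univ : Finset (Fin (l - 2))), (aS l κ Q (Sum.inr x)
      + (2 * (sS l κ Q j (Sum.inr x) - 2) + bS l κ Q (Sum.inr x))) ≤ 4 * l := by
      intro x _
      simp only [aS, sS, bS]
      have := hj x x.2
      omega
    refine (Finset.sum_le_sum h7).trans ?_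
    rw [Finset.sum_const, Finset.card_univ, Fintype.card_fin, smul_eq_mul]
    calc (l - 2) * (4 * l) ≤ l * (4 * l) := Nat.mul_le_mul_right _ (by omega)
      _ = 4 * l ^ 2 * 1 := by ring
      _ ≤ _ := Nat.mul_le_mul_left _ Nat.one_le_two_pow
  rw [add_mul]
  exact Nat.add_le_add h1 h6

lemma sS_two (l κ Q : ℕ) (j : ℕ → ℕ) (i : Site l κ Q) : 2 ≤ sS l κ Q j i := by
  rcases i with i | i
  · exact sv_two _ _
  · simp [sS]

theorem fixed_n {l κ Q N m : ℕ} [NeZero l] {j : ℕ → ℕ} (hl : 3 ≤ l) {M : Fin N → Fin N → ℤ}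
    (hM : IsSig M) {δ : ℝ} (hδ : 0 < δ) (hδ1 : δ ≤ 1) {n : ℕ}
    (hn : Fintype.card (VF l κ Q N j) = n) (hln : l ≤ n)
    (hW : ∀ t ≤ m * N, ∀ (τ : Site l κ Q → Bool) (i : Site l κ Q) (k : ℕ), k ≤ l →
      δ * (n : ℝ) ^ k ≤ Wp (sg0 (pth M t) τ i : VF l κ Q N j → VF l κ Q N j → ℤ) k (UU (labI i)))
    (hU : (2 * l : ℝ) ^ l * (gadN (sS l κ Q j) (aS l κ Q) (bS l κ Q)) ≤ δ / 2 * n)
    (hκ : n ≤ 4 ^ κ) (hQ : 2 * (l * 2 ^ l) + 16 ≤ δ * Q) {v : ℕ} (hv : gg n l = 2 ^ v) (hvl : v ≤ l - 2)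
    (hj : ∀ e, v ≤ e → e < l - 2 → j e < l - 2 ∧ (∀ j', j e + 1 ≤ j' → j' ≤ l - 2 →
      (2 ^ (e + 1) : ℤ) ∣ gen (n - 2) (l - 2) j') ∧
        ∃ z, gen (n - 2) (l - 2) (j e) = 2 ^ e * (2 * z + 1))
    {x : ℤ} (hx : (2 ^ v : ℤ) ∣ x)
    (hx0 : cF l κ Q N j (pth M 0) (tauOf _ _ _ ∅ ∅) ≤ x + l * 2 ^ l * (n : ℤ) ^ (l - 2))
    (hx1 : x + l * 2 ^ l * (n : ℤ) ^ (l - 2) ≤ cF l κ Q N j (pth M (m * N)) (tauOf _ _ _ ∅ ∅)) :
    ∃ (t : ℕ) (τ : Site l κ Q → Bool), cF l κ Q N j (pth M t) τ = x := by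
  classical
  have hln' : l ≤ Fintype.card (VF l κ Q N j) := by rw [hn]; exact hln
  -- Step 1
  obtain ⟨t, ht, h1, h2⟩ := ivt (fun t => cF l κ Q N j (pth M t) (tauOf _ _ _ ∅ ∅)) (m * N)
    (x + l * 2 ^ l * (n : ℤ) ^ (l - 2)) ((n : ℤ) ^ (l - 2)) (by positivity) hx0 hx1 (by
      intro t _
      have := cfg_step hl hln' hM t (tauOf _ _ _ ∅ ∅)
      rw [hn] at this
      exact this)
  have hφ := isSig_pth hM t
  set φ := pth M t with hφdef
  have hWt := hW t ht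
  -- Step 2
  obtain ⟨R, hR, hdR⟩ := bits v (fun R => cF l κ Q N j φ (tauOf _ _ _ ∅ R)) x (l - 2) hvl (by
      intro e he1 he2 R heR
      obtain ⟨hj1, hj2, hj3⟩ := hj e he1 he2
      rw [tauOf_insert' he2]
      refine cfg_tog_bit hl hln' hφ (j := j e) hj1 ?_ ?_ rfl rfl rfl (tauOf_false' he2 ∅ heR)
      · rw [hn]; exact hj2
      · rw [hn]; exact hj3)
    (by
      refine dvd_sub hx ?_
      have := cfg_dvd hl hln' hφ (tauOf _ _ _ ∅ ∅)
      rw [hn, hv] at this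
      exact_mod_cast this)
  have hRr : ∀ e ∈ R, v ≤ e ∧ e < l - 2 := fun e he => Finset.mem_Ico.1 (hR he)
  -- Step 3
  have h3 : |cF l κ Q N j φ (tauOf _ _ _ ∅ R) - cF l κ Q N j φ (tauOf _ _ _ ∅ ∅)|
      ≤ R.card * (2 ^ l * (n : ℤ) ^ (l - 2)) := by
    clear hdR hR
    induction R using Finset.induction_on with
    | empty => simp
    | insert e R he ih =>
      have h4 := ih (fun e' he' => hRr e' (Finset.mem_insert_of_mem he'))
      obtain ⟨he1, he2⟩ := hRr e (Finset.mem_insert_self _ _)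
      obtain ⟨hj1, _, _⟩ := hj e he1 he2
      have hf := tauOf_false' (G := (l - 2) * (κ + 1)) (Q := Q) he2 ∅ he
      have hsl : sS l κ Q j (Sum.inr ⟨e, he2⟩) < l := by simp only [sS]; omega
      have h5 := cfg_tog_size hl hln' hφ (i := Sum.inr ⟨e, he2⟩) (sS_two _ _ _ _ _) hsl hf hδ1
        (by rw [hn]; exact hWt _ _ _ (by omega)) (by rw [hn]; exact hU)
      rw [← tauOf_insert', hn] at h5
      have h6 : |cF l κ Q N j φ (tauOf _ _ _ ∅ (insert e R)) - cF l κ Q N j φ (tauOf _ _ _ ∅ R)|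
          ≤ 2 ^ l * (n : ℤ) ^ (l - 2) := by
        obtain ⟨h7, h8⟩ := h5
        simp only [aS, bS, sS, Nat.cast_one, mul_one] at h7 h8
        have e2 : j e + 2 - 2 = j e := by omega
        rw [e2] at h7 h8
        have h9 : (0 : ℝ) ≤ 2 ^ (j e) * (n : ℝ) ^ (l - (j e + 2)) * (δ / 2) := by positivity
        have h10 : (2 : ℝ) ^ (j e) * (n : ℝ) ^ (l - (j e + 2)) * 2 ≤ 2 ^ l * (n : ℝ) ^ (l - 2) := by
          have hn1 : (1 : ℝ) ≤ n := by exact_mod_cast (by omega : 1 ≤ n)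
          calc (2 : ℝ) ^ (j e) * (n : ℝ) ^ (l - (j e + 2)) * 2
              = 2 ^ (j e + 1) * (n : ℝ) ^ (l - (j e + 2)) := by rw [pow_succ]; ring
            _ ≤ 2 ^ l * (n : ℝ) ^ (l - 2) := by
                refine mul_le_mul (pow_le_pow_right₀ (by norm_num) (by omega))
                  (pow_le_pow_right₀ hn1 (by omega)) (by positivity) (by positivity)
        have h11 : |(((-1) ^ (j e + 2) * (cF l κ Q N j φ (tauOf _ _ _ ∅ (insert e R))
            - cF l κ Q N j φ (tauOf _ _ _ ∅ R)) : ℤ) : ℝ)| ≤ 2 ^ l * (n : ℝ) ^ (l - 2) := by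
          rw [abs_le]
          constructor
          · have : (0 : ℝ) ≤ 2 ^ l * (n : ℝ) ^ (l - 2) := by positivity
            exact (by linarith : -(2 ^ l * (n : ℝ) ^ (l - 2)) ≤ 0).trans (h9.trans h7)
          · exact h8.trans h10
        rw [← Int.cast_abs, abs_mul, abs_pow, abs_neg, abs_one, one_pow, one_mul] at h11
        exact_mod_cast h11
      rw [Finset.card_insert_of_notMem he]
      push_cast
      have h7 := abs_sub_le (cF l κ Q N j φ (tauOf _ _ _ ∅ (insert e R)))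
        (cF l κ Q N j φ (tauOf _ _ _ ∅ R)) (cF l κ Q N j φ (tauOf _ _ _ ∅ ∅))
      have h8 : ((R.card : ℤ) + 1) * (2 ^ l * (n : ℤ) ^ (l - 2))
          = R.card * (2 ^ l * (n : ℤ) ^ (l - 2)) + 2 ^ l * (n : ℤ) ^ (l - 2) := by ring
      linarith
  have hRc : (R.card : ℤ) ≤ l := by
    have := Finset.card_le_card hR
    rw [Nat.card_Ico] at this
    exact_mod_cast (by omega : R.card ≤ l)
  have h4 : |cF l κ Q N j φ (tauOf _ _ _ ∅ R) - cF l κ Q N j φ (tauOf _ _ _ ∅ ∅)|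
      ≤ l * 2 ^ l * (n : ℤ) ^ (l - 2) := by
    refine h3.trans ?_
    calc (R.card : ℤ) * (2 ^ l * (n : ℤ) ^ (l - 2)) ≤ l * (2 ^ l * (n : ℤ) ^ (l - 2)) :=
          mul_le_mul_of_nonneg_right hRc (by positivity)
      _ = _ := by ring
  obtain ⟨h5, h6⟩ := abs_le.1 h4
  have hlow : x ≤ cF l κ Q N j φ (tauOf _ _ _ ∅ R) := by linarith
  have hup : cF l κ Q N j φ (tauOf _ _ _ ∅ R) - x ≤ (2 * (l * 2 ^ l) + 1) * (n : ℤ) ^ (l - 2) := by
    linarith
  -- Step 4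
  have hnr : (0 : ℝ) ≤ n := by positivity
  have hκr : (n : ℝ) ≤ 4 ^ κ := by exact_mod_cast hκ
  obtain ⟨hlast1, hlast2⟩ := last_group (κ := κ) hl
  have hG : 0 < (l - 2) * (κ + 1) := Nat.mul_pos (by omega) (by omega)
  obtain ⟨T, hT⟩ := greedy ((l - 2) * (κ + 1)) Q (fun T => cF l κ Q N j φ (tauOf _ _ _ T R)) x
    (fun g => (-1) ^ (sv κ g)) (lov l κ n δ) (hiv l κ n) (2 ^ (l - 2)) hG (by positivity)
    (by
      intro g
      rcases Nat.even_or_odd (sv κ g) with h | h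
      · left; exact h.neg_one_pow
      · right; exact h.neg_one_pow)
    (fun g _ => lov_nonneg hnr hδ.le g) (fun g _ => lov_le_hiv hnr hδ1 g)
    (by
      intro g hg q hq T hT
      have hf := tauOf_false (r := l - 2) hg hq hT R
      have hle := sv_le hl hg
      have hs2 := sv_two κ g
      rw [tauOf_insert hg hq]
      rcases Nat.lt_or_ge (sv κ g) l with hs | hs
      · have h7 := cfg_tog_size hl hln' hφ (i := Sum.inl (⟨g, hg⟩, ⟨q, hq⟩)) hs2 hs hf hδ1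
          (by rw [hn]; exact hWt _ _ _ (by omega)) (by rw [hn]; exact hU)
        rw [hn] at h7
        simp only [aS, bS, sS, mv, if_pos hs] at h7
        have e4 : (4 : ℝ) ^ kv κ g = 2 ^ kv κ g * 2 ^ kv κ g := by
          rw [← mul_pow]; norm_num
        unfold lov hiv
        rw [if_pos hs, if_pos hs, e4]
        push_cast at h7
        constructor
        · refine le_trans (le_of_eq ?_) (h7.1.trans (le_of_eq ?_))
          · ring
          · push_cast [cF]; rfl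
        · refine le_trans (le_of_eq ?_) (h7.2.trans (le_of_eq ?_))
          · push_cast [cF]; rfl
          · ring
      · have hsl : sv κ g = l := le_antisymm hle hs
        have h7 := cfg_tog_last hl hln' hφ (i := Sum.inl (⟨g, hg⟩, ⟨q, hq⟩)) hsl hf
        have e4 : (4 : ℝ) ^ kv κ g = 2 ^ kv κ g * 2 ^ kv κ g := by
          rw [← mul_pow]; norm_num
        simp only [aS, bS, mv, if_neg (not_lt.2 hs), one_mul] at h7
        have h8 : (((-1) ^ (sv κ g) * (cF l κ Q N j φ (Function.update (tauOf _ _ _ T R)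
            (Sum.inl (⟨g, hg⟩, ⟨q, hq⟩)) true) - cF l κ Q N j φ (tauOf _ _ _ T R)) : ℤ) : ℝ)
            = 2 ^ (l - 2) * 4 ^ kv κ g := by
          rw [hsl, e4]
          have : ((2 ^ (l - 2) * ((2 ^ kv κ g * 2 ^ kv κ g : ℕ) : ℤ) : ℤ) : ℝ)
              = 2 ^ (l - 2) * (2 ^ kv κ g * 2 ^ kv κ g) := by push_cast; ring
          rw [← this]
          exact congrArg (fun z : ℤ => (z : ℝ)) h7
        unfold lov hiv
        rw [if_neg (not_lt.2 hs), if_neg (not_lt.2 hs)]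
        exact ⟨h8.ge, h8.le⟩)
    (fun g hg => ratio hl hδ hδ1 hnr hκr hQ hg)
    (by unfold lov; rw [hlast1, hlast2, if_neg (lt_irrefl _)]; push_cast; ring)
    (by unfold hiv; rw [hlast1, hlast2, if_neg (lt_irrefl _)]; push_cast; ring)
    (by
      intro g hg q hq T hT
      have hf := tauOf_false (r := l - 2) hg hq hT R
      have hle := sv_le hl hg
      have hs2 := sv_two κ g
      rw [tauOf_insert hg hq]
      rcases Nat.lt_or_ge (sv κ g) l with hs | hs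
      · refine cfg_tog_dvd hl hln' hφ (i := Sum.inl (⟨g, hg⟩, ⟨q, hq⟩)) hs2 ?_ hf
        simp only [aS, mv, if_pos hs]
        exact Dvd.intro _ rfl
      · have hsl : sv κ g = l := le_antisymm hle hs
        have h7 := cfg_tog_last hl hln' hφ (i := Sum.inl (⟨g, hg⟩, ⟨q, hq⟩)) hsl hf
        have h8 : (2 ^ (l - 2) : ℤ) ∣ (-1) ^ l * (cfg l N (sS l κ Q j) (aS l κ Q) (bS l κ Q) φ
            (Function.update (tauOf _ _ _ T R) (Sum.inl (⟨g, hg⟩, ⟨q, hq⟩)) true)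
            - cfg l N (sS l κ Q j) (aS l κ Q) (bS l κ Q) φ (tauOf _ _ _ T R)) := by
          rw [h7]; exact Dvd.intro _ rfl
        rcases Nat.even_or_odd l with h9 | h9
        · rw [h9.neg_one_pow, one_mul] at h8; exact h8
        · rw [h9.neg_one_pow, neg_one_mul, dvd_neg] at h8; exact h8)
    hdR
    (by
      have e1 : sv κ 0 = 3 := by simp [sv]
      simp only [e1]
      have e2 : (-1 : ℤ) ^ 3 = -1 := by norm_num
      rw [e2]
      linarith)
    (by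
      have e1 : sv κ 0 = 3 := by simp [sv]
      simp only [e1]
      have e2 : (-1 : ℤ) ^ 3 = -1 := by norm_num
      rw [e2]
      refine le_trans ?_ (first hl hδ hδ1 hnr hκr hQ)
      have h7 : ((-1 * (x - cF l κ Q N j φ (tauOf _ _ _ ∅ R)) : ℤ) : ℝ)
          ≤ (((2 * (l * 2 ^ l) + 1) * (n : ℤ) ^ (l - 2) : ℤ) : ℝ) := by
        have : -1 * (x - cF l κ Q N j φ (tauOf _ _ _ ∅ R)) ≤ (2 * (l * 2 ^ l) + 1) * (n : ℤ) ^ (l - 2) := by
          linarith
        exact_mod_cast this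
      refine h7.trans (le_of_eq ?_)
      push_cast
      ring)
  exact ⟨t, _, hT⟩

end MP_90430c
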