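import Mathlib
import Pool.Agent.Lib.MP_90430c_co.Fixed

/-! The core theorem. -/

open Finset Filter

set_option linter.unusedSectionVars false
set_option synthInstance.maxSize 4096

namespace MP_90430c

lemma ev_sqrt (A B : ℝ) {C : ℝ} (hC : 0 < C) : ∀ᶠ n : ℕ in atTop, A * √(n : ℝ) + B ≤ C * n := by
  have h1 : Tendsto (fun n : ℕ => √(n : ℝ)) atTop atTop :=
    Real.tendsto_sqrt_atTop.comp tendsto_natCast_atTop_atTop
  filter_upwards [h1.eventually_ge_atTop (max 1 ((|A| + |B|) / C))] with n hn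
  have h2 : 1 ≤ √(n : ℝ) := (le_max_left _ _).trans hn
  have h3 : (|A| + |B|) / C ≤ √(n : ℝ) := (le_max_right _ _).trans hn
  rw [div_le_iff₀ hC] at h3
  have h4 : √(n : ℝ) * √(n : ℝ) = n := Real.mul_self_sqrt (by positivity)
  calc A * √(n : ℝ) + B ≤ |A| * √(n : ℝ) + |B| * √(n : ℝ) := by
        refine add_le_add (mul_le_mul_of_nonneg_right (le_abs_self A) (by positivity)) ?_
        calc B ≤ |B| := le_abs_self B
          _ = |B| * 1 := by ring
          _ ≤ |B| * √(n : ℝ) := mul_le_mul_of_nonneg_left h2 (abs_nonneg B)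
    _ = (|A| + |B|) * √(n : ℝ) := by ring
    _ ≤ (√(n : ℝ) * C) * √(n : ℝ) := mul_le_mul_of_nonneg_right h3 (by positivity)
    _ = C * (√(n : ℝ) * √(n : ℝ)) := by ring
    _ = C * n := by rw [h4]

lemma clog_le {n : ℕ} (hn : 2 ≤ n) : n ≤ 4 ^ Nat.clog 4 n ∧ ((2 : ℝ) ^ Nat.clog 4 n) ≤ 2 * √(n : ℝ) := by
  refine ⟨Nat.le_pow_clog (by norm_num) n, ?_⟩
  have h1 := Nat.pow_pred_clog_lt_self (b := 4) (x := n) (by norm_num) (by omega)
  have h2 : 0 < Nat.clog 4 n := Nat.clog_pos (by norm_num) hn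
  obtain ⟨κ, hκ⟩ : ∃ κ, Nat.clog 4 n = κ + 1 := ⟨Nat.clog 4 n - 1, by omega⟩
  rw [hκ] at h1 ⊢
  simp only [Nat.pred_eq_sub_one, Nat.add_sub_cancel, Nat.succ_sub_one] at h1
  have h3 : ((2 : ℝ) ^ κ) ≤ √(n : ℝ) := by
    apply Real.le_sqrt_of_sq_le
    have : ((4 : ℝ) ^ κ) ≤ n := by exact_mod_cast h1.le
    calc ((2 : ℝ) ^ κ) ^ 2 = (4 : ℝ) ^ κ := by rw [← pow_mul, mul_comm, pow_mul]; norm_num
      _ ≤ n := this
  rw [pow_succ]
  linarith

/-- The lower bound for the density of signed paths. -/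
noncomputable def dl (l : ℕ) (α : ℝ) : ℝ := (α / 4) ^ l / 2

/-- The number of gadgets of each size. -/
noncomputable def Qf (l : ℕ) (α : ℝ) : ℕ := ⌈(2 * (l * 2 ^ l) + 16) / dl l α⌉₊

/-- The constant for the number of vertices in gadgets. -/
noncomputable def Cgf (l : ℕ) (α : ℝ) : ℕ := 2 * Qf l α * l * (l * 2 ^ l + 2 * l + 1) + 4 * l ^ 2

/-- The constant for the window. -/
noncomputable def Cf (l : ℕ) (α : ℝ) : ℝ := 8 * Cgf l α + 4 * l * (l * 2 ^ l)

/-- The conditions on `n`. -/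
structure OK (l n : ℕ) (α : ℝ) : Prop where
  hln : l ≤ n
  c4 : √2 * √(n : ℝ) + (3 + 2 * l) ≤ (α / 4) ^ l * n
  c5 : 2 * l * (2 * Cgf l α) * √(n : ℝ) ≤ (α / 4) ^ l * n
  c6 : (2 * l) ^ l * (2 * Cgf l α) * √(n : ℝ) ≤ dl l α / 2 * n
  c8 : 2 * Cgf l α * √(n : ℝ) + 2 ≤ α * n
  c3 : 2 * l ≤ α * n

theorem core (l : ℕ) [NeZero l] (hl : 3 ≤ l) {α : ℝ} (hα : 0 < α) (hα1 : α ≤ 1 / 4) {n : ℕ}
    (hok : OK l n α) : ∃ N m : ℕ, m ≤ N ∧ N ≤ n ∧ (1 - 2 * α) * n ≤ m ∧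
      ∀ M : Fin N → Fin N → ℤ, IsSig M → (∀ q ≤ N, ((rowB M q : ℤ) : ℝ) ≤ √(2 * (N : ℝ) ^ 3)) →
      ∀ x : ℤ, ((gg n l : ℕ) : ℤ) ∣ x → Cf l α * ((n : ℝ) ^ (l - 2) * √(n : ℝ)) ≤ x →
        4 * l * (x : ℝ) + Cf l α * ((n : ℝ) ^ (l - 2) * √(n : ℝ)) + l * ((n - m) * (n : ℝ) ^ (l - 1))
          + (ZB l m M : ℤ) ≤ (n.descFactorial l : ℕ) →
        ∃ (V : Type) (_ : Fintype V) (_ : DecidableEq V) (σ : V → V → ℤ),
          Fintype.card V = n ∧ IsSig σ ∧ cc l σ = x := by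
  classical
  obtain ⟨hln, hc4, hc5, hc6, hc8, hc3⟩ := hok
  set C : ℝ := Cf l α with hCdef'
  have hCdef : C = 8 * Cgf l α + 4 * l * (l * 2 ^ l) := by rw [hCdef', Cf]
  set δ : ℝ := dl l α with hδdef'
  have hδdef : δ = (α / 4) ^ l / 2 := by rw [hδdef', dl]
  have hα4 : 0 < α / 4 := by positivity
  have hδ0 : 0 < δ := by rw [hδdef]; positivity
  have hδ1 : δ ≤ 1 := by
    have : (α / 4) ^ l ≤ 1 := pow_le_one₀ hα4.le (by linarith)
    rw [hδdef]; linarith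
  set Q : ℕ := Qf l α with hQdef
  have hQ : 2 * (l * 2 ^ l) + 16 ≤ δ * Q := by
    have h1 := Nat.le_ceil ((2 * (l * 2 ^ l) + 16) / δ)
    rw [hδdef', ← Qf, ← hQdef, div_le_iff₀ hδ0] at h1
    linarith
  set Cg : ℕ := Cgf l α with hCg
  have hl0 : (0 : ℝ) < l := by exact_mod_cast (by omega : 0 < l)
  have hCg0 : (1 : ℝ) ≤ Cg := by
    have : 1 ≤ Cg := by
      rw [hCg, Cgf]
      have : 1 ≤ 4 * l ^ 2 := Nat.one_le_iff_ne_zero.2 (by positivity)
      omega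
    exact_mod_cast this
  have hn2 : 2 ≤ n := by omega
  have hn1 : (1 : ℝ) ≤ n := by exact_mod_cast (by omega : 1 ≤ n)
  have hn0 : (0 : ℝ) < n := by linarith
  obtain ⟨hκ1, hκ2⟩ := clog_le hn2
  set κ := Nat.clog 4 n with hκ
  obtain ⟨v, hvl, hv⟩ := gg_eq_pow (l := l) (n := n) (by omega)
  have hlev : ∀ e : ℕ, ∃ j : ℕ, j ≤ l ∧ (v ≤ e → e < l - 2 → j < l - 2 ∧
      (∀ j', j + 1 ≤ j' → j' ≤ l - 2 → (2 ^ (e + 1) : ℤ) ∣ gen (n - 2) (l - 2) j') ∧
        ∃ z, gen (n - 2) (l - 2) j = 2 ^ e * (2 * z + 1)) := by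
    intro e
    by_cases h : v ≤ e ∧ e < l - 2
    · obtain ⟨j, h1, h2, h3⟩ := exists_level hl hln hv h.1 h.2
      exact ⟨j, by omega, fun _ _ => ⟨h1, h2, h3⟩⟩
    · exact ⟨0, by omega, fun h1 h2 => absurd ⟨h1, h2⟩ h⟩
  choose j hj0 hj using hlev
  set gad := gadN (sS l κ Q j) (aS l κ Q) (bS l κ Q) with hgad
  have hgad1 : (gad : ℝ) ≤ 2 * Cg * √(n : ℝ) := by
    have h1 : gad ≤ Cg * 2 ^ κ := by rw [hCg, Cgf]; exact gadN_le hl (fun e _ => hj0 e)
    have h2 : (gad : ℝ) ≤ Cg * 2 ^ κ := by exact_mod_cast h1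
    calc (gad : ℝ) ≤ Cg * 2 ^ κ := h2
      _ ≤ Cg * (2 * √(n : ℝ)) := mul_le_mul_of_nonneg_left hκ2 (by positivity)
      _ = _ := by ring
  have hgad2 : (gad : ℝ) + 2 ≤ α * n := by linarith
  have hgad3 : gad ≤ n := by
    have : (gad : ℝ) ≤ n := by
      have h1 : α * n ≤ 1 * n := mul_le_mul_of_nonneg_right (by linarith) hn0.le
      linarith
    exact_mod_cast this
  set N := n - gad with hN
  set c := ⌈α * n⌉₊ with hc
  have hc1 : α * n ≤ c := Nat.le_ceil _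
  have hc2 : (c : ℝ) < α * n + 1 := Nat.ceil_lt_add_one (by positivity)
  have hNr : (N : ℝ) = n - gad := by rw [hN, Nat.cast_sub hgad3]
  have hcN : c + 1 ≤ N := by
    have : (c : ℝ) + 1 ≤ N := by
      rw [hNr]
      have h1 : α * n ≤ 1 / 4 * n := mul_le_mul_of_nonneg_right hα1 hn0.le
      have h2 : 2 * (l : ℝ) ≤ α * n := by linarith
      have h3 : (3 : ℝ) ≤ l := by exact_mod_cast hl
      linarith
    exact_mod_cast this
  set m := N - (c + 1) with hm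
  have hmr : (m : ℝ) = n - gad - (c + 1) := by
    rw [hm, Nat.cast_sub hcN, hNr]; push_cast; ring
  have hmN : m ≤ N := Nat.sub_le _ _
  have hNn : N ≤ n := Nat.sub_le _ _
  refine ⟨N, m, hmN, hNn, ?_, ?_⟩
  · rw [hmr]
    linarith
  intro M hM hrow x hgx hx0 hx1
  have hcard : Fintype.card (VF l κ Q N j) = n := by
    rw [card_VV]
    omega
  have hln' : l ≤ Fintype.card (VF l κ Q N j) := by rw [hcard]; exact hln
  have hN0 : 0 < N := by omega
  have hsq : √(n : ℝ) * √(n : ℝ) = n := Real.mul_self_sqrt hn0.le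
  have hNn' : (N : ℝ) ≤ n := by exact_mod_cast hNn
  have hsqrt : √(2 * (N : ℝ) ^ 3) ≤ √2 * (n * √(n : ℝ)) := by
    calc √(2 * (N : ℝ) ^ 3) ≤ √(2 * (n : ℝ) ^ 3) := by
          apply Real.sqrt_le_sqrt
          exact mul_le_mul_of_nonneg_left (pow_le_pow_left₀ (by positivity) hNn' 3) (by norm_num)
      _ = √2 * (n * √(n : ℝ)) := by
          rw [Real.sqrt_mul (by norm_num)]
          congr 1
          rw [show (n : ℝ) ^ 3 = n ^ 2 * n by ring, Real.sqrt_mul (by positivity), Real.sqrt_sq hn0.le]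
  have hX : 2 * (l : ℝ) * (gad : ℝ) ≤ (α / 4) ^ l * n := by
    calc 2 * (l : ℝ) * (gad : ℝ) ≤ 2 * l * (2 * Cg * √(n : ℝ)) :=
          mul_le_mul_of_nonneg_left hgad1 (by positivity)
      _ ≤ _ := by linarith
  have hU : (2 * l : ℝ) ^ l * gad ≤ δ / 2 * n := by
    calc (2 * l : ℝ) ^ l * gad ≤ (2 * l) ^ l * (2 * Cg * √(n : ℝ)) :=
          mul_le_mul_of_nonneg_left hgad1 (by positivity)
      _ ≤ _ := by linarith
  have hW : ∀ t ≤ m * N, ∀ (τ : Site l κ Q → Bool) (i : Site l κ Q) (k : ℕ), k ≤ l →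
      δ * (n : ℝ) ^ k ≤ Wp (sg0 (pth M t) τ i : VF l κ Q N j → VF l κ Q N j → ℤ) k (UU (labI i)) := by
    intro t ht τ i k hk
    have hq : t / N ≤ m := by
      rw [Nat.div_le_iff_le_mul hN0]
      omega
    have h1 := W_cfg (s := sS l κ Q j) (a := aS l κ Q) (b := bS l κ Q) (isSig_pth hM t)
      (univ.filter fun x : Fin N => t / N < x)
      (fun x hx y => pth_pos M t (Finset.mem_filter.1 hx).2 y) l α hα (by linarith)
      (by
        rw [hcard]
        have h2 : (univ.filter fun x : Fin N => t / N < x).card = N - (t / N + 1) := by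
          have h3 := Finset.card_filter_add_card_filter_not (s := (univ : Finset (Fin N)))
            (fun x : Fin N => (x : ℕ) < t / N + 1)
          rw [card_lt (by omega), Finset.card_univ, Fintype.card_fin] at h3
          have h4 : (univ.filter fun x : Fin N => t / N < x)
              = univ.filter fun x : Fin N => ¬ ((x : ℕ) < t / N + 1) := by
            ext x; simp only [Finset.mem_filter, Finset.mem_univ, true_and]; omega
          rw [h4]; omega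
        rw [h2]
        have h5 : c ≤ N - (t / N + 1) := by omega
        have h6 : (c : ℝ) ≤ ((N - (t / N + 1) : ℕ) : ℝ) := by exact_mod_cast h5
        linarith)
      (by rw [hcard]; linarith)
      (by
        rw [hcard]
        have h2 := pth_rows hM t (univ.filter fun x : Fin N => t / N < x) rfl
        have h3 : ((∑ w ∈ (univ.filter fun x : Fin N => t / N < x)ᶜ,
            |∑ v ∈ ((univ.filter fun x : Fin N => t / N < x)ᶜ).erase w, pth M t v w| : ℤ) : ℝ)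
            ≤ ((rowB M (t / N) + 3 * N : ℤ) : ℝ) := by exact_mod_cast h2
        have h4 := hrow (t / N) (hq.trans hmN)
        rw [Int.cast_add] at h3
        push_cast at h3 ⊢
        have h5 : √2 * (n * √(n : ℝ)) + 3 * n + 2 * l * n ≤ (α / 4) ^ l * (n : ℝ) ^ 2 := by
          calc √2 * (n * √(n : ℝ)) + 3 * n + 2 * l * n = (√2 * √(n : ℝ) + (3 + 2 * l)) * n := by ring
            _ ≤ ((α / 4) ^ l * n) * n := mul_le_mul_of_nonneg_right hc4 hn0.le
            _ = _ := by ring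
        linarith)
      (by rw [hcard]; exact hX) (by rw [hcard]; omega) τ i hk
    rw [hcard] at h1
    exact h1
  have hdvd : (2 ^ v : ℤ) ∣ x := by
    rw [hv] at hgx
    exact_mod_cast hgx
  have hnp : (0 : ℝ) < (n : ℝ) ^ (l - 2) := by positivity
  have hsn : 1 ≤ √(n : ℝ) := by
    rw [Real.one_le_sqrt]; exact hn1
  have hbig : (n : ℝ) ^ (l - 2) ≤ (n : ℝ) ^ (l - 2) * √(n : ℝ) := by
    calc (n : ℝ) ^ (l - 2) = (n : ℝ) ^ (l - 2) * 1 := by ring
      _ ≤ _ := mul_le_mul_of_nonneg_left hsn hnp.le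
  have h2l : (0 : ℝ) ≤ l * 2 ^ l := by positivity
  obtain ⟨t, τ, htτ⟩ := fixed_n (m := m) hl hM hδ0 hδ1 hcard hln hW hU hκ1 hQ hv hvl
    (fun e h1 h2 => hj e h1 h2) hdvd
    (by
      have h1 := cfg_base (s := sS l κ Q j) (a := aS l κ Q) (b := bS l κ Q) hl hln'
        (sS_two l κ Q j) (tauOf_empty (G := (l - 2) * (κ + 1)) (Q := Q) (r := l - 2)) M
      rw [hcard] at h1
      have h2 : ((cF l κ Q N j (pth M 0) (tauOf _ _ _ ∅ ∅) : ℤ) : ℝ)
          ≤ 4 * gad * (n : ℝ) ^ (l - 2) := by exact_mod_cast h1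
      have h3 : 4 * (gad : ℝ) * (n : ℝ) ^ (l - 2) ≤ x := by
        refine le_trans ?_ hx0
        calc 4 * (gad : ℝ) * (n : ℝ) ^ (l - 2) ≤ 4 * (2 * Cg * √(n : ℝ)) * (n : ℝ) ^ (l - 2) := by
              refine mul_le_mul_of_nonneg_right ?_ hnp.le
              linarith
          _ = 8 * Cg * ((n : ℝ) ^ (l - 2) * √(n : ℝ)) := by ring
          _ ≤ C * ((n : ℝ) ^ (l - 2) * √(n : ℝ)) := by
              refine mul_le_mul_of_nonneg_right ?_ (by positivity)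
              rw [hCdef]
              have : 0 ≤ 4 * (l : ℝ) * (l * 2 ^ l) := by positivity
              linarith
      have h4 : cF l κ Q N j (pth M 0) (tauOf _ _ _ ∅ ∅) ≤ x := by exact_mod_cast h2.trans h3
      have h5 : (0 : ℤ) ≤ l * 2 ^ l * (n : ℤ) ^ (l - 2) := by positivity
      linarith)
    (by
      have h1 := cfg_end (s := sS l κ Q j) (a := aS l κ Q) (b := bS l κ Q) hl hM hmN
        (tauOf ((l - 2) * (κ + 1)) Q (l - 2) ∅ ∅)
      have h2 := cc_spec hl hln' (isSig_sgn (s := sS l κ Q j) (a := aS l κ Q) (b := bS l κ Q)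
        (isSig_pth hM (m * N)) (tauOf ((l - 2) * (κ + 1)) Q (l - 2) ∅ ∅))
      rw [hcard] at h1 h2
      have h3 : ((Z l (sgn (pth M (m * N)) (tauOf ((l - 2) * (κ + 1)) Q (l - 2) ∅ ∅) :
          VF l κ Q N j → VF l κ Q N j → ℤ) : ℤ) : ℝ)
          ≤ (ZB l m M : ℤ) + l * ((n - m) * (n : ℝ) ^ (l - 1)) := by
        have h4 : (((ZB l m M + ((l * ((n - m) * n ^ (l - 1)) : ℕ) : ℤ)) : ℤ) : ℝ)
            = (ZB l m M : ℤ) + l * ((n - m) * (n : ℝ) ^ (l - 1)) := by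
          rw [Int.cast_add, Int.cast_natCast, Nat.cast_mul, Nat.cast_mul, Nat.cast_pow,
            Nat.cast_sub (hmN.trans hNn)]
        rw [← h4]
        exact_mod_cast h1
      have h5 : 4 * (l : ℝ) * ((cF l κ Q N j (pth M (m * N)) (tauOf _ _ _ ∅ ∅) : ℤ) : ℝ)
          = (n.descFactorial l : ℕ) - ((Z l (sgn (pth M (m * N))
            (tauOf ((l - 2) * (κ + 1)) Q (l - 2) ∅ ∅) : VF l κ Q N j → VF l κ Q N j → ℤ) : ℤ) : ℝ) := by
        exact_mod_cast h2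
      have h6 : 4 * (l : ℝ) * (l * 2 ^ l * (n : ℝ) ^ (l - 2))
          ≤ C * ((n : ℝ) ^ (l - 2) * √(n : ℝ)) := by
        calc 4 * (l : ℝ) * (l * 2 ^ l * (n : ℝ) ^ (l - 2))
            = (4 * l * (l * 2 ^ l)) * (n : ℝ) ^ (l - 2) := by ring
          _ ≤ C * (n : ℝ) ^ (l - 2) := by
              refine mul_le_mul_of_nonneg_right ?_ hnp.le
              rw [hCdef]; linarith
          _ ≤ _ := mul_le_mul_of_nonneg_left hbig (by rw [hCdef]; positivity)
      have h7 : 4 * (l : ℝ) * ((x : ℝ) + l * 2 ^ l * (n : ℝ) ^ (l - 2))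
          ≤ 4 * (l : ℝ) * ((cF l κ Q N j (pth M (m * N)) (tauOf _ _ _ ∅ ∅) : ℤ) : ℝ) := by
        rw [h5]
        linarith
      have h8 := le_of_mul_le_mul_left h7 (by positivity)
      exact_mod_cast h8)
  exact ⟨VF l κ Q N j, inferInstance, inferInstance, sgn (pth M t) τ, hcard,
    isSig_sgn (isSig_pth hM t) τ, htτ⟩

end MP_90430c
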