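import Pool.Agent.Lib.MP_90430c_co.Stmts

/-! Task T2: for even `l` the signed number of closed sequences is almost nonnegative. -/

open Finset

namespace MP_90430c

namespace EvenTr

variable {V : Type*} [Fintype V] [DecidableEq V]

/-- path products -/
def pp (σ : V → V → ℤ) : (m : ℕ) → V → (Fin m → V) → V → ℤ
  | 0, x, _, y => σ x y
  | m + 1, x, f, y => σ x (f 0) * pp σ m (f 0) (fun i => f i.succ) y

set_option linter.unusedSectionVars false in
theorem sum_pp (σ : V → V → ℤ) (m : ℕ) (x y : V) :
    ∑ f : Fin m → V, pp σ m x f y = ((Matrix.of σ) ^ (m + 1)) x y := by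
  induction m generalizing x with
  | zero =>
    simp [pp]
  | succ m ih =>
    rw [pow_succ', Matrix.mul_apply, ← (Fin.consEquiv fun _ : Fin (m + 1) => V).sum_comp,
      Fintype.sum_prod_type]
    apply sum_congr rfl
    intro z _
    rw [← ih z, mul_sum]
    apply sum_congr rfl
    intro f _
    rfl

set_option linter.unusedSectionVars false in
theorem prod_eq_pp (σ : V → V → ℤ) (m : ℕ) (f : Fin (m + 1) → V) (y : V) :
    (∏ i : Fin m, σ (f i.castSucc) (f i.succ)) * σ (f (Fin.last m)) y =
      pp σ m (f 0) (fun i => f i.succ) y := by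
  induction m with
  | zero =>
    simp [pp]
  | succ m ih =>
    rw [Fin.prod_univ_succ, mul_assoc]
    have := ih (fun i => f i.succ)
    rw [pp, ← this]
    rfl

set_option linter.unusedSectionVars false in
theorem cp_eq_pp (σ : V → V → ℤ) (m : ℕ) (f : Fin (m + 1) → V) :
    cp (m + 1) σ f = pp σ m (f 0) (fun i => f i.succ) (f 0) := by
  rw [← prod_eq_pp]
  unfold cp
  rw [Fin.prod_univ_castSucc]
  congr 1
  · apply prod_congr rfl
    intro i _
    rw [Fin.coeSucc_eq_succ]
  · rw [Fin.last_add_one]

set_option linter.unusedSectionVars false in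
theorem sum_cp (σ : V → V → ℤ) (m : ℕ) :
    ∑ f : Fin (m + 1) → V, cp (m + 1) σ f = ((Matrix.of σ) ^ (m + 1)).trace := by
  rw [← (Fin.consEquiv fun _ : Fin (m + 1) => V).sum_comp, Fintype.sum_prod_type, Matrix.trace]
  apply sum_congr rfl
  intro z _
  rw [Matrix.diag_apply, ← sum_pp]
  apply sum_congr rfl
  intro f _
  rw [cp_eq_pp]
  rfl

theorem trace_nonneg {σ : V → V → ℤ} (hσ : IsSig σ) (m : ℕ) :
    0 ≤ ((Matrix.of σ) ^ (m + m)).trace := by
  have hs : ((Matrix.of σ) ^ m).transpose = (Matrix.of σ) ^ m := by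
    rw [Matrix.transpose_pow]
    congr 1
    ext x y
    exact hσ.symm y x
  rw [pow_add, Matrix.trace]
  apply sum_nonneg
  intro x _
  rw [Matrix.diag_apply, Matrix.mul_apply]
  apply sum_nonneg
  intro y _
  have : ((Matrix.of σ) ^ m) y x = ((Matrix.of σ) ^ m) x y := by
    conv_lhs => rw [← hs]
    rfl
  rw [this]
  exact mul_self_nonneg _

theorem abs_cp {σ : V → V → ℤ} (hσ : IsSig σ) (l : ℕ) [NeZero l] (f : Fin l → V) :
    |cp l σ f| = 1 := by
  unfold cp
  rw [abs_prod]
  apply prod_eq_one
  intro i _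
  rcases hσ.val (f i) (f (i + 1)) with h | h <;> rw [h] <;> simp

theorem card_eq_le (l : ℕ) {i j : Fin l} (hij : i ≠ j) :
    ((univ : Finset (Fin l → V)).filter (fun f => f i = f j)).card ≤
      Fintype.card V ^ (l - 1) := by
  have h1 : Fintype.card ({a : Fin l // a ≠ j} → V) = Fintype.card V ^ (l - 1) := by
    rw [Fintype.card_fun]
    congr 1
    rw [Fintype.card_subtype_compl]
    simp
  rw [← h1, ← card_univ]
  apply card_le_card_of_injOn (fun f a => f a.1)
  · intro f _
    exact mem_coe.mpr (mem_univ _)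
  · intro f hf g hg h
    rw [mem_coe, mem_filter] at hf hg
    funext a
    by_cases ha : a = j
    · subst ha
      rw [← hf.2, ← hg.2]
      exact congrFun h ⟨i, hij⟩
    · exact congrFun h ⟨a, ha⟩

theorem card_not_inj (l : ℕ) :
    ((univ : Finset (Fin l → V)).filter (fun f => ¬ Function.Injective f)).card ≤
      l ^ 2 * Fintype.card V ^ (l - 1) := by
  have h1 : (univ : Finset (Fin l → V)).filter (fun f => ¬ Function.Injective f) ⊆
      ((univ : Finset (Fin l × Fin l)).filter (fun p => p.1 ≠ p.2)).biUnion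
        (fun p => univ.filter (fun f => f p.1 = f p.2)) := by
    intro f hf
    rw [mem_filter] at hf
    have := hf.2
    unfold Function.Injective at this
    push Not at this
    obtain ⟨a, b, h2, h3⟩ := this
    rw [mem_biUnion]
    exact ⟨(a, b), mem_filter.mpr ⟨mem_univ _, h3⟩, mem_filter.mpr ⟨mem_univ _, h2⟩⟩
  refine (card_le_card h1).trans ?_
  refine card_biUnion_le.trans ?_
  calc ∑ p ∈ (univ : Finset (Fin l × Fin l)).filter (fun p => p.1 ≠ p.2),
        ((univ : Finset (Fin l → V)).filter (fun f => f p.1 = f p.2)).card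
      ≤ ∑ p ∈ (univ : Finset (Fin l × Fin l)).filter (fun p => p.1 ≠ p.2),
          Fintype.card V ^ (l - 1) := by
        apply sum_le_sum
        intro p hp
        exact card_eq_le l (mem_filter.mp hp).2
    _ ≤ l ^ 2 * Fintype.card V ^ (l - 1) := by
        rw [sum_const, smul_eq_mul]
        apply Nat.mul_le_mul_right
        refine (card_filter_le _ _).trans ?_
        rw [card_univ, Fintype.card_prod, Fintype.card_fin, pow_two]

end EvenTr

open EvenTr in
theorem evenStmt : EvenStmt := by
  intro V _ _ l hne hl h4 σ hσ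
  obtain ⟨m, rfl⟩ := hl
  obtain ⟨k, hk⟩ : ∃ k, m + m = k + 1 := ⟨m + m - 1, by omega⟩
  have h1 : 0 ≤ ∑ f : Fin (m + m) → V, cp (m + m) σ f := by
    have h2 := trace_nonneg hσ m
    revert hne h2 h4
    rw [hk]
    intro hne h4 h2
    rw [sum_cp]
    exact h2
  have h2 : ∑ f : Fin (m + m) → V, cp (m + m) σ f = Z (m + m) σ +
      ∑ f ∈ (univ : Finset (Fin (m + m) → V)).filter (fun f => ¬ Function.Injective f),
        cp (m + m) σ f := by
    unfold Z inj
    rw [sum_filter_add_sum_filter_not]
  have h3 : ∑ f ∈ (univ : Finset (Fin (m + m) → V)).filter (fun f => ¬ Function.Injective f),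
        cp (m + m) σ f ≤ (((m + m) ^ 2 * Fintype.card V ^ (m + m - 1) : ℕ) : ℤ) := by
    calc ∑ f ∈ (univ : Finset (Fin (m + m) → V)).filter (fun f => ¬ Function.Injective f),
          cp (m + m) σ f
        ≤ ∑ f ∈ (univ : Finset (Fin (m + m) → V)).filter (fun f => ¬ Function.Injective f),
            (1 : ℤ) := by
          apply sum_le_sum
          intro f _
          rw [← abs_cp hσ (m + m) f]
          exact le_abs_self _
      _ = (((univ : Finset (Fin (m + m) → V)).filter
            (fun f => ¬ Function.Injective f)).card : ℤ) := by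
          rw [sum_const, nsmul_eq_mul, mul_one]
      _ ≤ _ := by
          exact_mod_cast card_not_inj (m + m)
  linarith

end MP_90430c
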