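import Pool.Agent.Lib.MP_90430c_co.Circ

/-! The number of negative circles of length four as a sum of squares. -/

open Finset

namespace MP_90430c

namespace Four

variable {V : Type*} [Fintype V] [DecidableEq V]

/-- the matrix of a signature, with zero diagonal -/
def mat (σ : V → V → ℤ) : Matrix V V ℤ := fun x y => if x = y then 0 else σ x y

/-- sum of the squares of the entries of the square off the diagonal -/
def off (A : Matrix V V ℤ) : ℤ := ∑ x, ∑ y ∈ univ.filter (fun y => x ≠ y), ((A * A) x y) ^ 2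

def e4 (V : Type*) : (Fin 4 → V) ≃ V × V × V × V where
  toFun f := (f 0, f 1, f 2, f 3)
  invFun p := ![p.1, p.2.1, p.2.2.1, p.2.2.2]
  left_inv f := by funext i; fin_cases i <;> rfl
  right_inv p := rfl

theorem inj4 (f : Fin 4 → V) : Function.Injective f ↔
    (f 0 ≠ f 1 ∧ f 0 ≠ f 2 ∧ f 0 ≠ f 3 ∧ f 1 ≠ f 2 ∧ f 1 ≠ f 3 ∧ f 2 ≠ f 3) := by
  constructor
  · intro h
    refine ⟨?_, ?_, ?_, ?_, ?_, ?_⟩ <;> intro h' <;> exact absurd (h h') (by decide)
  · rintro ⟨h1, h2, h3, h4, h5, h6⟩ i j hij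
    fin_cases i <;> fin_cases j <;> first | rfl | (simp_all)

theorem Z4_eq (σ : V → V → ℤ) : Z 4 σ = ∑ x, ∑ z, ∑ y, ∑ w,
    if (x ≠ z ∧ x ≠ y ∧ x ≠ w ∧ z ≠ y ∧ z ≠ w ∧ y ≠ w) then
      σ x z * σ z y * σ y w * σ w x else 0 := by
  have h1 : Z 4 σ = ∑ f : Fin 4 → V, if Function.Injective f then
      σ (f 0) (f 1) * σ (f 1) (f 2) * σ (f 2) (f 3) * σ (f 3) (f 0) else 0 := by
    unfold Z inj
    rw [sum_filter]
    refine sum_congr rfl fun f _ => ?_
    by_cases hf : Function.Injective f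
    · rw [if_pos hf, if_pos hf]
      unfold cp
      rw [Fin.prod_univ_four]
      rfl
    · rw [if_neg hf, if_neg hf]
  rw [h1, ← (e4 V).symm.sum_comp]
  rw [Fintype.sum_prod_type]
  refine sum_congr rfl fun x _ => ?_
  rw [Fintype.sum_prod_type]
  refine sum_congr rfl fun z _ => ?_
  rw [Fintype.sum_prod_type]
  refine sum_congr rfl fun y _ => ?_
  refine sum_congr rfl fun w _ => ?_
  simp only [inj4]
  rfl

theorem card_off (x y : V) (h : x ≠ y) :
    (∑ z : V, if (x ≠ z ∧ z ≠ y) then (1 : ℤ) else 0) = Fintype.card V - 2 := by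
  rw [← sum_filter, sum_const, nsmul_eq_mul, mul_one]
  have h1 : (univ.filter fun z : V => x ≠ z ∧ z ≠ y) = univ \ {x, y} := by
    ext z
    simp only [mem_filter, mem_univ, true_and, mem_sdiff, mem_insert, mem_singleton, not_or]
    constructor
    · rintro ⟨h1, h2⟩; exact ⟨fun h => h1 h.symm, h2⟩
    · rintro ⟨h1, h2⟩; exact ⟨fun h => h1 h.symm, h2⟩
  rw [h1, card_sdiff_of_subset (subset_univ _), card_pair h, card_univ]
  have h2 : 2 ≤ Fintype.card V := by
    have := card_le_univ ({x, y} : Finset V)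
    rwa [card_pair h] at this
  push_cast [h2]
  ring

theorem Z4_off (σ : V → V → ℤ) (hσ : IsSig σ) :
    Z 4 σ = off (mat σ) - Fintype.card V * (Fintype.card V - 1) * (Fintype.card V - 2) := by
  have key : ∀ x y : V, x ≠ y → ((mat σ * mat σ) x y) ^ 2 =
      (∑ z, ∑ w, if (x ≠ z ∧ x ≠ y ∧ x ≠ w ∧ z ≠ y ∧ z ≠ w ∧ y ≠ w) then
        σ x z * σ z y * σ y w * σ w x else 0) + (Fintype.card V - 2) := by
    intro x y hxy
    rw [← card_off x y hxy, ← sum_add_distrib, sq, Matrix.mul_apply, sum_mul]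
    refine sum_congr rfl fun z _ => ?_
    rw [mul_sum]
    have h1 : (if (x ≠ z ∧ z ≠ y) then (1 : ℤ) else 0) =
        ∑ w, if w = z then (if (x ≠ z ∧ z ≠ y) then (1 : ℤ) else 0) else 0 := by
      rw [sum_ite_eq' univ z, if_pos (mem_univ _)]
    rw [h1, ← sum_add_distrib]
    refine sum_congr rfl fun w _ => ?_
    unfold mat
    by_cases hxz : x = z
    · subst hxz; simp
    by_cases hzy : z = y
    · subst hzy; simp
    by_cases hxw : x = w
    · subst hxw
      simp [hxz]
    by_cases hwy : w = y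
    · subst hwy
      simp [hzy, Ne.symm hzy, eq_comm]
    by_cases hzw : w = z
    · subst hzw
      have e1 : σ x w * σ x w = 1 := by rcases hσ.val x w with h | h <;> rw [h] <;> norm_num
      have e2 : σ w y * σ w y = 1 := by rcases hσ.val w y with h | h <;> rw [h] <;> norm_num
      simp [hxz, hzy]
      calc σ x w * σ w y * (σ x w * σ w y) = (σ x w * σ x w) * (σ w y * σ w y) := by ring
        _ = 1 := by rw [e1, e2]; norm_num
    · have h2 : z ≠ w := fun h => hzw h.symm
      have h3 : y ≠ w := fun h => hwy h.symm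
      simp only [hxz, hzy, hxw, hwy, hzw, if_false, h2, h3, hxy, ne_eq, not_false_eq_true,
        and_self, if_true, add_zero]
      rw [hσ.symm w y, hσ.symm x w]
      ring
  unfold off
  have h2 : ∑ x : V, ∑ y ∈ univ.filter (fun y => x ≠ y), ((mat σ * mat σ) x y) ^ 2 =
      ∑ x : V, ∑ y ∈ univ.filter (fun y => x ≠ y),
      ((∑ z, ∑ w, if (x ≠ z ∧ x ≠ y ∧ x ≠ w ∧ z ≠ y ∧ z ≠ w ∧ y ≠ w) then
        σ x z * σ z y * σ y w * σ w x else 0) + ((Fintype.card V : ℤ) - 2)) := by
    refine sum_congr rfl fun x _ => sum_congr rfl fun y hy => ?_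
    exact key x y (mem_filter.mp hy).2
  rw [h2]
  have h3 : ∀ x : V, ∑ y ∈ univ.filter (fun y => x ≠ y),
      ((∑ z, ∑ w, if (x ≠ z ∧ x ≠ y ∧ x ≠ w ∧ z ≠ y ∧ z ≠ w ∧ y ≠ w) then
        σ x z * σ z y * σ y w * σ w x else 0) + ((Fintype.card V : ℤ) - 2)) =
      (∑ z, ∑ y, ∑ w, if (x ≠ z ∧ x ≠ y ∧ x ≠ w ∧ z ≠ y ∧ z ≠ w ∧ y ≠ w) then
        σ x z * σ z y * σ y w * σ w x else 0) +
      ((Fintype.card V : ℤ) - 1) * ((Fintype.card V : ℤ) - 2) := by
    intro x
    rw [sum_add_distrib, sum_const, nsmul_eq_mul]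
    have h4 : ((univ.filter (fun y : V => x ≠ y)).card : ℤ) = (Fintype.card V : ℤ) - 1 := by
      have : (univ.filter (fun y : V => x ≠ y)) = univ.erase x := by
        ext y; simp [eq_comm]
      rw [this, card_erase_of_mem (mem_univ _), card_univ]
      have : 1 ≤ Fintype.card V := Fintype.card_pos_iff.mpr ⟨x⟩
      push_cast [this]
      ring
    rw [h4]
    congr 1
    rw [sum_comm' (t' := univ) (s' := fun _ => univ.filter (fun y => x ≠ y)) (by simp)]
    refine sum_congr rfl fun z _ => ?_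
    rw [sum_filter]
    refine sum_congr rfl fun y _ => ?_
    by_cases hxy : x = y
    · subst hxy; simp
    · rw [if_pos hxy]
  rw [sum_congr rfl fun x _ => h3 x, sum_add_distrib, sum_const, nsmul_eq_mul, card_univ, Z4_eq]
  ring

end Four

end MP_90430c
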