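import Pool.Agent.Lib.MP_90430c_co.Four

/-! Upper bounds for the number of negative circles of length four. -/

open Finset

namespace MP_90430c

namespace Four

variable {V : Type*} [Fintype V] [DecidableEq V]

theorem sum_mod_four {ι : Type*} (s : Finset ι) (f : ι → ℤ) (hf : ∀ i ∈ s, f i = 1 ∨ f i = -1) :
    ∃ k : ℤ, ∑ i ∈ s, f i = s.card - 1 + ∏ i ∈ s, f i + 4 * k ∧
      (∏ i ∈ s, f i = 1 ∨ ∏ i ∈ s, f i = -1) := by
  classical
  induction s using Finset.induction_on with
  | empty => exact ⟨0, by simp, Or.inl (by simp)⟩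
  | insert a s ha ih =>
    obtain ⟨k, hk, hp⟩ := ih fun i hi => hf i (mem_insert_of_mem hi)
    rw [sum_insert ha, prod_insert ha, card_insert_of_notMem ha, hk]
    rcases hf a (mem_insert_self _ _) with h | h <;> rcases hp with h' | h' <;> rw [h, h']
    · exact ⟨k, by push_cast; ring, Or.inl (by norm_num)⟩
    · exact ⟨k, by push_cast; ring, Or.inr (by norm_num)⟩
    · exact ⟨k, by push_cast; ring, Or.inr (by norm_num)⟩
    · exact ⟨k - 1, by push_cast; ring, Or.inl (by norm_num)⟩

/-- the product of a row -/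
def rowP (σ : V → V → ℤ) (x : V) : ℤ := ∏ z ∈ univ.erase x, σ x z

theorem sq_entry (σ : V → V → ℤ) (x y : V) :
    (mat σ * mat σ) x y = ∑ z ∈ (univ.erase x).erase y, σ x z * σ z y := by
  rw [Matrix.mul_apply]
  unfold mat
  rw [← sum_subset (subset_univ ((univ.erase x).erase y))]
  · refine sum_congr rfl fun z hz => ?_
    rw [mem_erase, mem_erase] at hz
    rw [if_neg (Ne.symm hz.2.1), if_neg hz.1]
  · intro z _ hz
    rw [mem_erase, mem_erase] at hz
    by_cases h1 : z = y
    · subst h1; simp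
    · have h2 : z = x := by
        by_contra h3
        exact hz ⟨h1, h3, mem_univ _⟩
      subst h2; simp

theorem rowP_val (σ : V → V → ℤ) (hσ : IsSig σ) (x : V) : rowP σ x = 1 ∨ rowP σ x = -1 :=
  (sum_mod_four (univ.erase x) (fun z => σ x z) fun z _ => hσ.val x z).choose_spec.2

theorem entry_mod (σ : V → V → ℤ) (hσ : IsSig σ) {x y : V} (hxy : x ≠ y) :
    ∃ k : ℤ, (mat σ * mat σ) x y = Fintype.card V - 3 + rowP σ x * rowP σ y + 4 * k := by
  obtain ⟨k, hk, -⟩ := sum_mod_four ((univ.erase x).erase y) (fun z => σ x z * σ z y) (by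
    intro z _
    rcases hσ.val x z with h | h <;> rcases hσ.val z y with h' | h' <;> simp [h, h'])
  refine ⟨k, ?_⟩
  rw [sq_entry, hk, prod_mul_distrib]
  have hy : y ∈ univ.erase x := mem_erase.mpr ⟨Ne.symm hxy, mem_univ _⟩
  have hx : x ∈ univ.erase y := mem_erase.mpr ⟨hxy, mem_univ _⟩
  have h1 : rowP σ x = σ x y * ∏ z ∈ (univ.erase x).erase y, σ x z := by
    unfold rowP
    rw [mul_prod_erase _ _ hy]
  have h2 : rowP σ y = σ x y * ∏ z ∈ (univ.erase x).erase y, σ z y := by
    unfold rowP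
    rw [← mul_prod_erase _ _ hx, hσ.symm y x, erase_right_comm]
    congr 1
    refine prod_congr rfl fun z _ => hσ.symm y z
  have h3 : (((univ.erase x).erase y).card : ℤ) = Fintype.card V - 2 := by
    rw [card_erase_of_mem hy, card_erase_of_mem (mem_univ _), card_univ]
    have h2 : 2 ≤ Fintype.card V := by
      have := card_le_univ ({x, y} : Finset V)
      rwa [card_pair hxy] at this
    have : Fintype.card V - 1 - 1 = Fintype.card V - 2 := by omega
    rw [this]
    push_cast [h2]
    ring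
  have h4 : σ x y * σ x y = 1 := by rcases hσ.val x y with h | h <;> rw [h] <;> norm_num
  rw [h1, h2, h3]
  have h5 : σ x y * (∏ z ∈ (univ.erase x).erase y, σ x z) *
      (σ x y * ∏ z ∈ (univ.erase x).erase y, σ z y) =
      (σ x y * σ x y) * ((∏ z ∈ (univ.erase x).erase y, σ x z) *
        ∏ z ∈ (univ.erase x).erase y, σ z y) := by ring
  rw [h5, h4]
  ring

theorem off_nonneg (A : Matrix V V ℤ) : 0 ≤ off A := by
  unfold off
  exact sum_nonneg fun x _ => sum_nonneg fun y _ => sq_nonneg _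

theorem off_const (c : ℤ) :
    ∑ x : V, ∑ _y ∈ univ.filter (fun y => x ≠ y), c =
      c * (Fintype.card V * (Fintype.card V - 1)) := by
  have h4 : ∀ x : V, ((univ.filter (fun y : V => x ≠ y)).card : ℤ) = (Fintype.card V : ℤ) - 1 := by
    intro x
    have : (univ.filter (fun y : V => x ≠ y)) = univ.erase x := by
      ext y; simp [eq_comm]
    rw [this, card_erase_of_mem (mem_univ _), card_univ]
    have : 1 ≤ Fintype.card V := Fintype.card_pos_iff.mpr ⟨x⟩
    push_cast [this]
    ring
  simp only [sum_const, nsmul_eq_mul, h4, card_univ]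
  ring

theorem off_odd (σ : V → V → ℤ) (hσ : IsSig σ) (hn : Odd (Fintype.card V)) :
    (Fintype.card V : ℤ) * (Fintype.card V - 1) ≤ off (mat σ) := by
  rw [← one_mul ((Fintype.card V : ℤ) * (Fintype.card V - 1)), ← off_const (V := V) 1]
  unfold off
  refine sum_le_sum fun x _ => sum_le_sum fun y hy => ?_
  obtain ⟨k, hk⟩ := entry_mod σ hσ (mem_filter.mp hy).2
  obtain ⟨m, hm⟩ := hn
  have h0 : (mat σ * mat σ) x y ≠ 0 := by
    rw [hk, hm]
    rcases rowP_val σ hσ x with h | h <;> rcases rowP_val σ hσ y with h' | h' <;>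
      rw [h, h'] <;> push_cast <;> omega
  have := Int.one_le_abs h0
  nlinarith [sq_abs ((mat σ * mat σ) x y)]

theorem sum_off_mul (r : V → ℤ) (hr : ∀ x, r x * r x = 1) :
    ∑ x : V, ∑ y ∈ univ.filter (fun y => x ≠ y), r x * r y =
      (∑ x, r x) ^ 2 - Fintype.card V := by
  have h1 : ∀ x : V, ∑ y ∈ univ.filter (fun y => x ≠ y), r x * r y = r x * (∑ y, r y) - 1 := by
    intro x
    have : (univ.filter (fun y : V => x ≠ y)) = univ.erase x := by
      ext y; simp [eq_comm]
    rw [this, mul_sum, ← add_sum_erase univ (fun y => r x * r y) (mem_univ x), hr x]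
    ring
  rw [sum_congr rfl fun x _ => h1 x, sum_sub_distrib, ← sum_mul, sum_const, nsmul_eq_mul,
    card_univ]
  ring

theorem off_four (σ : V → V → ℤ) (hσ : IsSig σ) (hn : Fintype.card V % 4 = 0) :
    2 * (Fintype.card V : ℤ) * (Fintype.card V - 2) ≤ off (mat σ) := by
  have h1 : ∀ x y : V, x ≠ y → 2 + 2 * (rowP σ x * rowP σ y) ≤ ((mat σ * mat σ) x y) ^ 2 := by
    intro x y hxy
    obtain ⟨k, hk⟩ := entry_mod σ hσ hxy
    have h3 : rowP σ x * rowP σ y = 1 ∨ rowP σ x * rowP σ y = -1 := by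
      rcases rowP_val σ hσ x with h | h <;> rcases rowP_val σ hσ y with h' | h' <;> simp [h, h']
    rcases h3 with h3 | h3
    · rw [h3] at hk ⊢
      set a := (mat σ * mat σ) x y
      have h4 : a ≤ -2 ∨ 2 ≤ a := by omega
      rcases h4 with h4 | h4 <;> nlinarith
    · rw [h3]
      norm_num
      exact sq_nonneg _
  have h2 : ∑ x : V, ∑ y ∈ univ.filter (fun y => x ≠ y), (2 + 2 * (rowP σ x * rowP σ y)) ≤
      off (mat σ) := by
    unfold off
    exact sum_le_sum fun x _ => sum_le_sum fun y hy => h1 x y (mem_filter.mp hy).2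
  have h3 : ∑ x : V, ∑ y ∈ univ.filter (fun y => x ≠ y), (2 + 2 * (rowP σ x * rowP σ y)) =
      2 * (Fintype.card V * (Fintype.card V - 1)) +
        2 * ((∑ x, rowP σ x) ^ 2 - Fintype.card V) := by
    rw [← off_const (V := V) 2, ← sum_off_mul (rowP σ), mul_sum, ← sum_add_distrib]
    · refine sum_congr rfl fun x _ => ?_
      rw [mul_sum, ← sum_add_distrib]
    · intro x
      rcases rowP_val σ hσ x with h | h <;> rw [h] <;> norm_num
  rw [h3] at h2
  nlinarith [sq_nonneg (∑ x, rowP σ x)]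

end Four

end MP_90430c
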