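import Pool.Agent.Lib.MP_90430c_co.FourB

/-! Symmetric conference matrices, bordered matrices and the matrices of Paley. -/

open Finset

namespace MP_90430c

/-- `C` is a symmetric conference matrix of order `m`. -/
def IsConf (m : ℕ) (C : Matrix (Fin m) (Fin m) ℤ) : Prop :=
  C.IsSymm ∧ (∀ i, C i i = 0) ∧ (∀ i j, i ≠ j → C i j = 1 ∨ C i j = -1) ∧
    C * C = ((m : ℤ) - 1) • (1 : Matrix (Fin m) (Fin m) ℤ)

namespace Four

variable {V : Type*} [Fintype V] [DecidableEq V]

/-- symmetric conference matrix on a type -/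
def ConfOn (C : Matrix V V ℤ) : Prop :=
  C.IsSymm ∧ (∀ i, C i i = 0) ∧ (∀ i j, i ≠ j → C i j = 1 ∨ C i j = -1) ∧
    C * C = ((Fintype.card V : ℤ) - 1) • (1 : Matrix V V ℤ)

theorem conf_transfer {m : ℕ} (hm : Fintype.card V = m) {C : Matrix V V ℤ} (hC : ConfOn C) :
    ∃ D, IsConf m D := by
  obtain ⟨e⟩ : Nonempty (Fin m ≃ V) := ⟨(Fintype.equivFinOfCardEq hm).symm⟩
  obtain ⟨h1, h2, h3, h4⟩ := hC
  refine ⟨C.submatrix e e, ?_, fun i => h2 _, fun i j hij => h3 _ _ (e.injective.ne hij), ?_⟩
  · ext i j
    exact congrFun (congrFun h1 (e i)) (e j)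
  · rw [Matrix.submatrix_mul_equiv, h4, hm]
    ext i j
    rw [Matrix.submatrix_apply, Matrix.smul_apply, Matrix.smul_apply, Matrix.one_apply,
      Matrix.one_apply]
    simp only [e.injective.eq_iff]

/-- the matrix `A` bordered by `R` -/
def border (A : Matrix V V ℤ) (R : V → ℤ) : Matrix (Option V) (Option V) ℤ
  | none, none => 0
  | none, some y => R y
  | some x, none => R x
  | some x, some y => A x y

theorem border_conf (A : Matrix V V ℤ) (R : V → ℤ) (hA : A.IsSymm) (h0 : ∀ i, A i i = 0)
    (h1 : ∀ i j, i ≠ j → A i j = 1 ∨ A i j = -1) (hR : ∀ i, R i = 1 ∨ R i = -1)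
    (h2 : ∀ x, (A * A) x x = Fintype.card V - 1)
    (h3 : ∀ x y, x ≠ y → (A * A) x y = - (R x * R y))
    (h4 : ∀ x, ∑ z, A x z * R z = 0) : ConfOn (border A R) := by
  have hs : ∀ x y, A x y = A y x := fun x y => congrFun (congrFun hA y) x
  have hRR : ∀ x, R x * R x = 1 := fun x => by rcases hR x with h | h <;> rw [h] <;> norm_num
  refine ⟨?_, ?_, ?_, ?_⟩
  · ext i j
    rcases i with _ | i <;> rcases j with _ | j
    · rfl
    · rfl
    · rfl
    · exact hs j i
  · intro i
    rcases i with _ | i
    · rfl
    · exact h0 i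
  · intro i j hij
    rcases i with _ | i <;> rcases j with _ | j
    · exact absurd rfl hij
    · exact hR j
    · exact hR i
    · exact h1 i j fun h => hij (by rw [h])
  · rw [Fintype.card_option]
    push_cast
    rw [add_sub_cancel_right]
    ext i j
    rw [Matrix.mul_apply, Fintype.sum_option]
    rcases i with _ | i <;> rcases j with _ | j
    · show (0 : ℤ) * 0 + ∑ z, R z * R z = _
      rw [sum_congr rfl fun z _ => hRR z]
      simp
    · show (0 : ℤ) * R j + ∑ z, R z * A z j = _
      have : ∑ z, R z * A z j = 0 := by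
        rw [← h4 j]
        refine sum_congr rfl fun z _ => ?_
        rw [hs z j]; ring
      rw [this]
      simp
    · show R i * 0 + ∑ z, A i z * R z = _
      rw [h4 i]
      simp
    · show R i * R j + ∑ z, A i z * A z j = _
      rw [← Matrix.mul_apply]
      by_cases hij : i = j
      · subst hij
        rw [hRR, h2]
        simp
      · rw [h3 i j hij]
        have : (some i : Option V) ≠ some j := fun h => hij (Option.some.inj h)
        simp [Matrix.one_apply_ne this]

end Four

section paley

variable {F : Type*} [Field F] [Fintype F] [DecidableEq F]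

theorem paley_sum (hF : ringChar F ≠ 2) (h4 : Fintype.card F % 4 = 1) {x y : F} (hxy : x ≠ y) :
    ∑ z : F, quadraticChar F (x - z) * quadraticChar F (z - y) = -1 := by
  have h1 : quadraticChar F (-1) = 1 := by
    rw [quadraticChar_one_iff_isSquare (neg_ne_zero.mpr one_ne_zero)]
    exact FiniteField.isSquare_neg_one_iff.mpr (by omega)
  have hJ := jacobiSum_nontrivial_inv (quadraticChar_ne_one hF)
  rw [(quadraticChar_isQuadratic F).inv, h1] at hJ
  unfold jacobiSum at hJ
  rw [← hJ]
  have hd : x - y ≠ 0 := sub_ne_zero.mpr hxy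
  -- z = y + (x - y) t
  rw [← (Equiv.trans (Equiv.mulLeft₀ (x - y) hd) (Equiv.addLeft y)).sum_comp]
  refine sum_congr rfl fun t _ => ?_
  have e1 : x - (y + (x - y) * t) = (x - y) * (1 - t) := by ring
  have e2 : y + (x - y) * t - y = (x - y) * t := by ring
  show quadraticChar F (x - (y + (x - y) * t)) * quadraticChar F (y + (x - y) * t - y) = _
  rw [e1, e2, map_mul, map_mul]
  have e3 : quadraticChar F (x - y) ^ 2 = 1 := quadraticChar_sq_one hd
  linear_combination (quadraticChar F (1 - t) * quadraticChar F t) * e3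

theorem paley_conf (hF : ringChar F ≠ 2) (h4 : Fintype.card F % 4 = 1) :
    Four.ConfOn (Four.border (fun x y : F => quadraticChar F (x - y)) fun _ => 1) := by
  have h1 : quadraticChar F (-1) = 1 := by
    rw [quadraticChar_one_iff_isSquare (neg_ne_zero.mpr one_ne_zero)]
    exact FiniteField.isSquare_neg_one_iff.mpr (by omega)
  have hs : ∀ x y : F, quadraticChar F (y - x) = quadraticChar F (x - y) := by
    intro x y
    have : y - x = (-1) * (x - y) := by ring
    rw [this, map_mul, h1, one_mul]
  apply Four.border_conf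
  · ext x y
    exact hs x y
  · intro i
    simp
  · intro i j hij
    exact quadraticChar_dichotomy (sub_ne_zero.mpr hij)
  · intro _; left; rfl
  · intro x
    rw [Matrix.mul_apply]
    have h2 : ∀ z ∈ univ.erase x, quadraticChar F (x - z) * quadraticChar F (z - x) = 1 := by
      intro z hz
      have hz' : x - z ≠ 0 := sub_ne_zero.mpr (Ne.symm (mem_erase.mp hz).1)
      rw [hs x z, ← sq]
      exact quadraticChar_sq_one hz'
    rw [← add_sum_erase univ _ (mem_univ x), sum_congr rfl h2, sum_const, nsmul_eq_mul,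
      card_erase_of_mem (mem_univ _), card_univ]
    have : 1 ≤ Fintype.card F := Fintype.card_pos
    push_cast [this]
    simp
  · intro x y hxy
    rw [Matrix.mul_apply, paley_sum hF h4 hxy]
    norm_num
  · intro x
    have : ∑ z : F, quadraticChar F (x - z) = ∑ a : F, quadraticChar F a :=
      (Equiv.subLeft x).sum_comp fun a => quadraticChar F a
    simp only [mul_one]
    rw [this]
    exact quadraticChar_sum_zero hF

end paley

theorem exists_conf_of_prime_pow {q : ℕ} (hq : IsPrimePow q) (h4 : q % 4 = 1) :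
    ∃ C, IsConf (q + 1) C := by
  classical
  obtain ⟨p, k, hp, hk, rfl⟩ := (isPrimePow_nat_iff _).mp hq
  have : Fact p.Prime := ⟨hp⟩
  let F := GaloisField p k
  have : Fintype F := Fintype.ofFinite F
  have hc : Fintype.card F = p ^ k := by
    rw [Fintype.card_eq_nat_card]
    exact GaloisField.card p k hk.ne'
  have hF : ringChar F ≠ 2 := by
    have h1 : ringChar F = p := ringChar.eq F p
    rw [h1]
    rintro rfl
    have : (2 : ℕ) ∣ 2 ^ k := dvd_pow_self 2 hk.ne'
    omega
  apply Four.conf_transfer (V := Option F) (by rw [Fintype.card_option, hc])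
  exact paley_conf hF (by rw [hc]; exact h4)

end MP_90430c
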