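import Pool.Agent.Lib.MP_90430c_co.FourC

/-! The largest number of negative circles of length four. -/

open Finset

namespace MP_90430c

namespace Four

variable {n : ℕ}

/-- the signature as a matrix of integers -/
def sg (τ : Sym2 (Fin n) → ℤˣ) : Fin n → Fin n → ℤ := fun x y => ((τ s(x, y) : ℤˣ) : ℤ)

theorem isSig_sg (τ : Sym2 (Fin n) → ℤˣ) : IsSig (sg τ) where
  symm x y := by unfold sg; rw [Sym2.eq_swap]
  val x y := by
    unfold sg
    rcases Int.units_eq_one_or (τ s(x, y)) with h | h <;> rw [h] <;> simp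

theorem formula (hn : 4 ≤ n) (τ : Sym2 (Fin n) → ℤˣ) :
    16 * (negCircles n 4 τ : ℤ) + off (mat (sg τ)) = n * (n - 1) * (n - 2) ^ 2 := by
  have h1 := circStmt n 4 (by norm_num) τ
  have h2 := Z4_off (sg τ) (isSig_sg τ)
  rw [Fintype.card_fin] at h2
  obtain ⟨m, rfl⟩ := Nat.exists_eq_add_of_le hn
  have h3 : (((4 + m).descFactorial 4 : ℕ) : ℤ) =
      ((4 + m : ℕ) : ℤ) * ((4 + m : ℕ) - 1) * ((4 + m : ℕ) - 2) * ((4 + m : ℕ) - 3) := by
    rw [show 4 + m = m + 4 by ring]
    simp only [Nat.descFactorial, Nat.add_sub_cancel]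
    have e1 : m + 4 - 3 = m + 1 := by omega
    have e2 : m + 4 - 2 = m + 2 := by omega
    have e3 : m + 4 - 1 = m + 3 := by omega
    rw [e1, e2, e3]
    push_cast
    ring
  rw [h3] at h1
  have h4 : Z 4 (fun x y => ((τ s(x, y) : ℤˣ) : ℤ)) = Z 4 (sg τ) := rfl
  rw [h4, h2] at h1
  push_cast at h1 ⊢
  linear_combination h1

theorem exists_sig (A : Matrix (Fin n) (Fin n) ℤ) (hA : A.IsSymm) (h0 : ∀ i, A i i = 0)
    (h1 : ∀ i j, i ≠ j → A i j = 1 ∨ A i j = -1) :
    ∃ τ : Sym2 (Fin n) → ℤˣ, mat (sg τ) = A := by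
  have hs : ∀ x y, A x y = A y x := fun x y => congrFun (congrFun hA y) x
  refine ⟨fun e => Sym2.lift ⟨fun x y => if A x y = -1 then (-1 : ℤˣ) else 1, ?_⟩ e, ?_⟩
  · intro x y
    simp only [hs x y]
  · ext x y
    unfold mat sg
    by_cases hxy : x = y
    · subst hxy
      rw [if_pos rfl, h0]
    · rw [if_neg hxy]
      simp only [Sym2.lift_mk]
      rcases h1 x y hxy with h | h <;> simp [h]

theorem diag (σ : Fin n → Fin n → ℤ) (hσ : IsSig σ) (x : Fin n) :
    (mat σ * mat σ) x x = n - 1 := by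
  rw [sq_entry]
  have h1 : ((univ : Finset (Fin n)).erase x).erase x = univ.erase x := by
    rw [erase_idem]
  have h2 : ∀ z ∈ univ.erase x, σ x z * σ z x = 1 := by
    intro z _
    rw [hσ.symm z x]
    rcases hσ.val x z with h | h <;> rw [h] <;> norm_num
  rw [h1, sum_congr rfl h2, sum_const, nsmul_eq_mul, card_erase_of_mem (mem_univ _), card_univ,
    Fintype.card_fin]
  have : 1 ≤ n := by have := x.2; omega
  push_cast [this]
  ring

theorem mat_symm (σ : Fin n → Fin n → ℤ) (hσ : IsSig σ) : (mat σ).IsSymm := by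
  ext x y
  show mat σ y x = mat σ x y
  unfold mat
  by_cases h : x = y
  · subst h; rfl
  · rw [if_neg h, if_neg (Ne.symm h), hσ.symm]

theorem mat_diag (σ : Fin n → Fin n → ℤ) (x : Fin n) : mat σ x x = 0 := by
  unfold mat; rw [if_pos rfl]

theorem mat_val (σ : Fin n → Fin n → ℤ) (hσ : IsSig σ) (x y : Fin n) (h : x ≠ y) :
    mat σ x y = 1 ∨ mat σ x y = -1 := by
  unfold mat; rw [if_neg h]; exact hσ.val x y

/-- equality for `n = 2 mod 4` means a conference matrix -/
theorem conf_of_off (σ : Fin n → Fin n → ℤ) (hσ : IsSig σ) (h : off (mat σ) = 0) :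
    IsConf n (mat σ) := by
  refine ⟨mat_symm σ hσ, mat_diag σ, mat_val σ hσ, ?_⟩
  ext x y
  by_cases hxy : x = y
  · subst hxy
    rw [diag σ hσ]
    simp
  · have h1 : ∀ x ∈ (univ : Finset (Fin n)), ∑ y ∈ univ.filter (fun y => x ≠ y),
        ((mat σ * mat σ) x y) ^ 2 = 0 :=
      (sum_eq_zero_iff_of_nonneg fun x _ => sum_nonneg fun y _ => sq_nonneg _).mp h
    have h2 := (sum_eq_zero_iff_of_nonneg fun y _ => sq_nonneg _).mp (h1 x (mem_univ x)) y
      (mem_filter.mpr ⟨mem_univ _, hxy⟩)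
    have h3 : (mat σ * mat σ) x y = 0 := by
      exact pow_eq_zero_iff (two_ne_zero) |>.mp h2
    rw [h3]
    simp [Matrix.one_apply_ne hxy]

theorem off_conf {C : Matrix (Fin n) (Fin n) ℤ} (hC : IsConf n C) : off C = 0 := by
  unfold off
  refine sum_eq_zero fun x _ => sum_eq_zero fun y hy => ?_
  rw [hC.2.2.2]
  simp [Matrix.one_apply_ne (mem_filter.mp hy).2]

/-- deleting one vertex of a conference matrix -/
theorem del_one {C : Matrix (Fin (n + 1)) (Fin (n + 1)) ℤ} (hC : IsConf (n + 1) C)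
    (x y : Fin n) :
    (C.submatrix Fin.castSucc Fin.castSucc * C.submatrix Fin.castSucc Fin.castSucc) x y =
      (if x = y then (n : ℤ) else 0) - C x.castSucc (Fin.last n) * C y.castSucc (Fin.last n) := by
  have h1 := congrFun (congrFun hC.2.2.2 x.castSucc) y.castSucc
  rw [Matrix.mul_apply, Fin.sum_univ_castSucc] at h1
  rw [Matrix.mul_apply]
  simp only [Matrix.submatrix_apply]
  have h2 : C (Fin.last n) y.castSucc = C y.castSucc (Fin.last n) :=
    congrFun (congrFun hC.1 y.castSucc) (Fin.last n)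
  rw [h2] at h1
  have h3 : (((n + 1 : ℕ) : ℤ) - 1) • (1 : Matrix (Fin (n + 1)) (Fin (n + 1)) ℤ) = (n : ℤ) • 1 := by
    push_cast; rw [add_sub_cancel_right]
  rw [h3, Matrix.smul_apply, Matrix.one_apply] at h1
  simp only [Fin.castSucc_inj, smul_eq_mul, mul_ite, mul_one, mul_zero] at h1
  linarith

theorem off_del_one {C : Matrix (Fin (n + 1)) (Fin (n + 1)) ℤ} (hC : IsConf (n + 1) C) :
    off (C.submatrix Fin.castSucc Fin.castSucc) = n * (n - 1) := by
  have h1 : off (C.submatrix Fin.castSucc Fin.castSucc) =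
      ∑ x : Fin n, ∑ _y ∈ univ.filter (fun y => x ≠ y), (1 : ℤ) := by
    unfold off
    refine sum_congr rfl fun x _ => sum_congr rfl fun y hy => ?_
    rw [del_one hC, if_neg (mem_filter.mp hy).2]
    rcases hC.2.2.1 x.castSucc (Fin.last n) (Fin.castSucc_lt_last x).ne with h | h <;>
      rcases hC.2.2.1 y.castSucc (Fin.last n) (Fin.castSucc_lt_last y).ne with h' | h' <;>
      rw [h, h'] <;> norm_num
  rw [h1, off_const, Fintype.card_fin]
  ring

theorem sub_props {m : ℕ} {C : Matrix (Fin m) (Fin m) ℤ} (hC : IsConf m C) (e : Fin n ↪ Fin m) :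
    (C.submatrix e e).IsSymm ∧ (∀ i, (C.submatrix e e) i i = 0) ∧
      (∀ i j, i ≠ j → (C.submatrix e e) i j = 1 ∨ (C.submatrix e e) i j = -1) := by
  refine ⟨?_, fun i => hC.2.1 _, fun i j h => hC.2.2.1 _ _ (e.injective.ne h)⟩
  ext i j
  exact congrFun (congrFun hC.1 (e i)) (e j)

/-- deleting two vertices of a conference matrix -/
theorem off_del_two {C : Matrix (Fin (n + 1 + 1)) (Fin (n + 1 + 1)) ℤ}
    (hC : IsConf (n + 1 + 1) C) :
    off ((C.submatrix Fin.castSucc Fin.castSucc).submatrix Fin.castSucc Fin.castSucc :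
      Matrix (Fin n) (Fin n) ℤ) = 2 * n * (n - 2) := by
  set A := C.submatrix Fin.castSucc Fin.castSucc with hA
  set D : Matrix (Fin n) (Fin n) ℤ := A.submatrix Fin.castSucc Fin.castSucc with hD
  set r : Fin n → ℤ := fun x => A x.castSucc (Fin.last n) with hr
  set t : Fin n → ℤ := fun x => C x.castSucc.castSucc (Fin.last (n + 1)) with ht
  have hsA : ∀ x y, A x y = A y x := fun x y =>
    congrFun (congrFun (sub_props hC Fin.castSuccEmb).1 y) x
  have hr1 : ∀ x, r x = 1 ∨ r x = -1 := fun x =>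
    hC.2.2.1 _ _ (by
      intro h
      exact (Fin.castSucc_lt_last x).ne (Fin.castSucc_injective _ h))
  have ht1 : ∀ x, t x = 1 ∨ t x = -1 := fun x => hC.2.2.1 _ _ (Fin.castSucc_lt_last _).ne
  have h1 : ∀ x y : Fin n, x ≠ y → (D * D) x y = - (r x * r y + t x * t y) := by
    intro x y hxy
    have h2 := del_one hC x.castSucc y.castSucc
    rw [Matrix.mul_apply, Fin.sum_univ_castSucc, if_neg (by simpa using hxy)] at h2
    rw [Matrix.mul_apply]
    have h3 : A (Fin.last n) y.castSucc = A y.castSucc (Fin.last n) := hsA _ _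
    have h4 : ∑ i : Fin n, A x.castSucc i.castSucc * A i.castSucc y.castSucc +
        A x.castSucc (Fin.last n) * A (Fin.last n) y.castSucc = 0 - t x * t y := h2
    rw [h3] at h4
    show ∑ i : Fin n, A x.castSucc i.castSucc * A i.castSucc y.castSucc = _
    linear_combination h4
  have h5 : ∑ x, r x * t x = 0 := by
    have h6 := congrFun (congrFun hC.2.2.2 (Fin.last n).castSucc) (Fin.last (n + 1))
    rw [Matrix.mul_apply, Fin.sum_univ_castSucc, Fin.sum_univ_castSucc] at h6
    have h7 : (Fin.last n).castSucc ≠ Fin.last (n + 1) := (Fin.castSucc_lt_last _).ne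
    rw [Matrix.smul_apply, Matrix.one_apply_ne h7, hC.2.1, hC.2.1] at h6
    simp only [mul_zero, zero_mul, add_zero, smul_zero] at h6
    rw [← h6]
    refine sum_congr rfl fun x _ => ?_
    have h8 : r x = C (Fin.last n).castSucc x.castSucc.castSucc :=
      congrFun (congrFun hC.1 (Fin.last n).castSucc) x.castSucc.castSucc
    rw [h8]
  have h9 : off D = ∑ x : Fin n, ∑ y ∈ univ.filter (fun y => x ≠ y),
      (2 + 2 * ((r x * t x) * (r y * t y))) := by
    unfold off
    refine sum_congr rfl fun x _ => sum_congr rfl fun y hy => ?_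
    rw [h1 x y (mem_filter.mp hy).2]
    rcases hr1 x with a | a <;> rcases hr1 y with b | b <;> rcases ht1 x with c | c <;>
      rcases ht1 y with d | d <;> rw [a, b, c, d] <;> norm_num
  rw [h9]
  have h10 : ∀ x, (r x * t x) * (r x * t x) = 1 := by
    intro x
    rcases hr1 x with a | a <;> rcases ht1 x with c | c <;> rw [a, c] <;> norm_num
  have h11 := sum_off_mul (fun x => r x * t x) h10
  rw [h5] at h11
  have h12 := off_const (V := Fin n) 2
  have h13 : ∑ x : Fin n, ∑ y ∈ univ.filter (fun y => x ≠ y),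
      (2 + 2 * ((r x * t x) * (r y * t y))) =
      ∑ x : Fin n, ∑ _y ∈ univ.filter (fun y => x ≠ y), (2 : ℤ) +
      2 * ∑ x : Fin n, ∑ y ∈ univ.filter (fun y => x ≠ y), (r x * t x) * (r y * t y) := by
    rw [mul_sum, ← sum_add_distrib]
    refine sum_congr rfl fun x _ => ?_
    rw [mul_sum, ← sum_add_distrib]
  rw [h13, h12, h11, Fintype.card_fin]
  ring

/-- equality for `n = 1 mod 4` means a conference matrix of order `n + 1` -/
theorem conf_of_off_one (σ : Fin n → Fin n → ℤ) (hσ : IsSig σ) (hn : n % 4 = 1)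
    (h : off (mat σ) = n * (n - 1)) : ∃ C, IsConf (n + 1) C := by
  have hodd : Odd (Fintype.card (Fin n)) := by
    rw [Fintype.card_fin, Nat.odd_iff]; omega
  have hge : ∀ x y : Fin n, x ≠ y → 1 ≤ ((mat σ * mat σ) x y) ^ 2 := by
    intro x y hxy
    obtain ⟨k, hk⟩ := entry_mod σ hσ hxy
    have h0 : (mat σ * mat σ) x y ≠ 0 := by
      rw [hk, Fintype.card_fin]
      obtain ⟨m, hm⟩ : ∃ m, n = 4 * m + 1 := ⟨n / 4, by omega⟩
      rcases rowP_val σ hσ x with h | h <;> rcases rowP_val σ hσ y with h' | h' <;>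
        rw [h, h'] <;> omega
    have := Int.one_le_abs h0
    nlinarith [sq_abs ((mat σ * mat σ) x y)]
  have hsum : ∑ x : Fin n, ∑ y ∈ univ.filter (fun y => x ≠ y),
      (((mat σ * mat σ) x y) ^ 2 - 1) = 0 := by
    have h1 : ∑ x : Fin n, ∑ y ∈ univ.filter (fun y => x ≠ y),
        (((mat σ * mat σ) x y) ^ 2 - 1) = off (mat σ) -
        ∑ x : Fin n, ∑ _y ∈ univ.filter (fun y => x ≠ y), (1 : ℤ) := by
      unfold off
      rw [← sum_sub_distrib]
      refine sum_congr rfl fun x _ => ?_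
      rw [← sum_sub_distrib]
    rw [h1, off_const, h, Fintype.card_fin]
    ring
  have hnn : ∀ x y : Fin n, y ∈ univ.filter (fun y => x ≠ y) →
      0 ≤ ((mat σ * mat σ) x y) ^ 2 - 1 := fun x y hy => by
    have := hge x y (mem_filter.mp hy).2
    linarith
  have heq : ∀ x y : Fin n, x ≠ y → (mat σ * mat σ) x y = - (rowP σ x * rowP σ y) := by
    intro x y hxy
    have h1 := (sum_eq_zero_iff_of_nonneg fun x _ => sum_nonneg (hnn x)).mp hsum x (mem_univ _)
    have h2 := (sum_eq_zero_iff_of_nonneg (hnn x)).mp h1 y (mem_filter.mpr ⟨mem_univ _, hxy⟩)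
    have h3 : (mat σ * mat σ) x y = 1 ∨ (mat σ * mat σ) x y = -1 := by
      have h4 : ((mat σ * mat σ) x y - 1) * ((mat σ * mat σ) x y + 1) = 0 := by
        have : ((mat σ * mat σ) x y) ^ 2 = 1 := by linarith
        linear_combination this
      rcases mul_eq_zero.mp h4 with h5 | h5
      · left; linarith
      · right; linarith
    obtain ⟨k, hk⟩ := entry_mod σ hσ hxy
    rw [Fintype.card_fin] at hk
    obtain ⟨m, hm⟩ : ∃ m, n = 4 * m + 1 := ⟨n / 4, by omega⟩
    have hm' : (n : ℤ) = 4 * m + 1 := by rw [hm]; push_cast; ring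
    rw [hm'] at hk
    have h4 : rowP σ x * rowP σ y = 1 ∨ rowP σ x * rowP σ y = -1 := by
      rcases rowP_val σ hσ x with h | h <;> rcases rowP_val σ hσ y with h' | h' <;> simp [h, h']
    rcases h3 with h3 | h3 <;> rcases h4 with h4 | h4 <;> rw [h3, h4] at hk <;>
      rw [h3, h4] <;> omega
  have hRR : ∀ x, rowP σ x * rowP σ x = 1 := fun x => by
    rcases rowP_val σ hσ x with h | h <;> rw [h] <;> norm_num
  have hAA : ∀ x y, (mat σ * mat σ) x y =
      (if x = y then (n : ℤ) else 0) - rowP σ x * rowP σ y := by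
    intro x y
    by_cases hxy : x = y
    · subst hxy
      rw [diag σ hσ, if_pos rfl, hRR]
    · rw [heq x y hxy, if_neg hxy, zero_sub]
  -- `A R = 0`
  have hs : ∀ x y, mat σ x y = mat σ y x := fun x y =>
    congrFun (congrFun (mat_symm σ hσ) y) x
  have hAR : ∀ x, ∑ z, mat σ x z * rowP σ z = 0 := by
    have h1 : ∑ x, (∑ z, mat σ x z * rowP σ z) ^ 2 = 0 := by
      have h2 : ∑ x, (∑ z, mat σ x z * rowP σ z) ^ 2 =
          ∑ z, ∑ w, rowP σ z * rowP σ w * (mat σ * mat σ) z w := by
        simp only [sq, sum_mul_sum]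
        rw [sum_comm]
        refine sum_congr rfl fun z _ => ?_
        rw [sum_comm]
        refine sum_congr rfl fun w _ => ?_
        rw [Matrix.mul_apply, mul_sum]
        refine sum_congr rfl fun x _ => ?_
        rw [hs z x]
        ring
      rw [h2]
      have h3 : ∀ z, ∑ w, rowP σ z * rowP σ w * (mat σ * mat σ) z w = 0 := by
        intro z
        have h4 : ∀ w, rowP σ z * rowP σ w * (mat σ * mat σ) z w =
            (if w = z then (n : ℤ) else 0) - 1 := by
          intro w
          rw [hAA]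
          by_cases hw : w = z
          · subst hw
            rw [if_pos rfl]
            linear_combination ((n : ℤ) - rowP σ w * rowP σ w - 1) * hRR w
          · rw [if_neg hw, if_neg (Ne.symm hw)]
            linear_combination (- (rowP σ w * rowP σ w)) * hRR z - hRR w
        rw [sum_congr rfl fun w _ => h4 w, sum_sub_distrib, sum_ite_eq' univ z,
          if_pos (mem_univ _), sum_const, card_univ, Fintype.card_fin]
        simp
      exact sum_eq_zero fun z _ => h3 z
    intro x
    have h5 := (sum_eq_zero_iff_of_nonneg fun x _ => sq_nonneg _).mp h1 x (mem_univ _)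
    exact pow_eq_zero_iff (two_ne_zero) |>.mp h5
  apply conf_transfer (V := Option (Fin n)) (by simp)
  refine border_conf (mat σ) (rowP σ) (mat_symm σ hσ) (mat_diag σ) (mat_val σ hσ)
    (rowP_val σ hσ) ?_ heq hAR
  intro x
  rw [diag σ hσ, Fintype.card_fin]

end Four

end MP_90430c
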