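import Pool.Agent.Lib.MP_90430c_co.FourD

/-! The largest element of `S(n, 4)`. -/

open Finset

namespace MP_90430c

/-- The upper bound for the number of negative circles of length four. -/
def top4 (n : ℕ) : ℕ :=
  if n % 4 = 2 then n * (n - 1) * (n - 2) ^ 2 / 16
  else if n % 4 = 0 then n ^ 2 * (n - 2) * (n - 3) / 16
  else n * (n - 1) ^ 2 * (n - 3) / 16

namespace Four

theorem top_two {n : ℕ} (h : n % 4 = 2) : (16 * top4 n : ℤ) = n * (n - 1) * (n - 2) ^ 2 := by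
  obtain ⟨m, rfl⟩ : ∃ m, n = 4 * m + 2 := ⟨n / 4, by omega⟩
  unfold top4
  rw [if_pos h]
  have h1 : (4 * m + 2) * (4 * m + 2 - 1) * (4 * m + 2 - 2) ^ 2 =
      16 * ((4 * m + 2) * (4 * m + 1) * m ^ 2) := by
    have e1 : 4 * m + 2 - 1 = 4 * m + 1 := by omega
    have e2 : 4 * m + 2 - 2 = 4 * m := by omega
    rw [e1, e2]; ring
  rw [h1, Nat.mul_div_cancel_left _ (by norm_num)]
  push_cast
  ring

theorem top_zero {n : ℕ} (hn : 4 ≤ n) (h : n % 4 = 0) :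
    (16 * top4 n : ℤ) = n ^ 2 * (n - 2) * (n - 3) := by
  obtain ⟨m, rfl⟩ : ∃ m, n = 4 * m + 4 := ⟨n / 4 - 1, by omega⟩
  unfold top4
  rw [if_neg (by omega), if_pos h]
  have h1 : (4 * m + 4) ^ 2 * (4 * m + 4 - 2) * (4 * m + 4 - 3) =
      16 * ((m + 1) ^ 2 * (4 * m + 2) * (4 * m + 1)) := by
    have e1 : 4 * m + 4 - 2 = 4 * m + 2 := by omega
    have e2 : 4 * m + 4 - 3 = 4 * m + 1 := by omega
    rw [e1, e2]; ring
  rw [h1, Nat.mul_div_cancel_left _ (by norm_num)]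
  push_cast
  ring

theorem top_odd {n : ℕ} (hn : 4 ≤ n) (h : n % 2 = 1) :
    (16 * top4 n : ℤ) = n * (n - 1) ^ 2 * (n - 3) := by
  unfold top4
  rw [if_neg (by omega), if_neg (by omega)]
  have h4 : n % 4 = 1 ∨ n % 4 = 3 := by omega
  rcases h4 with h4 | h4
  · obtain ⟨m, rfl⟩ : ∃ m, n = 4 * m + 5 := ⟨n / 4 - 1, by omega⟩
    have h1 : (4 * m + 5) * (4 * m + 5 - 1) ^ 2 * (4 * m + 5 - 3) =
        16 * ((4 * m + 5) * (m + 1) ^ 2 * (4 * m + 2)) := by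
      have e1 : 4 * m + 5 - 1 = 4 * m + 4 := by omega
      have e2 : 4 * m + 5 - 3 = 4 * m + 2 := by omega
      rw [e1, e2]; ring
    rw [h1, Nat.mul_div_cancel_left _ (by norm_num)]
    push_cast
    ring
  · obtain ⟨m, rfl⟩ : ∃ m, n = 4 * m + 3 := ⟨n / 4, by omega⟩
    have h1 : (4 * m + 3) * (4 * m + 3 - 1) ^ 2 * (4 * m + 3 - 3) =
        16 * ((4 * m + 3) * (2 * m + 1) ^ 2 * m) := by
      have e1 : 4 * m + 3 - 1 = 4 * m + 2 := by omega
      have e2 : 4 * m + 3 - 3 = 4 * m := by omega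
      rw [e1, e2]; ring
    rw [h1, Nat.mul_div_cancel_left _ (by norm_num)]
    push_cast
    ring

theorem le_top {n : ℕ} (hn : 4 ≤ n) {x : ℕ} (hx : x ∈ SS n 4) : x ≤ top4 n := by
  obtain ⟨τ, rfl⟩ := hx
  have h1 := formula hn τ
  have h2 := isSig_sg τ
  have hn' : (4 : ℤ) ≤ n := by exact_mod_cast hn
  suffices h : (negCircles n 4 τ : ℤ) ≤ top4 n by exact_mod_cast h
  have h4 : n % 4 = 2 ∨ n % 4 = 0 ∨ n % 2 = 1 := by omega
  rcases h4 with h4 | h4 | h4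
  · have h3 := top_two h4
    have h5 := off_nonneg (mat (sg τ))
    linarith
  · have h3 := top_zero hn h4
    have h5 := off_four (sg τ) h2 (by rw [Fintype.card_fin]; exact h4)
    rw [Fintype.card_fin] at h5
    nlinarith
  · have h3 := top_odd hn h4
    have h5 := off_odd (sg τ) h2 (by rw [Fintype.card_fin, Nat.odd_iff]; exact h4)
    rw [Fintype.card_fin] at h5
    nlinarith

theorem mem_of_off {n : ℕ} (hn : 4 ≤ n) (A : Matrix (Fin n) (Fin n) ℤ) (hA : A.IsSymm)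
    (h0 : ∀ i, A i i = 0) (h1 : ∀ i j, i ≠ j → A i j = 1 ∨ A i j = -1)
    (h : (16 * top4 n : ℤ) + off A = n * (n - 1) * (n - 2) ^ 2) : top4 n ∈ SS n 4 := by
  obtain ⟨τ, hτ⟩ := exists_sig A hA h0 h1
  refine ⟨τ, ?_⟩
  have h2 := formula hn τ
  rw [hτ] at h2
  have : (negCircles n 4 τ : ℤ) = top4 n := by linarith
  exact_mod_cast this

theorem top_two_iff {n : ℕ} (hn : 4 ≤ n) (h : n % 4 = 2) :
    top4 n ∈ SS n 4 ↔ ∃ C, IsConf n C := by
  constructor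
  · rintro ⟨τ, hτ⟩
    have h1 := formula hn τ
    have h3 := top_two h
    rw [hτ] at h1
    exact ⟨_, conf_of_off (sg τ) (isSig_sg τ) (by linarith)⟩
  · rintro ⟨C, hC⟩
    refine mem_of_off hn C hC.1 hC.2.1 hC.2.2.1 ?_
    rw [off_conf hC, top_two h]
    ring

theorem top_one_iff {n : ℕ} (hn : 4 ≤ n) (h : n % 4 = 1) :
    top4 n ∈ SS n 4 ↔ ∃ C, IsConf (n + 1) C := by
  have h3 := top_odd hn (by omega)
  constructor
  · rintro ⟨τ, hτ⟩
    have h1 := formula hn τ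
    rw [hτ] at h1
    exact conf_of_off_one (sg τ) (isSig_sg τ) h (by linear_combination h1 - h3)
  · rintro ⟨C, hC⟩
    obtain ⟨p1, p2, p3⟩ := sub_props hC Fin.castSuccEmb
    refine mem_of_off hn (C.submatrix Fin.castSucc Fin.castSucc) p1 p2 p3 ?_
    rw [off_del_one hC, h3]
    ring

theorem top_zero_of {n : ℕ} (hn : 4 ≤ n) (h : n % 4 = 0) (hC : ∃ C, IsConf (n + 2) C) :
    top4 n ∈ SS n 4 := by
  obtain ⟨C, hC⟩ := hC
  have h3 := top_zero hn h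
  obtain ⟨p1, p2, p3⟩ := sub_props hC (Fin.castSuccEmb.trans Fin.castSuccEmb)
  refine mem_of_off hn _ p1 p2 p3 ?_
  have h4 := off_del_two hC
  have h5 : (C.submatrix Fin.castSucc Fin.castSucc).submatrix Fin.castSucc Fin.castSucc =
      C.submatrix (Fin.castSuccEmb.trans Fin.castSuccEmb : Fin n ↪ Fin (n + 2))
        (Fin.castSuccEmb.trans Fin.castSuccEmb : Fin n ↪ Fin (n + 2)) := rfl
  rw [← h5, h4, h3]
  ring

theorem main :
    (∀ n, 4 ≤ n → ∀ x ∈ SS n 4, x ≤ top4 n) ∧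
    (∀ n, 4 ≤ n → n % 4 = 2 → (top4 n ∈ SS n 4 ↔ ∃ C, IsConf n C)) ∧
    (∀ n, 4 ≤ n → n % 4 = 1 → (top4 n ∈ SS n 4 ↔ ∃ C, IsConf (n + 1) C)) ∧
    (∀ n, 4 ≤ n → n % 4 = 0 → (∃ C, IsConf (n + 2) C) → top4 n ∈ SS n 4) ∧
    (∀ q, IsPrimePow q → q % 4 = 1 → IsGreatest (SS (q + 1) 4) (top4 (q + 1)) ∧
      IsGreatest (SS q 4) (top4 q) ∧ IsGreatest (SS (q - 1) 4) (top4 (q - 1))) := by
  refine ⟨fun n hn x hx => le_top hn hx, fun n hn h => top_two_iff hn h,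
    fun n hn h => top_one_iff hn h, fun n hn h hC => top_zero_of hn h hC, ?_⟩
  intro q hq h4
  have hC := exists_conf_of_prime_pow hq h4
  have h5 : 5 ≤ q := by
    have := hq.one_lt
    omega
  refine ⟨⟨(top_two_iff (by omega) (by omega)).mpr hC, fun x hx => le_top (by omega) hx⟩,
    ⟨(top_one_iff (by omega) h4).mpr hC, fun x hx => le_top (by omega) hx⟩,
    ⟨top_zero_of (by omega) (by omega) ?_, fun x hx => le_top (by omega) hx⟩⟩
  have e : q - 1 + 2 = q + 1 := by omega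
  rw [e]
  exact hC

end Four

end MP_90430c
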