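import Pool.Agent.Lib.MP_90430c_co.TopD

/-! The top end of `S(n,l)` for even `l ≥ 6`, part E: the average over the signatures. -/

open Finset

set_option linter.unusedSectionVars false

namespace MP_90430c

namespace Top

variable {g r k : ℕ}

instance instKKDec : DecidableEq (KK g (k + 3) r) := instDecidableEqSum

instance instKKFin : Fintype (KK g (k + 3) r) := inferInstance

instance instKKSigns : Fintype (KK g (k + 3) r → ℤˣ) := Pi.instFintype

/-- The closed sequence through all hubs of the group `U` and the single vertices `w`. -/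
def FF (r : ℕ) (U : Fin g) (w : ZMod (k + 3) → Fin g) (m : ℕ) : HV g (k + 3) r :=
  if m % 2 = 0 then hub U ((m / 2 : ℕ) : ZMod (k + 3))
  else sgl ((m / 2 : ℕ) : ZMod (k + 3)) (w ((m / 2 : ℕ) : ZMod (k + 3)))

lemma FF_even (U : Fin g) (w : ZMod (k + 3) → Fin g) (m : ℕ) :
    FF r U w (2 * m) = hub U (m : ZMod (k + 3)) := by
  unfold FF
  rw [if_pos (by omega), show 2 * m / 2 = m by omega]

lemma FF_odd (U : Fin g) (w : ZMod (k + 3) → Fin g) (m : ℕ) :
    FF r U w (2 * m + 1) = sgl (m : ZMod (k + 3)) (w (m : ZMod (k + 3))) := by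
  unfold FF
  rw [if_neg (by omega), show (2 * m + 1) / 2 = m by omega]

/-- The same as a function on `Fin l`. -/
def ff (r : ℕ) (U : Fin g) (w : ZMod (k + 3) → Fin g) (i : Fin (k + 3 + (k + 3))) :
    HV g (k + 3) r :=
  FF r U w (i : ℕ)

lemma ff_succ (U : Fin g) (w : ZMod (k + 3) → Fin g) (i : Fin (k + 3 + (k + 3))) :
    ff r U w (i + 1) = FF r U w ((i : ℕ) + 1) := by
  unfold ff
  have e1 : ((1 : Fin (k + 3 + (k + 3))) : ℕ) = 1 := by
    rw [Fin.val_one', Nat.mod_eq_of_lt (by omega)]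
  rw [Fin.val_add, e1]
  rcases Nat.lt_or_ge ((i : ℕ) + 1) (k + 3 + (k + 3)) with h | h
  · rw [Nat.mod_eq_of_lt h]
  · have h1 : (i : ℕ) + 1 = k + 3 + (k + 3) := by
      have := i.2
      omega
    rw [h1, Nat.mod_self]
    have h2 := FF_even (r := r) U w 0
    have h3 := FF_even (r := r) U w (k + 3)
    rw [show 2 * (k + 3) = k + 3 + (k + 3) by ring] at h3
    rw [mul_zero] at h2
    rw [h2, h3, ZMod.natCast_self, Nat.cast_zero]

lemma key_FF (U : Fin g) (w : ZMod (k + 3) → Fin g) (m : ℕ) :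
    key (FF r U w m) (FF r U w (m + 1)) =
      Sum.inl (U, (((m / 2 : ℕ) : ZMod (k + 3)), w ((m / 2 : ℕ) : ZMod (k + 3)))) := by
  rcases Nat.even_or_odd' m with ⟨t, rfl | rfl⟩
  · rw [FF_even, FF_odd, key_hub_sgl, if_pos (Or.inl rfl), show 2 * t / 2 = t by omega]
  · rw [FF_odd, show 2 * t + 1 + 1 = 2 * (t + 1) by ring, FF_even, key_sgl_hub,
      if_pos (Or.inr (by push_cast; ring)), show (2 * t + 1) / 2 = t by omega]

lemma prod_pairs (x : ℕ → ℤ) (h : ℕ) :
    ∏ i ∈ range (h + h), x (i / 2) = ∏ j ∈ range h, (x j * x j) := by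
  induction h with
  | zero => simp
  | succ h ih =>
    rw [show h + 1 + (h + 1) = (h + h) + 1 + 1 by ring, Finset.prod_range_succ,
      Finset.prod_range_succ, ih, Finset.prod_range_succ, show (h + h) / 2 = h by omega,
      show (h + h + 1) / 2 = h by omega]
    ring

lemma prod_keys (U : Fin g) (w : ZMod (k + 3) → Fin g) (ε : KK g (k + 3) r → ℤˣ) :
    ∏ i, ((ε (key (ff r U w i) (ff r U w (i + 1))) : ℤˣ) : ℤ) = 1 := by
  have h1 : ∀ i : Fin (k + 3 + (k + 3)), ((ε (key (ff r U w i) (ff r U w (i + 1))) : ℤˣ) : ℤ) =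
      (fun m : ℕ => ((ε (Sum.inl (U, ((m : ZMod (k + 3)), w (m : ZMod (k + 3))))) : ℤˣ) : ℤ))
        ((i : ℕ) / 2) := by
    intro i
    rw [ff_succ]
    unfold ff
    rw [key_FF]
  simp only [h1]
  rw [Fin.prod_univ_eq_prod_range (fun i : ℕ =>
    ((ε (Sum.inl (U, (((i / 2 : ℕ) : ZMod (k + 3)), w ((i / 2 : ℕ) : ZMod (k + 3))))) : ℤˣ) : ℤ))
    (k + 3 + (k + 3))]
  rw [prod_pairs (fun m : ℕ =>
    ((ε (Sum.inl (U, ((m : ZMod (k + 3)), w (m : ZMod (k + 3))))) : ℤˣ) : ℤ))]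
  refine Finset.prod_eq_one fun j _ => ?_
  rcases Int.units_eq_one_or (ε (Sum.inl (U, ((j : ZMod (k + 3)), w (j : ZMod (k + 3))))))
    with h | h <;> rw [h] <;> simp

lemma ff_allEven (U : Fin g) (w : ZMod (k + 3) → Fin g) : AllEven (ff r U w) := by
  intro c hc
  have h1 := sum_odd (fun i => key (ff r U w i) (ff r U w (i + 1))) c hc
  have h2 : ∀ ε : KK g (k + 3) r → ℤˣ,
      ∏ i, ((ε (key (ff r U w i) (ff r U w (i + 1))) : ℤˣ) : ℤ) = 1 := prod_keys U w
  simp only [h2] at h1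
  rw [Finset.sum_const, Finset.card_univ, nsmul_eq_mul, mul_one] at h1
  have h3 : 0 < Fintype.card (KK g (k + 3) r → ℤˣ) := Fintype.card_pos
  exact absurd h1 (by exact_mod_cast h3.ne')

lemma cast_inj {a b : ℕ} (ha : a < k + 3) (hb : b < k + 3)
    (H : (a : ZMod (k + 3)) = (b : ZMod (k + 3))) : a = b := by
  rw [ZMod.natCast_eq_natCast_iff'] at H
  rwa [Nat.mod_eq_of_lt ha, Nat.mod_eq_of_lt hb] at H

lemma ff_inj (U : Fin g) (w : ZMod (k + 3) → Fin g) : Function.Injective (ff r U w) := by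
  intro i j H
  have hi := i.2
  have hj := j.2
  unfold ff at H
  apply Fin.ext
  rcases Nat.even_or_odd' (i : ℕ) with ⟨s, hs | hs⟩ <;>
    rcases Nat.even_or_odd' (j : ℕ) with ⟨t, ht | ht⟩
  · rw [hs, ht, FF_even, FF_even] at H
    have := cast_inj (by omega) (by omega) (hub_inj H).2
    omega
  · rw [hs, ht, FF_even, FF_odd] at H
    exact absurd H (hub_ne_sgl _ _ _ _)
  · rw [hs, ht, FF_even, FF_odd] at H
    exact absurd H.symm (hub_ne_sgl _ _ _ _)
  · rw [hs, ht, FF_odd, FF_odd] at H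
    have := cast_inj (by omega) (by omega) (sgl_inj H).1
    omega

/-- The family of closed sequences. -/
def fam (g k r : ℕ) (p : Fin g × (ZMod (k + 3) → Fin g)) : Fin (k + 3 + (k + 3)) → HV g (k + 3) r :=
  ff r p.1 p.2

lemma fam_inj : Function.Injective (fam g k r) := by
  rintro ⟨U, w⟩ ⟨U', w'⟩ H
  have h0 : U = U' := by
    have h1 := congrFun H ⟨0, by omega⟩
    have h2 : FF r U w (2 * 0) = FF r U' w' (2 * 0) := h1
    rw [FF_even, FF_even] at h2
    exact (hub_inj h2).1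
  have h1 : w = w' := by
    funext e
    have he : e.val < k + 3 := ZMod.val_lt e
    have h2 := congrFun H ⟨2 * e.val + 1, by omega⟩
    have h3 : FF r U w (2 * e.val + 1) = FF r U' w' (2 * e.val + 1) := h2
    rw [FF_odd, FF_odd] at h3
    have h4 := (sgl_inj h3).2
    rwa [ZMod.natCast_zmod_val] at h4
  rw [h0, h1]

/-- The random signature. -/
def sge (ε : KK g (k + 3) r → ℤˣ) (x y : HV g (k + 3) r) : ℤ := bs x y * ((ε (key x y) : ℤˣ) : ℤ)

lemma isSig_sge (ε : KK g (k + 3) r → ℤˣ) : IsSig (sge ε) where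
  symm x y := by
    unfold sge
    rw [bs_comm, key_comm]
  val x y := by
    unfold sge
    rcases bs_val x y with h1 | h1 <;> rcases Int.units_eq_one_or (ε (key x y)) with h2 | h2 <;>
      rw [h1, h2] <;> simp

/-- Some signature has at most `-g^(k+4)` signed closed sequences. -/
theorem exists_six (g k r : ℕ) : ∃ σ : HV g (k + 3) r → HV g (k + 3) r → ℤ, IsSig σ ∧
    Z (k + 3 + (k + 3)) σ ≤ -((g ^ (k + 4) : ℕ) : ℤ) := by
  set N : ℤ := (Fintype.card (KK g (k + 3) r → ℤˣ) : ℤ) with hN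
  have hN0 : 0 < N := by
    rw [hN]
    exact_mod_cast (Fintype.card_pos : 0 < Fintype.card (KK g (k + 3) r → ℤˣ))
  -- the sum over the sign functions, for one sequence
  have hterm : ∀ f ∈ inj (k + 3 + (k + 3)) (HV g (k + 3) r),
      (∑ ε : KK g (k + 3) r → ℤˣ, cp (k + 3 + (k + 3)) (sge ε) f) ≤ 0 ∧
      (AllEven f → (∑ ε : KK g (k + 3) r → ℤˣ, cp (k + 3 + (k + 3)) (sge ε) f) = -N) := by
    intro f hf
    have hfi : Function.Injective f := (Finset.mem_filter.mp hf).2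
    have h1 : (∑ ε : KK g (k + 3) r → ℤˣ, cp (k + 3 + (k + 3)) (sge ε) f) =
        (∏ i, bs (f i) (f (i + 1))) *
          ∑ ε : KK g (k + 3) r → ℤˣ, ∏ i, ((ε (key (f i) (f (i + 1))) : ℤˣ) : ℤ) := by
      rw [Finset.mul_sum]
      refine Finset.sum_congr rfl fun ε _ => ?_
      unfold cp sge
      rw [Finset.prod_mul_distrib]
    have h2 : AllEven f → (∑ ε : KK g (k + 3) r → ℤˣ, cp (k + 3 + (k + 3)) (sge ε) f) = -N := by
      intro he
      rw [h1, sum_even _ he, bp_eq hfi he, hN]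
      ring
    refine ⟨?_, h2⟩
    by_cases he : AllEven f
    · rw [h2 he]
      linarith
    · unfold AllEven at he
      push Not at he
      obtain ⟨c, hc⟩ := he
      rw [h1, sum_odd _ c hc, mul_zero]
  have hsum : ∑ ε : KK g (k + 3) r → ℤˣ, Z (k + 3 + (k + 3)) (sge ε) ≤
      ∑ _ε : KK g (k + 3) r → ℤˣ, -((g ^ (k + 4) : ℕ) : ℤ) := by
    unfold Z
    rw [Finset.sum_comm, Finset.sum_const, Finset.card_univ, nsmul_eq_mul]
    set I := (Finset.univ : Finset (Fin g × (ZMod (k + 3) → Fin g))).image (fam g k r) with hI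
    have hIs : I ⊆ inj (k + 3 + (k + 3)) (HV g (k + 3) r) := by
      intro f hf
      obtain ⟨p, _, rfl⟩ := Finset.mem_image.mp hf
      exact Finset.mem_filter.mpr ⟨Finset.mem_univ _, ff_inj _ _⟩
    have hIc : I.card = g ^ (k + 4) := by
      rw [hI, Finset.card_image_of_injective _ fam_inj, Finset.card_univ, Fintype.card_prod,
        Fintype.card_fin, Fintype.card_fun, Fintype.card_fin, ZMod.card, ← pow_succ']
    have h3 : ∑ f ∈ I, -(∑ ε : KK g (k + 3) r → ℤˣ, cp (k + 3 + (k + 3)) (sge ε) f) ≤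
        ∑ f ∈ inj (k + 3 + (k + 3)) (HV g (k + 3) r),
          -(∑ ε : KK g (k + 3) r → ℤˣ, cp (k + 3 + (k + 3)) (sge ε) f) :=
      Finset.sum_le_sum_of_subset_of_nonneg hIs fun f hf _ => by
        have := (hterm f hf).1
        linarith
    have h4 : ∑ f ∈ I, -(∑ ε : KK g (k + 3) r → ℤˣ, cp (k + 3 + (k + 3)) (sge ε) f) =
        (g ^ (k + 4) : ℕ) * N := by
      rw [← hIc, ← nsmul_eq_mul, ← Finset.sum_const]
      refine Finset.sum_congr rfl fun f hf => ?_
      have h5 : AllEven f := by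
        obtain ⟨p, _, rfl⟩ := Finset.mem_image.mp hf
        exact ff_allEven _ _
      rw [(hterm f (hIs hf)).2 h5, neg_neg]
    rw [h4, Finset.sum_neg_distrib] at h3
    have : N * -((g ^ (k + 4) : ℕ) : ℤ) = -(((g ^ (k + 4) : ℕ) : ℤ) * N) := by ring
    rw [← hN, this]
    linarith
  obtain ⟨ε, _, hε⟩ := Finset.exists_le_of_sum_le (Finset.univ_nonempty) hsum
  exact ⟨sge ε, isSig_sge ε, hε⟩

lemma card_HV (g k r : ℕ) : Fintype.card (HV g (k + 3) r) = g * (k + 3) + (k + 3) * g + r := by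
  simp [HV, ZMod.card]

end Top

end MP_90430c
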