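import Pool.Agent.Lib.MP_90430c_co.Circ

/-! The top end of `S(n,l)` for even `l`, part D: signatures with many negative circles. -/

open Finset

set_option linter.unusedSectionVars false

namespace MP_90430c

namespace Top

/-! ### Sums over sign functions -/

section signs

variable {K : Type*} [Fintype K] [DecidableEq K] {l : ℕ}

lemma sum_odd (κ : Fin l → K) (c : K) (hc : Odd (univ.filter fun i => κ i = c).card) :
    ∑ ε : K → ℤˣ, ∏ i, ((ε (κ i) : ℤˣ) : ℤ) = 0 := by
  refine Finset.sum_ninvolution (fun ε => Function.update ε c (-ε c)) ?_ ?_ ?_ ?_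
  · intro ε
    have h1 : ∀ i, ((Function.update ε c (-ε c) (κ i) : ℤˣ) : ℤ) =
        (if κ i = c then -1 else 1) * ((ε (κ i) : ℤˣ) : ℤ) := by
      intro i
      by_cases h : κ i = c
      · rw [if_pos h, h, Function.update_self]
        push_cast
        ring
      · rw [if_neg h, Function.update_of_ne h, one_mul]
    simp only [h1]
    rw [Finset.prod_mul_distrib, Finset.prod_ite, Finset.prod_const, Finset.prod_const_one,
      hc.neg_one_pow]
    ring
  · intro ε _ h1
    have h2 := congrFun h1 c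
    rw [Function.update_self] at h2
    rcases Int.units_eq_one_or (ε c) with h3 | h3 <;> rw [h3] at h2 <;> exact absurd h2 (by decide)
  · intro ε
    exact Finset.mem_univ _
  · intro ε
    funext z
    by_cases hz : z = c
    · subst hz
      simp
    · simp [Function.update_of_ne hz]

lemma sum_even (κ : Fin l → K) (hc : ∀ c, ¬ Odd (univ.filter fun i => κ i = c).card) :
    ∑ ε : K → ℤˣ, ∏ i, ((ε (κ i) : ℤˣ) : ℤ) = Fintype.card (K → ℤˣ) := by
  have h1 : ∀ ε : K → ℤˣ, ∏ i, ((ε (κ i) : ℤˣ) : ℤ) = 1 := by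
    intro ε
    rw [Finset.prod_comp (fun c => ((ε c : ℤˣ) : ℤ)) κ]
    refine Finset.prod_eq_one fun c _ => ?_
    obtain ⟨m, hm⟩ := Nat.not_odd_iff_even.1 (hc c)
    rw [hm, pow_add, ← mul_pow]
    have : ((ε c : ℤˣ) : ℤ) * ((ε c : ℤˣ) : ℤ) = 1 := by
      rcases Int.units_eq_one_or (ε c) with h | h <;> rw [h] <;> simp
    rw [this, one_pow]
  simp only [h1]
  rw [Finset.sum_const, Finset.card_univ, nsmul_eq_mul, mul_one]

end signs

/-! ### The signatures -/

/-- The vertices: `g` groups of `h` hubs, `h` types of `g` single vertices, `r` others. -/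
abbrev HV (g h r : ℕ) : Type := ((Fin g × ZMod h) ⊕ (ZMod h × Fin g)) ⊕ Fin r

/-- The keys: a group and a single vertex, or a pair of vertices. -/
abbrev KK (g h r : ℕ) : Type := (Fin g × (ZMod h × Fin g)) ⊕ Sym2 (HV g h r)

variable {g h r : ℕ}

/-- The hub `a` of the group `U`. -/
def hub (U : Fin g) (a : ZMod h) : HV g h r := Sum.inl (Sum.inl (U, a))

/-- The single vertex `j` of type `e`. -/
def sgl (e : ZMod h) (j : Fin g) : HV g h r := Sum.inl (Sum.inr (e, j))

/-- The key of a pair. -/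
def key : HV g h r → HV g h r → KK g h r
  | Sum.inl (Sum.inl (U, a)), Sum.inl (Sum.inr (e, j)) =>
      if a = e ∨ a = e + 1 then Sum.inl (U, (e, j)) else Sum.inr s(hub U a, sgl e j)
  | Sum.inl (Sum.inr (e, j)), Sum.inl (Sum.inl (U, a)) =>
      if a = e ∨ a = e + 1 then Sum.inl (U, (e, j)) else Sum.inr s(hub U a, sgl e j)
  | x, y => Sum.inr s(x, y)

/-- The base signs. -/
def bs : HV g h r → HV g h r → ℤ
  | Sum.inl (Sum.inl (_, a)), Sum.inl (Sum.inr (e, _)) => if a = 0 ∧ e = -1 then -1 else 1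
  | Sum.inl (Sum.inr (e, _)), Sum.inl (Sum.inl (_, a)) => if a = 0 ∧ e = -1 then -1 else 1
  | _, _ => 1

lemma key_comm (x y : HV g h r) : key x y = key y x := by
  rcases x with (⟨U, a⟩ | ⟨e, j⟩) | x <;> rcases y with (⟨U', a'⟩ | ⟨e', j'⟩) | y <;>
    simp only [key] <;> first | rfl | rw [Sym2.eq_swap]

lemma bs_comm (x y : HV g h r) : bs x y = bs y x := by
  rcases x with (⟨U, a⟩ | ⟨e, j⟩) | x <;> rcases y with (⟨U', a'⟩ | ⟨e', j'⟩) | y <;> rfl

lemma bs_val (x y : HV g h r) : bs x y = 1 ∨ bs x y = -1 := by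
  rcases x with (⟨U, a⟩ | ⟨e, j⟩) | x <;> rcases y with (⟨U', a'⟩ | ⟨e', j'⟩) | y <;>
    simp only [bs] <;> first | (split_ifs <;> simp) | simp

lemma bs_hub_sgl (U : Fin g) (a e : ZMod h) (j : Fin g) :
    bs (hub U a : HV g h r) (sgl e j) = if a = 0 ∧ e = -1 then -1 else 1 := rfl

lemma bs_sgl_hub (U : Fin g) (a e : ZMod h) (j : Fin g) :
    bs (sgl e j : HV g h r) (hub U a) = if a = 0 ∧ e = -1 then -1 else 1 := rfl

lemma key_hub_sgl (U : Fin g) (a e : ZMod h) (j : Fin g) :
    key (hub U a : HV g h r) (sgl e j) =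
      if a = e ∨ a = e + 1 then Sum.inl (U, (e, j)) else Sum.inr s(hub U a, sgl e j) := rfl

lemma key_sgl_hub (U : Fin g) (a e : ZMod h) (j : Fin g) :
    key (sgl e j : HV g h r) (hub U a) =
      if a = e ∨ a = e + 1 then Sum.inl (U, (e, j)) else Sum.inr s(hub U a, sgl e j) := rfl

lemma hub_inj {U U' : Fin g} {a a' : ZMod h} (H : (hub U a : HV g h r) = hub U' a') :
    U = U' ∧ a = a' := by
  simpa [hub] using H

lemma sgl_inj {e e' : ZMod h} {j j' : Fin g} (H : (sgl e j : HV g h r) = sgl e' j') :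
    e = e' ∧ j = j' := by
  simpa [sgl] using H

lemma hub_ne_sgl (U : Fin g) (a e : ZMod h) (j : Fin g) : (hub U a : HV g h r) ≠ sgl e j := by
  simp [hub, sgl]

/-- A key is the pair itself or comes from an adjacent pair. -/
lemma key_cases (x y : HV g h r) : key x y = Sum.inr s(x, y) ∨
    (∃ U a e j, x = hub U a ∧ y = sgl e j ∧ (a = e ∨ a = e + 1) ∧ key x y = Sum.inl (U, (e, j))) ∨
    (∃ U a e j, y = hub U a ∧ x = sgl e j ∧ (a = e ∨ a = e + 1) ∧
      key x y = Sum.inl (U, (e, j))) := by
  rcases x with (⟨U, a⟩ | ⟨e, j⟩) | x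
  · rcases y with (⟨U', a'⟩ | ⟨e, j⟩) | y
    · left; rfl
    · by_cases H : a = e ∨ a = e + 1
      · right; left
        exact ⟨U, a, e, j, rfl, rfl, H, if_pos H⟩
      · left
        exact if_neg H
    · left; rfl
  · rcases y with (⟨U, a⟩ | ⟨e', j'⟩) | y
    · by_cases H : a = e ∨ a = e + 1
      · right; right
        exact ⟨U, a, e, j, rfl, rfl, H, if_pos H⟩
      · left
        refine (if_neg H).trans ?_
        rw [Sym2.eq_swap]
        rfl
    · left; rfl
    · left; rfl
  · rcases y with (⟨U, a⟩ | ⟨e', j'⟩) | y <;> left <;> rfl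

/-! ### Closed sequences all of whose keys are repeated -/

section structure_

variable {k : ℕ} {f : Fin (k + 3 + (k + 3)) → HV g (k + 3) r}

lemma four_ne {m : ℕ} (hm : 4 ≤ m) (i : Fin (m + 1)) : i + 1 + 1 ≠ i ∧ i + 1 + 1 + 1 + 1 ≠ i := by
  have e1 : ((1 : Fin (m + 1)) : ℕ) = 1 := by
    rw [Fin.val_one', Nat.mod_eq_of_lt (by omega)]
  constructor
  · intro H
    have h1 : (1 : Fin (m + 1)) + 1 = 0 := by
      have : i + (1 + 1) = i + 0 := by rw [← add_assoc, H, add_zero]
      exact add_left_cancel this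
    have h2 := congrArg Fin.val h1
    rw [Fin.val_add, e1, Nat.mod_eq_of_lt (by omega)] at h2
    simp at h2
  · intro H
    have h1 : (1 : Fin (m + 1)) + 1 + 1 + 1 = 0 := by
      have : i + (1 + 1 + 1 + 1) = i + 0 := by
        rw [← add_assoc, ← add_assoc, ← add_assoc, H, add_zero]
      exact add_left_cancel this
    have h2 := congrArg Fin.val h1
    rw [Fin.val_add, Fin.val_add, Fin.val_add, e1, Nat.mod_eq_of_lt (a := 1 + 1) (by omega),
      Nat.mod_eq_of_lt (a := 1 + 1 + 1) (by omega), Nat.mod_eq_of_lt (by omega)] at h2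
    simp at h2

lemma add_two_ne' (i : Fin (k + 3 + (k + 3))) : i + 1 + 1 ≠ i :=
  (four_ne (m := k + 3 + (k + 2)) (by omega) i).1

lemma add_four_ne' (i : Fin (k + 3 + (k + 3))) : i + 1 + 1 + 1 + 1 ≠ i :=
  (four_ne (m := k + 3 + (k + 2)) (by omega) i).2

lemma edge_inj' (hf : Function.Injective f) {i j : Fin (k + 3 + (k + 3))}
    (H : s(f i, f (i + 1)) = s(f j, f (j + 1))) : i = j :=
  Circ.edge_inj (k := k + 3 + k) hf H

/-- All keys occur an even number of times. -/
def AllEven (f : Fin (k + 3 + (k + 3)) → HV g (k + 3) r) : Prop :=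
  ∀ c, ¬ Odd (univ.filter fun i => key (f i) (f (i + 1)) = c).card

lemma exists_other (he : AllEven f) (i : Fin (k + 3 + (k + 3))) :
    ∃ j, j ≠ i ∧ key (f j) (f (j + 1)) = key (f i) (f (i + 1)) := by
  by_contra hcon
  push Not at hcon
  refine he (key (f i) (f (i + 1))) ?_
  have : (univ.filter fun j => key (f j) (f (j + 1)) = key (f i) (f (i + 1))) = {i} := by
    ext j
    simp only [Finset.mem_filter, Finset.mem_univ, true_and, Finset.mem_singleton]
    constructor
    · intro H
      by_contra hne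
      exact hcon j hne H
    · rintro rfl
      rfl
  rw [this, Finset.card_singleton]
  exact odd_one

/-- Every edge joins a hub and a single vertex adjacent to it. -/
lemma edge_form (hf : Function.Injective f) (he : AllEven f) (i : Fin (k + 3 + (k + 3))) :
    (∃ U a e j, f i = hub U a ∧ f (i + 1) = sgl e j ∧ (a = e ∨ a = e + 1) ∧
      key (f i) (f (i + 1)) = Sum.inl (U, (e, j))) ∨
    (∃ U a e j, f (i + 1) = hub U a ∧ f i = sgl e j ∧ (a = e ∨ a = e + 1) ∧
      key (f i) (f (i + 1)) = Sum.inl (U, (e, j))) := by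
  rcases key_cases (f i) (f (i + 1)) with h1 | h1
  · exfalso
    obtain ⟨j, hj, hk⟩ := exists_other he i
    rw [h1] at hk
    rcases key_cases (f j) (f (j + 1)) with h2 | ⟨U, a, e, j', _, _, _, h2⟩ | ⟨U, a, e, j', _, _, _, h2⟩
    · rw [h2] at hk
      exact hj (edge_inj' hf (Sum.inr_injective hk))
    · rw [h2] at hk
      exact absurd hk (by simp)
    · rw [h2] at hk
      exact absurd hk (by simp)
  · exact h1

/-- One step from a hub to the next hub. -/
lemma hub_step (hf : Function.Injective f) (he : AllEven f) {i : Fin (k + 3 + (k + 3))}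
    {U : Fin g} {a : ZMod (k + 3)} (hi : f i = hub U a) :
    (∃ j, f (i + 1) = sgl a j ∧ f (i + 1 + 1) = hub U (a + 1)) ∨
    (∃ j, f (i + 1) = sgl (a - 1) j ∧ f (i + 1 + 1) = hub U (a - 1)) := by
  rcases edge_form hf he i with ⟨U', a', e, j, h1, h2, h3, h4⟩ | ⟨U', a', e, j, h1, h2, _, _⟩
  · rw [hi] at h1
    obtain ⟨rfl, rfl⟩ := hub_inj h1
    obtain ⟨i', hi', hk⟩ := exists_other he i
    rw [h4] at hk
    -- the other edge with this key
    have hi1 : i' = i + 1 := by
      rcases key_cases (f i') (f (i' + 1)) with h5 | ⟨_, _, e', j', h6, h7, _, h5⟩ |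
        ⟨_, _, e', j', h6, h7, _, h5⟩
      · rw [h5] at hk
        exact absurd hk (by simp)
      · exfalso
        rw [h5] at hk
        have h8 := Sum.inl_injective hk
        simp only [Prod.mk.injEq] at h8
        obtain ⟨_, rfl, rfl⟩ := h8
        have h9 := hf (h7.trans h2.symm)
        exact hi' (add_right_cancel h9)
      · rw [h5] at hk
        have h8 := Sum.inl_injective hk
        simp only [Prod.mk.injEq] at h8
        obtain ⟨_, rfl, rfl⟩ := h8
        exact hf (h7.trans h2.symm)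
    subst hi1
    rcases edge_form hf he (i + 1) with ⟨_, _, e', j', h5, _, _, _⟩ | ⟨U'', a'', e', j', h5, h6, h7, h8⟩
    · rw [h2] at h5
      exact absurd h5.symm (hub_ne_sgl _ _ _ _)
    · rw [h2] at h6
      obtain ⟨rfl, rfl⟩ := sgl_inj h6
      rw [h8] at hk
      have h9 := Sum.inl_injective hk
      simp only [Prod.mk.injEq] at h9
      obtain ⟨rfl, _⟩ := h9
      have hne : a'' ≠ a := by
        rintro rfl
        exact add_two_ne' i (hf (h5.trans hi.symm))
      rcases h3 with h3 | h3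
      · left
        subst h3
        rcases h7 with h7 | h7
        · exact absurd h7 hne
        · exact ⟨j, h2, by rw [h5, h7]⟩
      · right
        rcases h7 with h7 | h7
        · refine ⟨j, ?_, ?_⟩
          · rw [h2, h3, add_sub_cancel_right]
          · rw [h5, h7, h3, add_sub_cancel_right]
        · exact absurd (h7.trans h3.symm) hne
  · rw [hi] at h2
    exact absurd h2 (hub_ne_sgl _ _ _ _)

lemma one_ne' : (1 : ZMod (k + 3)) ≠ 0 := by
  have : Fact (1 < k + 3) := ⟨by omega⟩
  exact one_ne_zero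

lemma two_ne' : (1 : ZMod (k + 3)) + 1 ≠ 0 := by
  intro H
  have h1 : ((2 : ℕ) : ZMod (k + 3)) = 0 := by
    push_cast
    rw [← H]
    norm_num
  rw [ZMod.natCast_eq_zero_iff] at h1
  exact absurd (Nat.le_of_dvd (by norm_num) h1) (by omega)

/-- Induction around the circle. -/
lemma cyc {m : ℕ} {S : Fin (m + 1) → Prop} {p : Fin (m + 1)} (hp : S p)
    (hS : ∀ i, S i → S (i + 1)) : ∀ i, S i := by
  have h1 : ∀ (d : ℕ) (i : Fin (m + 1)), (i : ℕ) + d = m → S i → S (Fin.last m) := by
    intro d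
    induction d with
    | zero =>
      intro i hi h2
      have : i = Fin.last m := Fin.ext (by simpa using hi)
      rwa [← this]
    | succ d ih =>
      intro i hi h2
      refine ih (i + 1) ?_ (hS i h2)
      rw [Fin.val_add_one_of_lt (by
        rw [Fin.lt_def, Fin.val_last]
        omega)]
      omega
  have h2 : S (Fin.last m) := h1 (m - p) p (by have := p.2; omega) hp
  have h3 : S 0 := by
    have := hS _ h2
    rwa [Fin.last_add_one] at this
  intro i
  induction i using Fin.induction with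
  | zero => exact h3
  | succ i ih =>
    have := hS _ ih
    rwa [Fin.coeSucc_eq_succ] at this

/-- The product of the base signs along such a closed sequence is `-1`. -/
theorem bp_eq (hf : Function.Injective f) (he : AllEven f) :
    ∏ i, bs (f i) (f (i + 1)) = -1 := by
  -- a hub
  obtain ⟨p, U, a, hp⟩ : ∃ p U a, f p = hub U a := by
    rcases edge_form hf he 0 with ⟨U, a, _, _, h1, _⟩ | ⟨U, a, _, _, h1, _⟩
    · exact ⟨0, U, a, h1⟩
    · exact ⟨0 + 1, U, a, h1⟩
  rcases hub_step hf he hp with ⟨j, hj1, hj2⟩ | ⟨j, hj1, hj2⟩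
  · -- positive direction
    have hS : ∀ i, (∃ a j, f i = hub U a ∧ f (i + 1) = sgl a j ∧ f (i + 1 + 1) = hub U (a + 1)) ∨
        (∃ a j, f i = sgl a j ∧ f (i + 1) = hub U (a + 1) ∧
          ∃ j', f (i + 1 + 1) = sgl (a + 1) j') := by
      refine cyc (m := k + 3 + (k + 2)) (p := p) (Or.inl ⟨a, j, hp, hj1, hj2⟩) ?_
      rintro i (⟨a, j, h1, h2, h3⟩ | ⟨a, j, h1, h2, j', h3⟩)
      · right
        refine ⟨a, j, h2, h3, ?_⟩
        rcases hub_step hf he h3 with ⟨j', h4, _⟩ | ⟨j', h4, h5⟩
        · exact ⟨j', h4⟩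
        · exfalso
          rw [add_sub_cancel_right] at h5
          exact add_four_ne' i (hf (h5.trans h1.symm))
      · left
        rcases hub_step hf he h2 with ⟨j'', h4, h5⟩ | ⟨j'', h4, h5⟩
        · exact ⟨a + 1, j'', h2, h4, h5⟩
        · exfalso
          rw [h3] at h4
          have := (sgl_inj h4).1
          rw [add_sub_cancel_right] at this
          exact one_ne' (add_eq_left.mp this)
    -- the hub 0
    have hall : ∀ m : ℕ, ∃ i, f i = hub U (a + (m : ZMod (k + 3))) := by
      intro m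
      induction m with
      | zero => exact ⟨p, by simpa using hp⟩
      | succ m ih =>
        obtain ⟨i, hi⟩ := ih
        rcases hS i with ⟨a', j, h1, h2, h3⟩ | ⟨a', j, h1, _, _⟩
        · rw [hi] at h1
          have := (hub_inj h1).2
          refine ⟨i + 1 + 1, ?_⟩
          rw [h3, ← this]
          push_cast
          rw [add_assoc]
        · rw [hi] at h1
          exact absurd h1 (hub_ne_sgl _ _ _ _)
    obtain ⟨q, hq⟩ := hall (-a).val
    rw [ZMod.natCast_zmod_val, add_neg_cancel] at hq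
    obtain ⟨i0, hi0⟩ : ∃ i0, i0 + 1 = q := ⟨q - 1, by rw [sub_add_cancel]⟩
    rw [← hi0] at hq
    rw [Finset.prod_eq_single i0]
    · rcases hS i0 with ⟨a', j, h1, h2, h3⟩ | ⟨a', j, h1, h2, _⟩
      · rw [hq] at h2
        exact absurd h2 (hub_ne_sgl _ _ _ _)
      · have h4 : a' + 1 = 0 := by
          rw [hq] at h2
          exact (hub_inj h2).2.symm
        rw [h1, hq, bs_sgl_hub, if_pos ⟨rfl, eq_neg_of_add_eq_zero_left h4⟩]
    · intro i _ hne
      rcases hS i with ⟨a', j, h1, h2, h3⟩ | ⟨a', j, h1, h2, _⟩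
      · rw [h1, h2, bs_hub_sgl, if_neg]
        rintro ⟨h4, h5⟩
        rw [h4] at h5
        exact one_ne' (neg_eq_zero.mp h5.symm)
      · rw [h1, h2, bs_sgl_hub, if_neg]
        rintro ⟨h4, h5⟩
        rw [h4] at h2
        exact hne (add_right_cancel (hf (h2.trans hq.symm)))
    · intro H
      exact absurd (Finset.mem_univ _) H
  · -- negative direction
    have hS : ∀ i, (∃ a j, f i = hub U a ∧ f (i + 1) = sgl (a - 1) j ∧
        f (i + 1 + 1) = hub U (a - 1)) ∨
        (∃ a j, f i = sgl a j ∧ f (i + 1) = hub U a ∧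
          ∃ j', f (i + 1 + 1) = sgl (a - 1) j') := by
      refine cyc (m := k + 3 + (k + 2)) (p := p) (Or.inl ⟨a, j, hp, hj1, hj2⟩) ?_
      rintro i (⟨a, j, h1, h2, h3⟩ | ⟨a, j, h1, h2, j', h3⟩)
      · right
        refine ⟨a - 1, j, h2, h3, ?_⟩
        rcases hub_step hf he h3 with ⟨j', h4, h5⟩ | ⟨j', h4, _⟩
        · exfalso
          rw [sub_add_cancel] at h5
          exact add_four_ne' i (hf (h5.trans h1.symm))
        · exact ⟨j', h4⟩
      · left
        rcases hub_step hf he h2 with ⟨j'', h4, h5⟩ | ⟨j'', h4, h5⟩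
        · exfalso
          rw [h3] at h4
          have := (sgl_inj h4).1
          exact one_ne' (sub_eq_self.mp this)
        · exact ⟨a, j'', h2, h4, h5⟩
    have hall : ∀ m : ℕ, ∃ i, f i = hub U (a - (m : ZMod (k + 3))) := by
      intro m
      induction m with
      | zero => exact ⟨p, by simpa using hp⟩
      | succ m ih =>
        obtain ⟨i, hi⟩ := ih
        rcases hS i with ⟨a', j, h1, h2, h3⟩ | ⟨a', j, h1, _, _⟩
        · rw [hi] at h1
          have := (hub_inj h1).2
          refine ⟨i + 1 + 1, ?_⟩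
          rw [h3, ← this]
          push_cast
          rw [sub_sub]
        · rw [hi] at h1
          exact absurd h1 (hub_ne_sgl _ _ _ _)
    obtain ⟨q, hq⟩ := hall a.val
    rw [ZMod.natCast_zmod_val, sub_self] at hq
    rw [Finset.prod_eq_single q]
    · rcases hS q with ⟨a', j, h1, h2, h3⟩ | ⟨a', j, h1, h2, _⟩
      · have h4 : a' = 0 := by
          rw [hq] at h1
          exact (hub_inj h1).2.symm
        rw [hq, h2, bs_hub_sgl, if_pos ⟨rfl, by rw [h4, zero_sub]⟩]
      · rw [hq] at h1
        exact absurd h1 (hub_ne_sgl _ _ _ _)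
    · intro i _ hne
      rcases hS i with ⟨a', j, h1, h2, h3⟩ | ⟨a', j, h1, h2, _⟩
      · rw [h1, h2, bs_hub_sgl, if_neg]
        rintro ⟨h4, _⟩
        rw [h4] at h1
        exact hne (hf (h1.trans hq.symm))
      · rw [h1, h2, bs_sgl_hub, if_neg]
        rintro ⟨h4, h5⟩
        rw [h4] at h5
        exact one_ne' (neg_eq_zero.mp h5.symm)
    · intro H
      exact absurd (Finset.mem_univ _) H

end structure_

end Top

end MP_90430c
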