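import Mathlib
import Pool.Agent.Lib.MP_90430c_co.Toggle
import Pool.Agent.Lib.MP_90430c_co.Circ
import Pool.Agent.Lib.MP_90430c_co.EvenTr

/-! Passage between signatures of `K_n` and matrices. -/

open Finset

set_option linter.unusedSectionVars false

namespace MP_90430c

section

variable {V W : Type*} [Fintype V] [DecidableEq V] [Fintype W] [DecidableEq W] {l : ℕ} [NeZero l]

lemma Z_equiv (e : W ≃ V) (σ : V → V → ℤ) : Z l (fun x y => σ (e x) (e y)) = Z l σ := by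
  unfold Z
  refine Finset.sum_bij (fun f _ i => e (f i)) ?_ ?_ ?_ ?_
  · intro f hf
    rw [mem_inj] at hf ⊢
    exact e.injective.comp hf
  · intro f _ g _ h
    funext i
    exact e.injective (congrFun h i)
  · intro g hg
    rw [mem_inj] at hg
    refine ⟨fun i => e.symm (g i), ?_, ?_⟩
    · rw [mem_inj]; exact e.symm.injective.comp hg
    · funext i; simp
  · intro f _; rfl

lemma cc_equiv (e : W ≃ V) (σ : V → V → ℤ) : cc l (fun x y => σ (e x) (e y)) = cc l σ := by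
  unfold cc
  rw [Z_equiv, Fintype.card_congr e]

lemma IsSig.equiv (e : W ≃ V) {σ : V → V → ℤ} (hσ : IsSig σ) : IsSig (fun x y => σ (e x) (e y)) :=
  ⟨fun _ _ => hσ.symm _ _, fun _ _ => hσ.val _ _⟩

lemma cc_dvd (hl : 3 ≤ l) (hn : l ≤ Fintype.card V) {σ : V → V → ℤ} (hσ : IsSig σ) :
    ((gg (Fintype.card V) l : ℕ) : ℤ) ∣ cc l σ := by
  obtain ⟨v, hv, hg⟩ := gg_eq_pow (l := l) (n := Fintype.card V) (by omega)
  obtain ⟨z, hz, h1⟩ := D_mem hl hn hσ
  have h2 := cc_spec hl hn hσ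
  rw [h1] at h2
  have hl0 : (4 * (l : ℤ)) ≠ 0 := by
    have : (l : ℤ) ≠ 0 := by exact_mod_cast (by omega : l ≠ 0)
    positivity
  have h3 : cc l σ = z := mul_left_cancel₀ hl0 h2
  rw [h3, hg]
  push_cast
  refine dvd_of_mem_II (t := 0) (N := Fintype.card V - 2) (m := l - 2) (i := v) ?_ hz
  intro j _ hj
  have h4 := gg_dvd_gen (l := l) (n := Fintype.card V) (j := j) (by omega) hj hn
  rw [hg] at h4
  exact_mod_cast h4

lemma IsSig.neg {σ : V → V → ℤ} (hσ : IsSig σ) : IsSig (fun x y => -σ x y) := by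
  refine ⟨fun x y => by rw [hσ.symm], fun x y => ?_⟩
  rcases hσ.val x y with h | h <;> simp [h]

lemma Z_neg (hl : Odd l) (σ : V → V → ℤ) : Z l (fun x y => -σ x y) = -Z l σ := by
  unfold Z
  rw [← Finset.sum_neg_distrib]
  refine Finset.sum_congr rfl fun f _ => ?_
  unfold cp
  rw [Finset.prod_neg, Finset.card_univ, Fintype.card_fin, hl.neg_one_pow]
  ring

/-- The complement for odd `l`. -/
lemma cc_compl (hl : 3 ≤ l) (hn : l ≤ Fintype.card V) (ho : Odd l) {σ : V → V → ℤ} (hσ : IsSig σ) :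
    2 * l * (cc l σ + cc l (fun x y => -σ x y)) = ((Fintype.card V).descFactorial l : ℤ) := by
  have h1 := cc_spec hl hn hσ
  have h2 := cc_spec hl hn hσ.neg
  rw [Z_neg ho] at h2
  linarith

end

section

variable {n l : ℕ} [NeZero l]

lemma mem_SS (hl : 3 ≤ l) (hn : l ≤ n) (x : ℕ) :
    x ∈ SS n l ↔ ∃ σ : Fin n → Fin n → ℤ, IsSig σ ∧ cc l σ = x := by
  have hn' : l ≤ Fintype.card (Fin n) := by rw [Fintype.card_fin]; exact hn
  have hl0 : (4 * (l : ℤ)) ≠ 0 := by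
    have : (l : ℤ) ≠ 0 := by exact_mod_cast (by omega : l ≠ 0)
    positivity
  constructor
  · rintro ⟨τ, rfl⟩
    refine ⟨fun x y => ((τ s(x, y) : ℤˣ) : ℤ), ⟨fun x y => by rw [Sym2.eq_swap], fun x y => ?_⟩, ?_⟩
    · rcases Int.units_eq_one_or (τ s(x, y)) with h | h <;> rw [h] <;> simp
    · have hs : IsSig (fun x y : Fin n => ((τ s(x, y) : ℤˣ) : ℤ)) := by
        refine ⟨fun x y => by rw [Sym2.eq_swap], fun x y => ?_⟩
        rcases Int.units_eq_one_or (τ s(x, y)) with h | h <;> rw [h] <;> simp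
      have h1 := cc_spec hl hn' hs
      rw [Fintype.card_fin, ← circStmt n l hl τ] at h1
      exact mul_left_cancel₀ hl0 h1
  · rintro ⟨σ, hσ, hx⟩
    set τ : Sym2 (Fin n) → ℤˣ := Sym2.lift ⟨fun x y => if σ x y = 1 then (1 : ℤˣ) else -1,
      fun x y => by beta_reduce; rw [hσ.symm]⟩ with hτ
    have h2 : (fun x y : Fin n => ((τ s(x, y) : ℤˣ) : ℤ)) = σ := by
      funext x y
      rw [hτ, Sym2.lift_mk]
      dsimp only
      rcases hσ.val x y with h | h
      · rw [h]; simp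
      · rw [h]; norm_num
    refine ⟨τ, ?_⟩
    have h1 := cc_spec hl hn' hσ
    have h3 := circStmt n l hl τ
    rw [h2] at h3
    rw [Fintype.card_fin, ← h3, hx] at h1
    have := mul_left_cancel₀ hl0 h1
    exact_mod_cast this.symm

lemma SS_dvd (hl : 3 ≤ l) (hn : l ≤ n) {x : ℕ} (hx : x ∈ SS n l) : gg n l ∣ x := by
  obtain ⟨σ, hσ, h⟩ := (mem_SS hl hn x).1 hx
  have h1 := cc_dvd (l := l) hl (by rw [Fintype.card_fin]; exact hn) hσ
  rw [Fintype.card_fin, h] at h1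
  exact_mod_cast h1

lemma SS_of_type (hl : 3 ≤ l) (hn : l ≤ n) {V : Type} [Fintype V] [DecidableEq V]
    (hV : Fintype.card V = n) {σ : V → V → ℤ} (hσ : IsSig σ) {x : ℕ} (hx : cc l σ = x) :
    x ∈ SS n l := by
  have e : Fin n ≃ V := Fintype.equivOfCardEq (by rw [Fintype.card_fin, hV])
  rw [mem_SS hl hn]
  exact ⟨fun x y => σ (e x) (e y), hσ.equiv e, by rw [cc_equiv]; exact hx⟩

lemma SS_compl (hl : 3 ≤ l) (hn : l ≤ n) (ho : Odd l) {x y : ℕ}
    (hxy : 2 * l * (x + y) = n.descFactorial l) (hx : x ∈ SS n l) : y ∈ SS n l := by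
  obtain ⟨σ, hσ, h⟩ := (mem_SS hl hn x).1 hx
  rw [mem_SS hl hn]
  refine ⟨fun x y => -σ x y, hσ.neg, ?_⟩
  have h1 := cc_compl hl (by rw [Fintype.card_fin]; exact hn) ho hσ
  rw [Fintype.card_fin, h] at h1
  have h2 : (2 * (l : ℤ)) * (x + y) = (n.descFactorial l : ℤ) := by exact_mod_cast hxy
  have hl0 : (2 * (l : ℤ)) ≠ 0 := by
    have : (l : ℤ) ≠ 0 := by exact_mod_cast (by omega : l ≠ 0)
    positivity
  rw [← h2] at h1
  have := mul_left_cancel₀ hl0 h1
  linarith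

/-- For odd `l` all circles are negative under the all negative signature. -/
lemma total_mem (hl : 3 ≤ l) (hn : l ≤ n) (ho : Odd l) :
    ∃ T : ℕ, 2 * l * T = n.descFactorial l ∧ T ∈ SS n l := by
  have hn' : l ≤ Fintype.card (Fin n) := by rw [Fintype.card_fin]; exact hn
  have h1 := cc_compl hl hn' ho (isSig_one (V := Fin n))
  have h0 : cc l (fun _ _ : Fin n => (1 : ℤ)) = 0 := by
    have h2 := cc_spec hl hn' (isSig_one (V := Fin n))
    rw [Z_of_negN_eq_zero hl (isSig_one (V := Fin n)) (by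
      unfold negN
      rw [Finset.card_eq_zero, Finset.filter_eq_empty_iff]
      rintro p _ ⟨_, h⟩
      norm_num at h), sub_self] at h2
    have hl0 : (4 * (l : ℤ)) ≠ 0 := by
      have : (l : ℤ) ≠ 0 := by exact_mod_cast (by omega : l ≠ 0)
      positivity
    exact (mul_eq_zero.1 h2).resolve_left hl0
  rw [h0, zero_add, Fintype.card_fin] at h1
  set c := cc l (fun x y : Fin n => -(1 : ℤ)) with hc
  have hc0 : 0 ≤ c := by
    by_contra hcon
    push Not at hcon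
    have h3 : 2 * (l : ℤ) * c < 0 := mul_neg_of_pos_of_neg (by
      have : (0 : ℤ) < l := by exact_mod_cast (by omega : 0 < l)
      linarith) hcon
    have h4 : (0 : ℤ) ≤ (n.descFactorial l : ℤ) := by positivity
    linarith
  obtain ⟨T, hT⟩ := Int.eq_ofNat_of_zero_le hc0
  refine ⟨T, ?_, ?_⟩
  · rw [hT] at h1
    exact_mod_cast h1
  · rw [mem_SS hl hn]
    exact ⟨_, (isSig_one (V := Fin n)).neg, by rw [← hT]⟩

lemma SS_even_le (hl : 3 ≤ l) (hn : l ≤ n) (he : Even l) {x : ℕ} (hx : x ∈ SS n l) :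
    (x : ℝ) ≤ (n.descFactorial l : ℝ) / (4 * l) + (l : ℝ) / 4 * (n : ℝ) ^ (l - 1) := by
  obtain ⟨σ, hσ, h⟩ := (mem_SS hl hn x).1 hx
  have hn' : l ≤ Fintype.card (Fin n) := by rw [Fintype.card_fin]; exact hn
  have h1 := cc_spec hl hn' hσ
  have hl4 : 4 ≤ l := by
    rcases Nat.lt_or_ge 3 l with h | h
    · omega
    · have : l = 3 := by omega
      rw [this] at he
      exact absurd he (by decide)
  have h2 := evenStmt (Fin n) l he hl4 σ hσ
  rw [Fintype.card_fin] at h1 h2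
  rw [h] at h1
  have h3 : 4 * (l : ℤ) * x ≤ (n.descFactorial l : ℤ) + ((l ^ 2 * n ^ (l - 1) : ℕ) : ℤ) := by linarith
  have h4 : 4 * (l : ℝ) * x ≤ (n.descFactorial l : ℝ) + (l : ℝ) ^ 2 * (n : ℝ) ^ (l - 1) := by
    exact_mod_cast h3
  have hl0 : (0 : ℝ) < l := by exact_mod_cast (by omega : 0 < l)
  have h5 : (x : ℝ) ≤ ((n.descFactorial l : ℝ) + (l : ℝ) ^ 2 * (n : ℝ) ^ (l - 1)) / (4 * l) := by
    rw [le_div_iff₀ (by positivity)]; linarith
  refine h5.trans (le_of_eq ?_)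
  field_simp

end

end MP_90430c
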