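import Pool.Agent.Lib.MP_90430c_co.Four
import Pool.Agent.Lib.MP_90430c_co.Bal
import Pool.Agent.Lib.MP_90430c_co.Transport
import Pool.Agent.Lib.MP_90430c_co.TopD

/-! The top end of `S(n,l)`, part F: the lower bound for circles of length four, from the
characters of `F_2^m` and random signs for the pairs outside. -/

open Finset

set_option linter.unusedSectionVars false

namespace MP_90430c

namespace Top

section embed

variable {W : Type*} [Fintype W] [DecidableEq W] {k r : ℕ}

/-- Extension of a signature by the signs `ε`. -/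
def extS (σ₀ : W → W → ℤ) (ε : Sym2 (W ⊕ Fin r) → ℤˣ) : W ⊕ Fin r → W ⊕ Fin r → ℤ
  | Sum.inl a, Sum.inl b => σ₀ a b
  | Sum.inl a, Sum.inr b => ((ε s(Sum.inl a, Sum.inr b) : ℤˣ) : ℤ)
  | Sum.inr a, Sum.inl b => ((ε s(Sum.inr a, Sum.inl b) : ℤˣ) : ℤ)
  | Sum.inr a, Sum.inr b => ((ε s(Sum.inr a, Sum.inr b) : ℤˣ) : ℤ)

lemma extS_cases (x y : W ⊕ Fin r) : (∃ a b, x = Sum.inl a ∧ y = Sum.inl b) ∨
    ∀ (σ₀ : W → W → ℤ) (ε : Sym2 (W ⊕ Fin r) → ℤˣ), extS σ₀ ε x y = ((ε s(x, y) : ℤˣ) : ℤ) := by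
  rcases x with a | a <;> rcases y with b | b
  · left; exact ⟨a, b, rfl, rfl⟩
  · right; intro _ _; rfl
  · right; intro _ _; rfl
  · right; intro _ _; rfl

lemma isSig_extS {σ₀ : W → W → ℤ} (h : IsSig σ₀) (ε : Sym2 (W ⊕ Fin r) → ℤˣ) :
    IsSig (extS σ₀ ε) where
  symm x y := by
    rcases x with a | a <;> rcases y with b | b
    · exact h.symm a b
    · simp only [extS]; rw [Sym2.eq_swap]
    · simp only [extS]; rw [Sym2.eq_swap]
    · simp only [extS]; rw [Sym2.eq_swap]
  val x y := by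
    rcases extS_cases x y with ⟨a, b, rfl, rfl⟩ | h1
    · exact h.val a b
    · rw [h1 σ₀ ε]
      rcases Int.units_eq_one_or (ε s(x, y)) with h2 | h2 <;> rw [h2] <;> simp

lemma sum_extS_zero (σ₀ : W → W → ℤ) {f : Fin (k + 3) → W ⊕ Fin r} (hf : Function.Injective f)
    {i : Fin (k + 3)} {t : Fin r} (hi : f i = Sum.inr t) :
    ∑ ε : Sym2 (W ⊕ Fin r) → ℤˣ, cp (k + 3) (extS σ₀ ε) f = 0 := by
  set c := s(f i, f (i + 1)) with hc
  refine Finset.sum_ninvolution (fun ε => Function.update ε c (-ε c)) ?_ ?_ ?_ ?_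
  · intro ε
    have h1 : ∀ j, extS σ₀ (Function.update ε c (-ε c)) (f j) (f (j + 1)) =
        (if j = i then -1 else 1) * extS σ₀ ε (f j) (f (j + 1)) := by
      intro j
      by_cases h : j = i
      · rw [if_pos h, h]
        rcases extS_cases (f i) (f (i + 1)) with ⟨a, b, h2, _⟩ | h2
        · rw [hi] at h2
          exact absurd h2 (by simp)
        · rw [h2, h2, ← hc, Function.update_self]
          push_cast
          ring
      · rw [if_neg h, one_mul]
        rcases extS_cases (f j) (f (j + 1)) with ⟨a, b, h2, h3⟩ | h2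
        · rw [h2, h3]
          rfl
        · rw [h2, h2, Function.update_of_ne]
          intro h3
          exact h (Circ.edge_inj (k := k) hf h3)
    unfold cp
    simp only [h1]
    rw [Finset.prod_mul_distrib, Finset.prod_ite_eq' Finset.univ i, if_pos (Finset.mem_univ i)]
    ring
  · intro ε _ h1
    have h2 := congrFun h1 c
    rw [Function.update_self] at h2
    rcases Int.units_eq_one_or (ε c) with h3 | h3 <;> rw [h3] at h2 <;> exact absurd h2 (by decide)
  · intro ε
    exact Finset.mem_univ _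
  · intro ε
    funext z
    by_cases hz : z = c
    · subst hz
      simp
    · simp [Function.update_of_ne hz]

/-- A signature can be extended without raising the signed number of closed sequences. -/
theorem exists_ext (r : ℕ) {σ₀ : W → W → ℤ} (h : IsSig σ₀) :
    ∃ σ : W ⊕ Fin r → W ⊕ Fin r → ℤ, IsSig σ ∧ Z (k + 3) σ ≤ Z (k + 3) σ₀ := by
  set N : ℤ := (Fintype.card (Sym2 (W ⊕ Fin r) → ℤˣ) : ℤ) with hN
  have hsum : ∑ ε : Sym2 (W ⊕ Fin r) → ℤˣ, Z (k + 3) (extS σ₀ ε) =
      ∑ _ε : Sym2 (W ⊕ Fin r) → ℤˣ, Z (k + 3) σ₀ := by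
    unfold Z
    rw [Finset.sum_comm, Finset.sum_const, Finset.card_univ, nsmul_eq_mul]
    set I := (inj (k + 3) W).image (fun f : Fin (k + 3) → W =>
      (fun i => (Sum.inl (f i) : W ⊕ Fin r))) with hI
    have hIs : I ⊆ inj (k + 3) (W ⊕ Fin r) := by
      intro f hf
      obtain ⟨p, hp, rfl⟩ := Finset.mem_image.mp hf
      rw [mem_inj] at hp ⊢
      exact Sum.inl_injective.comp hp
    rw [← Finset.sum_subset hIs]
    · rw [hI, Finset.sum_image, Finset.mul_sum]
      · refine Finset.sum_congr rfl fun f _ => ?_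
        have h1 : ∀ ε : Sym2 (W ⊕ Fin r) → ℤˣ,
            cp (k + 3) (extS σ₀ ε) (fun i => (Sum.inl (f i) : W ⊕ Fin r)) = cp (k + 3) σ₀ f :=
          fun ε => rfl
        simp only [h1]
        rw [Finset.sum_const, Finset.card_univ, nsmul_eq_mul]
      · intro f _ f' _ hff
        funext i
        exact Sum.inl_injective (congrFun hff i)
    · intro f hf hfI
      rw [mem_inj] at hf
      by_cases h1 : ∃ i t, f i = Sum.inr t
      · obtain ⟨i, t, hi⟩ := h1
        exact sum_extS_zero σ₀ hf hi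
      · exfalso
        apply hfI
        have h2 : ∀ i, ∃ a, f i = Sum.inl a := by
          intro i
          rcases hfi : f i with a | t
          · exact ⟨a, rfl⟩
          · exact absurd ⟨i, t, hfi⟩ h1
        choose f' hf' using h2
        refine Finset.mem_image.mpr ⟨f', ?_, ?_⟩
        · rw [mem_inj]
          intro i j hij
          exact hf (by rw [hf', hf', hij])
        · funext i
          exact (hf' i).symm
  obtain ⟨ε, _, hε⟩ := Finset.exists_le_of_sum_le (Finset.univ_nonempty) hsum.le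
  exact ⟨extS σ₀ ε, isSig_extS h ε, hε⟩

end embed

section char

open BalAux Four

variable {m : ℕ}

lemma isSig_ch : IsSig (ch : (Fin m → Bool) → (Fin m → Bool) → ℤ) := ⟨ch_symm, ch_val⟩

lemma sum_ch_diag (hm : 1 ≤ m) : ∑ x : Fin m → Bool, ch x x = 0 := by
  have h2 := Finset.prod_univ_sum (fun _ : Fin m => (univ : Finset Bool))
    (fun _ t => (if (t && t) then (-1 : ℤ) else 1))
  rw [Fintype.piFinset_univ] at h2
  have h3 : ∑ x : Fin m → Bool, ch x x =
      ∑ x : Fin m → Bool, ∏ i, (if (x i && x i) then (-1 : ℤ) else 1) := rfl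
  rw [h3, ← h2]
  exact Finset.prod_eq_zero (Finset.mem_univ (⟨0, by omega⟩ : Fin m)) (by simp)

/-- the matrix of the characters -/
abbrev mc (m : ℕ) : Matrix (Fin m → Bool) (Fin m → Bool) ℤ := mat ch

lemma sq_ch {x y : Fin m → Bool} (hxy : x ≠ y) :
    (mc m * mc m) x y = -(ch x y * (ch x x + ch y y)) := by
  have h0 := ch_orth x y
  rw [if_neg hxy] at h0
  have h1 : ∀ z : Fin m → Bool, mc m x z * mc m z y =
      ch z x * ch z y - (if z = x then ch x x * ch x y else 0) -
        (if z = y then ch x y * ch y y else 0) := by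
    intro z
    unfold mc mat
    by_cases h1 : x = z
    · subst h1
      simp [hxy]
    · by_cases h2 : z = y
      · subst h2
        simp [Ne.symm h1, ch_symm x z]
      · simp [h1, h2, Ne.symm h1, ch_symm x z]
  rw [Matrix.mul_apply, Finset.sum_congr rfl fun z _ => h1 z, Finset.sum_sub_distrib,
    Finset.sum_sub_distrib, h0, Finset.sum_ite_eq' univ x, Finset.sum_ite_eq' univ y]
  simp only [mem_univ, if_true]
  ring

lemma off_ch (hm : 1 ≤ m) : off (mc m) =
    2 * 2 ^ m * (2 ^ m - 2) := by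
  have hN : (Fintype.card (Fin m → Bool) : ℤ) = 2 ^ m := by
    rw [Fintype.card_fun, Fintype.card_bool, Fintype.card_fin]
    push_cast
    rfl
  have hd : ∀ x : Fin m → Bool, ch x x * ch x x = 1 := by
    intro x
    rcases ch_val x x with h | h <;> rw [h] <;> norm_num
  have hs := sum_ch_diag hm
  unfold off
  have h1 : ∀ x : Fin m → Bool, ∑ y ∈ univ.filter (fun y => x ≠ y), ((mc m * mc m) x y) ^ 2 =
      ∑ y : Fin m → Bool, (2 + 2 * ch x x * ch y y) - 4 := by
    intro x
    have h2 : ∀ y ∈ univ.filter (fun y => x ≠ y), ((mc m * mc m) x y) ^ 2 =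
        2 + 2 * ch x x * ch y y := by
      intro y hy
      rw [sq_ch (mem_filter.mp hy).2]
      have e : ch x y * ch x y = 1 := by
        rcases ch_val x y with h | h <;> rw [h] <;> norm_num
      calc (-(ch x y * (ch x x + ch y y))) ^ 2 =
          (ch x y * ch x y) * (ch x x * ch x x + 2 * ch x x * ch y y + ch y y * ch y y) := by ring
        _ = 2 + 2 * ch x x * ch y y := by rw [e, hd, hd]; ring
    rw [sum_congr rfl h2]
    have h3 : (univ.filter (fun y : Fin m → Bool => x ≠ y)) = univ.erase x := by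
      ext y; simp [eq_comm]
    rw [h3, ← Finset.add_sum_erase univ _ (mem_univ x)]
    have h4 : 2 * ch x x * ch x x = 2 := by rw [mul_assoc, hd]; ring
    rw [h4]
    ring
  rw [sum_congr rfl fun x _ => h1 x]
  have h5 : ∀ x : Fin m → Bool, ∑ y : Fin m → Bool, (2 + 2 * ch x x * ch y y) - 4 =
      2 * 2 ^ m - 4 := by
    intro x
    rw [sum_add_distrib, ← mul_sum, hs, mul_zero, add_zero, sum_const, card_univ, nsmul_eq_mul, hN]
    ring
  rw [sum_congr rfl fun x _ => h5 x, sum_const, card_univ, nsmul_eq_mul, hN]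
  ring

/-- The number for the characters. -/
lemma Z4_ch (hm : 1 ≤ m) : Z 4 (ch : (Fin m → Bool) → (Fin m → Bool) → ℤ) =
    -(2 ^ m * (2 ^ m - 2) * (2 ^ m - 3)) := by
  have hN : (Fintype.card (Fin m → Bool) : ℤ) = 2 ^ m := by
    rw [Fintype.card_fun, Fintype.card_bool, Fintype.card_fin]
    push_cast
    rfl
  rw [Z4_off _ isSig_ch, off_ch hm, hN]
  ring

end char

/-- On `n ≥ 4` vertices some signature has at most `-n^3/64` signed closed sequences of length
four. -/
theorem exists_four {n : ℕ} (hn : 4 ≤ n) : ∃ (W : Type) (_ : Fintype W) (_ : DecidableEq W)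
    (σ : W → W → ℤ), Fintype.card W = n ∧ IsSig σ ∧ 64 * Z 4 σ ≤ -((n ^ 3 : ℕ) : ℤ) := by
  set m := Nat.log 2 n with hm
  have h1 : 2 ^ m ≤ n := Nat.pow_log_le_self 2 (by omega)
  have h2 : n < 2 ^ (m + 1) := Nat.lt_pow_succ_log_self (by norm_num) n
  have hm2 : 2 ≤ m := by
    rw [hm]
    exact (Nat.le_log_iff_pow_le (by norm_num) (by omega)).2 (by norm_num; exact hn)
  obtain ⟨σ, hσ, hZ⟩ := exists_ext (k := 1) (W := Fin m → Bool) (n - 2 ^ m) isSig_ch
  refine ⟨(Fin m → Bool) ⊕ Fin (n - 2 ^ m), inferInstance, inferInstance, σ, ?_, hσ, ?_⟩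
  · rw [Fintype.card_sum, Fintype.card_fun, Fintype.card_bool, Fintype.card_fin, Fintype.card_fin]
    omega
  · have h3 := Z4_ch (m := m) (by omega)
    have h4 : Z 4 σ ≤ -(2 ^ m * (2 ^ m - 2) * (2 ^ m - 3)) := by
      rw [← h3]
      exact hZ
    have h5 : (4 : ℤ) ≤ 2 ^ m := by
      calc (4 : ℤ) = 2 ^ 2 := by norm_num
        _ ≤ 2 ^ m := pow_le_pow_right₀ (by norm_num) hm2
    have h6 : (n : ℤ) ≤ 2 * 2 ^ m := by
      have : n ≤ 2 * 2 ^ m := by
        rw [pow_succ] at h2
        omega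
      exact_mod_cast this
    set q : ℤ := 2 ^ m with hq
    have h7 : ((n ^ 3 : ℕ) : ℤ) ≤ 8 * q ^ 3 := by
      push_cast
      calc (n : ℤ) ^ 3 ≤ (2 * q) ^ 3 := pow_le_pow_left₀ (by positivity) h6 3
        _ = 8 * q ^ 3 := by ring
    have h8 : q ^ 3 ≤ 8 * (q * (q - 2) * (q - 3)) := by
      have h9 : 0 ≤ q * ((q - 4) * (7 * q - 12)) :=
        mul_nonneg (by linarith) (mul_nonneg (by linarith) (by linarith))
      nlinarith
    linarith

end Top

end MP_90430c
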