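import Mathlib
import Pool.Agent.Lib.MP_90430c_co.Core

/-! The conditions on `n` in terms of one constant. -/

open Finset Filter

namespace MP_90430c

lemma Cgf_le (l : ℕ) (hl : 3 ≤ l) : ∃ B : ℝ, 1 ≤ B ∧ ∀ α : ℝ, 0 < α → α ≤ 1 / 4 →
    (Cgf l α : ℝ) ≤ B / α ^ l := by
  have hl0 : (0 : ℝ) < l := by exact_mod_cast (by omega : 0 < l)
  set A1 : ℝ := 2 * 4 ^ l * (2 * (l * 2 ^ l) + 16) with hA1
  have hA0 : 0 ≤ A1 := by rw [hA1]; positivity
  set B : ℝ := 2 * l * (l * 2 ^ l + 2 * l + 1) * (A1 + 1) + 4 * l ^ 2 with hB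
  refine ⟨B, ?_, ?_⟩
  · have h1 : (1 : ℝ) ≤ 4 * l ^ 2 := by
      have : (1 : ℝ) ≤ l := by exact_mod_cast (by omega : 1 ≤ l)
      nlinarith
    have h2 : (0 : ℝ) ≤ 2 * l * (l * 2 ^ l + 2 * l + 1) * (A1 + 1) := by positivity
    linarith
  · intro α hα hα1
    have hp : 0 < α ^ l := by positivity
    have hp1 : α ^ l ≤ 1 := pow_le_one₀ hα.le (by linarith)
    have h1 : 1 ≤ 1 / α ^ l := by rw [le_div_iff₀ hp]; linarith
    have hd : 0 < dl l α := by unfold dl; positivity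
    have h2 : (Qf l α : ℝ) ≤ (A1 + 1) / α ^ l := by
      unfold Qf
      have h3 := Nat.ceil_lt_add_one (a := (2 * ((l : ℝ) * 2 ^ l) + 16) / dl l α) (by positivity)
      refine h3.le.trans ?_
      have h4 : (2 * ((l : ℝ) * 2 ^ l) + 16) / dl l α = A1 / α ^ l := by
        unfold dl
        rw [hA1, div_pow]
        field_simp
      rw [h4, add_div]
      linarith
    unfold Cgf
    push_cast
    calc 2 * (Qf l α : ℝ) * l * (l * 2 ^ l + 2 * l + 1) + 4 * l ^ 2
        = (2 * l * (l * 2 ^ l + 2 * l + 1)) * (Qf l α : ℝ) + 4 * l ^ 2 * 1 := by ring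
      _ ≤ (2 * l * (l * 2 ^ l + 2 * l + 1)) * ((A1 + 1) / α ^ l) + 4 * l ^ 2 * (1 / α ^ l) := by
          refine add_le_add (mul_le_mul_of_nonneg_left h2 (by positivity))
            (mul_le_mul_of_nonneg_left h1 (by positivity))
      _ = B / α ^ l := by rw [hB]; ring

theorem ok_of (l : ℕ) (hl : 3 ≤ l) : ∃ K D : ℝ, 0 < K ∧ 0 < D ∧ ∀ (n : ℕ) (α : ℝ), l ≤ n → 0 < α →
    α ≤ 1 / 4 → K ≤ α ^ (2 * l) * √(n : ℝ) → OK l n α ∧ Cf l α ≤ D / α ^ l := by
  obtain ⟨B, hB1, hB⟩ := Cgf_le l hl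
  have hl0 : (0 : ℝ) < l := by exact_mod_cast (by omega : 0 < l)
  have hB0 : 0 < B := by linarith
  set K1 : ℝ := 4 ^ l * (√2 + (3 + 2 * l)) with hK1
  set K2 : ℝ := 4 * l * B * 4 ^ l with hK2
  set K3 : ℝ := (2 * l) ^ l * 8 * B * 4 ^ l with hK3
  set K4 : ℝ := 2 * B + 2 with hK4
  set K5 : ℝ := 2 * l with hK5
  have p1 : 0 < K1 := by rw [hK1]; positivity
  have p2 : 0 < K2 := by rw [hK2]; positivity
  have p3 : 0 < K3 := by rw [hK3]; positivity
  have p4 : 0 < K4 := by rw [hK4]; positivity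
  have p5 : 0 < K5 := by rw [hK5]; positivity
  refine ⟨K1 + K2 + K3 + K4 + K5, 8 * B + 4 * l * (l * 2 ^ l), by positivity, by positivity, ?_⟩
  intro n α hln hα hα1 hK
  have hn1 : (1 : ℝ) ≤ n := by exact_mod_cast (by omega : 1 ≤ n)
  have hn0 : (0 : ℝ) < n := by linarith
  set r := √(n : ℝ) with hr
  have hr1 : 1 ≤ r := by rw [hr, Real.one_le_sqrt]; exact hn1
  have hrr : r * r = n := Real.mul_self_sqrt hn0.le
  have hp : 0 < α ^ l := by positivity
  have hp1 : α ^ l ≤ 1 := pow_le_one₀ hα.le (by linarith)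
  have hpp : α ^ (2 * l) = α ^ l * α ^ l := by rw [two_mul, pow_add]
  have e1 : α ^ (2 * l) * r ≤ α ^ l * r := by
    refine mul_le_mul_of_nonneg_right ?_ (by linarith)
    exact pow_le_pow_of_le_one hα.le (by linarith) (by omega)
  have e2 : α ^ (2 * l) * r ≤ α ^ (l + 1) * r := by
    refine mul_le_mul_of_nonneg_right ?_ (by linarith)
    exact pow_le_pow_of_le_one hα.le (by linarith) (by omega)
  have e3 : α ^ (2 * l) * r ≤ α * r := by
    refine mul_le_mul_of_nonneg_right ?_ (by linarith)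
    calc α ^ (2 * l) ≤ α ^ 1 := pow_le_pow_of_le_one hα.le (by linarith) (by omega)
      _ = α := pow_one α
  have hC := hB α hα hα1
  have h4 : (0 : ℝ) < 4 ^ l := by positivity
  have hdn : (α / 4) ^ l * (n : ℝ) = (α ^ l * r) * r / 4 ^ l := by
    rw [div_pow, ← hrr]; ring
  refine ⟨⟨hln, ?_, ?_, ?_, ?_, ?_⟩, ?_⟩
  · rw [hdn, le_div_iff₀ h4]
    calc (√2 * r + (3 + 2 * l)) * 4 ^ l ≤ (√2 * r + (3 + 2 * l) * r) * 4 ^ l := by
          refine mul_le_mul_of_nonneg_right ?_ h4.le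
          have : (3 + 2 * (l : ℝ)) * 1 ≤ (3 + 2 * l) * r := mul_le_mul_of_nonneg_left hr1 (by positivity)
          linarith
      _ = K1 * r := by rw [hK1]; ring
      _ ≤ (α ^ l * r) * r := mul_le_mul_of_nonneg_right (by linarith) (by linarith)
  · rw [hdn, le_div_iff₀ h4]
    calc 2 * (l : ℝ) * (2 * Cgf l α) * r * 4 ^ l
        ≤ 2 * (l : ℝ) * (2 * (B / α ^ l)) * r * 4 ^ l := by
          refine mul_le_mul_of_nonneg_right (mul_le_mul_of_nonneg_right
            (mul_le_mul_of_nonneg_left (by linarith) (by positivity)) (by linarith)) h4.le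
      _ = K2 * r / α ^ l := by rw [hK2]; ring
      _ ≤ (α ^ (2 * l) * r) * r / α ^ l := by
          refine div_le_div_of_nonneg_right (mul_le_mul_of_nonneg_right (by linarith) (by linarith)) hp.le
      _ = (α ^ l * r) * r := by rw [hpp]; field_simp
  · have hd : dl l α / 2 * (n : ℝ) = (α ^ l * r) * r / (4 * 4 ^ l) := by
      unfold dl
      rw [div_pow, ← hrr]; field_simp; ring
    rw [hd, le_div_iff₀ (by positivity)]
    calc (2 * (l : ℝ)) ^ l * (2 * Cgf l α) * r * (4 * 4 ^ l)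
        ≤ (2 * (l : ℝ)) ^ l * (2 * (B / α ^ l)) * r * (4 * 4 ^ l) := by
          refine mul_le_mul_of_nonneg_right (mul_le_mul_of_nonneg_right
            (mul_le_mul_of_nonneg_left (by linarith) (by positivity)) (by linarith)) (by positivity)
      _ = K3 * r / α ^ l := by rw [hK3]; ring
      _ ≤ (α ^ (2 * l) * r) * r / α ^ l := by
          refine div_le_div_of_nonneg_right (mul_le_mul_of_nonneg_right (by linarith) (by linarith)) hp.le
      _ = (α ^ l * r) * r := by rw [hpp]; field_simp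
  · have h5 : 1 ≤ r / α ^ l := by rw [le_div_iff₀ hp]; linarith
    calc 2 * (Cgf l α : ℝ) * r + 2 ≤ 2 * (B / α ^ l) * r + 2 * (r / α ^ l) := by
          refine add_le_add (mul_le_mul_of_nonneg_right (by linarith) (by linarith)) (by linarith)
      _ = K4 * r / α ^ l := by rw [hK4]; ring
      _ ≤ (α ^ (l + 1) * r) * r / α ^ l := by
          refine div_le_div_of_nonneg_right (mul_le_mul_of_nonneg_right (by linarith) (by linarith)) hp.le
      _ = α * n := by rw [← hrr, pow_succ]; field_simp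
  · calc 2 * (l : ℝ) = K5 * 1 := by rw [hK5]; ring
      _ ≤ (α * r) * r := mul_le_mul (by linarith) hr1 (by norm_num) (by positivity)
      _ = α * n := by rw [← hrr]; ring
  · unfold Cf
    have h5 : 1 ≤ 1 / α ^ l := by rw [le_div_iff₀ hp]; linarith
    calc 8 * (Cgf l α : ℝ) + 4 * l * (l * 2 ^ l)
        ≤ 8 * (B / α ^ l) + 4 * l * (l * 2 ^ l) * (1 / α ^ l) := by
          refine add_le_add (by linarith) ?_
          have : 4 * (l : ℝ) * (l * 2 ^ l) * 1 ≤ 4 * l * (l * 2 ^ l) * (1 / α ^ l) :=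
            mul_le_mul_of_nonneg_left h5 (by positivity)
          linarith
      _ = _ := by ring

end MP_90430c
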