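import Mathlib
import Pool.Agent.Lib.MP_90430c_co.Okay
import Pool.Agent.Lib.MP_90430c_co.Transport

/-! The windows. -/

open Finset Filter

namespace MP_90430c

section

variable {l n : ℕ} [NeZero l]

lemma rpow_half (hl : 3 ≤ l) (hn : 1 ≤ n) :
    (n : ℝ) ^ ((l : ℝ) - 3 / 2) = (n : ℝ) ^ (l - 2) * √(n : ℝ) := by
  have hn0 : (0 : ℝ) < n := by exact_mod_cast (by omega : 0 < n)
  rw [Real.sqrt_eq_rpow, ← Real.rpow_natCast, ← Real.rpow_add hn0]
  congr 1
  rw [Nat.cast_sub (by omega)]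
  push_cast
  ring

lemma desc_lower {m : ℕ} (hm : 2 * l ≤ m) (hl : 1 ≤ l) :
    ((m : ℝ) / 2) ^ l ≤ (m.descFactorial l : ℕ) := by
  have h1 := Nat.pow_sub_le_descFactorial m l
  have h2 : (((m + 1 - l : ℕ) : ℝ)) ^ l ≤ (m.descFactorial l : ℕ) := by exact_mod_cast h1
  refine le_trans ?_ h2
  refine pow_le_pow_left₀ (by positivity) ?_ l
  rw [Nat.cast_sub (by omega)]
  push_cast
  have : (2 : ℝ) * l ≤ m := by exact_mod_cast hm
  linarith

/-- Consequence of the core theorem for odd `l`. -/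
lemma odd_half (hl : 3 ≤ l) (ho : Odd l) : ∃ (C : ℝ) (n₀ : ℕ), 0 < C ∧ ∀ n : ℕ, n₀ ≤ n → l ≤ n →
    ∀ x : ℕ, gg n l ∣ x → C * ((n : ℝ) ^ (l - 2) * √(n : ℝ)) ≤ x →
      4 * l * (x : ℝ) ≤ (n.descFactorial l : ℕ) → x ∈ SS n l := by
  obtain ⟨K, D, hK, hD, hok⟩ := ok_of l hl
  have hl0 : (0 : ℝ) < l := by exact_mod_cast (by omega : 0 < l)
  have hl1 : (1 : ℝ) ≤ l := by exact_mod_cast (by omega : 1 ≤ l)
  set α : ℝ := 1 / (4 * l * 4 ^ l) with hαdef
  have h4l : (1 : ℝ) ≤ 4 ^ l := one_le_pow₀ (by norm_num)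
  have hα : 0 < α := by rw [hαdef]; positivity
  have hα1 : α ≤ 1 / 4 := by
    rw [hαdef]
    refine one_div_le_one_div_of_le (by norm_num) ?_
    nlinarith
  set C : ℝ := D / α ^ l with hC
  have hC0 : 0 < C := by rw [hC]; positivity
  have e1 : ∀ᶠ n : ℕ in atTop, K ≤ α ^ (2 * l) * √(n : ℝ) := by
    have h1 : Tendsto (fun n : ℕ => √(n : ℝ)) atTop atTop :=
      Real.tendsto_sqrt_atTop.comp tendsto_natCast_atTop_atTop
    filter_upwards [h1.eventually_ge_atTop (K / α ^ (2 * l))] with n hn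
    rw [div_le_iff₀ (by positivity)] at hn
    linarith
  have e2 := ev_sqrt C 0 (by positivity : (0 : ℝ) < 1 / (2 * 4 ^ l))
  obtain ⟨n₀, hn₀⟩ := eventually_atTop.1 (e1.and (e2.and (eventually_ge_atTop (4 * l))))
  refine ⟨C, n₀, hC0, ?_⟩
  intro n hn hln x hgx hx0 hx1
  obtain ⟨h1, h2, h3⟩ := hn₀ n hn
  obtain ⟨hOK, hCf⟩ := hok n α hln hα hα1 h1
  have hn1 : (1 : ℝ) ≤ n := by exact_mod_cast (by omega : 1 ≤ n)
  have hn0 : (0 : ℝ) < n := by linarith
  have hs0 : 0 ≤ (n : ℝ) ^ (l - 2) * √(n : ℝ) := by positivity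
  obtain ⟨N, m, hmN, hNn, hm, hcore⟩ := core l hl hα hα1 hOK
  have hCfC : Cf l α * ((n : ℝ) ^ (l - 2) * √(n : ℝ)) ≤ C * ((n : ℝ) ^ (l - 2) * √(n : ℝ)) :=
    mul_le_mul_of_nonneg_right hCf hs0
  obtain ⟨V, i1, i2, σ, hV, hσ, hcc⟩ := hcore oddM isSig_oddM (by
      intro q hq
      have h4 := rowB_oddM (N := N) hq
      have h5 : ((rowB (oddM : Fin N → Fin N → ℤ) q : ℤ) : ℝ) ≤ q := by exact_mod_cast h4
      refine h5.trans ?_
      have hqN : (q : ℝ) ≤ N := by exact_mod_cast hq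
      refine hqN.trans ?_
      apply Real.le_sqrt_of_sq_le
      rcases Nat.eq_zero_or_pos N with h | h
      · rw [h]; norm_num
      · have h6 : (1 : ℝ) ≤ N := by exact_mod_cast h
        have h7 : (0 : ℝ) ≤ (N : ℝ) ^ 2 := by positivity
        nlinarith) x (by exact_mod_cast hgx) (hCfC.trans (by exact_mod_cast hx0)) (by
      rw [ZB_oddM ho hmN]
      have hm2 : (n : ℝ) / 2 ≤ m := by
        have : α * n ≤ 1 / 4 * n := mul_le_mul_of_nonneg_right hα1 hn0.le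
        linarith
      have hm3 : 2 * l ≤ m := by
        have : (2 : ℝ) * l ≤ m := by
          have : (4 : ℝ) * l ≤ n := by exact_mod_cast h3
          linarith
        exact_mod_cast this
      have h4 := desc_lower (l := l) hm3 (by omega)
      have h5 : ((n : ℝ) / 4) ^ l ≤ ((m : ℝ) / 2) ^ l :=
        pow_le_pow_left₀ (by positivity) (by linarith) l
      have hnl : (n : ℝ) ^ l = n * n * (n : ℝ) ^ (l - 2) := by
        have : (n : ℝ) ^ l = (n : ℝ) ^ (l - 2) * n ^ 2 := by rw [← pow_add]; congr 1; omega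
        rw [this]; ring
      have hnl1 : (n : ℝ) ^ l = n * (n : ℝ) ^ (l - 1) := by
        rw [← pow_succ']; congr 1; omega
      have h6 : C * ((n : ℝ) ^ (l - 2) * √(n : ℝ)) ≤ 1 / (2 * 4 ^ l) * (n : ℝ) ^ l := by
        calc C * ((n : ℝ) ^ (l - 2) * √(n : ℝ)) = (C * √(n : ℝ)) * (n : ℝ) ^ (l - 2) := by ring
          _ ≤ (1 / (2 * 4 ^ l) * n) * (n : ℝ) ^ (l - 2) :=
              mul_le_mul_of_nonneg_right (by linarith) (by positivity)
          _ ≤ (1 / (2 * 4 ^ l) * (n * n)) * (n : ℝ) ^ (l - 2) := by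
              refine mul_le_mul_of_nonneg_right (mul_le_mul_of_nonneg_left ?_ (by positivity))
                (by positivity)
              nlinarith
          _ = _ := by rw [hnl]; ring
      have h7 : (l : ℝ) * ((n - m) * (n : ℝ) ^ (l - 1)) ≤ 1 / (2 * 4 ^ l) * (n : ℝ) ^ l := by
        calc (l : ℝ) * ((n - m) * (n : ℝ) ^ (l - 1)) ≤ l * ((2 * α * n) * (n : ℝ) ^ (l - 1)) := by
              refine mul_le_mul_of_nonneg_left (mul_le_mul_of_nonneg_right (by linarith)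
                (by positivity)) hl0.le
          _ = (2 * l * α) * (n : ℝ) ^ l := by rw [hnl1]; ring
          _ = 1 / (2 * 4 ^ l) * (n : ℝ) ^ l := by
              congr 1
              rw [hαdef]; field_simp; norm_num
      have h8 : ((n : ℝ) / 4) ^ l = 1 / (2 * 4 ^ l) * (n : ℝ) ^ l + 1 / (2 * 4 ^ l) * (n : ℝ) ^ l := by
        rw [div_pow]; field_simp; norm_num
      push_cast
      have h9 := hCfC.trans h6
      linarith)
  exact SS_of_type hl hln hV hσ hcc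

end

end MP_90430c
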