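import Mathlib
import Pool.Agent.Lib.MP_90430c_co.Win

/-! The windows for even `l`. -/

open Finset Filter

set_option linter.unusedSectionVars false

namespace MP_90430c

section

variable {l n : ℕ} [NeZero l]

lemma even_core (hl : 3 ≤ l) {K D : ℝ} (hK : 0 < K) (hD : 0 < D)
    (hok : ∀ (n : ℕ) (α : ℝ), l ≤ n → 0 < α →
      α ≤ 1 / 4 → K ≤ α ^ (2 * l) * √(n : ℝ) → OK l n α ∧ Cf l α ≤ D / α ^ l)
    {α : ℝ} (hα : 0 < α) (hα1 : α ≤ 1 / 4) (hln : l ≤ n) (hKn : K ≤ α ^ (2 * l) * √(n : ℝ)) {x : ℕ}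
    (hgx : gg n l ∣ x) (hx0 : D / α ^ l * ((n : ℝ) ^ (l - 2) * √(n : ℝ)) ≤ x)
    (hx1 : 4 * l * (x : ℝ) + (D / K + 2 * l + 3 / K) * (α * (n : ℝ) ^ l) ≤ (n.descFactorial l : ℕ)) :
    x ∈ SS n l := by
  obtain ⟨k, rfl⟩ : ∃ k, l = k + 3 := ⟨l - 3, by omega⟩
  obtain ⟨hOK, hCf⟩ := hok n α hln hα hα1 hKn
  have hn1 : (1 : ℝ) ≤ n := by exact_mod_cast (by omega : 1 ≤ n)
  have hn0 : (0 : ℝ) < n := by linarith
  set r := √(n : ℝ) with hr
  have hr1 : 1 ≤ r := by rw [hr, Real.one_le_sqrt]; exact hn1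
  have hrr : r * r = n := Real.mul_self_sqrt hn0.le
  have hp : 0 < α ^ (k + 3) := by positivity
  have hs0 : 0 ≤ (n : ℝ) ^ (k + 3 - 2) * r := by positivity
  obtain ⟨N, m, hmN, hNn, hm, hcore⟩ := core (k + 3) hl hα hα1 hOK
  have hCfC : Cf (k + 3) α * ((n : ℝ) ^ (k + 3 - 2) * r) ≤ D / α ^ (k + 3) * ((n : ℝ) ^ (k + 3 - 2) * r) :=
    mul_le_mul_of_nonneg_right hCf hs0
  obtain ⟨M, hM, hB⟩ := balStmt N
  have hNr : (N : ℝ) ≤ n := by exact_mod_cast hNn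
  have e0 : α ^ (2 * (k + 3)) ≤ α ^ (k + 3 + 1) := pow_le_pow_of_le_one hα.le (by linarith) (by omega)
  have e0' : α ^ (2 * (k + 3)) ≤ α := by
    calc α ^ (2 * (k + 3)) ≤ α ^ 1 := pow_le_pow_of_le_one hα.le (by linarith) (by omega)
      _ = α := pow_one α
  have hpow1 : (n : ℝ) ^ (k + 3) = r * r * (r * r) * (n : ℝ) ^ (k + 3 - 2) := by
    rw [hrr]
    have : k + 3 - 2 = k + 1 := by omega
    rw [this]; ring
  have hnk : (0 : ℝ) < (n : ℝ) ^ (k + 3 - 2) := by positivity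
  have b1 : D / α ^ (k + 3) * ((n : ℝ) ^ (k + 3 - 2) * r) ≤ D / K * (α * (n : ℝ) ^ (k + 3)) := by
    have c1 : K ≤ α ^ (k + 3 + 1) * r := hKn.trans (mul_le_mul_of_nonneg_right e0 (by linarith))
    have c2 : K ≤ α ^ (k + 3 + 1) * (r * r * r) := by
      refine c1.trans (mul_le_mul_of_nonneg_left ?_ (by positivity))
      nlinarith
    rw [hpow1, div_mul_eq_mul_div, div_mul_eq_mul_div, div_le_div_iff₀ hp hK]
    calc D * ((n : ℝ) ^ (k + 3 - 2) * r) * K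
        ≤ D * ((n : ℝ) ^ (k + 3 - 2) * r) * (α ^ (k + 3 + 1) * (r * r * r)) :=
          mul_le_mul_of_nonneg_left c2 (by positivity)
      _ = _ := by ring
  have b2 : ((k + 3 : ℕ) : ℝ) * ((n - m) * (n : ℝ) ^ (k + 3 - 1))
      ≤ 2 * ((k + 3 : ℕ) : ℝ) * (α * (n : ℝ) ^ (k + 3)) := by
    have : (n : ℝ) ^ (k + 3) = n * (n : ℝ) ^ (k + 3 - 1) := by rw [← pow_succ']; congr 1
    rw [this]
    calc ((k + 3 : ℕ) : ℝ) * ((n - m) * (n : ℝ) ^ (k + 3 - 1))
        ≤ ((k + 3 : ℕ) : ℝ) * ((2 * α * n) * (n : ℝ) ^ (k + 3 - 1)) := by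
          refine mul_le_mul_of_nonneg_left (mul_le_mul_of_nonneg_right (by linarith)
            (by positivity)) (by positivity)
      _ = _ := by ring
  have b3 : ((ZB (k + 3) m M : ℤ) : ℝ) ≤ 3 / K * (α * (n : ℝ) ^ (k + 3)) := by
    have c1 := (abs_le.1 (ZB_bal k hM hB m)).2
    have c2 : √(2 * (N : ℝ) ^ 3) ≤ √2 * (n * r) := by
      calc √(2 * (N : ℝ) ^ 3) ≤ √(2 * (n : ℝ) ^ 3) := by
            apply Real.sqrt_le_sqrt
            exact mul_le_mul_of_nonneg_left (pow_le_pow_left₀ (by positivity) hNr 3) (by norm_num)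
        _ = √2 * (n * r) := by
            rw [Real.sqrt_mul (by norm_num)]
            congr 1
            rw [show (n : ℝ) ^ 3 = n ^ 2 * n by ring, Real.sqrt_mul (by positivity),
              Real.sqrt_sq hn0.le]
    have c3 : √2 ≤ (2 : ℝ) := by
      rw [Real.sqrt_le_left (by norm_num)]; norm_num
    have c4 : √(2 * (N : ℝ) ^ 3) + N ≤ 3 * (n * r) := by
      have : √2 * (n * r) ≤ 2 * (n * r) := mul_le_mul_of_nonneg_right c3 (by positivity)
      have h2 : (n : ℝ) * 1 ≤ n * r := mul_le_mul_of_nonneg_left hr1 hn0.le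
      linarith
    have c5 : (N : ℝ) ^ (k + 1) ≤ (n : ℝ) ^ (k + 1) := pow_le_pow_left₀ (by positivity) hNr _
    refine c1.trans ?_
    calc (N : ℝ) ^ (k + 1) * (√(2 * (N : ℝ) ^ 3) + N)
        ≤ (n : ℝ) ^ (k + 1) * (3 * (n * r)) := mul_le_mul c5 c4 (by positivity) (by positivity)
      _ ≤ _ := by
          have h3 : K ≤ α * r := hKn.trans (mul_le_mul_of_nonneg_right e0' (by linarith))
          rw [div_mul_eq_mul_div, le_div_iff₀ hK]
          calc (n : ℝ) ^ (k + 1) * (3 * (n * r)) * K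
              ≤ (n : ℝ) ^ (k + 1) * (3 * (n * r)) * (α * r) :=
                mul_le_mul_of_nonneg_left h3 (by positivity)
            _ = 3 * (α * ((n : ℝ) ^ (k + 1) * n * (r * r))) := by ring
            _ = _ := by rw [hrr]; ring
  obtain ⟨V, i1, i2, σ, hV, hσ, hcc⟩ := hcore M hM (fun q _ => rowB_bal hB q) x
    (by exact_mod_cast hgx) (hCfC.trans (by exact_mod_cast hx0)) (by
      have h1 := hCfC.trans b1
      have e : (D / K + 2 * ((k + 3 : ℕ) : ℝ) + 3 / K) * (α * (n : ℝ) ^ (k + 3))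
          = D / K * (α * (n : ℝ) ^ (k + 3)) + 2 * ((k + 3 : ℕ) : ℝ) * (α * (n : ℝ) ^ (k + 3))
            + 3 / K * (α * (n : ℝ) ^ (k + 3)) := by ring
      rw [e] at hx1
      push_cast at hx1 b2 h1 ⊢
      linarith)
  exact SS_of_type hl hln hV hσ hcc

lemma even_small (hl : 3 ≤ l) : ∃ (C : ℝ) (n₀ : ℕ), 0 < C ∧ ∀ n : ℕ, n₀ ≤ n → l ≤ n →
    ∀ x : ℕ, gg n l ∣ x → C * ((n : ℝ) ^ (l - 2) * √(n : ℝ)) ≤ x →
      8 * l * (x : ℝ) ≤ (n.descFactorial l : ℕ) → x ∈ SS n l := by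
  obtain ⟨K, D, hK, hD, hok⟩ := ok_of l hl
  have hl0 : (0 : ℝ) < l := by exact_mod_cast (by omega : 0 < l)
  set E : ℝ := D / K + 2 * l + 3 / K with hE
  have hE0 : 0 < E := by rw [hE]; positivity
  set α : ℝ := min (1 / 4) (1 / (2 * 2 ^ l * E)) with hαdef
  have hα : 0 < α := by rw [hαdef]; positivity
  have hα1 : α ≤ 1 / 4 := min_le_left _ _
  have hα2 : E * α ≤ 1 / (2 * 2 ^ l) := by
    have h1 : α ≤ 1 / (2 * 2 ^ l * E) := min_le_right _ _
    calc E * α ≤ E * (1 / (2 * 2 ^ l * E)) := mul_le_mul_of_nonneg_left h1 hE0.le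
      _ = 1 / (2 * 2 ^ l) := by field_simp
  refine ⟨D / α ^ l, ?_⟩
  have e1 : ∀ᶠ n : ℕ in atTop, K ≤ α ^ (2 * l) * √(n : ℝ) := by
    have h1 : Tendsto (fun n : ℕ => √(n : ℝ)) atTop atTop :=
      Real.tendsto_sqrt_atTop.comp tendsto_natCast_atTop_atTop
    filter_upwards [h1.eventually_ge_atTop (K / α ^ (2 * l))] with n hn
    rw [div_le_iff₀ (by positivity)] at hn
    linarith
  obtain ⟨n₀, hn₀⟩ := eventually_atTop.1 (e1.and (eventually_ge_atTop (2 * l)))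
  refine ⟨n₀, by positivity, ?_⟩
  intro n hn hln x hgx hx0 hx1
  obtain ⟨h1, h2⟩ := hn₀ n hn
  refine even_core hl hK hD hok hα hα1 hln h1 hgx hx0 ?_
  have h3 := desc_lower (l := l) h2 (by omega)
  have h4 : (D / K + 2 * l + 3 / K) * (α * (n : ℝ) ^ l) ≤ 1 / 2 * ((n : ℝ) / 2) ^ l := by
    calc (D / K + 2 * l + 3 / K) * (α * (n : ℝ) ^ l) = (E * α) * (n : ℝ) ^ l := by rw [hE]; ring
      _ ≤ 1 / (2 * 2 ^ l) * (n : ℝ) ^ l := mul_le_mul_of_nonneg_right hα2 (by positivity)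
      _ = _ := by rw [div_pow]; field_simp
  linarith

lemma even_big (hl : 3 ≤ l) : ∃ (C : ℝ) (n₀ : ℕ), 0 < C ∧ ∀ n : ℕ, n₀ ≤ n → l ≤ n →
    ∀ x : ℕ, gg n l ∣ x → ((n.descFactorial l : ℕ) : ℝ) ≤ 8 * l * x →
      4 * l * (x : ℝ) + C * (n : ℝ) ^ ((l : ℝ) - 1 / (4 * l)) ≤ (n.descFactorial l : ℕ) →
        x ∈ SS n l := by
  obtain ⟨K, D, hK, hD, hok⟩ := ok_of l hl
  have hl0 : (0 : ℝ) < l := by exact_mod_cast (by omega : 0 < l)
  set E : ℝ := D / K + 2 * l + 3 / K with hE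
  have hE0 : 0 < E := by rw [hE]; positivity
  set c : ℝ := K ^ (1 / (2 * (l : ℝ))) with hc
  have hc0 : 0 < c := by rw [hc]; positivity
  -- the condition for large n: c * n^(-1/(4l)) ≤ small
  have e1 : ∀ᶠ n : ℕ in atTop, c * (n : ℝ) ^ (-(1 / (4 * (l : ℝ)))) ≤
      min (1 / 4) (1 / (8 * l * 2 ^ l * (D / K))) := by
    have h1 : Tendsto (fun n : ℕ => c * (n : ℝ) ^ (-(1 / (4 * (l : ℝ))))) atTop (nhds (c * 0)) :=
      ((tendsto_rpow_neg_atTop (by positivity)).comp tendsto_natCast_atTop_atTop).const_mul c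
    rw [mul_zero] at h1
    exact (h1.eventually_le_const (by positivity))
  obtain ⟨n₀, hn₀⟩ := eventually_atTop.1 (e1.and (eventually_ge_atTop (2 * l)))
  refine ⟨E * c, n₀, by positivity, ?_⟩
  intro n hn hln x hgx hx0 hx1
  obtain ⟨h1, h2⟩ := hn₀ n hn
  have hn0 : (0 : ℝ) < n := by exact_mod_cast (by omega : 0 < n)
  set α : ℝ := c * (n : ℝ) ^ (-(1 / (4 * (l : ℝ)))) with hαdef
  have hα : 0 < α := by rw [hαdef]; positivity
  have hα1 : α ≤ 1 / 4 := h1.trans (min_le_left _ _)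
  have hα2 : α ≤ 1 / (8 * l * 2 ^ l * (D / K)) := h1.trans (min_le_right _ _)
  have hKα : α ^ (2 * l) * √(n : ℝ) = K := by
    rw [hαdef, mul_pow, hc, ← Real.rpow_natCast, ← Real.rpow_natCast, ← Real.rpow_mul hK.le,
      ← Real.rpow_mul hn0.le, Real.sqrt_eq_rpow, mul_assoc, ← Real.rpow_add hn0]
    push_cast
    have e2 : (1 : ℝ) / (2 * l) * (2 * l) = 1 := by field_simp
    have e3 : -(1 / (4 * (l : ℝ))) * (2 * l) + 1 / 2 = 0 := by field_simp; ring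
    rw [e2, e3, Real.rpow_one, Real.rpow_zero, mul_one]
  have hαn : α * (n : ℝ) ^ l = c * (n : ℝ) ^ ((l : ℝ) - 1 / (4 * l)) := by
    rw [hαdef, ← Real.rpow_natCast (n : ℝ) l, mul_assoc, ← Real.rpow_add hn0]
    congr 2
    ring
  refine even_core hl hK hD hok hα hα1 hln hKα.ge hgx ?_ ?_
  · -- lower condition
    set r := √(n : ℝ) with hr
    have hn1 : (1 : ℝ) ≤ n := by exact_mod_cast (by omega : 1 ≤ n)
    have hr1 : 1 ≤ r := by rw [hr, Real.one_le_sqrt]; exact hn1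
    have hrr : r * r = n := Real.mul_self_sqrt hn0.le
    have e0 : α ^ (2 * l) ≤ α ^ (l + 1) := pow_le_pow_of_le_one hα.le (by linarith) (by omega)
    have hpow1 : (n : ℝ) ^ l = r * r * (r * r) * (n : ℝ) ^ (l - 2) := by
      rw [hrr, ← pow_two, ← pow_add]
      congr 1; omega
    have b1 : D / α ^ l * ((n : ℝ) ^ (l - 2) * r) ≤ D / K * (α * (n : ℝ) ^ l) := by
      have c1 : K ≤ α ^ (l + 1) * r := hKα.ge.trans (mul_le_mul_of_nonneg_right e0 (by linarith))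
      have c2 : K ≤ α ^ (l + 1) * (r * r * r) := by
        refine c1.trans (mul_le_mul_of_nonneg_left ?_ (by positivity))
        nlinarith
      rw [hpow1, div_mul_eq_mul_div, div_mul_eq_mul_div, div_le_div_iff₀ (by positivity) hK]
      calc D * ((n : ℝ) ^ (l - 2) * r) * K
          ≤ D * ((n : ℝ) ^ (l - 2) * r) * (α ^ (l + 1) * (r * r * r)) :=
            mul_le_mul_of_nonneg_left c2 (by positivity)
        _ = _ := by ring
    have b2 : D / K * (α * (n : ℝ) ^ l) ≤ 1 / (8 * l) * ((n : ℝ) / 2) ^ l := by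
      calc D / K * (α * (n : ℝ) ^ l) ≤ D / K * ((1 / (8 * l * 2 ^ l * (D / K))) * (n : ℝ) ^ l) :=
            mul_le_mul_of_nonneg_left (mul_le_mul_of_nonneg_right hα2 (by positivity)) (by positivity)
        _ = _ := by rw [div_pow]; field_simp
    have b3 := desc_lower (l := l) h2 (by omega)
    have b4 : 1 / (8 * (l : ℝ)) * ((n : ℝ) / 2) ^ l ≤ x := by
      rw [one_div, inv_mul_le_iff₀ (by positivity)]
      linarith
    exact b1.trans (b2.trans b4)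
  · rw [hαn]
    have : (D / K + 2 * (l : ℝ) + 3 / K) * (c * (n : ℝ) ^ ((l : ℝ) - 1 / (4 * l)))
        = E * c * (n : ℝ) ^ ((l : ℝ) - 1 / (4 * l)) := by rw [hE]; ring
    rw [this]
    exact hx1

end

end MP_90430c
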