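import Mathlib
import Pool.Agent.Lib.MP_90430c_co.WinEven

/-! The window theorem. -/

open Finset Filter

set_option linter.unusedSectionVars false

namespace MP_90430c

/-- The asymptotic maximum of `S(n,l)`: the number of circles for odd `l`, half of it for even `l`. -/
noncomputable def top (n l : ℕ) : ℝ :=
  if Even l then (n.descFactorial l : ℝ) / (4 * l) else (n.descFactorial l : ℝ) / (2 * l)

/-- The exponent of the saving at the upper end. -/
noncomputable def ex (l : ℕ) : ℝ := if Even l then 1 / (4 * l) else 3 / 2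

lemma desc_le (n l : ℕ) : (n.descFactorial l : ℝ) ≤ (n : ℝ) ^ l := by
  exact_mod_cast Nat.descFactorial_le_pow n l

lemma window_odd {l : ℕ} (hl : 3 ≤ l) (ho : Odd l) : ∃ C : ℝ, 0 < C ∧ ∀ n : ℕ, l ≤ n → ∀ x : ℕ,
    gg n l ∣ x → C * (n : ℝ) ^ ((l : ℝ) - 3 / 2) ≤ x →
      (x : ℝ) ≤ (n.descFactorial l : ℝ) / (2 * l) - C * (n : ℝ) ^ ((l : ℝ) - 3 / 2) → x ∈ SS n l := by
  have : NeZero l := ⟨by omega⟩
  obtain ⟨C, n₀, hC, h⟩ := odd_half (l := l) hl ho
  have hl0 : (0 : ℝ) < l := by exact_mod_cast (by omega : 0 < l)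
  have hl1 : (1 : ℝ) ≤ l := by exact_mod_cast (by omega : 1 ≤ l)
  have hCm : 0 < max C ((n₀ : ℝ) ^ 2) := lt_max_of_lt_left hC
  refine ⟨max C ((n₀ : ℝ) ^ 2), hCm, ?_⟩
  intro n hln x hgx hx0 hx1
  have hn1 : (1 : ℝ) ≤ n := by exact_mod_cast (by omega : 1 ≤ n)
  have hn0 : (0 : ℝ) < n := by linarith
  rw [rpow_half hl (by omega)] at hx0 hx1
  set r := √(n : ℝ) with hr
  have hr1 : 1 ≤ r := by rw [hr, Real.one_le_sqrt]; exact hn1
  have hnk : (0 : ℝ) < (n : ℝ) ^ (l - 2) := by positivity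
  have hs0 : 0 < (n : ℝ) ^ (l - 2) * r := by positivity
  rcases Nat.lt_or_ge n n₀ with hn | hn
  · exfalso
    have h1 : (n : ℝ) < n₀ := by exact_mod_cast hn
    have h2 : (n₀ : ℝ) ^ 2 * ((n : ℝ) ^ (l - 2) * r) ≤ max C ((n₀ : ℝ) ^ 2) * ((n : ℝ) ^ (l - 2) * r) :=
      mul_le_mul_of_nonneg_right (le_max_right _ _) hs0.le
    have h3 : (n.descFactorial l : ℝ) / (2 * l) ≤ (n : ℝ) ^ l := by
      rw [div_le_iff₀ (by positivity)]
      have h4 := desc_le n l
      have h5 : (0 : ℝ) ≤ (n : ℝ) ^ l := by positivity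
      nlinarith
    have h4 : (n : ℝ) ^ l = n ^ 2 * (n : ℝ) ^ (l - 2) := by rw [← pow_add]; congr 1; omega
    have h5 : (n : ℝ) ^ 2 * (n : ℝ) ^ (l - 2) < (n₀ : ℝ) ^ 2 * ((n : ℝ) ^ (l - 2) * r) := by
      calc (n : ℝ) ^ 2 * (n : ℝ) ^ (l - 2) < (n₀ : ℝ) ^ 2 * (n : ℝ) ^ (l - 2) :=
            mul_lt_mul_of_pos_right (pow_lt_pow_left₀ h1 hn0.le (by norm_num)) hnk
        _ = (n₀ : ℝ) ^ 2 * ((n : ℝ) ^ (l - 2) * 1) := by ring
        _ ≤ _ := mul_le_mul_of_nonneg_left (mul_le_mul_of_nonneg_left hr1 hnk.le) (by positivity)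
    have h6 : 0 < max C ((n₀ : ℝ) ^ 2) * ((n : ℝ) ^ (l - 2) * r) := mul_pos hCm hs0
    linarith
  · have hCC : C * ((n : ℝ) ^ (l - 2) * r) ≤ max C ((n₀ : ℝ) ^ 2) * ((n : ℝ) ^ (l - 2) * r) :=
      mul_le_mul_of_nonneg_right (le_max_left _ _) hs0.le
    rcases le_or_gt (4 * l * (x : ℝ)) (n.descFactorial l : ℕ) with hx | hx
    · exact h n hn hln x hgx (hCC.trans hx0) hx
    · obtain ⟨T, hT, hTS⟩ := total_mem hl hln ho
      have hTr : (n.descFactorial l : ℝ) = 2 * l * T := by exact_mod_cast hT.symm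
      have hT2 : (n.descFactorial l : ℝ) / (2 * l) = T := by rw [hTr]; field_simp
      rw [hT2] at hx1
      have hxT : x ≤ T := by
        have : (x : ℝ) ≤ T := by
          have : 0 ≤ max C ((n₀ : ℝ) ^ 2) * ((n : ℝ) ^ (l - 2) * r) := (mul_pos hCm hs0).le
          linarith
        exact_mod_cast this
      have hy : ((T - x : ℕ) : ℝ) = T - x := by rw [Nat.cast_sub hxT]
      have h1 : T - x ∈ SS n l := by
        refine h n hn hln (T - x) ((Nat.dvd_sub (SS_dvd hl hln hTS) hgx)) ?_ ?_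
        · rw [hy]
          linarith
        · rw [hy, hTr]
          rw [hTr] at hx
          linarith
      refine SS_compl hl hln ho (x := T - x) ?_ h1
      rw [Nat.sub_add_cancel hxT, hT]

lemma window_even {l : ℕ} (hl : 3 ≤ l) : ∃ C : ℝ, 0 < C ∧ ∀ n : ℕ, l ≤ n → ∀ x : ℕ,
    gg n l ∣ x → C * (n : ℝ) ^ ((l : ℝ) - 3 / 2) ≤ x →
      (x : ℝ) ≤ (n.descFactorial l : ℝ) / (4 * l) - C * (n : ℝ) ^ ((l : ℝ) - 1 / (4 * l)) →
        x ∈ SS n l := by
  have : NeZero l := ⟨by omega⟩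
  obtain ⟨C1, n₁, hC1, h1⟩ := even_small (l := l) hl
  obtain ⟨C2, n₂, hC2, h2⟩ := even_big (l := l) hl
  have hl0 : (0 : ℝ) < l := by exact_mod_cast (by omega : 0 < l)
  have hl1 : (1 : ℝ) ≤ l := by exact_mod_cast (by omega : 1 ≤ l)
  refine ⟨C1 + C2 + n₁ + n₂, by positivity, ?_⟩
  intro n hln x hgx hx0 hx1
  have hn1 : (1 : ℝ) ≤ n := by exact_mod_cast (by omega : 1 ≤ n)
  have hn0 : (0 : ℝ) < n := by linarith
  have hP : (0 : ℝ) < (n : ℝ) ^ ((l : ℝ) - 1 / (4 * l)) := by positivity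
  have hlarge : (n₁ : ℝ) + n₂ ≤ n := by
    by_contra hcon
    push Not at hcon
    have h3 : (n : ℝ) ^ l ≤ n * (n : ℝ) ^ ((l : ℝ) - 1 / (4 * l)) := by
      have e1 : (n : ℝ) * (n : ℝ) ^ ((l : ℝ) - 1 / (4 * l)) = (n : ℝ) ^ (1 + ((l : ℝ) - 1 / (4 * l))) := by
        rw [Real.rpow_add hn0, Real.rpow_one]
      rw [e1, ← Real.rpow_natCast]
      refine Real.rpow_le_rpow_of_exponent_le hn1 ?_
      have : 1 / (4 * (l : ℝ)) ≤ 1 := by
        rw [div_le_one (by positivity)]; linarith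
      linarith
    have h4 : (n.descFactorial l : ℝ) / (4 * l) ≤ (n : ℝ) ^ l := by
      rw [div_le_iff₀ (by positivity)]
      have h4 := desc_le n l
      have h5 : (0 : ℝ) ≤ (n : ℝ) ^ l := by positivity
      nlinarith
    have h5 : (n : ℝ) * (n : ℝ) ^ ((l : ℝ) - 1 / (4 * l))
        < (C1 + C2 + n₁ + n₂) * (n : ℝ) ^ ((l : ℝ) - 1 / (4 * l)) :=
      mul_lt_mul_of_pos_right (by linarith) hP
    have h6 : (0 : ℝ) ≤ x := by positivity
    linarith
  have hn1' : n₁ ≤ n := by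
    have : (n₁ : ℝ) ≤ n := by
      have : (0 : ℝ) ≤ n₂ := by positivity
      linarith
    exact_mod_cast this
  have hn2' : n₂ ≤ n := by
    have : (n₂ : ℝ) ≤ n := by
      have : (0 : ℝ) ≤ n₁ := by positivity
      linarith
    exact_mod_cast this
  rcases le_or_gt (8 * l * (x : ℝ)) (n.descFactorial l : ℕ) with hx | hx
  · refine h1 n hn1' hln x hgx ?_ hx
    rw [← rpow_half hl (by omega)]
    refine le_trans (mul_le_mul_of_nonneg_right ?_ (by positivity)) hx0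
    have : (0 : ℝ) ≤ n₁ := by positivity
    have : (0 : ℝ) ≤ n₂ := by positivity
    linarith
  · refine h2 n hn2' hln x hgx hx.le ?_
    have h3 : 4 * l * (x : ℝ) ≤ (n.descFactorial l : ℝ)
        - 4 * l * ((C1 + C2 + n₁ + n₂) * (n : ℝ) ^ ((l : ℝ) - 1 / (4 * l))) := by
      calc 4 * l * (x : ℝ) ≤ 4 * l * ((n.descFactorial l : ℝ) / (4 * l)
            - (C1 + C2 + n₁ + n₂) * (n : ℝ) ^ ((l : ℝ) - 1 / (4 * l))) :=
          mul_le_mul_of_nonneg_left hx1 (by positivity)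
        _ = _ := by field_simp
    have h4 : C2 * (n : ℝ) ^ ((l : ℝ) - 1 / (4 * l))
        ≤ 4 * l * ((C1 + C2 + n₁ + n₂) * (n : ℝ) ^ ((l : ℝ) - 1 / (4 * l))) := by
      rw [← mul_assoc]
      refine mul_le_mul_of_nonneg_right ?_ hP.le
      have h5 : (0 : ℝ) ≤ n₁ := by positivity
      have h6 : (0 : ℝ) ≤ n₂ := by positivity
      nlinarith
    linarith

theorem window (l : ℕ) (hl : 3 ≤ l) : ∃ C : ℝ, ∀ n : ℕ, l ≤ n →
    (∀ x ∈ SS n l, gg n l ∣ x ∧ (x : ℝ) ≤ top n l + C * (n : ℝ) ^ (l - 1)) ∧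
    (∀ x : ℕ, gg n l ∣ x → C * (n : ℝ) ^ ((l : ℝ) - 3 / 2) ≤ x →
      (x : ℝ) ≤ top n l - C * (n : ℝ) ^ ((l : ℝ) - ex l) → x ∈ SS n l) := by
  have : NeZero l := ⟨by omega⟩
  have hl0 : (0 : ℝ) < l := by exact_mod_cast (by omega : 0 < l)
  rcases Nat.even_or_odd l with he | ho
  · obtain ⟨C, hC, h⟩ := window_even hl
    refine ⟨max C (l / 4), fun n hln => ⟨fun x hx => ⟨SS_dvd hl hln hx, ?_⟩, ?_⟩⟩
    · refine (SS_even_le hl hln he hx).trans ?_
      unfold top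
      rw [if_pos he]
      exact add_le_add le_rfl (mul_le_mul_of_nonneg_right (le_max_right _ _) (by positivity))
    · intro x hgx hx0 hx1
      have hn0 : (0 : ℝ) < n := by exact_mod_cast (by omega : 0 < n)
      unfold top ex at hx1
      rw [if_pos he, if_pos he] at hx1
      refine h n hln x hgx (le_trans (mul_le_mul_of_nonneg_right (le_max_left _ _) (by positivity)) hx0) ?_
      refine hx1.trans (sub_le_sub le_rfl (mul_le_mul_of_nonneg_right (le_max_left _ _) (by positivity)))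
  · have hne : ¬ Even l := Nat.not_even_iff_odd.2 ho
    obtain ⟨C, hC, h⟩ := window_odd hl ho
    refine ⟨C, fun n hln => ⟨fun x hx => ⟨SS_dvd hl hln hx, ?_⟩, ?_⟩⟩
    · unfold top
      rw [if_neg hne]
      have hn' : l ≤ Fintype.card (Fin n) := by rw [Fintype.card_fin]; exact hln
      obtain ⟨σ, hσ, hc⟩ := (mem_SS hl hln x).1 hx
      have h1 := cc_compl hl hn' ho hσ
      have h2 := cc_spec hl hn' hσ.neg
      have h3 : Z l (fun x y => -σ x y) ≤ ((Fintype.card (Fin n)).descFactorial l : ℤ) := by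
        unfold Z
        rw [← card_inj (V := Fin n)]
        refine (le_abs_self _).trans ((Finset.abs_sum_le_sum_abs _ _).trans ?_)
        rw [Finset.sum_congr rfl fun f _ => abs_cp hσ.neg f, Finset.sum_const, nsmul_eq_mul, mul_one]
      have h4 : 0 ≤ 4 * (l : ℤ) * cc l (fun x y => -σ x y) := by rw [h2]; linarith
      rw [hc, Fintype.card_fin] at h1
      have h5 : 2 * (l : ℤ) * x ≤ (n.descFactorial l : ℤ) := by linarith
      have h6 : 2 * (l : ℝ) * x ≤ (n.descFactorial l : ℝ) := by exact_mod_cast h5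
      have h7 : (x : ℝ) ≤ (n.descFactorial l : ℝ) / (2 * l) := by
        rw [le_div_iff₀ (by positivity)]; linarith
      have h8 : 0 ≤ C * (n : ℝ) ^ (l - 1) := by positivity
      linarith
    · intro x hgx hx0 hx1
      unfold top ex at hx1
      rw [if_neg hne, if_neg hne] at hx1
      exact h n hln x hgx hx0 hx1

end MP_90430c
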