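import Pool.Agent.Lib.MP_90430c_co.TopC
import Pool.Agent.Lib.MP_90430c_co.TopE
import Pool.Agent.Lib.MP_90430c_co.TopF
import Pool.Agent.Lib.MP_90430c_co.Window

/-! The top end of `S(n,l)` for even `l`, part G: the theorem. -/

open Finset

set_option linter.unusedSectionVars false

namespace MP_90430c

namespace Top

/-- The upper bound. -/
lemma upper (k n : ℕ) (hn : k + 2 + (k + 2) ≤ n) {x : ℕ} (hx : x ∈ SS n (k + 2 + (k + 2))) :
    4 * ((k + 2 + (k + 2) : ℕ) : ℝ) * x ≤ (n.descFactorial (k + 2 + (k + 2)) : ℝ) +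
      2 ^ ((2 * k + 4) ^ 3) * (n : ℝ) ^ (k + 3) := by
  obtain ⟨σ, hσ, h⟩ := (mem_SS (by omega) hn x).1 hx
  have h1 := cc_spec (l := k + 2 + (k + 2)) (by omega) (by rw [Fintype.card_fin]; exact hn) hσ
  have h2 := Z_lower k hσ
  rw [Fintype.card_fin] at h1 h2
  rw [h] at h1
  have h3 : 4 * ((k + 2 + (k + 2) : ℕ) : ℝ) * x = (n.descFactorial (k + 2 + (k + 2)) : ℝ) -
      ((Z (k + 2 + (k + 2)) σ : ℤ) : ℝ) := by exact_mod_cast h1
  rw [h3]
  linarith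

/-- From a signature to an element. -/
lemma lower_of {l n : ℕ} [NeZero l] (hl : 3 ≤ l) (hn : l ≤ n) {V : Type} [Fintype V]
    [DecidableEq V] (hV : Fintype.card V = n) {σ : V → V → ℤ} (hσ : IsSig σ) {b : ℝ} (hb0 : 0 ≤ b)
    (hb : ((Z l σ : ℤ) : ℝ) ≤ -b) : ∃ x ∈ SS n l, (n.descFactorial l : ℝ) + b ≤ 4 * (l : ℝ) * x := by
  have h1 := cc_spec (l := l) hl (by rw [hV]; exact hn) hσ
  rw [hV] at h1
  have h2 : 4 * (l : ℝ) * ((cc l σ : ℤ) : ℝ) = (n.descFactorial l : ℝ) - ((Z l σ : ℤ) : ℝ) := by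
    exact_mod_cast h1
  have hl0 : (0 : ℝ) < l := by exact_mod_cast (by omega : 0 < l)
  have hc : (0 : ℝ) ≤ ((cc l σ : ℤ) : ℝ) := by
    by_contra hcon
    push Not at hcon
    have h3 : 4 * (l : ℝ) * ((cc l σ : ℤ) : ℝ) < 0 := mul_neg_of_pos_of_neg (by positivity) hcon
    have h4 : (0 : ℝ) ≤ (n.descFactorial l : ℝ) := by positivity
    linarith
  have hc' : 0 ≤ cc l σ := by exact_mod_cast hc
  obtain ⟨x, hx⟩ := Int.eq_ofNat_of_zero_le hc'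
  refine ⟨x, SS_of_type hl hn hV hσ hx, ?_⟩
  rw [hx] at h2
  have h5 : (((x : ℕ) : ℤ) : ℝ) = (x : ℝ) := by push_cast; rfl
  rw [h5] at h2
  linarith

/-- The lower bound for `l ≥ 6`. -/
lemma lower_six (k n : ℕ) (hn : k + 3 + (k + 3) ≤ n) : ∃ x ∈ SS n (k + 3 + (k + 3)),
    (n.descFactorial (k + 3 + (k + 3)) : ℝ) + ((n / (k + 3 + (k + 3)) : ℕ) : ℝ) ^ (k + 4) ≤
      4 * ((k + 3 + (k + 3) : ℕ) : ℝ) * x := by
  set g := n / (k + 3 + (k + 3)) with hg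
  have h1 : (k + 3 + (k + 3)) * g ≤ n := Nat.mul_div_le n _
  obtain ⟨σ, hσ, hZ⟩ := exists_six g k (n - (k + 3 + (k + 3)) * g)
  have hV : Fintype.card (HV g (k + 3) (n - (k + 3 + (k + 3)) * g)) = n := by
    rw [card_HV]
    have : g * (k + 3) + (k + 3) * g = (k + 3 + (k + 3)) * g := by ring
    omega
  refine lower_of (by omega) hn hV hσ (by positivity) ?_
  have h2 : ((Z (k + 3 + (k + 3)) σ : ℤ) : ℝ) ≤ ((-((g ^ (k + 4) : ℕ) : ℤ) : ℤ) : ℝ) := by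
    exact_mod_cast hZ
  refine h2.trans (le_of_eq ?_)
  push_cast
  rfl

/-- The lower bound for `l = 4`. -/
lemma lower_four (n : ℕ) (hn : 4 ≤ n) : ∃ x ∈ SS n 4,
    (n.descFactorial 4 : ℝ) + (n : ℝ) ^ 3 / 64 ≤ 4 * ((4 : ℕ) : ℝ) * x := by
  obtain ⟨W, i1, i2, σ, hV, hσ, hZ⟩ := exists_four hn
  refine lower_of (l := 4) (by norm_num) hn hV hσ (by positivity) ?_
  have h2 : 64 * ((Z 4 σ : ℤ) : ℝ) ≤ -((n : ℝ) ^ 3) := by exact_mod_cast hZ
  linarith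

/-- The theorem. -/
theorem topEnd (l n : ℕ) (he : Even l) (hl : 4 ≤ l) (hn : l ≤ n) :
    (∀ x ∈ SS n l, (x : ℝ) ≤ top n l + 2 ^ (l ^ 3) / (4 * l) * (n : ℝ) ^ (l / 2 + 1)) ∧
    ∃ x ∈ SS n l, top n l + ((n : ℝ) / (2 * l)) ^ (l / 2 + 1) / (4 * l) ≤ x := by
  obtain ⟨j, rfl⟩ : ∃ j, l = j + 2 + (j + 2) := by
    obtain ⟨t, ht⟩ := he
    exact ⟨t - 2, by omega⟩
  have e1 : (j + 2 + (j + 2)) / 2 + 1 = j + 3 := by omega
  rw [e1]
  unfold top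
  rw [if_pos he]
  set L : ℝ := ((j + 2 + (j + 2) : ℕ) : ℝ) with hL
  have hL4 : (4 : ℝ) ≤ L := by rw [hL]; exact_mod_cast hl
  have hL0 : (0 : ℝ) < 4 * L := by linarith
  have hnL : L ≤ n := by rw [hL]; exact_mod_cast hn
  constructor
  · intro x hx
    have h1 := upper j n hn hx
    rw [show (2 * j + 4) ^ 3 = (j + 2 + (j + 2)) ^ 3 by congr 1; ring] at h1
    have h2 : (x : ℝ) ≤ ((n.descFactorial (j + 2 + (j + 2)) : ℝ) +
        2 ^ ((j + 2 + (j + 2)) ^ 3) * (n : ℝ) ^ (j + 3)) / (4 * L) := by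
      rw [le_div_iff₀ hL0]
      linarith
    refine h2.trans (le_of_eq ?_)
    ring
  · have key : ∀ b : ℝ, ((n : ℝ) / (2 * L)) ^ (j + 3) ≤ b →
        (∃ x ∈ SS n (j + 2 + (j + 2)), (n.descFactorial (j + 2 + (j + 2)) : ℝ) + b ≤ 4 * L * x) →
        ∃ x ∈ SS n (j + 2 + (j + 2)), (n.descFactorial (j + 2 + (j + 2)) : ℝ) / (4 * L) +
          ((n : ℝ) / (2 * L)) ^ (j + 3) / (4 * L) ≤ x := by
      rintro b hb ⟨x, hx, h⟩
      refine ⟨x, hx, ?_⟩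
      rw [← add_div, div_le_iff₀ hL0]
      linarith
    rcases Nat.eq_zero_or_pos j with hj | hj
    · subst hj
      refine key ((n : ℝ) ^ 3 / 64) ?_ (lower_four n hn)
      have h8 : L = 4 := by rw [hL]; norm_num
      rw [h8]
      have h9 : (0 : ℝ) ≤ (n : ℝ) ^ 3 := by positivity
      norm_num [div_pow]
      linarith
    · obtain ⟨k, rfl⟩ : ∃ k, j = k + 1 := ⟨j - 1, by omega⟩
      have h1 := lower_six k n hn
      refine key _ ?_ h1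
      have h2 : (n : ℝ) / (2 * L) ≤ ((n / (k + 3 + (k + 3)) : ℕ) : ℝ) := by
        rw [div_le_iff₀ (by linarith)]
        have h3 : n < (k + 3 + (k + 3)) * (n / (k + 3 + (k + 3)) + 1) :=
          Nat.lt_mul_div_succ n (by omega)
        have h4 : 1 ≤ n / (k + 3 + (k + 3)) := (Nat.one_le_div_iff (by omega)).2 hn
        have h5 : n ≤ n / (k + 3 + (k + 3)) * (2 * (k + 3 + (k + 3))) := by nlinarith
        have h6 : (n : ℝ) ≤ ((n / (k + 3 + (k + 3)) : ℕ) : ℝ) * (2 * ((k + 3 + (k + 3) : ℕ) : ℝ)) := by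
          exact_mod_cast h5
        exact h6
      exact pow_le_pow_left₀ (by positivity) h2 _

end Top

end MP_90430c
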