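import Mathlib
import Pool.Agent.Lib.MP_90430c_co.Flip

/-! Exact numbers of injective sequences with conditions on one or two entries. -/

open Finset

set_option linter.unusedSectionVars false

namespace MP_90430c

section

variable {V : Type*} [Fintype V] [DecidableEq V]

lemma card_av (a : ℕ) : ∀ X : Finset V, ((av a X).card : ℤ) = ((Xᶜ.card).descFactorial a : ℕ) := by
  induction a with
  | zero => intro X; rw [av_zero]; simp
  | succ a ih =>
    intro X
    have h1 : ((av (a + 1) X).card : ℤ) = ∑ q ∈ av (a + 1) X, (1 : ℤ) := by simp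
    rw [h1, sum_cons']
    have h2 : ∀ v ∈ Xᶜ, ∑ p ∈ av a (insert v X), (1 : ℤ) = (((Xᶜ.card - 1).descFactorial a : ℕ) : ℤ) := by
      intro v hv
      have h3 : ∑ p ∈ av a (insert v X), (1 : ℤ) = ((av a (insert v X)).card : ℤ) := by simp
      rw [h3, ih]
      have h4 : (insert v X)ᶜ = Xᶜ.erase v := by
        ext z; simp only [Finset.mem_compl, Finset.mem_insert, Finset.mem_erase, not_or]
      rw [h4, Finset.card_erase_of_mem hv]
    rw [Finset.sum_congr rfl h2, Finset.sum_const, nsmul_eq_mul]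
    rcases Nat.eq_zero_or_pos Xᶜ.card with h | h
    · rw [h]; simp
    · obtain ⟨k, hk⟩ : ∃ k, Xᶜ.card = k + 1 := ⟨Xᶜ.card - 1, by omega⟩
      rw [hk, Nat.add_sub_cancel, Nat.succ_descFactorial_succ]
      push_cast
      ring

lemma av_perm {a : ℕ} (e : Equiv.Perm (Fin a)) (X : Finset V) (G : (Fin a → V) → ℤ) :
    ∑ g ∈ av a X, G (fun i => g (e i)) = ∑ g ∈ av a X, G g := by
  refine Finset.sum_nbij' (fun g i => g (e i)) (fun g i => g (e.symm i)) ?_ ?_ ?_ ?_ ?_
  · intro g hg
    rw [mem_av] at hg ⊢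
    exact ⟨hg.1.comp e.injective, fun i => hg.2 _⟩
  · intro g hg
    rw [mem_av] at hg ⊢
    exact ⟨hg.1.comp e.symm.injective, fun i => hg.2 _⟩
  · intro g _; funext i; simp
  · intro g _; funext i; simp
  · intro g _; rfl

lemma exists_perm_two {m : ℕ} {i j : Fin (m + 2)} (hij : i ≠ j) :
    ∃ e : Equiv.Perm (Fin (m + 2)), e 0 = i ∧ e 1 = j := by
  have h01 : (0 : Fin (m + 2)) ≠ 1 := by
    intro h
    have := congrArg Fin.val h
    simp at this
  refine ⟨(Equiv.swap 1 (Equiv.swap 0 i j)).trans (Equiv.swap 0 i), ?_, ?_⟩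
  · have h1 : Equiv.swap 0 i j ≠ 0 := by
      intro h
      have h2 : j = Equiv.swap 0 i 0 := by
        have h3 := congrArg (Equiv.swap 0 i) h
        rwa [Equiv.swap_apply_self] at h3
      rw [Equiv.swap_apply_left] at h2
      exact hij h2.symm
    rw [Equiv.trans_apply, Equiv.swap_apply_of_ne_of_ne h01 (Ne.symm h1), Equiv.swap_apply_left]
  · rw [Equiv.trans_apply, Equiv.swap_apply_left, Equiv.swap_apply_self]

lemma card_erase_two {X : Finset V} {u v : V} (hu : u ∈ Xᶜ) (hv : v ∈ Xᶜ) (huv : u ≠ v) :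
    (insert v (insert u X))ᶜ.card = Xᶜ.card - 2 := by
  have h4 : (insert v (insert u X))ᶜ = (Xᶜ.erase u).erase v := by
    ext z; simp only [Finset.mem_compl, Finset.mem_insert, Finset.mem_erase, not_or]
  rw [h4, Finset.card_erase_of_mem (Finset.mem_erase.2 ⟨huv.symm, hv⟩), Finset.card_erase_of_mem hu]
  omega

/-- One condition. -/
lemma count_one (m : ℕ) (X : Finset V) (i : Fin (m + 1)) (P : V → Prop) [DecidablePred P] :
    ∑ g ∈ av (m + 1) X, (if P (g i) then (1 : ℤ) else 0)
      = (Xᶜ.filter P).card * (((Xᶜ.card - 1).descFactorial m : ℕ) : ℤ) := by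
  rw [← av_perm (Equiv.swap 0 i)]
  have h0 : ∀ g : Fin (m + 1) → V, (if P ((fun i' => g (Equiv.swap 0 i i')) i) then (1 : ℤ) else 0)
      = if P (g 0) then (1 : ℤ) else 0 := by
    intro g
    beta_reduce
    rw [Equiv.swap_apply_right]
  rw [Finset.sum_congr rfl fun g _ => h0 g, sum_cons']
  have h2 : ∀ v ∈ Xᶜ, ∑ p ∈ av m (insert v X),
      (if P ((Fin.cons v p : Fin (m + 1) → V) 0) then (1 : ℤ) else 0)
      = if P v then (((Xᶜ.card - 1).descFactorial m : ℕ) : ℤ) else 0 := by
    intro v hv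
    simp only [Fin.cons_zero]
    split_ifs
    · rw [Finset.sum_const, nsmul_eq_mul, mul_one, card_av]
      have h4 : (insert v X)ᶜ = Xᶜ.erase v := by
        ext z; simp only [Finset.mem_compl, Finset.mem_insert, Finset.mem_erase, not_or]
      rw [h4, Finset.card_erase_of_mem hv]
    · simp
  rw [Finset.sum_congr rfl h2, ← Finset.sum_filter, Finset.sum_const, nsmul_eq_mul]

/-- The number of ordered pairs of different elements of `Y` with the property `P`. -/
def prs (Y : Finset V) (P : V → V → Prop) [∀ u, DecidablePred (P u)] : ℤ :=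
  ∑ u ∈ Y, ∑ v ∈ Y.erase u, if P u v then (1 : ℤ) else 0

/-- Two conditions. -/
lemma count_two (m : ℕ) (X : Finset V) {i j : Fin (m + 2)} (hij : i ≠ j) (P : V → V → Prop)
    [∀ u, DecidablePred (P u)] :
    ∑ g ∈ av (m + 2) X, (if P (g i) (g j) then (1 : ℤ) else 0)
      = prs Xᶜ P * (((Xᶜ.card - 2).descFactorial m : ℕ) : ℤ) := by
  obtain ⟨e, he0, he1⟩ := exists_perm_two hij
  rw [← av_perm e.symm]
  have h0 : ∀ g : Fin (m + 2) → V, (if P ((fun i' => g (e.symm i')) i) ((fun i' => g (e.symm i')) j)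
      then (1 : ℤ) else 0) = if P (g 0) (g 1) then (1 : ℤ) else 0 := by
    intro g
    beta_reduce
    rw [← he0, ← he1, Equiv.symm_apply_apply, Equiv.symm_apply_apply]
  rw [Finset.sum_congr rfl fun g _ => h0 g, sum_cons']
  unfold prs
  rw [Finset.sum_mul]
  refine Finset.sum_congr rfl fun u hu => ?_
  rw [sum_cons']
  have h4 : (insert u X)ᶜ = Xᶜ.erase u := by
    ext z; simp only [Finset.mem_compl, Finset.mem_insert, Finset.mem_erase, not_or]
  rw [h4, Finset.sum_mul]
  refine Finset.sum_congr rfl fun v hv => ?_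
  rw [Finset.mem_erase] at hv
  have e1 : ∀ p : Fin m → V, (Fin.cons u (Fin.cons v p : Fin (m + 1) → V) : Fin (m + 2) → V) 0 = u :=
    fun p => rfl
  have e2 : ∀ p : Fin m → V, (Fin.cons u (Fin.cons v p : Fin (m + 1) → V) : Fin (m + 2) → V) 1 = v :=
    fun p => rfl
  simp only [e1, e2]
  split_ifs
  · rw [Finset.sum_const, nsmul_eq_mul, mul_one, card_av, card_erase_two hu hv.2 (Ne.symm hv.1), one_mul]
  · simp

end

end MP_90430c
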