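import Pool.Agent.Lib.MP_90430c_co.TopB
import Pool.Agent.Lib.MP_90430c_co.Defs

/-! The top end of `S(n,l)` for even `l`, part C: the signed number of closed sequences is at
least `-C n^(l/2+1)`. -/

open Finset Matrix

set_option linter.unusedSectionVars false

namespace MP_90430c

namespace Top

variable {V : Type*} [Fintype V] [DecidableEq V]

/-- The sign vectors `D` multiplied by `η` at the places `i` and `j`. -/
def tw {l : ℕ} (D : Fin l → V → ℤˣ) (i j : Fin l) (η : V → ℤˣ) : Fin l → V → ℤˣ :=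
  fun t => D t * (if t = i then η else 1) * (if t = j then η else 1)

lemma sd_tw {l : ℕ} (D : Fin l → V → ℤˣ) (i j : Fin l) (η : V → ℤˣ) (f : Fin l → V) :
    sd l (tw D i j η) f = sd l D f * (((η (f i) : ℤ) : ℝ) * ((η (f j) : ℤ) : ℝ)) := by
  have h : ∀ i : Fin l, ∏ t, ((((if t = i then η else 1 : V → ℤˣ) (f t) : ℤˣ) : ℤ) : ℝ) =
      ((η (f i) : ℤ) : ℝ) := by
    intro i
    rw [Finset.prod_eq_single i]
    · rw [if_pos rfl]
    · intro t _ ht
      rw [if_neg ht]
      simp
    · intro h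
      exact absurd (Finset.mem_univ i) h
  rw [← h i, ← h j]
  unfold sd tw
  rw [← Finset.prod_mul_distrib, ← Finset.prod_mul_distrib]
  refine Finset.prod_congr rfl fun t _ => ?_
  rw [Pi.mul_apply, Pi.mul_apply]
  push_cast
  ring

/-- Equality of two terms as an average. -/
lemma avg_delta {l : ℕ} [NeZero l] (A : Matrix V V ℝ) (D : Fin l → V → ℤˣ) (i j : Fin l)
    (X : (Fin l → V) → ℝ) :
    ∑ f : Fin l → V, ca l A f * sd l D f * (if f i = f j then 1 else 0) * X f =
      av (fun η : V → ℤˣ => ∑ f : Fin l → V, ca l A f * sd l (tw D i j η) f * X f) := by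
  rw [av_sum]
  refine Finset.sum_congr rfl fun f _ => ?_
  rw [← av_two]
  have : (fun η : V → ℤˣ => ca l A f * sd l (tw D i j η) f * X f) =
      fun η => (ca l A f * sd l D f * X f) * (((η (f i) : ℤ) : ℝ) * ((η (f j) : ℤ) : ℝ)) := by
    funext η
    rw [sd_tw]
    ring
  rw [this, av_mul]
  ring

/-- The sum over closed sequences with two given equal terms. -/
noncomputable def TT (l : ℕ) [NeZero l] (A : Matrix V V ℝ) (D : Fin l → V → ℤˣ)
    (i j : Fin l) : ℝ :=
  ∑ f : Fin l → V, ca l A f * sd l D f * (if f i = f j then 1 else 0)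

lemma TT_comm {l : ℕ} [NeZero l] (A : Matrix V V ℝ) (D : Fin l → V → ℤˣ) (i j : Fin l) :
    TT l A D i j = TT l A D j i := by
  unfold TT
  refine Finset.sum_congr rfl fun f _ => ?_
  by_cases h : f i = f j
  · rw [if_pos h, if_pos h.symm]
  · rw [if_neg h, if_neg fun h' => h h'.symm]

lemma TT_shift {l : ℕ} [NeZero l] (A : Matrix V V ℝ) (D : Fin l → V → ℤˣ) (p q c : Fin l) :
    TT l A D (p + c) (q + c) = TT l A (fun t => D (t + c)) p q := by
  unfold TT
  rw [← ((Equiv.addRight c).arrowCongr (Equiv.refl V)).sum_comp]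
  refine Finset.sum_congr rfl fun f _ => ?_
  have h1 : ∀ t : Fin l, ((Equiv.addRight c).arrowCongr (Equiv.refl V)) f (t + c) = f t := by
    intro t
    simp [Equiv.arrowCongr]
  have h2 : ca l A (((Equiv.addRight c).arrowCongr (Equiv.refl V)) f) = ca l A f := by
    unfold ca
    rw [← Equiv.prod_comp (Equiv.addRight c)]
    refine Finset.prod_congr rfl fun t _ => ?_
    rw [Equiv.coe_addRight, h1, add_right_comm, h1]
  have h3 : sd l D (((Equiv.addRight c).arrowCongr (Equiv.refl V)) f) =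
      sd l (fun t => D (t + c)) f := by
    unfold sd
    rw [← Equiv.prod_comp (Equiv.addRight c)]
    refine Finset.prod_congr rfl fun t _ => ?_
    rw [Equiv.coe_addRight, h1]
  rw [h1, h1, h2, h3]

lemma TT_adj {l : ℕ} [NeZero l] {A : Matrix V V ℝ} (hA0 : ∀ x, A x x = 0) (D : Fin l → V → ℤˣ)
    (i : Fin l) : TT l A D i (i + 1) = 0 := by
  unfold TT
  refine Finset.sum_eq_zero fun f _ => ?_
  by_cases h : f i = f (i + 1)
  · have : ca l A f = 0 := by
      unfold ca
      refine Finset.prod_eq_zero (Finset.mem_univ i) ?_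
      rw [← h, hA0]
    rw [this, zero_mul, zero_mul]
  · rw [if_neg h, mul_zero]

/-- The last place. -/
def lst (k : ℕ) : Fin (k + 2 + (k + 2)) := Fin.natAdd (k + 2) (Fin.last (k + 1))

lemma lst_val (k : ℕ) : (lst k : ℕ) = k + 2 + (k + 1) := by
  simp [lst]

/-- The estimate for the last place and a place in the first half. -/
lemma TT_last {A : Matrix V V ℝ} (hA : Aᵀ = A) {N : ℝ} (hN : ∀ x, (A * A) x x ≤ N)
    (hN0 : 0 ≤ N) (k : ℕ) (D : Fin (k + 2 + (k + 2)) → V → ℤˣ) (j : Fin (k + 2 + (k + 2)))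
    (hj1 : 1 ≤ (j : ℕ)) (hj2 : (j : ℕ) ≤ k + 1) {lam : ℝ} (hlam : 0 < lam) :
    |TT (k + 2 + (k + 2)) A D (lst k) j| ≤
      (lam * (A ^ (2 * (k + 2))).trace + N / lam * (A ^ (2 * (k + 1))).trace) / 2 := by
  have h0 : TT (k + 2 + (k + 2)) A D (lst k) j = av (fun η : V → ℤˣ =>
      (Mw A (List.ofFn (tw D (lst k) j η))).trace) := by
    have h1 := avg_delta A D (lst k) j (fun _ => 1)
    simp only [mul_one] at h1
    unfold TT
    rw [h1]
    congr 1
    funext η
    exact sum_ca_sd (k + 2 + (k + 1)) A (tw D (lst k) j η)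
  rw [h0]
  set d := D (Fin.castAdd (k + 2) 0) with hd
  set c := D (Fin.natAdd (k + 2) 0) with hc
  set e := D (lst k) with he
  have hlist : ∀ η : V → ℤˣ, List.ofFn (tw D (lst k) j η) =
      (d :: List.ofFn (fun i : Fin (k + 1) => tw D (lst k) j η (Fin.castAdd (k + 2) i.succ))) ++
        (c :: ((List.ofFn fun i : Fin k => D (Fin.natAdd (k + 2) i.castSucc.succ)) ++ [e * η])) := by
    intro η
    have htw : ∀ t : Fin (k + 2 + (k + 2)), (t : ℕ) ≠ k + 2 + (k + 1) → t ≠ j →
        tw D (lst k) j η t = D t := by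
      intro t h1 h2
      unfold tw
      rw [if_neg h2, if_neg (fun h => h1 (by rw [h, lst_val])), mul_one, mul_one]
    have g1 : tw D (lst k) j η (Fin.castAdd (k + 2) 0) = d := by
      refine htw _ ?_ ?_
      · simp
      · intro h
        have := congrArg Fin.val h
        simp at this
        omega
    have g2 : tw D (lst k) j η (Fin.natAdd (k + 2) 0) = c := by
      refine htw _ ?_ ?_
      · simp
      · intro h
        have := congrArg Fin.val h
        simp at this
        omega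
    have g3 : ∀ i : Fin k, tw D (lst k) j η (Fin.natAdd (k + 2) i.castSucc.succ) =
        D (Fin.natAdd (k + 2) i.castSucc.succ) := by
      intro i
      have hi := i.2
      refine htw _ ?_ ?_
      · simp
        omega
      · intro h
        have := congrArg Fin.val h
        simp at this
        omega
    have g4 : tw D (lst k) j η (Fin.natAdd (k + 2) (Fin.last k).succ) = e * η := by
      have h1 : Fin.natAdd (k + 2) (Fin.last k).succ = lst k := by
        apply Fin.ext
        simp [lst]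
      rw [h1]
      unfold tw
      rw [if_pos rfl, if_neg, mul_one]
      intro h
      have := congrArg Fin.val h
      rw [lst_val] at this
      omega
    have a1 : (List.ofFn fun i : Fin (k + 2) => tw D (lst k) j η (Fin.castAdd (k + 2) i)) =
        d :: List.ofFn (fun i : Fin (k + 1) =>
          tw D (lst k) j η (Fin.castAdd (k + 2) i.succ)) := by
      rw [List.ofFn_succ, g1]
    have a2 : (List.ofFn fun i : Fin (k + 2) => tw D (lst k) j η (Fin.natAdd (k + 2) i)) =
        c :: ((List.ofFn fun i : Fin k => D (Fin.natAdd (k + 2) i.castSucc.succ)) ++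
          [e * η]) := by
      have a3 : (List.ofFn fun i : Fin (k + 1) =>
          tw D (lst k) j η (Fin.natAdd (k + 2) i.succ)) =
          (List.ofFn fun i : Fin k => D (Fin.natAdd (k + 2) i.castSucc.succ)) ++ [e * η] := by
        rw [List.ofFn_succ', List.concat_eq_append, g4]
        simp only [g3]
      rw [List.ofFn_succ, g2, a3]
    exact List.ofFn_add.trans (congrArg₂ (fun a b => a ++ b) a1 a2)
  simp only [hlist]
  exact word_bound hA hN hN0 k d c e
    (fun η => List.ofFn (fun i : Fin (k + 1) => tw D (lst k) j η (Fin.castAdd (k + 2) i.succ)))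
    (List.ofFn fun i : Fin k => D (Fin.natAdd (k + 2) i.castSucc.succ))
    (fun η => by rw [List.length_ofFn]) (by rw [List.length_ofFn]) hlam

/-- The estimate for two arbitrary places. -/
lemma TT_bound {A : Matrix V V ℝ} (hA : Aᵀ = A) (hA0 : ∀ x, A x x = 0) {N : ℝ}
    (hN : ∀ x, (A * A) x x ≤ N) (hN0 : 0 ≤ N) (k : ℕ) (D : Fin (k + 2 + (k + 2)) → V → ℤˣ)
    (i j : Fin (k + 2 + (k + 2))) (hij : i ≠ j) {lam : ℝ} (hlam : 0 < lam) :
    |TT (k + 2 + (k + 2)) A D i j| ≤
      (lam * (A ^ (2 * (k + 2))).trace + N / lam * (A ^ (2 * (k + 1))).trace) / 2 := by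
  have hB : 0 ≤ (lam * (A ^ (2 * (k + 2))).trace + N / lam * (A ^ (2 * (k + 1))).trace) / 2 := by
    have h1 := trace_nonneg' hA (k + 2)
    have h2 := trace_nonneg' hA (k + 1)
    positivity
  wlog hlt : i < j generalizing i j
  · rw [TT_comm]
    exact this j i hij.symm (lt_of_le_of_ne (not_lt.1 hlt) hij.symm)
  have hlt' : (i : ℕ) < (j : ℕ) := hlt
  have hjl : (j : ℕ) < k + 2 + (k + 2) := j.2
  rcases Nat.lt_or_ge ((j : ℕ) - i) 2 with h1 | h1
  · -- adjacent
    have hj : j = i + 1 := by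
      apply Fin.ext
      rw [Fin.val_add]
      have e1 : ((1 : Fin (k + 2 + (k + 2))) : ℕ) = 1 := by
        rw [Fin.val_one']
        exact Nat.mod_eq_of_lt (by omega)
      rw [e1, Nat.mod_eq_of_lt (by omega)]
      omega
    rw [hj, TT_adj hA0]
    simpa using hB
  rcases Nat.lt_or_ge ((j : ℕ) - i) (k + 2 + 1) with h2 | h2
  · -- at most half way round
    have e1 : i = lst k + ⟨(i : ℕ) + 1, by omega⟩ := by
      apply Fin.ext
      rw [Fin.val_add, lst_val]
      show (i : ℕ) = (k + 2 + (k + 1) + ((i : ℕ) + 1)) % (k + 2 + (k + 2))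
      rw [show k + 2 + (k + 1) + ((i : ℕ) + 1) = (i : ℕ) + (k + 2 + (k + 2)) by ring,
        Nat.add_mod_right, Nat.mod_eq_of_lt i.2]
    have e2 : j = (⟨(j : ℕ) - i - 1, by omega⟩ : Fin (k + 2 + (k + 2))) +
        ⟨(i : ℕ) + 1, by omega⟩ := by
      apply Fin.ext
      rw [Fin.val_add]
      show (j : ℕ) = ((j : ℕ) - i - 1 + ((i : ℕ) + 1)) % (k + 2 + (k + 2))
      rw [show (j : ℕ) - i - 1 + ((i : ℕ) + 1) = j by omega, Nat.mod_eq_of_lt hjl]
    have e3 : TT (k + 2 + (k + 2)) A D i j = TT (k + 2 + (k + 2)) A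
        (fun t => D (t + ⟨(i : ℕ) + 1, by omega⟩)) (lst k) ⟨(j : ℕ) - i - 1, by omega⟩ := by
      rw [← TT_shift, ← e1, ← e2]
    rw [e3]
    exact TT_last hA hN hN0 k _ _ (by show 1 ≤ (j : ℕ) - i - 1; omega)
      (by show (j : ℕ) - i - 1 ≤ k + 1; omega) hlam
  rcases Nat.lt_or_ge ((j : ℕ) - i) (k + 2 + (k + 2) - 1) with h3 | h3
  · -- more than half way round
    set c : Fin (k + 2 + (k + 2)) := ⟨((j : ℕ) + 1) % (k + 2 + (k + 2)), Nat.mod_lt _ (by omega)⟩
      with hc
    have e1 : j = lst k + c := by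
      apply Fin.ext
      rw [Fin.val_add, lst_val]
      show (j : ℕ) = (k + 2 + (k + 1) + ((j : ℕ) + 1) % (k + 2 + (k + 2))) % (k + 2 + (k + 2))
      rw [Nat.add_mod_mod, show k + 2 + (k + 1) + ((j : ℕ) + 1) = (j : ℕ) + (k + 2 + (k + 2)) by ring,
        Nat.add_mod_right, Nat.mod_eq_of_lt j.2]
    have e2 : i = (⟨k + 2 + (k + 2) - ((j : ℕ) - i) - 1, by omega⟩ : Fin (k + 2 + (k + 2))) + c := by
      apply Fin.ext
      rw [Fin.val_add]
      show (i : ℕ) = (k + 2 + (k + 2) - ((j : ℕ) - i) - 1 +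
        ((j : ℕ) + 1) % (k + 2 + (k + 2))) % (k + 2 + (k + 2))
      rw [Nat.add_mod_mod, show k + 2 + (k + 2) - ((j : ℕ) - i) - 1 + ((j : ℕ) + 1) =
        (i : ℕ) + (k + 2 + (k + 2)) by omega, Nat.add_mod_right, Nat.mod_eq_of_lt i.2]
    have e3 : TT (k + 2 + (k + 2)) A D i j = TT (k + 2 + (k + 2)) A
        (fun t => D (t + c)) (lst k) ⟨k + 2 + (k + 2) - ((j : ℕ) - i) - 1, by omega⟩ := by
      rw [TT_comm, ← TT_shift, ← e1, ← e2]
    rw [e3]
    exact TT_last hA hN hN0 k _ _
      (by show 1 ≤ k + 2 + (k + 2) - ((j : ℕ) - i) - 1; omega)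
      (by show k + 2 + (k + 2) - ((j : ℕ) - i) - 1 ≤ k + 1; omega) hlam
  · -- adjacent the other way round
    have hi : i = j + 1 := by
      apply Fin.ext
      rw [Fin.val_add]
      have e1 : ((1 : Fin (k + 2 + (k + 2))) : ℕ) = 1 := by
        rw [Fin.val_one']
        exact Nat.mod_eq_of_lt (by omega)
      rw [e1, show (j : ℕ) + 1 = k + 2 + (k + 2) by omega, Nat.mod_self]
      omega
    rw [TT_comm, hi, TT_adj hA0]
    simpa using hB

/-! ### Inclusion and exclusion -/

/-- The indicator of `f p.1 ≠ f p.2`. -/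
noncomputable def nd {l : ℕ} (p : Fin l × Fin l) (f : Fin l → V) : ℝ :=
  1 - (if f p.1 = f p.2 then 1 else 0)

lemma incl {A : Matrix V V ℝ} {k : ℕ} {B : ℝ}
    (hB : ∀ (D : Fin (k + 2 + (k + 2)) → V → ℤˣ) (i j : Fin (k + 2 + (k + 2))), i ≠ j →
      |TT (k + 2 + (k + 2)) A D i j| ≤ B) (P : Finset (Fin (k + 2 + (k + 2)) × Fin (k + 2 + (k + 2)))) :
    ∀ (D : Fin (k + 2 + (k + 2)) → V → ℤˣ) (i j : Fin (k + 2 + (k + 2))), i ≠ j →
      |∑ f : Fin (k + 2 + (k + 2)) → V, ca _ A f * sd _ D f * (if f i = f j then 1 else 0) *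
        ∏ p ∈ P, nd p f| ≤ 2 ^ P.card * B := by
  induction P using Finset.induction_on with
  | empty =>
    intro D i j hij
    simpa [TT] using hB D i j hij
  | insert p P hp ih =>
    intro D i j hij
    have h1 : ∑ f : Fin (k + 2 + (k + 2)) → V, ca _ A f * sd _ D f *
        (if f i = f j then 1 else 0) * ∏ q ∈ insert p P, nd q f =
        ∑ f : Fin (k + 2 + (k + 2)) → V, ca _ A f * sd _ D f * (if f i = f j then 1 else 0) *
          ∏ q ∈ P, nd q f -
        ∑ f : Fin (k + 2 + (k + 2)) → V, ca _ A f * sd _ D f * (if f p.1 = f p.2 then 1 else 0) *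
          ((if f i = f j then 1 else 0) * ∏ q ∈ P, nd q f) := by
      rw [← Finset.sum_sub_distrib]
      refine Finset.sum_congr rfl fun f _ => ?_
      rw [Finset.prod_insert hp]
      unfold nd
      ring
    rw [h1, avg_delta A D p.1 p.2]
    have h2 : |av (fun η : V → ℤˣ => ∑ f : Fin (k + 2 + (k + 2)) → V,
        ca _ A f * sd _ (tw D p.1 p.2 η) f * ((if f i = f j then 1 else 0) *
          ∏ q ∈ P, nd q f))| ≤ 2 ^ P.card * B := by
      refine (abs_av_le (h := fun _ => 2 ^ P.card * B) fun η => ?_).trans (le_of_eq (av_const _))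
      have := ih (tw D p.1 p.2 η) i j hij
      refine le_trans (le_of_eq ?_) this
      congr 1
      refine Finset.sum_congr rfl fun f _ => ?_
      ring
    refine (abs_sub _ _).trans ?_
    rw [Finset.card_insert_of_notMem hp, pow_succ]
    have h3 := ih D i j hij
    linarith

lemma incl2 {A : Matrix V V ℝ} {k : ℕ} {B : ℝ} (hB0 : 0 ≤ B)
    (hB : ∀ (D : Fin (k + 2 + (k + 2)) → V → ℤˣ) (i j : Fin (k + 2 + (k + 2))), i ≠ j →
      |TT (k + 2 + (k + 2)) A D i j| ≤ B) (P : Finset (Fin (k + 2 + (k + 2)) × Fin (k + 2 + (k + 2))))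
    (hP : ∀ p ∈ P, p.1 ≠ p.2) :
    |∑ f : Fin (k + 2 + (k + 2)) → V, ca _ A f * ∏ p ∈ P, nd p f -
      ∑ f : Fin (k + 2 + (k + 2)) → V, ca _ A f| ≤ 2 ^ P.card * B := by
  induction P using Finset.induction_on with
  | empty =>
    simpa using hB0
  | insert p P hp ih =>
    have ih' := ih fun q hq => hP q (Finset.mem_insert_of_mem hq)
    have h1 : ∑ f : Fin (k + 2 + (k + 2)) → V, ca _ A f * ∏ q ∈ insert p P, nd q f =
        ∑ f : Fin (k + 2 + (k + 2)) → V, ca _ A f * ∏ q ∈ P, nd q f -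
        ∑ f : Fin (k + 2 + (k + 2)) → V, ca _ A f * sd _ (fun _ => 1) f *
          (if f p.1 = f p.2 then 1 else 0) * ∏ q ∈ P, nd q f := by
      rw [← Finset.sum_sub_distrib]
      refine Finset.sum_congr rfl fun f _ => ?_
      have : sd (k + 2 + (k + 2)) (fun _ => (1 : V → ℤˣ)) f = 1 := by
        unfold sd
        simp
      rw [Finset.prod_insert hp, this]
      unfold nd
      ring
    have h2 := incl hB P (fun _ => 1) p.1 p.2 (hP p (Finset.mem_insert_self _ _))
    rw [h1, Finset.card_insert_of_notMem hp, pow_succ]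
    set a := ∑ f : Fin (k + 2 + (k + 2)) → V, ca _ A f * ∏ q ∈ P, nd q f with ha
    set b := ∑ f : Fin (k + 2 + (k + 2)) → V, ca _ A f * sd _ (fun _ => 1) f *
          (if f p.1 = f p.2 then 1 else 0) * ∏ q ∈ P, nd q f with hb
    set t := ∑ f : Fin (k + 2 + (k + 2)) → V, ca _ A f with ht
    have h3 : |a - b - t| ≤ |a - t| + |b| := by
      have : a - b - t = (a - t) - b := by ring
      rw [this]
      exact abs_sub _ _
    linarith

lemma prod_nd {l : ℕ} (f : Fin l → V) :
    ∏ p ∈ (Finset.univ : Finset (Fin l)).offDiag, nd p f =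
      if Function.Injective f then 1 else 0 := by
  by_cases h : Function.Injective f
  · rw [if_pos h]
    refine Finset.prod_eq_one fun p hp => ?_
    unfold nd
    rw [if_neg, sub_zero]
    intro h'
    exact (Finset.mem_offDiag.mp hp).2.2 (h h')
  · rw [if_neg h]
    rw [Function.Injective] at h
    push Not at h
    obtain ⟨i, j, hij, hne⟩ := h
    refine Finset.prod_eq_zero (i := (i, j)) (Finset.mem_offDiag.mpr
      ⟨Finset.mem_univ _, Finset.mem_univ _, hne⟩) ?_
    unfold nd
    rw [if_pos hij, sub_self]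

/-! ### Log-convexity of the traces -/

lemma logconv {A : Matrix V V ℝ} (hA : Aᵀ = A) (j : ℕ) :
    (A ^ (2 * (j + 1))).trace ^ 2 ≤ (A ^ (2 * j)).trace * (A ^ (2 * (j + 2))).trace := by
  have h := cs (1 : V → ℤˣ) 1 (A ^ j) (A ^ (j + 2))
  rw [dg_one, Matrix.one_mul, Matrix.one_mul, ← pow_add] at h
  have h1 : ∀ i, fro (A ^ i) = (A ^ (2 * i)).trace := by
    intro i
    rw [fro_eq, Matrix.transpose_pow, hA, ← pow_add, two_mul]
  rw [h1, h1] at h
  have e1 : j + (j + 2) = 2 * (j + 1) := by ring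
  rw [e1] at h
  exact h

lemma ratio {A : Matrix V V ℝ} (hA : Aᵀ = A) {ρ : ℝ} (hρ : 0 ≤ ρ) (j : ℕ)
    (h : (A ^ (2 * (j + 1))).trace ≤ ρ * (A ^ (2 * j)).trace) :
    (A ^ (2 * (j + 1))).trace ≤ ρ ^ (j + 1) * (A ^ (2 * 0)).trace := by
  induction j with
  | zero => simpa using h
  | succ j ih =>
    have h1 := logconv hA j
    have h2 := trace_nonneg' hA j
    have h3 := trace_nonneg' hA (j + 1)
    have h4 : (A ^ (2 * (j + 1))).trace ≤ ρ * (A ^ (2 * j)).trace := by
      rcases h3.eq_or_lt with h5 | h5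
      · rw [← h5]; positivity
      · have h6 : (A ^ (2 * (j + 1))).trace ^ 2 ≤
            (A ^ (2 * j)).trace * (ρ * (A ^ (2 * (j + 1))).trace) :=
          h1.trans (mul_le_mul_of_nonneg_left h h2)
        have h7 : (A ^ (2 * (j + 1))).trace * (A ^ (2 * (j + 1))).trace ≤
            (ρ * (A ^ (2 * j)).trace) * (A ^ (2 * (j + 1))).trace := by
          nlinarith
        exact le_of_mul_le_mul_right h7 h5
    have h5 := ih h4
    calc (A ^ (2 * (j + 1 + 1))).trace ≤ ρ * (A ^ (2 * (j + 1))).trace := h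
      _ ≤ ρ * (ρ ^ (j + 1) * (A ^ (2 * 0)).trace) := mul_le_mul_of_nonneg_left h5 hρ
      _ = _ := by ring

/-- The lower bound for the signed number of injective closed sequences. -/
theorem Z_lower (k : ℕ) {σ : V → V → ℤ} (hσ : IsSig σ) :
    -(2 ^ ((2 * k + 4) ^ 3) * (Fintype.card V : ℝ) ^ (k + 3)) ≤
      ((Z (k + 2 + (k + 2)) σ : ℤ) : ℝ) := by
  set n : ℝ := (Fintype.card V : ℝ) with hn
  have hn0 : 0 ≤ n := by rw [hn]; positivity
  set A : Matrix V V ℝ := Matrix.of fun x y => if x = y then 0 else (σ x y : ℝ) with hAdef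
  have hA : Aᵀ = A := by
    ext x y
    rw [Matrix.transpose_apply, hAdef, Matrix.of_apply, Matrix.of_apply, hσ.symm y x]
    by_cases h : x = y
    · rw [if_pos h, if_pos h.symm]
    · rw [if_neg h, if_neg fun h' => h h'.symm]
  have hA0 : ∀ x, A x x = 0 := by
    intro x
    rw [hAdef, Matrix.of_apply, if_pos rfl]
  have hN : ∀ x, (A * A) x x ≤ n := by
    intro x
    rw [Matrix.mul_apply]
    calc ∑ y, A x y * A y x ≤ ∑ _y : V, (1 : ℝ) := by
          refine Finset.sum_le_sum fun y _ => ?_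
          have h1 : A y x = A x y := by
            have := congrFun (congrFun hA x) y
            rw [Matrix.transpose_apply] at this
            exact this
          rw [h1, hAdef, Matrix.of_apply]
          by_cases h : x = y
          · rw [if_pos h]; norm_num
          · rw [if_neg h]
            rcases hσ.val x y with h' | h' <;> rw [h'] <;> norm_num
      _ = n := by rw [Finset.sum_const, Finset.card_univ, nsmul_eq_mul, mul_one]
  -- Z as a sum over all sequences
  have hZ : ((Z (k + 2 + (k + 2)) σ : ℤ) : ℝ) = ∑ f : Fin (k + 2 + (k + 2)) → V,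
      ca _ A f * ∏ p ∈ (Finset.univ : Finset (Fin (k + 2 + (k + 2)))).offDiag, nd p f := by
    unfold Z inj
    rw [Finset.sum_filter]
    push_cast
    refine Finset.sum_congr rfl fun f _ => ?_
    rw [prod_nd]
    by_cases h : Function.Injective f
    · rw [if_pos h, if_pos h, mul_one]
      unfold cp ca
      push_cast
      refine Finset.prod_congr rfl fun i _ => ?_
      rw [hAdef, Matrix.of_apply, if_neg]
      intro h'
      have h2 := h h'
      have h3 : (1 : Fin (k + 2 + (k + 2))) = 0 := by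
        have : i + 1 = i + 0 := by rw [add_zero]; exact h2.symm
        exact add_left_cancel this
      have h4 := congrArg Fin.val h3
      rw [Fin.val_one', Nat.mod_eq_of_lt (by omega)] at h4
      simp at h4
    · rw [if_neg h, if_neg h, mul_zero]
  have hT : ∑ f : Fin (k + 2 + (k + 2)) → V, ca _ A f = (A ^ (2 * (k + 2))).trace := by
    have h1 := sum_ca_sd (k + 2 + (k + 1)) A (fun _ => 1)
    have h2 : ∀ f : Fin (k + 2 + (k + 2)) → V, sd (k + 2 + (k + 2)) (fun _ => (1 : V → ℤˣ)) f = 1 := by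
      intro f
      unfold sd
      simp
    have h3 : ∑ f : Fin (k + 2 + (k + 2)) → V, ca (k + 2 + (k + 2)) A f =
        ∑ f : Fin (k + 2 + (k + 2)) → V, ca (k + 2 + (k + 2)) A f *
          sd (k + 2 + (k + 2)) (fun _ => (1 : V → ℤˣ)) f := by
      refine Finset.sum_congr rfl fun f _ => ?_
      rw [h2, mul_one]
    rw [h3]
    refine h1.trans ?_
    have h4 : (List.ofFn fun _ : Fin (k + 2 + (k + 1) + 1) => (1 : V → ℤˣ)) =
        List.replicate (k + 2 + (k + 1) + 1) 1 := List.ofFn_const _ _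
    rw [h4, Mw_one]
    congr 2
    ring
  set T := (A ^ (2 * (k + 2))).trace with hTdef
  set T' := (A ^ (2 * (k + 1))).trace with hT'def
  have hT0 : 0 ≤ T := trace_nonneg' hA _
  have hT'0 : 0 ≤ T' := trace_nonneg' hA _
  set cd := (Finset.univ : Finset (Fin (k + 2 + (k + 2)))).offDiag.card with hcd
  set C : ℝ := 2 ^ cd with hC
  have hC1 : 1 ≤ C := by rw [hC]; exact one_le_pow₀ (by norm_num)
  have hC0 : 0 < C := by linarith
  have hlam : (0 : ℝ) < 1 / C := by positivity
  have h5 := incl2 (A := A) (k := k) (B := (1 / C * T + n / (1 / C) * T') / 2) (by positivity)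
    (fun D i j hij => TT_bound hA hA0 hN hn0 k D i j hij hlam)
    (Finset.univ : Finset (Fin (k + 2 + (k + 2)))).offDiag
    (fun p hp => (Finset.mem_offDiag.mp hp).2.2)
  rw [← hZ, hT] at h5
  have h6 : C * ((1 / C * T + n / (1 / C) * T') / 2) = (T + C ^ 2 * n * T') / 2 := by
    field_simp
  rw [← hC, h6] at h5
  have h7 := (abs_le.1 h5).1
  have hZge : T / 2 - C ^ 2 * n * T' / 2 ≤ ((Z (k + 2 + (k + 2)) σ : ℤ) : ℝ) := by linarith
  have hbig : C ^ (2 * k + 4) ≤ 2 ^ ((2 * k + 4) ^ 3) := by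
    rw [hC, ← pow_mul]
    refine pow_le_pow_right₀ (by norm_num) ?_
    have : cd ≤ (2 * k + 4) ^ 2 := by
      rw [hcd, Finset.offDiag_card, Finset.card_univ, Fintype.card_fin]
      have : (k + 2 + (k + 2)) * (k + 2 + (k + 2)) = (2 * k + 4) ^ 2 := by ring
      rw [← this]
      exact Nat.sub_le _ _
    calc cd * (2 * k + 4) ≤ (2 * k + 4) ^ 2 * (2 * k + 4) := Nat.mul_le_mul_right _ this
      _ = _ := by ring
  refine le_trans ?_ hZge
  rcases le_or_gt (C ^ 2 * n * T') T with h8 | h8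
  · have : 0 ≤ 2 ^ ((2 * k + 4) ^ 3) * n ^ (k + 3) := by positivity
    linarith
  · -- the ratio argument
    have h9 := logconv hA k
    have hρ : 0 ≤ C ^ 2 * n := by positivity
    have h10 : (A ^ (2 * (k + 1))).trace ≤ (C ^ 2 * n) * (A ^ (2 * k)).trace := by
      rcases hT'0.eq_or_lt with h11 | h11
      · rw [← hT'def, ← h11]
        exact mul_nonneg hρ (trace_nonneg' hA k)
      · have h12 : T' * T' ≤ ((C ^ 2 * n) * (A ^ (2 * k)).trace) * T' := by
          have h13 : (A ^ (2 * k)).trace * T ≤ (A ^ (2 * k)).trace * (C ^ 2 * n * T') :=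
            mul_le_mul_of_nonneg_left h8.le (trace_nonneg' hA k)
          nlinarith
        exact le_of_mul_le_mul_right h12 h11
    have h11 := ratio hA hρ k h10
    rw [mul_zero, pow_zero, Matrix.trace_one] at h11
    have h12 : C ^ 2 * n * T' ≤ C ^ (2 * k + 4) * n ^ (k + 3) := by
      calc C ^ 2 * n * T' ≤ C ^ 2 * n * ((C ^ 2 * n) ^ (k + 1) * n) :=
            mul_le_mul_of_nonneg_left h11 (by positivity)
        _ = _ := by ring
    have h13 : C ^ (2 * k + 4) * n ^ (k + 3) ≤ 2 ^ ((2 * k + 4) ^ 3) * n ^ (k + 3) :=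
      mul_le_mul_of_nonneg_right hbig (by positivity)
    have h14 : 0 ≤ C ^ 2 * n * T' := by positivity
    linarith

end Top

end MP_90430c
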