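import Mathlib
import Pool.Agent.Lib.MP_90430c_co.LowCount
import Pool.Agent.Lib.MP_90430c_co.Toggle

/-! Bounds for the number of negative circles in terms of the number of negative edges. -/

open Finset

set_option linter.unusedSectionVars false

namespace MP_90430c

section

variable {V : Type*} [Fintype V] [DecidableEq V]

lemma prs_erase {Y : Finset V} {u : V} (hu : u ∈ Y) (P : V → V → Prop) [∀ u, DecidablePred (P u)]
    (hP : ∀ u v, P u v ↔ P v u) :
    prs Y P = prs (Y.erase u) P + 2 * ((Y.erase u).filter (P u)).card := by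
  unfold prs
  rw [← Finset.add_sum_erase Y _ hu]
  have h1 : ∀ w ∈ Y.erase u, ∑ v ∈ Y.erase w, (if P w v then (1 : ℤ) else 0)
      = ∑ v ∈ (Y.erase u).erase w, (if P w v then (1 : ℤ) else 0) + (if P u w then (1 : ℤ) else 0) := by
    intro w hw
    rw [Finset.mem_erase] at hw
    rw [← Finset.add_sum_erase (Y.erase w) _ (Finset.mem_erase.2 ⟨Ne.symm hw.1, hu⟩)]
    have e1 : (Y.erase w).erase u = (Y.erase u).erase w := Finset.erase_right_comm
    rw [e1, add_comm]
    congr 1
    exact if_congr (hP _ _) rfl rfl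
  rw [Finset.sum_congr rfl h1, Finset.sum_add_distrib]
  have h2 : ∑ v ∈ Y.erase u, (if P u v then (1 : ℤ) else 0) = ((Y.erase u).filter (P u)).card := by
    rw [← Finset.sum_filter, Finset.sum_const, nsmul_eq_mul, mul_one]
  rw [h2]
  ring

lemma prs_nonneg (Y : Finset V) (P : V → V → Prop) [∀ u, DecidablePred (P u)] : 0 ≤ prs Y P := by
  unfold prs
  refine Finset.sum_nonneg fun u _ => Finset.sum_nonneg fun v _ => ?_
  split_ifs <;> norm_num

lemma negN_eq_prs (σ : V → V → ℤ) : (negN σ : ℤ) = prs univ (fun u v => σ u v = -1) := by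
  unfold negN prs
  rw [Finset.card_filter]
  push_cast
  rw [Fintype.sum_prod_type]
  refine Finset.sum_congr rfl fun u _ => ?_
  rw [← Finset.add_sum_erase univ _ (Finset.mem_univ u)]
  simp only [ne_eq, not_true_eq_false, false_and, if_false, zero_add]
  refine Finset.sum_congr rfl fun v hv => ?_
  rw [Finset.mem_erase] at hv
  exact if_congr ⟨fun h => h.2, fun h => ⟨Ne.symm hv.1, h⟩⟩ rfl rfl

/-- The number of negative edges at `y` which do not go to `x`. -/
def dg (σ : V → V → ℤ) (x y : V) : ℕ := (({x, y} : Finset V)ᶜ.filter fun v => σ y v = -1).card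

/-- Ordered negative pairs away from `x, y`. -/
def RR (σ : V → V → ℤ) (x y : V) : ℤ := prs ({x, y} : Finset V)ᶜ (fun u v => σ u v = -1)

lemma negN_split {σ : V → V → ℤ} (hσ : IsSig σ) {x y : V} (hxy : x ≠ y) (h : σ x y = -1) :
    (negN σ : ℤ) = 2 + 2 * dg σ y x + 2 * dg σ x y + RR σ x y := by
  rw [negN_eq_prs]
  have hP : ∀ u v, (σ u v = -1 ↔ σ v u = -1) := fun u v => by rw [hσ.symm]
  rw [prs_erase (Finset.mem_univ x) _ hP, prs_erase (Finset.mem_erase.2 ⟨hxy.symm, Finset.mem_univ y⟩) _ hP]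
  have e1 : (univ.erase x).erase y = ({x, y} : Finset V)ᶜ := by
    ext z; simp only [Finset.mem_erase, Finset.mem_univ, and_true, Finset.mem_compl,
      Finset.mem_insert, Finset.mem_singleton, not_or]; tauto
  have e2 : ((univ.erase x).filter fun v => σ x v = -1)
      = insert y (({y, x} : Finset V)ᶜ.filter fun v => σ x v = -1) := by
    ext z
    simp only [Finset.mem_filter, Finset.mem_erase, Finset.mem_univ, and_true, Finset.mem_insert,
      Finset.mem_compl, Finset.mem_singleton, not_or]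
    constructor
    · rintro ⟨h1, h2⟩
      by_cases hz : z = y
      · exact Or.inl hz
      · exact Or.inr ⟨⟨hz, h1⟩, h2⟩
    · rintro (rfl | ⟨⟨h1, h2⟩, h3⟩)
      · exact ⟨hxy.symm, h⟩
      · exact ⟨h2, h3⟩
  have e3 : ((univ.erase x).filter fun v => σ x v = -1).card = 1 + dg σ y x := by
    rw [e2, Finset.card_insert_of_notMem (by simp)]
    unfold dg
    ring
  rw [e1, e3]
  unfold RR dg
  push_cast
  ring

lemma negN_flip_eq {σ : V → V → ℤ} (hσ : IsSig σ) {x y : V} (hxy : x ≠ y) (h : σ x y = -1) :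
    negN (flip σ x y) + 2 = negN σ := by
  have h1 : (univ.filter fun p : V × V => p.1 ≠ p.2 ∧ σ p.1 p.2 = -1)
      = insert (x, y) (insert (y, x) (univ.filter fun p : V × V => p.1 ≠ p.2 ∧ flip σ x y p.1 p.2 = -1)) := by
    ext ⟨u, v⟩
    simp only [Finset.mem_filter, Finset.mem_univ, true_and, Finset.mem_insert, Prod.mk.injEq]
    constructor
    · rintro ⟨h1, h2⟩
      by_cases h3 : (u = x ∧ v = y) ∨ (u = y ∧ v = x)
      · rcases h3 with h3 | h3
        · exact Or.inl h3
        · exact Or.inr (Or.inl h3)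
      · refine Or.inr (Or.inr ⟨h1, ?_⟩)
        unfold flip ed
        rw [if_neg h3, mul_one]
        exact h2
    · rintro (⟨rfl, rfl⟩ | ⟨rfl, rfl⟩ | ⟨h1, h2⟩)
      · exact ⟨hxy, h⟩
      · exact ⟨hxy.symm, by rw [hσ.symm]; exact h⟩
      · refine ⟨h1, ?_⟩
        unfold flip ed at h2
        split_ifs at h2 with h3
        · exfalso
          have h4 : σ u v = 1 := by linarith
          rcases h3 with ⟨rfl, rfl⟩ | ⟨rfl, rfl⟩
          · rw [h] at h4; norm_num at h4
          · rw [hσ.symm, h] at h4; norm_num at h4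
        · linarith
  unfold negN
  rw [h1, Finset.card_insert_of_notMem, Finset.card_insert_of_notMem]
  · simp only [Finset.mem_filter, Finset.mem_univ, true_and, not_and]
    intro _
    unfold flip ed
    rw [if_pos (Or.inr ⟨rfl, rfl⟩), hσ.symm, h]
    norm_num
  · simp only [Finset.mem_insert, Prod.mk.injEq, Finset.mem_filter, Finset.mem_univ, true_and, not_or,
      not_and]
    refine ⟨fun h5 => absurd h5 hxy, fun _ => ?_⟩
    unfold flip ed
    rw [if_pos (Or.inl ⟨rfl, rfl⟩), h]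
    norm_num

variable {k : ℕ}

/-- The sign of the part of the circle other than the edge `x y`. -/
def WW (σ : V → V → ℤ) (x y : V) {k : ℕ} (g : Fin (k + 2) → V) : ℤ :=
  σ y (g 0) * hp σ g * σ (g (Fin.last (k + 1))) x

/-- The number of negative edges of this part. -/
def UE (σ : V → V → ℤ) (x y : V) {k : ℕ} (g : Fin (k + 2) → V) : ℤ :=
  hh σ y (g 0) + hh σ (g (Fin.last (k + 1))) x + ∑ i : Fin (k + 1), hh σ (g i.castSucc) (g i.succ)

lemma cp_WW (σ : V → V → ℤ) (x y : V) (g : Fin (k + 2) → V) :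
    cp (k + 4) σ (Fin.cons x (Fin.cons y g : Fin (k + 3) → V) : Fin (k + 4) → V)
      = σ x y * WW σ x y g := by
  rw [cp_eq_hp, hp_cons, hp_cons]
  have e2 : (Fin.cons x (Fin.cons y g : Fin (k + 3) → V) : Fin (k + 4) → V) (Fin.last (k + 3))
      = g (Fin.last (k + 1)) := rfl
  rw [e2]
  simp only [Fin.cons_zero]
  unfold WW
  ring

lemma hh_nonneg (σ : V → V → ℤ) (u v : V) : 0 ≤ hh σ u v := by
  unfold hh; split_ifs <;> norm_num

lemma sig_hh {σ : V → V → ℤ} (hσ : IsSig σ) (u v : V) : σ u v = 1 - 2 * hh σ u v := by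
  unfold hh
  rcases hσ.val u v with h | h <;> rw [h] <;> norm_num

lemma prod_hh {ι : Type*} (s : Finset ι) (a : ι → ℤ) (ha : ∀ i ∈ s, a i = 0 ∨ a i = 1) :
    1 - 2 * ∑ i ∈ s, a i ≤ ∏ i ∈ s, (1 - 2 * a i) ∧ (∏ i ∈ s, (1 - 2 * a i) = 1 ∨
      ∏ i ∈ s, (1 - 2 * a i) = -1) := by
  classical
  induction s using Finset.induction_on with
  | empty => simp
  | insert i s hi ih =>
    obtain ⟨h1, h2⟩ := ih (fun j hj => ha j (Finset.mem_insert_of_mem hj))
    rw [Finset.prod_insert hi, Finset.sum_insert hi]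
    rcases ha i (Finset.mem_insert_self _ _) with h | h
    · rw [h]
      simp only [mul_zero, sub_zero, one_mul, zero_add]
      exact ⟨h1, h2⟩
    · rw [h]
      have h0 : 0 ≤ ∑ j ∈ s, a j := Finset.sum_nonneg fun j hj => by
        rcases ha j (Finset.mem_insert_of_mem hj) with h | h <;> rw [h] <;> norm_num
      refine ⟨?_, ?_⟩
      · rcases h2 with h2 | h2 <;> rw [h2] <;> linarith
      · rcases h2 with h2 | h2 <;> rw [h2] <;> norm_num

lemma WW_ge {σ : V → V → ℤ} (hσ : IsSig σ) (x y : V) (g : Fin (k + 2) → V) :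
    1 - 2 * UE σ x y g ≤ WW σ x y g ∧ WW σ x y g ≤ 1 := by
  have hval : ∀ u v, hh σ u v = 0 ∨ hh σ u v = 1 := by
    intro u v; unfold hh; split_ifs <;> simp
  obtain ⟨h1, h2⟩ := prod_hh (univ : Finset (Fin (k + 1))) (fun i => hh σ (g i.castSucc) (g i.succ))
    (fun i _ => hval _ _)
  have h3 : hp σ g = ∏ i : Fin (k + 1), (1 - 2 * hh σ (g i.castSucc) (g i.succ)) := by
    unfold hp
    exact Finset.prod_congr rfl fun i _ => sig_hh hσ _ _
  have h0 : 0 ≤ ∑ i : Fin (k + 1), hh σ (g i.castSucc) (g i.succ) :=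
    Finset.sum_nonneg fun i _ => hh_nonneg _ _ _
  unfold WW UE
  rw [h3, sig_hh hσ y (g 0), sig_hh hσ (g (Fin.last (k + 1))) x]
  rcases hval y (g 0) with e1 | e1 <;> rcases hval (g (Fin.last (k + 1))) x with e2 | e2 <;>
    rw [e1, e2] <;> rcases h2 with h2 | h2 <;> rw [h2] at h1 ⊢ <;> constructor <;> linarith

lemma cc_flip_eq {σ : V → V → ℤ} (hσ : IsSig σ) (hn : k + 4 ≤ Fintype.card V) {x y : V}
    (hxy : x ≠ y) (h : σ x y = -1) :
    cc (k + 4) σ - cc (k + 4) (flip σ x y) = ∑ g ∈ av (k + 2) {x, y}, WW σ x y g := by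
  have h1 := cc_sub (by omega) hn hσ (hσ.flip x y)
  have h2 := Z_flip (l := k + 4) (by omega) hσ x y
  rw [sum_rooted (k + 2) hxy] at h2
  have h3 : ∑ g ∈ av (k + 2) {x, y}, cp (k + 2 + 2) σ
      (Fin.cons x (Fin.cons y g : Fin (k + 2 + 1) → V))
      = -∑ g ∈ av (k + 2) {x, y}, WW σ x y g := by
    rw [← Finset.sum_neg_distrib]
    refine Finset.sum_congr rfl fun g _ => ?_
    have := cp_WW σ x y g
    rw [h] at this
    rw [this]; ring
  rw [h3] at h2
  have hl0 : (4 * ((k + 4 : ℕ) : ℤ)) ≠ 0 := by positivity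
  refine mul_left_cancel₀ hl0 ?_
  rw [h1]
  linear_combination -h2

lemma card_compl_two {x y : V} (hxy : x ≠ y) : (({x, y} : Finset V)ᶜ).card = Fintype.card V - 2 := by
  rw [Finset.card_compl, Finset.card_pair hxy]

lemma sum_UE {σ : V → V → ℤ} (hσ : IsSig σ) {x y : V} (hxy : x ≠ y) :
    ∑ g ∈ av (k + 2) {x, y}, UE σ x y g
      = (dg σ x y + dg σ y x) * (((Fintype.card V - 3).descFactorial (k + 1) : ℕ) : ℤ)
        + (k + 1) * (RR σ x y * (((Fintype.card V - 4).descFactorial k : ℕ) : ℤ)) := by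
  unfold UE
  rw [Finset.sum_add_distrib, Finset.sum_add_distrib, Finset.sum_comm]
  have c1 := count_one (k + 1) ({x, y} : Finset V) 0 (fun v => σ y v = -1)
  have c2 := count_one (k + 1) ({x, y} : Finset V) (Fin.last (k + 1)) (fun v => σ v x = -1)
  have c3 : ∀ i : Fin (k + 1), ∑ g ∈ av (k + 2) {x, y}, hh σ (g i.castSucc) (g i.succ)
      = RR σ x y * (((Fintype.card V - 4).descFactorial k : ℕ) : ℤ) := by
    intro i
    have c4 := count_two k ({x, y} : Finset V) (i := i.castSucc) (j := i.succ)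
      (by intro h; have := congrArg Fin.val h; simp at this) (fun u v => σ u v = -1)
    rw [card_compl_two hxy, show Fintype.card V - 2 - 2 = Fintype.card V - 4 by omega] at c4
    exact c4
  rw [Finset.sum_congr rfl fun i _ => c3 i, Finset.sum_const, Finset.card_univ, Fintype.card_fin,
    nsmul_eq_mul]
  rw [card_compl_two hxy, show Fintype.card V - 2 - 1 = Fintype.card V - 3 by omega] at c1 c2
  have e1 : ∑ g ∈ av (k + 2) {x, y}, hh σ y (g 0)
      = dg σ x y * (((Fintype.card V - 3).descFactorial (k + 1) : ℕ) : ℤ) := c1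
  have e2 : ∑ g ∈ av (k + 2) {x, y}, hh σ (g (Fin.last (k + 1))) x
      = dg σ y x * (((Fintype.card V - 3).descFactorial (k + 1) : ℕ) : ℤ) := by
    refine c2.trans ?_
    congr 2
    unfold dg
    rw [Finset.pair_comm]
    congr 1
    ext v
    simp only [Finset.mem_filter]
    rw [hσ.symm v x]
  rw [e1, e2]
  push_cast
  ring

/-- The change when a negative edge is made positive. -/
lemma cc_flip_ge {σ : V → V → ℤ} (hσ : IsSig σ) (hn : 2 * (k + 1) + 3 ≤ Fintype.card V)
    (hn4 : k + 4 ≤ Fintype.card V) {x y : V}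
    (hxy : x ≠ y) (h : σ x y = -1) :
    ((Fintype.card V : ℤ) - negN σ) * (((Fintype.card V - 3).descFactorial (k + 1) : ℕ) : ℤ)
      ≤ cc (k + 4) σ - cc (k + 4) (flip σ x y) ∧
    cc (k + 4) σ - cc (k + 4) (flip σ x y) ≤ (((Fintype.card V - 2).descFactorial (k + 2) : ℕ) : ℤ) := by
  rw [cc_flip_eq hσ hn4 hxy h]
  have hcard : ((av (k + 2) ({x, y} : Finset V)).card : ℤ)
      = (((Fintype.card V - 2).descFactorial (k + 2) : ℕ) : ℤ) := by
    rw [card_av, card_compl_two hxy]
  have hA : (((Fintype.card V - 2).descFactorial (k + 2) : ℕ) : ℤ)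
      = ((Fintype.card V : ℤ) - 2) * (((Fintype.card V - 3).descFactorial (k + 1) : ℕ) : ℤ) := by
    obtain ⟨c, hc⟩ : ∃ c, Fintype.card V = c + 3 := ⟨Fintype.card V - 3, by omega⟩
    rw [hc]
    have e1 : c + 3 - 2 = c + 1 := by omega
    have e2 : c + 3 - 3 = c := by omega
    rw [e1, e2, Nat.succ_descFactorial_succ]
    push_cast
    ring
  constructor
  · have h1 : ∑ g ∈ av (k + 2) {x, y}, (1 - 2 * UE σ x y g) ≤ ∑ g ∈ av (k + 2) {x, y}, WW σ x y g :=
      Finset.sum_le_sum fun g _ => (WW_ge hσ x y g).1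
    refine le_trans ?_ h1
    rw [Finset.sum_sub_distrib, ← Finset.mul_sum, sum_UE hσ hxy, Finset.sum_const, nsmul_eq_mul,
      mul_one, hcard, hA, negN_split hσ hxy h]
    have hR : 0 ≤ RR σ x y := prs_nonneg _ _
    have hB : 2 * ((k + 1 : ℕ) : ℤ) * (((Fintype.card V - 4).descFactorial k : ℕ) : ℤ)
        ≤ (((Fintype.card V - 3).descFactorial (k + 1) : ℕ) : ℤ) := by
      obtain ⟨c, hc⟩ : ∃ c, Fintype.card V = c + 4 := ⟨Fintype.card V - 4, by omega⟩
      rw [hc]
      have e1 : c + 4 - 3 = c + 1 := by omega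
      have e2 : c + 4 - 4 = c := by omega
      rw [e1, e2, Nat.succ_descFactorial_succ]
      push_cast
      refine mul_le_mul_of_nonneg_right ?_ (by positivity)
      have : 2 * (k + 1) + 3 ≤ c + 4 := by omega
      have : 2 * ((k : ℤ) + 1) + 3 ≤ c + 4 := by exact_mod_cast this
      linarith
    have h2 := mul_le_mul_of_nonneg_left hB hR
    push_cast at h2 ⊢
    nlinarith
  · have h1 : ∑ g ∈ av (k + 2) {x, y}, WW σ x y g ≤ ∑ g ∈ av (k + 2) {x, y}, (1 : ℤ) :=
      Finset.sum_le_sum fun g _ => (WW_ge hσ x y g).2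
    rw [Finset.sum_const, nsmul_eq_mul, mul_one, hcard] at h1
    exact h1

lemma cc_zero' {l : ℕ} [NeZero l] {σ : V → V → ℤ} (hσ : IsSig σ) (hl : 3 ≤ l)
    (hn : l ≤ Fintype.card V) (h : negN σ = 0) : cc l σ = 0 := by
  have h1 := cc_spec hl hn hσ
  rw [Z_of_negN_eq_zero hl hσ h, sub_self] at h1
  have hl0 : (4 * (l : ℤ)) ≠ 0 := by
    have : (l : ℤ) ≠ 0 := by exact_mod_cast (by omega : l ≠ 0)
    positivity
  exact (mul_eq_zero.1 h1).resolve_left hl0

/-- The bounds `a_t` and `b_t`. -/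
theorem cc_bounds (hn : 2 * (k + 1) + 3 ≤ Fintype.card V) (hn4 : k + 4 ≤ Fintype.card V) :
    ∀ (t : ℕ) {σ : V → V → ℤ}, IsSig σ → negN σ = 2 * t →
    (t : ℤ) * ((Fintype.card V : ℤ) - 1 - t) * (((Fintype.card V - 3).descFactorial (k + 1) : ℕ) : ℤ)
      ≤ cc (k + 4) σ ∧
    cc (k + 4) σ ≤ t * (((Fintype.card V - 2).descFactorial (k + 2) : ℕ) : ℤ) := by
  intro t
  induction t with
  | zero =>
    intro σ hσ h
    rw [cc_zero' hσ (by omega) (by omega) h]
    simp
  | succ t ih =>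
    intro σ hσ h
    have h0 : 0 < negN σ := by omega
    have h0' := h0
    unfold negN at h0'
    obtain ⟨⟨x, y⟩, hp⟩ := Finset.card_pos.1 h0'
    simp only [Finset.mem_filter, Finset.mem_univ, true_and] at hp
    have h1 := negN_flip_eq hσ hp.1 hp.2
    obtain ⟨h2, h3⟩ := ih (hσ.flip x y) (by omega)
    obtain ⟨h4, h5⟩ := cc_flip_ge hσ hn hn4 hp.1 hp.2
    rw [h] at h4
    push_cast at h4 ⊢
    constructor
    · have e : ((t : ℤ) + 1) * ((Fintype.card V : ℤ) - 1 - (t + 1))
            * (((Fintype.card V - 3).descFactorial (k + 1) : ℕ) : ℤ)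
          = (t : ℤ) * ((Fintype.card V : ℤ) - 1 - t) * (((Fintype.card V - 3).descFactorial (k + 1) : ℕ) : ℤ)
            + ((Fintype.card V : ℤ) - 2 * (t + 1))
              * (((Fintype.card V - 3).descFactorial (k + 1) : ℕ) : ℤ) := by ring
      linarith
    · have e : ((t : ℤ) + 1) * (((Fintype.card V - 2).descFactorial (k + 2) : ℕ) : ℤ)
          = t * (((Fintype.card V - 2).descFactorial (k + 2) : ℕ) : ℤ)
            + (((Fintype.card V - 2).descFactorial (k + 2) : ℕ) : ℤ) := by ring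
      linarith

end

end MP_90430c
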