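import Mathlib
import Pool.Agent.Lib.MP_90430c_co.LowBound

/-! Circles with exactly one negative edge. -/

open Finset

set_option linter.unusedSectionVars false

namespace MP_90430c

section

variable {V : Type*} [Fintype V] [DecidableEq V] {l : ℕ} [NeZero l]

/-- The number of negative edges on the closed sequence `f`. -/
def nE (l : ℕ) [NeZero l] (σ : V → V → ℤ) (f : Fin l → V) : ℤ := ∑ i, hh σ (f i) (f (i + 1))

lemma hh_val (σ : V → V → ℤ) (u v : V) : hh σ u v = 0 ∨ hh σ u v = 1 := by
  unfold hh; split_ifs <;> simp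

lemma nE_rot (σ : V → V → ℤ) (c : Fin l) (f : Fin l → V) : nE l σ (fun i => f (i + c)) = nE l σ f := by
  unfold nE
  rw [← Equiv.sum_comp (Equiv.addRight c) (fun i => hh σ (f i) (f (i + 1)))]
  refine Finset.sum_congr rfl fun i _ => ?_
  simp only [Equiv.coe_addRight]
  congr 2
  rw [add_assoc, add_assoc, add_comm 1 c]

lemma prod_one {ι : Type*} (s : Finset ι) (a : ι → ℤ) (ha : ∀ i, a i = 0 ∨ a i = 1)
    (h : ∑ i ∈ s, a i = 1) : ∏ i ∈ s, (1 - 2 * a i) = -1 := by
  classical
  induction s using Finset.induction_on with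
  | empty => simp at h
  | insert i s hi ih =>
    rw [Finset.prod_insert hi]
    rw [Finset.sum_insert hi] at h
    rcases ha i with h1 | h1
    · rw [h1] at h ⊢
      rw [zero_add] at h
      rw [ih h]; norm_num
    · rw [h1] at h ⊢
      have h2 : ∑ j ∈ s, a j = 0 := by linarith
      have h3 : ∀ j ∈ s, a j = 0 := by
        rw [Finset.sum_eq_zero_iff_of_nonneg (fun j _ => by
          rcases ha j with h | h <;> rw [h] <;> norm_num)] at h2
        exact h2
      rw [Finset.prod_eq_one fun j hj => by rw [h3 j hj]; norm_num]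
      norm_num

lemma cp_of_nE {σ : V → V → ℤ} (hσ : IsSig σ) {f : Fin l → V} (h : nE l σ f = 1) : cp l σ f = -1 := by
  have h1 : cp l σ f = ∏ i : Fin l, (1 - 2 * hh σ (f i) (f (i + 1))) := by
    unfold cp
    exact Finset.prod_congr rfl fun i _ => sig_hh hσ _ _
  rw [h1]
  exact prod_one _ _ (fun i => hh_val _ _ _) h

/-- Indicator: the first edge is the only negative edge. -/
def E0 (l : ℕ) [NeZero l] (σ : V → V → ℤ) (f : Fin l → V) : ℤ :=
  if nE l σ f = 1 then hh σ (f 0) (f 1) else 0

lemma sum_E0_rot {σ : V → V → ℤ} (hσ : IsSig σ) (f : Fin l → V) :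
    2 * ∑ i : Fin l, E0 l σ (fun j => f (j + i)) ≤ 1 - cp l σ f := by
  have h1 : ∀ i ∈ (univ : Finset (Fin l)), E0 l σ (fun j => f (j + i))
      = if nE l σ f = 1 then hh σ (f i) (f (i + 1)) else 0 := by
    intro i _
    unfold E0
    rw [nE_rot]
    beta_reduce
    rw [zero_add, add_comm 1 i]
  rw [Finset.sum_congr rfl h1]
  split_ifs with h
  · have h2 : ∑ i : Fin l, hh σ (f i) (f (i + 1)) = 1 := h
    rw [h2, cp_of_nE hσ h]
    norm_num
  · simp only [Finset.sum_const_zero, mul_zero]
    have := (abs_le.1 (abs_cp hσ f).le).2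
    linarith

lemma sum_E0 (hl : 3 ≤ l) (hn : l ≤ Fintype.card V) {σ : V → V → ℤ} (hσ : IsSig σ) :
    ∑ f ∈ inj l V, E0 l σ f ≤ 2 * cc l σ := by
  have h1 : ∑ f ∈ inj l V, 2 * ∑ i : Fin l, E0 l σ (fun j => f (j + i))
      ≤ ∑ f ∈ inj l V, (1 - cp l σ f) := Finset.sum_le_sum fun f _ => sum_E0_rot hσ f
  have h2 : ∑ f ∈ inj l V, 2 * ∑ i : Fin l, E0 l σ (fun j => f (j + i))
      = 2 * l * ∑ f ∈ inj l V, E0 l σ f := by
    rw [← Finset.mul_sum, Finset.sum_comm]
    have h3 : ∀ i ∈ (univ : Finset (Fin l)), ∑ f ∈ inj l V, E0 l σ (fun j => f (j + i))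
        = ∑ f ∈ inj l V, E0 l σ f := by
      intro i _
      exact sum_comp_equiv (Equiv.addRight i) (fun f => E0 l σ f)
    rw [Finset.sum_congr rfl h3, Finset.sum_const, Finset.card_univ, Fintype.card_fin, nsmul_eq_mul]
    ring
  have h4 : ∑ f ∈ inj l V, (1 - cp l σ f) = 4 * l * cc l σ := by
    rw [cc_spec hl hn hσ, Finset.sum_sub_distrib, Finset.sum_const, card_inj]
    unfold Z
    simp
  rw [h2, h4] at h1
  have hl0 : (0 : ℤ) < 2 * l := by
    have : (0 : ℤ) < l := by exact_mod_cast (by omega : 0 < l)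
    linarith
  refine le_of_mul_le_mul_left ?_ hl0
  linarith

lemma inj_eq_av : inj l V = av l ∅ := by
  ext f; rw [mem_inj, mem_av]; simp

lemma nE_cons (k : ℕ) (σ : V → V → ℤ) (x y : V) (g : Fin (k + 2) → V) :
    nE (k + 4) σ (Fin.cons x (Fin.cons y g : Fin (k + 3) → V) : Fin (k + 4) → V)
      = hh σ x y + UE σ x y g := by
  unfold nE UE
  rw [Fin.sum_univ_castSucc]
  have e1 : ∀ i : Fin (k + 3), (i.castSucc + 1 : Fin (k + 4)) = i.succ := fun i => Fin.coeSucc_eq_succ
  simp only [e1, Fin.last_add_one]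
  rw [Fin.sum_univ_succ, Fin.sum_univ_succ]
  have e2 : (Fin.cons x (Fin.cons y g : Fin (k + 3) → V) : Fin (k + 4) → V) (Fin.last (k + 3))
      = g (Fin.last (k + 1)) := rfl
  rw [e2]
  have e3 : ∀ i : Fin (k + 1), (Fin.cons x (Fin.cons y g : Fin (k + 3) → V) : Fin (k + 4) → V)
      (i.succ.succ.castSucc) = g i.castSucc := fun i => rfl
  have e4 : ∀ i : Fin (k + 1), (Fin.cons x (Fin.cons y g : Fin (k + 3) → V) : Fin (k + 4) → V)
      (i.succ.succ.succ) = g i.succ := fun i => rfl
  simp only [e3, e4]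
  have e5 : (Fin.cons x (Fin.cons y g : Fin (k + 3) → V) : Fin (k + 4) → V)
      (Fin.castSucc 0) = x := rfl
  have e6 : (Fin.cons x (Fin.cons y g : Fin (k + 3) → V) : Fin (k + 4) → V)
      (Fin.succ 0) = y := rfl
  have e7 : (Fin.cons x (Fin.cons y g : Fin (k + 3) → V) : Fin (k + 4) → V)
      ((Fin.succ 0).castSucc) = y := rfl
  have e8 : (Fin.cons x (Fin.cons y g : Fin (k + 3) → V) : Fin (k + 4) → V)
      ((Fin.succ 0).succ) = g 0 := rfl
  rw [e5, e6, e7, e8, Fin.cons_zero]
  ring

lemma prs_and_ge (Y : Finset V) (P Q : V → Prop) [DecidablePred P] [DecidablePred Q] :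
    ((Y.filter P).card : ℤ) * ((Y.filter Q).card - 1) ≤ prs Y (fun u v => P u ∧ Q v) := by
  unfold prs
  rw [Finset.card_filter]
  push_cast
  rw [Finset.sum_mul]
  refine Finset.sum_le_sum fun u hu => ?_
  split_ifs with hP
  · rw [one_mul]
    have h1 : ∑ v ∈ Y.erase u, (if P u ∧ Q v then (1 : ℤ) else 0) = ((Y.erase u).filter Q).card := by
      rw [Finset.card_filter]
      push_cast
      refine Finset.sum_congr rfl fun v _ => ?_
      exact if_congr ⟨fun h => h.2, fun h => ⟨hP, h⟩⟩ rfl rfl
    rw [h1]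
    have h2 : (Y.filter Q).card ≤ ((Y.erase u).filter Q).card + 1 := by
      have h3 : Y.filter Q ⊆ insert u ((Y.erase u).filter Q) := by
        intro v hv
        rw [Finset.mem_filter] at hv
        rw [Finset.mem_insert, Finset.mem_filter, Finset.mem_erase]
        by_cases h : v = u
        · exact Or.inl h
        · exact Or.inr ⟨⟨h, hv.1⟩, hv.2⟩
      exact (Finset.card_le_card h3).trans (Finset.card_insert_le _ _)
    have h4 : ((Y.filter Q).card : ℤ) ≤ ((Y.erase u).filter Q).card + 1 := by exact_mod_cast h2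
    linarith
  · rw [zero_mul]
    refine Finset.sum_nonneg fun v _ => ?_
    split_ifs <;> norm_num

/-- Negative degree. -/
def ndeg (σ : V → V → ℤ) (x : V) : ℕ := ((univ.erase x).filter fun v => σ x v = -1).card

lemma ndeg_eq {σ : V → V → ℤ} {x y : V} (hxy : x ≠ y) (h : σ y x = -1) :
    ndeg σ y = dg σ x y + 1 := by
  unfold ndeg dg
  have e2 : ((univ.erase y).filter fun v => σ y v = -1)
      = insert x (({x, y} : Finset V)ᶜ.filter fun v => σ y v = -1) := by
    ext z
    simp only [Finset.mem_filter, Finset.mem_erase, Finset.mem_univ, and_true, Finset.mem_insert,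
      Finset.mem_compl, Finset.mem_singleton, not_or]
    constructor
    · rintro ⟨h1, h2⟩
      by_cases hz : z = x
      · exact Or.inl hz
      · exact Or.inr ⟨⟨hz, h1⟩, h2⟩
    · rintro (rfl | ⟨⟨h1, h2⟩, h3⟩)
      · exact ⟨hxy, h⟩
      · exact ⟨h2, h3⟩
  rw [e2, Finset.card_insert_of_notMem (by simp)]

lemma RR_le {σ : V → V → ℤ} (hσ : IsSig σ) {x y : V} (hxy : x ≠ y) (h : σ x y = -1) :
    RR σ x y ≤ negN σ := by
  rw [negN_split hσ hxy h]
  have h1 : (0 : ℤ) ≤ dg σ x y := by positivity
  have h2 : (0 : ℤ) ≤ dg σ y x := by positivity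
  linarith

/-- Many circles have exactly one negative edge. -/
theorem many_one {k : ℕ} {σ : V → V → ℤ} (hσ : IsSig σ) (hn : k + 4 ≤ Fintype.card V)
    (hdeg : ∀ x, 2 * ndeg σ x ≤ Fintype.card V - 1) :
    (negN σ : ℤ) * ((((Fintype.card V - 4).descFactorial k : ℕ) : ℤ)
      * (((Fintype.card V : ℤ) - 1) * ((Fintype.card V : ℤ) - 3) - 4 * (k + 1) * negN σ))
      ≤ 8 * cc (k + 4) σ := by
  have h0 := sum_E0 (l := k + 4) (by omega) hn hσ
  set n : ℤ := (Fintype.card V : ℤ) with hndef
  set F : ℤ := (((Fintype.card V - 4).descFactorial k : ℕ) : ℤ) with hF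
  have hF0 : 0 ≤ F := by positivity
  rw [inj_eq_av, sum_cons'] at h0
  have h1 : ∀ x ∈ (∅ : Finset V)ᶜ, ∑ y ∈ univ.erase x, (if σ x y = -1 then
      F * ((n - 1) * (n - 3) - 4 * (k + 1) * negN σ) else 0)
      ≤ 4 * ∑ p ∈ av (k + 3) (insert x ∅), E0 (k + 4) σ (Fin.cons x p : Fin (k + 4) → V) := by
    intro x _
    rw [sum_cons', Finset.mul_sum]
    have e1 : (insert x ∅ : Finset V)ᶜ = univ.erase x := by
      ext z; simp
    rw [e1]
    refine Finset.sum_le_sum fun y hy => ?_
    rw [Finset.mem_erase] at hy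
    have hxy : x ≠ y := Ne.symm hy.1
    have e2 : (insert y (insert x ∅) : Finset V) = {x, y} := by
      ext z; simp only [Finset.mem_insert, Finset.notMem_empty, or_false, Finset.mem_singleton]; tauto
    rw [e2]
    split_ifs with hneg
    · have hE : ∀ g ∈ av (k + 2) {x, y},
          (if σ y (g 0) = 1 ∧ σ (g (Fin.last (k + 1))) x = 1 then (1 : ℤ) else 0)
            - ∑ i : Fin (k + 1), hh σ (g i.castSucc) (g i.succ)
          ≤ E0 (k + 4) σ (Fin.cons x (Fin.cons y g : Fin (k + 3) → V) : Fin (k + 4) → V) := by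
        intro g _
        have hS : 0 ≤ ∑ i : Fin (k + 1), hh σ (g i.castSucc) (g i.succ) :=
          Finset.sum_nonneg fun i _ => hh_nonneg _ _ _
        have hx1 : hh σ x y = 1 := by unfold hh; rw [if_pos hneg]
        unfold E0
        rw [nE_cons]
        have e3 : (Fin.cons x (Fin.cons y g : Fin (k + 3) → V) : Fin (k + 4) → V) 0 = x := rfl
        have e4 : (Fin.cons x (Fin.cons y g : Fin (k + 3) → V) : Fin (k + 4) → V) 1 = y := rfl
        rw [e3, e4, hx1]
        unfold UE
        have hA := hh_val σ y (g 0)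
        have hB := hh_val σ (g (Fin.last (k + 1))) x
        by_cases hc : σ y (g 0) = 1 ∧ σ (g (Fin.last (k + 1))) x = 1
        · rw [if_pos hc]
          have hA0 : hh σ y (g 0) = 0 := by unfold hh; rw [if_neg (by rw [hc.1]; norm_num)]
          have hB0 : hh σ (g (Fin.last (k + 1))) x = 0 := by
            unfold hh; rw [if_neg (by rw [hc.2]; norm_num)]
          rw [hA0, hB0]
          split_ifs with h5
          · linarith
          · have h6 : ∑ i : Fin (k + 1), hh σ (g i.castSucc) (g i.succ) ≠ 0 := by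
              intro h7
              apply h5
              rw [h7]; norm_num
            have h8 : 0 < ∑ i : Fin (k + 1), hh σ (g i.castSucc) (g i.succ) :=
              lt_of_le_of_ne hS (Ne.symm h6)
            linarith
        · rw [if_neg hc]
          split_ifs <;> linarith
      refine le_trans ?_ (mul_le_mul_of_nonneg_left (Finset.sum_le_sum hE) (by norm_num))
      rw [Finset.sum_sub_distrib, Finset.sum_comm]
      have c4 := count_two k ({x, y} : Finset V) (i := 0) (j := Fin.last (k + 1))
        (by intro h; have := congrArg Fin.val h; simp at this) (fun u v => σ y u = 1 ∧ σ v x = 1)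
      have c3 : ∀ i : Fin (k + 1), ∑ g ∈ av (k + 2) {x, y}, hh σ (g i.castSucc) (g i.succ)
          = RR σ x y * F := by
        intro i
        have c4 := count_two k ({x, y} : Finset V) (i := i.castSucc) (j := i.succ)
          (by intro h; have := congrArg Fin.val h; simp at this) (fun u v => σ u v = -1)
        rw [card_compl_two hxy, show Fintype.card V - 2 - 2 = Fintype.card V - 4 by omega] at c4
        exact c4
      rw [card_compl_two hxy, show Fintype.card V - 2 - 2 = Fintype.card V - 4 by omega, ← hF] at c4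
      rw [c4, Finset.sum_congr rfl fun i _ => c3 i, Finset.sum_const, Finset.card_univ,
        Fintype.card_fin, nsmul_eq_mul]
      have hP : ∀ (x y : V), x ≠ y → σ y x = -1 → 2 * ((({x, y} : Finset V)ᶜ.filter fun u => σ y u = 1).card : ℤ) ≥ n - 1 := by
        intro x y hxy hyx
        have h5 := ndeg_eq hxy hyx
        have h6 := hdeg y
        have h7 : (({x, y} : Finset V)ᶜ.filter fun u => σ y u = 1).card + dg σ x y
            = Fintype.card V - 2 := by
          rw [← card_compl_two hxy, ← Finset.card_filter_add_card_filter_not (s := ({x, y} : Finset V)ᶜ)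
            (fun u => σ y u = 1)]
          congr 1
          unfold dg
          congr 1
          ext u
          simp only [Finset.mem_filter]
          refine and_congr_right fun _ => ?_
          rcases hσ.val y u with h | h <;> rw [h] <;> norm_num
        have h8 : 2 * (({x, y} : Finset V)ᶜ.filter fun u => σ y u = 1).card + 1 ≥ Fintype.card V := by
          omega
        have h9 : (2 * ((({x, y} : Finset V)ᶜ.filter fun u => σ y u = 1).card : ℤ) + 1) ≥ n := by
          rw [hndef]; exact_mod_cast h8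
        linarith
      have p1 := hP x y hxy (by rw [hσ.symm]; exact hneg)
      have p2 := hP y x (Ne.symm hxy) hneg
      have e5 : (({y, x} : Finset V)ᶜ.filter fun u => σ x u = 1)
          = (({x, y} : Finset V)ᶜ.filter fun v => σ v x = 1) := by
        rw [Finset.pair_comm]
        ext u
        simp only [Finset.mem_filter]
        rw [hσ.symm x u]
      rw [e5] at p2
      have h10 := prs_and_ge ({x, y} : Finset V)ᶜ (fun u => σ y u = 1) (fun v => σ v x = 1)
      have h11 := RR_le hσ hxy hneg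
      set p : ℤ := ((({x, y} : Finset V)ᶜ.filter fun u => σ y u = 1).card : ℤ) with hp
      set q : ℤ := ((({x, y} : Finset V)ᶜ.filter fun v => σ v x = 1).card : ℤ) with hq
      have hn4 : (4 : ℤ) ≤ n := by rw [hndef]; exact_mod_cast (by omega : 4 ≤ Fintype.card V)
      have h12 : (n - 1) * (n - 3) ≤ 4 * (p * (q - 1)) := by nlinarith
      have h13 : (n - 1) * (n - 3) - 4 * (k + 1) * negN σ
          ≤ 4 * (prs ({x, y} : Finset V)ᶜ (fun u v => σ y u = 1 ∧ σ v x = 1) - (k + 1) * RR σ x y) := by
        have : ((k : ℤ) + 1) * RR σ x y ≤ (k + 1) * negN σ :=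
          mul_le_mul_of_nonneg_left h11 (by positivity)
        linarith
      have h14 := mul_le_mul_of_nonneg_left h13 hF0
      push_cast
      push_cast at h14
      linarith
    · have : 0 ≤ ∑ g ∈ av (k + 2) {x, y}, E0 (k + 4) σ (Fin.cons x (Fin.cons y g : Fin (k + 3) → V) : Fin (k + 4) → V) := by
        refine Finset.sum_nonneg fun g _ => ?_
        unfold E0
        split_ifs
        · exact hh_nonneg _ _ _
        · exact le_rfl
      linarith
  have h2 := Finset.sum_le_sum h1
  rw [← Finset.mul_sum] at h2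
  have h3 : ∑ x ∈ (∅ : Finset V)ᶜ, ∑ y ∈ univ.erase x, (if σ x y = -1 then
      F * ((n - 1) * (n - 3) - 4 * (k + 1) * negN σ) else 0)
      = negN σ * (F * ((n - 1) * (n - 3) - 4 * (k + 1) * negN σ)) := by
    have e1 : (∅ : Finset V)ᶜ = univ := by simp
    rw [e1, negN_eq_prs]
    unfold prs
    rw [Finset.sum_mul]
    refine Finset.sum_congr rfl fun x _ => ?_
    rw [Finset.sum_mul]
    refine Finset.sum_congr rfl fun y _ => ?_
    split_ifs
    · rw [one_mul]
    · rw [zero_mul]
  rw [h3] at h2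
  linarith

end

end MP_90430c
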