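import Mathlib
import Pool.Agent.Lib.MP_90430c_co.LowOne

/-! Stability: few negative circles force a nearly balanced or nearly antibalanced signature. -/

open Finset

set_option linter.unusedSectionVars false

namespace MP_90430c

section

variable {V : Type*} [Fintype V] [DecidableEq V] {k : ℕ}

/-- Number of ordered pairs (diagonal included) with a property. -/
def pp (P : V → V → Prop) [∀ u, DecidablePred (P u)] : ℤ := ∑ x : V, ∑ y : V, if P x y then (1 : ℤ) else 0

lemma pp_mono {P Q : V → V → Prop} [∀ u, DecidablePred (P u)] [∀ u, DecidablePred (Q u)]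
    (h : ∀ x y, P x y → Q x y) : pp P ≤ pp Q := by
  unfold pp
  refine Finset.sum_le_sum fun x _ => Finset.sum_le_sum fun y _ => ?_
  by_cases h1 : P x y
  · rw [if_pos h1, if_pos (h x y h1)]
  · rw [if_neg h1]; split_ifs <;> norm_num

lemma pp_or {P Q R : V → V → Prop} [∀ u, DecidablePred (P u)] [∀ u, DecidablePred (Q u)]
    [∀ u, DecidablePred (R u)] (h : ∀ x y, P x y → Q x y ∨ R x y) : pp P ≤ pp Q + pp R := by
  unfold pp
  rw [← Finset.sum_add_distrib]
  refine Finset.sum_le_sum fun x _ => ?_
  rw [← Finset.sum_add_distrib]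
  refine Finset.sum_le_sum fun y _ => ?_
  by_cases h1 : P x y
  · rw [if_pos h1]
    rcases h x y h1 with h2 | h2
    · rw [if_pos h2]; split_ifs <;> norm_num
    · rw [if_pos h2]; split_ifs <;> norm_num
  · rw [if_neg h1]; split_ifs <;> norm_num

lemma pp_swap (P : V → V → Prop) [∀ u, DecidablePred (P u)]
    [∀ u, DecidablePred (fun v => P v u)] : pp (fun x y => P y x) = pp P := by
  unfold pp
  rw [Finset.sum_comm]

lemma pp_snd (P : V → Prop) [DecidablePred P] :
    pp (fun _ y : V => P y) = Fintype.card V * (univ.filter P).card := by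
  unfold pp
  rw [Finset.sum_const, Finset.card_univ, nsmul_eq_mul, ← Finset.sum_filter, Finset.sum_const,
    nsmul_eq_mul, mul_one]

lemma pp_fst (P : V → Prop) [DecidablePred P] :
    pp (fun x _ : V => P x) = Fintype.card V * (univ.filter P).card := by
  unfold pp
  rw [Finset.sum_comm, Finset.sum_const, Finset.card_univ, nsmul_eq_mul, ← Finset.sum_filter,
    Finset.sum_const, nsmul_eq_mul, mul_one]

lemma pp_diag : pp (fun x y : V => x = y) = Fintype.card V := by
  unfold pp
  have : ∀ x ∈ (univ : Finset V), ∑ y : V, (if x = y then (1 : ℤ) else 0) = 1 := by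
    intro x _
    rw [Finset.sum_ite_eq univ x, if_pos (Finset.mem_univ _)]
  rw [Finset.sum_congr rfl this, Finset.sum_const, Finset.card_univ, nsmul_eq_mul, mul_one]

lemma abs_hp' {σ : V → V → ℤ} (hσ : IsSig σ) {a : ℕ} (p : Fin (a + 1) → V) : |hp σ p| = 1 := by
  unfold hp
  rw [Finset.abs_prod]
  exact Finset.prod_eq_one fun i _ => hσ.abs _ _

/-- First step: an approximate factorisation. -/
lemma exists_rs {σ : V → V → ℤ} (hσ : IsSig σ) (hn : k + 4 ≤ Fintype.card V) :
    ∃ r s : V → ℤ, (∀ x, r x = 1 ∨ r x = -1) ∧ (∀ x, s x = 1 ∨ s x = -1) ∧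
      (((Fintype.card V).descFactorial (k + 2) : ℕ) : ℤ) * (2 * pp (fun x y => σ x y ≠ r x * s y)
        - (4 * k + 10) * Fintype.card V) ≤ 4 * (k + 4) * cc (k + 4) σ := by
  set S : (Fin (k + 2) → V) → ℤ := fun g => ∑ y ∈ (∅ ∪ univ.image g : Finset V)ᶜ,
    ∑ x ∈ (∅ ∪ univ.image (Fin.cons y g : Fin (k + 3) → V) : Finset V)ᶜ,
      (1 - cp (k + 4) σ (Fin.cons x (Fin.cons y g : Fin (k + 3) → V) : Fin (k + 4) → V)) with hS
  have htot : ∑ g ∈ av (k + 2) (∅ : Finset V), S g = 4 * (k + 4) * cc (k + 4) σ := by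
    have h1 := cc_spec (l := k + 4) (by omega) hn hσ
    have h2 : ∑ f ∈ inj (k + 4) V, (1 - cp (k + 4) σ f) = 4 * ((k + 4 : ℕ) : ℤ) * cc (k + 4) σ := by
      rw [h1, Finset.sum_sub_distrib, Finset.sum_const, card_inj]
      unfold Z
      simp
    rw [inj_eq_av, sum_cons (k + 3), sum_cons (k + 2)] at h2
    push_cast at h2
    exact h2
  have hne : (av (k + 2) (∅ : Finset V)).Nonempty := by
    rw [← Finset.card_pos]
    have h1 := card_av (k + 2) (∅ : Finset V)
    have h2 : 0 < (Fintype.card V).descFactorial (k + 2) := Nat.descFactorial_pos.2 (by omega)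
    rw [Finset.compl_empty, Finset.card_univ] at h1
    have h3 : ((av (k + 2) (∅ : Finset V)).card : ℤ) > 0 := by rw [h1]; exact_mod_cast h2
    exact_mod_cast h3
  obtain ⟨g, hg, hmin⟩ := Finset.exists_min_image _ S hne
  have h1 := Finset.card_nsmul_le_sum (av (k + 2) (∅ : Finset V)) S (S g) hmin
  rw [htot, nsmul_eq_mul, card_av, Finset.compl_empty, Finset.card_univ] at h1
  set r : V → ℤ := fun x => hp σ g * σ (g (Fin.last (k + 1))) x with hr
  set s : V → ℤ := fun y => σ y (g 0) with hs
  have hpv : hp σ g = 1 ∨ hp σ g = -1 := by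
    have h2 := abs_hp' hσ g
    rcases abs_eq (by norm_num : (0 : ℤ) ≤ 1) |>.1 h2 with h | h
    · exact Or.inl h
    · exact Or.inr h
  have hrv : ∀ x, r x = 1 ∨ r x = -1 := by
    intro x
    rw [hr]
    dsimp only
    rcases hpv with h | h <;> rcases hσ.val (g (Fin.last (k + 1))) x with h' | h' <;>
      rw [h, h'] <;> norm_num
  have hsv : ∀ x, s x = 1 ∨ s x = -1 := fun x => hσ.val _ _
  refine ⟨r, s, hrv, hsv, ?_⟩
  refine le_trans (mul_le_mul_of_nonneg_left ?_ (by positivity)) h1
  -- the bad pairs away from `g` are counted by `S g`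
  have h2 : S g = 2 * ∑ y ∈ (univ.image g)ᶜ, ∑ x ∈ (univ.image g)ᶜ.erase y,
      (if σ x y ≠ r x * s y then (1 : ℤ) else 0) := by
    rw [hS]
    dsimp only
    rw [Finset.empty_union, Finset.mul_sum]
    refine Finset.sum_congr rfl fun y hy => ?_
    rw [Finset.empty_union, image_cons, Finset.mul_sum]
    have e1 : (insert y (univ.image g))ᶜ = (univ.image g)ᶜ.erase y := by
      ext z; simp only [Finset.mem_compl, Finset.mem_insert, Finset.mem_erase, not_or]
    rw [e1]
    refine Finset.sum_congr rfl fun x _ => ?_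
    rw [cp_WW]
    have e2 : WW σ x y g = r x * s y := by
      unfold WW; rw [hr, hs]; dsimp only; ring
    rw [e2]
    rcases hσ.val x y with h | h <;> rcases hrv x with h' | h' <;> rcases hsv y with h'' | h'' <;>
      rw [h, h', h''] <;> norm_num
  have h3 : pp (fun x y => σ x y ≠ r x * s y) ≤ ∑ y ∈ (univ.image g)ᶜ,
      ∑ x ∈ (univ.image g)ᶜ.erase y, (if σ x y ≠ r x * s y then (1 : ℤ) else 0)
        + (pp (fun _ y : V => y ∈ univ.image g) + pp (fun x _ : V => x ∈ univ.image g)
          + pp (fun x y : V => x = y)) := by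
    have e1 : ∑ y ∈ (univ.image g)ᶜ, ∑ x ∈ (univ.image g)ᶜ.erase y,
        (if σ x y ≠ r x * s y then (1 : ℤ) else 0)
        = ∑ x : V, ∑ y : V, if (y ∉ univ.image g ∧ x ∉ univ.image g ∧ x ≠ y) ∧ σ x y ≠ r x * s y
          then (1 : ℤ) else 0 := by
      rw [Finset.sum_comm (s := (univ : Finset V))]
      rw [← Finset.sum_filter_add_sum_filter_not univ (fun y => y ∉ univ.image g)]
      have z1 : ∑ y ∈ univ.filter (fun y => ¬ y ∉ univ.image g), ∑ x : V,
          (if (y ∉ univ.image g ∧ x ∉ univ.image g ∧ x ≠ y) ∧ σ x y ≠ r x * s y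
            then (1 : ℤ) else 0) = 0 := by
        refine Finset.sum_eq_zero fun y hy => Finset.sum_eq_zero fun x _ => ?_
        rw [if_neg]
        rintro ⟨⟨h, _⟩, _⟩
        exact (Finset.mem_filter.1 hy).2 h
      rw [z1, add_zero]
      have z2 : univ.filter (fun y => y ∉ univ.image g) = (univ.image g)ᶜ := by
        ext z; simp
      rw [z2]
      refine Finset.sum_congr rfl fun y hy => ?_
      rw [Finset.mem_compl] at hy
      rw [← Finset.sum_filter, ← Finset.sum_filter]
      congr 1
      ext x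
      simp only [Finset.mem_filter, Finset.mem_erase, Finset.mem_compl, Finset.mem_univ, true_and]
      constructor
      · rintro ⟨⟨h1, h2⟩, h3⟩
        exact ⟨⟨hy, h2, h1⟩, h3⟩
      · rintro ⟨⟨_, h2, h1⟩, h3⟩
        exact ⟨⟨h1, h2⟩, h3⟩
    rw [e1]
    unfold pp
    rw [← Finset.sum_add_distrib, ← Finset.sum_add_distrib, ← Finset.sum_add_distrib]
    refine Finset.sum_le_sum fun x _ => ?_
    rw [← Finset.sum_add_distrib, ← Finset.sum_add_distrib, ← Finset.sum_add_distrib]
    refine Finset.sum_le_sum fun y _ => ?_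
    by_cases h4 : y ∈ univ.image g
    · rw [if_pos h4]; split_ifs <;> norm_num
    · by_cases h5 : x ∈ univ.image g
      · rw [if_pos h5]; split_ifs <;> norm_num
      · by_cases h6 : x = y
        · rw [if_pos h6]; split_ifs <;> norm_num
        · rw [if_neg h4, if_neg h5, if_neg h6]
          by_cases h7 : σ x y ≠ r x * s y
          · rw [if_pos h7, if_pos ⟨⟨h4, h5, h6⟩, h7⟩]; norm_num
          · rw [if_neg h7]; split_ifs <;> norm_num
  have h4 : ((univ.image g).card : ℤ) ≤ k + 2 := by
    have := Finset.card_image_le (s := (univ : Finset (Fin (k + 2)))) (f := g)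
    rw [Finset.card_univ, Fintype.card_fin] at this
    exact_mod_cast this
  have h5 : pp (fun _ y : V => y ∈ univ.image g) ≤ Fintype.card V * (k + 2) := by
    rw [pp_snd]
    refine mul_le_mul_of_nonneg_left ?_ (by positivity)
    rw [Finset.filter_mem_eq_inter, Finset.univ_inter]
    exact h4
  have h6 : pp (fun x _ : V => x ∈ univ.image g) ≤ Fintype.card V * (k + 2) := by
    rw [pp_fst]
    refine mul_le_mul_of_nonneg_left ?_ (by positivity)
    rw [Finset.filter_mem_eq_inter, Finset.univ_inter]
    exact h4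
  have h7 := pp_diag (V := V)
  rw [h2]
  nlinarith

/-- Second step: `σ` is close to `κ r(x) r(y)`. -/
lemma exists_kappa {σ : V → V → ℤ} (hσ : IsSig σ) {r s : V → ℤ} (hr : ∀ x, r x = 1 ∨ r x = -1)
    (hs : ∀ x, s x = 1 ∨ s x = -1) : ∃ κ : ℤ, (κ = 1 ∨ κ = -1) ∧
      pp (fun x y => σ x y ≠ κ * (r x * r y)) ≤ 3 * pp (fun x y => σ x y ≠ r x * s y) := by
  set u : V → ℤ := fun x => r x * s x with hu
  have huv : ∀ x, u x = 1 ∨ u x = -1 := by
    intro x
    rw [hu]; dsimp only
    rcases hr x with h | h <;> rcases hs x with h' | h' <;> rw [h, h'] <;> norm_num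
  have key : ∀ κ : ℤ, (κ = 1 ∨ κ = -1) → (univ.filter fun x => u x ≠ κ).card ≤ (univ.filter fun x => u x = κ).card →
      pp (fun x y => σ x y ≠ κ * (r x * r y)) ≤ 3 * pp (fun x y => σ x y ≠ r x * s y) := by
    intro κ hκ hcard
    have h1 : pp (fun x y => σ x y ≠ κ * (r x * r y)) ≤ pp (fun x y => σ x y ≠ r x * s y)
        + pp (fun _ y : V => u y ≠ κ) := by
      refine pp_or fun x y h => ?_
      by_contra hcon
      push Not at hcon
      obtain ⟨h2, h3⟩ := hcon
      apply h
      rw [h2, ← h3, hu]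
      dsimp only
      rcases hr y with h4 | h4 <;> rw [h4] <;> ring
    have h2 : pp (fun x y => u x ≠ u y) ≤ 2 * pp (fun x y => σ x y ≠ r x * s y) := by
      have h3 : pp (fun x y => u x ≠ u y) ≤ pp (fun x y => σ x y ≠ r x * s y)
          + pp (fun x y => σ y x ≠ r y * s x) := by
        refine pp_or fun x y h => ?_
        by_contra hcon
        push Not at hcon
        obtain ⟨h2, h3⟩ := hcon
        apply h
        rw [hσ.symm y x, h2] at h3
        rw [hu]
        dsimp only
        rcases hr x with a1 | a1 <;> rcases hr y with a2 | a2 <;> rcases hs x with a3 | a3 <;>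
          rcases hs y with a4 | a4 <;> simp [a1, a2, a3, a4] at h3 ⊢
      have h4 := pp_swap (V := V) (fun x y => σ x y ≠ r x * s y)
      rw [h4] at h3
      linarith
    set N1 : ℤ := ((univ.filter fun x => u x ≠ κ).card : ℤ) with hN1
    set N2 : ℤ := ((univ.filter fun x => u x = κ).card : ℤ) with hN2
    have h12 : N1 ≤ N2 := by rw [hN1, hN2]; exact_mod_cast hcard
    have hsum : N2 + N1 = Fintype.card V := by
      have := Finset.card_filter_add_card_filter_not (s := (univ : Finset V)) (fun x => u x = κ)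
      rw [Finset.card_univ] at this
      rw [hN1, hN2]
      exact_mod_cast this
    have hN10 : 0 ≤ N1 := by rw [hN1]; positivity
    have h5 : pp (fun x y => u x ≠ u y) = 2 * (N1 * N2) := by
      unfold pp
      have e1 : ∀ x ∈ (univ : Finset V), ∑ y : V, (if u x ≠ u y then (1 : ℤ) else 0)
          = if u x = κ then N1 else N2 := by
        intro x _
        split_ifs with hx
        · rw [← Finset.sum_filter, Finset.sum_const, nsmul_eq_mul, mul_one, hN1]
          congr 2
          ext y
          simp only [Finset.mem_filter, Finset.mem_univ, true_and]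
          rw [hx]
          exact ne_comm
        · rw [← Finset.sum_filter, Finset.sum_const, nsmul_eq_mul, mul_one, hN2]
          congr 2
          ext y
          simp only [Finset.mem_filter, Finset.mem_univ, true_and]
          rcases huv x with h | h <;> rcases huv y with h' | h' <;> rcases hκ with h'' | h'' <;>
            simp [h, h', h''] at hx ⊢
      rw [Finset.sum_congr rfl e1, Finset.sum_ite, Finset.sum_const, Finset.sum_const, nsmul_eq_mul,
        nsmul_eq_mul, ← hN2]
      have e2 : ((univ.filter fun x => ¬ u x = κ).card : ℤ) = N1 := rfl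
      rw [e2]
      ring
    rw [pp_snd, ← hN1] at h1
    have h6 : (Fintype.card V : ℤ) * N1 ≤ 2 * (N1 * N2) := by
      rw [← hsum]; nlinarith
    linarith
  rcases Nat.lt_or_ge ((univ.filter fun x => u x = 1).card) ((univ.filter fun x => u x ≠ 1).card) with h | h
  · refine ⟨-1, Or.inr rfl, key (-1) (Or.inr rfl) ?_⟩
    have e1 : (univ.filter fun x => u x ≠ -1) = univ.filter fun x => u x = 1 := by
      ext x
      simp only [Finset.mem_filter, Finset.mem_univ, true_and]
      rcases huv x with h' | h' <;> rw [h'] <;> norm_num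
    have e2 : (univ.filter fun x => u x = -1) = univ.filter fun x => u x ≠ 1 := by
      ext x
      simp only [Finset.mem_filter, Finset.mem_univ, true_and]
      rcases huv x with h' | h' <;> rw [h'] <;> norm_num
    rw [e1, e2]
    omega
  · exact ⟨1, Or.inl rfl, key 1 (Or.inl rfl) h⟩

end

end MP_90430c
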