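import Mathlib
import Pool.Agent.Lib.MP_90430c_co.LowStab

/-! Minimal switching. -/

open Finset

set_option linter.unusedSectionVars false

namespace MP_90430c

section

variable {V : Type*} [Fintype V] [DecidableEq V] {k : ℕ}

lemma prs_congr {Y : Finset V} {P Q : V → V → Prop} [∀ u, DecidablePred (P u)]
    [∀ u, DecidablePred (Q u)] (h : ∀ u ∈ Y, ∀ v ∈ Y, (P u v ↔ Q u v)) : prs Y P = prs Y Q := by
  unfold prs
  refine Finset.sum_congr rfl fun u hu => Finset.sum_congr rfl fun v hv => ?_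
  exact if_congr (h u hu v (Finset.mem_erase.1 hv).2) rfl rfl

lemma negN_at {σ : V → V → ℤ} (hσ : IsSig σ) (x : V) :
    (negN σ : ℤ) = prs (univ.erase x) (fun u v => σ u v = -1) + 2 * ndeg σ x := by
  rw [negN_eq_prs, prs_erase (Finset.mem_univ x) _ (fun u v => by rw [hσ.symm])]
  rfl

lemma min_deg {σ : V → V → ℤ} (hσ : IsSig σ)
    (hmin : ∀ ρ : V → ℤ, (∀ v, ρ v = 1 ∨ ρ v = -1) → negN σ ≤ negN (sw ρ σ)) (x : V) :
    2 * ndeg σ x ≤ Fintype.card V - 1 := by
  set ρ : V → ℤ := fun v => if v = x then -1 else 1 with hρdef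
  have hρ : ∀ v, ρ v = 1 ∨ ρ v = -1 := by
    intro v; rw [hρdef]; dsimp only; split_ifs <;> simp
  have h1 := hmin ρ hρ
  have h2 := negN_at hσ x
  have h3 := negN_at (hσ.sw hρ) x
  have h4 : prs (univ.erase x) (fun u v => sw ρ σ u v = -1) = prs (univ.erase x) (fun u v => σ u v = -1) := by
    refine prs_congr fun u hu v hv => ?_
    rw [Finset.mem_erase] at hu hv
    unfold sw
    rw [hρdef]
    dsimp only
    rw [if_neg hu.1, if_neg hv.1]
    norm_num
  have h5 : ndeg (sw ρ σ) x + ndeg σ x = Fintype.card V - 1 := by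
    have h6 := Finset.card_filter_add_card_filter_not (s := (univ.erase x : Finset V)) (fun v => σ x v = -1)
    rw [Finset.card_erase_of_mem (Finset.mem_univ x), Finset.card_univ] at h6
    rw [← h6, add_comm]
    unfold ndeg
    congr 2
    ext v
    simp only [Finset.mem_filter]
    refine and_congr_right fun hv => ?_
    rw [Finset.mem_erase] at hv
    unfold sw
    rw [hρdef]
    dsimp only
    rw [if_pos rfl, if_neg hv.1]
    rcases hσ.val x v with h | h <;> rw [h] <;> norm_num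
  rw [h4] at h3
  have h6 : (negN σ : ℤ) ≤ negN (sw ρ σ) := by exact_mod_cast h1
  have h7 : (ndeg σ x : ℤ) ≤ ndeg (sw ρ σ) x := by linarith
  have h8 : ndeg σ x ≤ ndeg (sw ρ σ) x := by exact_mod_cast h7
  omega

/-- Signs from Booleans. -/
def bsg (b : Bool) : ℤ := if b then -1 else 1

lemma bsg_val (b : Bool) : bsg b = 1 ∨ bsg b = -1 := by cases b <;> simp [bsg]

lemma exists_min_sw (σ : V → V → ℤ) : ∃ ρ : V → ℤ, (∀ v, ρ v = 1 ∨ ρ v = -1) ∧
    ∀ ρ' : V → ℤ, (∀ v, ρ' v = 1 ∨ ρ' v = -1) → negN (sw ρ σ) ≤ negN (sw ρ' σ) := by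
  obtain ⟨b, _, hb⟩ := Finset.exists_min_image (univ : Finset (V → Bool))
    (fun b => negN (sw (fun v => bsg (b v)) σ)) Finset.univ_nonempty
  refine ⟨fun v => bsg (b v), fun v => bsg_val _, fun ρ' hρ' => ?_⟩
  have h1 := hb (fun v => decide (ρ' v = -1)) (Finset.mem_univ _)
  have h2 : (fun v => bsg (decide (ρ' v = -1))) = ρ' := by
    funext v
    rcases hρ' v with h | h <;> rw [h] <;> simp [bsg]
  rw [h2] at h1
  exact h1

lemma sw_sw (ρ ρ' : V → ℤ) (σ : V → V → ℤ) : sw ρ' (sw ρ σ) = sw (fun v => ρ' v * ρ v) σ := by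
  funext x y; unfold sw; ring

lemma mul_sign {a b : ℤ} (ha : a = 1 ∨ a = -1) (hb : b = 1 ∨ b = -1) : a * b = 1 ∨ a * b = -1 := by
  rcases ha with h | h <;> rcases hb with h' | h' <;> rw [h, h'] <;> norm_num

/-- Every signature is, up to sign and switching, a signature with few negative edges and small
negative degrees. -/
theorem low_struct {σ : V → V → ℤ} (hσ : IsSig σ) (hn : k + 4 ≤ Fintype.card V) :
    ∃ (κ : ℤ) (ρ : V → ℤ) (β : ℤ), (κ = 1 ∨ κ = -1) ∧ (∀ v, ρ v = 1 ∨ ρ v = -1) ∧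
      (((Fintype.card V).descFactorial (k + 2) : ℕ) : ℤ) * (2 * β - (4 * k + 10) * Fintype.card V)
        ≤ 4 * (k + 4) * cc (k + 4) σ ∧
      (negN (sw ρ fun x y => κ * σ x y) : ℤ) ≤ 3 * β ∧
      ∀ x, 2 * ndeg (sw ρ fun x y => κ * σ x y) x ≤ Fintype.card V - 1 := by
  obtain ⟨r, s, hr, hs, h1⟩ := exists_rs (k := k) hσ hn
  obtain ⟨κ, hκ, h2⟩ := exists_kappa hσ hr hs
  have hκσ : IsSig (fun x y => κ * σ x y) :=
    ⟨fun x y => by rw [hσ.symm], fun x y => mul_sign hκ (hσ.val x y)⟩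
  obtain ⟨ρ, hρ, hmin⟩ := exists_min_sw (fun x y => κ * σ x y)
  refine ⟨κ, ρ, pp (fun x y => σ x y ≠ r x * s y), hκ, hρ, h1, ?_, ?_⟩
  · refine le_trans ?_ h2
    have h3 : (negN (sw ρ fun x y => κ * σ x y) : ℤ) ≤ negN (sw r fun x y => κ * σ x y) := by
      exact_mod_cast hmin r hr
    refine h3.trans ?_
    unfold negN pp
    rw [Finset.card_filter]
    push_cast
    rw [Fintype.sum_prod_type]
    refine Finset.sum_le_sum fun x _ => Finset.sum_le_sum fun y _ => ?_
    by_cases h4 : sw r (fun x y => κ * σ x y) x y = -1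
    · have h5 : σ x y ≠ κ * (r x * r y) := by
        intro h6
        unfold sw at h4
        beta_reduce at h4
        rw [h6] at h4
        rcases hκ with a | a <;> rcases hr x with b | b <;> rcases hr y with c | c <;>
          rw [a, b, c] at h4 <;> norm_num at h4
      rw [if_pos h5]
      split_ifs <;> norm_num
    · rw [if_neg (fun h => h4 h.2)]
      split_ifs <;> norm_num
  · intro x
    refine min_deg (hκσ.sw hρ) (fun ρ' hρ' => ?_) x
    rw [sw_sw]
    exact hmin _ (fun v => mul_sign (hρ' v) (hρ v))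

end

end MP_90430c
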