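import Mathlib
import Pool.Agent.Lib.MP_90430c_co.LowMin
import Pool.Agent.Lib.MP_90430c_co.Win

/-! The structure of signatures with few negative circles, asymptotically. -/

open Finset Filter

set_option linter.unusedSectionVars false

namespace MP_90430c

section

variable {V : Type*} [Fintype V] [DecidableEq V]

lemma negN_even {σ : V → V → ℤ} (hσ : IsSig σ) : ∃ t, negN σ = 2 * t := by
  induction hk : negN σ using Nat.strong_induction_on generalizing σ with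
  | _ m ih =>
    rcases Nat.eq_zero_or_pos m with h0 | h0
    · exact ⟨0, by omega⟩
    · have h0' := h0
      rw [← hk] at h0'
      unfold negN at h0'
      obtain ⟨⟨x, y⟩, hp⟩ := Finset.card_pos.1 h0'
      simp only [Finset.mem_filter, Finset.mem_univ, true_and] at hp
      have h1 := negN_flip_eq hσ hp.1 hp.2
      obtain ⟨t, ht⟩ := ih (negN (flip σ x y)) (by omega) (hσ.flip x y) rfl
      exact ⟨t + 1, by omega⟩

lemma cc_sw {l : ℕ} [NeZero l] {ρ : V → ℤ} (hρ : ∀ v, ρ v = 1 ∨ ρ v = -1) (σ : V → V → ℤ) :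
    cc l (sw ρ σ) = cc l σ := by
  unfold cc
  rw [Z_sw (fun v => by rcases hρ v with h | h <;> rw [h] <;> norm_num)]

lemma cc_neg_even {l : ℕ} [NeZero l] (he : Even l) (σ : V → V → ℤ) :
    cc l (fun x y => -1 * σ x y) = cc l σ := by
  unfold cc
  congr 2
  unfold Z
  refine Finset.sum_congr rfl fun f _ => ?_
  unfold cp
  have : ∀ i : Fin l, -1 * σ (f i) (f (i + 1)) = -(σ (f i) (f (i + 1))) := fun i => by ring
  rw [Finset.prod_congr rfl fun i _ => this i, Finset.prod_neg, Finset.card_univ, Fintype.card_fin,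
    he.neg_one_pow, one_mul]

lemma cc_nonneg {l : ℕ} [NeZero l] (hl : 3 ≤ l) (hn : l ≤ Fintype.card V) {σ : V → V → ℤ}
    (hσ : IsSig σ) : 0 ≤ cc l σ := by
  have h2 := cc_spec hl hn hσ
  have h3 : Z l σ ≤ ((Fintype.card V).descFactorial l : ℤ) := by
    unfold Z
    rw [← card_inj (V := V)]
    refine (le_abs_self _).trans ((Finset.abs_sum_le_sum_abs _ _).trans ?_)
    rw [Finset.sum_congr rfl fun f _ => abs_cp hσ f, Finset.sum_const, nsmul_eq_mul, mul_one]
  by_contra hcon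
  push Not at hcon
  have h4 : 4 * (l : ℤ) * cc l σ < 0 := mul_neg_of_pos_of_neg (by
    have : (0 : ℤ) < l := by exact_mod_cast (by omega : 0 < l)
    linarith) hcon
  linarith

end

/-- The structure theorem for signatures with few negative circles. -/
theorem low_range (k : ℕ) {ε : ℝ} (hε : 0 < ε) (hε1 : ε < 1) : ∀ᶠ n : ℕ in atTop,
    ∀ (V : Type) [Fintype V] [DecidableEq V], Fintype.card V = n → ∀ σ : V → V → ℤ, IsSig σ →
      ((cc (k + 4) σ : ℤ) : ℝ) ≤ (1 - ε) * ((n : ℝ) ^ (k + 2) * √(n : ℝ)) →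
      ∃ (κ : ℤ) (ρ : V → ℤ) (t : ℕ), (κ = 1 ∨ (κ = -1 ∧ Even (k + 4))) ∧
        (∀ v, ρ v = 1 ∨ ρ v = -1) ∧ negN (sw ρ fun x y => κ * σ x y) = 2 * t ∧
        (t : ℝ) ^ 2 ≤ (1 - ε) * n ∧
        (t : ℤ) * ((n : ℤ) - 1 - t) * (((n - 3).descFactorial (k + 1) : ℕ) : ℤ) ≤ cc (k + 4) σ ∧
        cc (k + 4) σ ≤ t * (((n - 2).descFactorial (k + 2) : ℕ) : ℤ) := by
  set L : ℝ := 6 * k + 17 with hL
  have hL0 : 0 < L := by rw [hL]; positivity
  set L' : ℝ := 8 * 2 ^ k with hL'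
  have hδ : 0 < ε / 4 := by positivity
  filter_upwards [eventually_ge_atTop (2 * (k + 4) + 3),
    ev_sqrt (4 * (k + 4) * 2 ^ (k + 2)) 0 one_pos,
    ev_sqrt 0 (8 + 8 * (k + 1) * L) one_pos,
    ev_sqrt 0 (2 ^ (k + 5) * (k + 4) * (L / 2 + 2)) one_pos,
    ev_sqrt 0 ((k + 1) * (k + 3)) hδ, ev_sqrt L' 1 hδ] with n hn e1 e2 e3 e5 e6
  intro V _ _ hV σ hσ hx
  have hn4 : k + 4 ≤ Fintype.card V := by omega
  have hn1 : (1 : ℝ) ≤ n := by exact_mod_cast (by omega : 1 ≤ n)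
  have hn0 : (0 : ℝ) < n := by linarith
  set r := √(n : ℝ) with hr
  have hr1 : 1 ≤ r := by rw [hr, Real.one_le_sqrt]; exact hn1
  have hrr : r * r = n := Real.mul_self_sqrt hn0.le
  have hrn : r ≤ n := by nlinarith
  obtain ⟨κ, ρ, β, hκ, hρ, hβ, hneg, hdeg⟩ := low_struct (k := k) hσ hn4
  set τ := sw ρ fun x y => κ * σ x y with hτdef
  have hκσ : IsSig (fun x y => κ * σ x y) :=
    ⟨fun x y => by rw [hσ.symm], fun x y => mul_sign hκ (hσ.val x y)⟩
  have hτ : IsSig τ := hκσ.sw hρ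
  have hccτ : cc (k + 4) τ = cc (k + 4) (fun x y => κ * σ x y) := cc_sw hρ _
  rw [hV] at hβ
  set x : ℤ := cc (k + 4) σ with hxdef
  have hnk : (0 : ℝ) < (n : ℝ) ^ (k + 2) := by positivity
  have hx1 : (x : ℝ) ≤ (n : ℝ) ^ (k + 2) * r := by
    refine hx.trans ?_
    have : (0 : ℝ) < (n : ℝ) ^ (k + 2) * r := by positivity
    nlinarith
  -- bound for `β`
  have hβ1 : (β : ℝ) ≤ (2 * k + 5.5) * n := by
    by_contra hcon
    push Not at hcon
    have h1 : (n : ℝ) < 2 * β - (4 * k + 10) * n := by linarith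
    have h2 : ((n.descFactorial (k + 2) : ℕ) : ℝ) * (2 * β - (4 * k + 10) * n) ≤ 4 * (k + 4) * x := by
      exact_mod_cast hβ
    have h3 := desc_lower (l := k + 2) (m := n) (by omega) (by omega)
    have h4 : ((n : ℝ) / 2) ^ (k + 2) * n < 4 * (k + 4) * ((n : ℝ) ^ (k + 2) * r) := by
      calc ((n : ℝ) / 2) ^ (k + 2) * n < ((n : ℝ) / 2) ^ (k + 2) * (2 * β - (4 * k + 10) * n) :=
            mul_lt_mul_of_pos_left h1 (by positivity)
        _ ≤ ((n.descFactorial (k + 2) : ℕ) : ℝ) * (2 * β - (4 * k + 10) * n) :=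
            mul_le_mul_of_nonneg_right h3 (by linarith)
        _ ≤ 4 * (k + 4) * x := h2
        _ ≤ _ := mul_le_mul_of_nonneg_left hx1 (by positivity)
    rw [div_pow] at h4
    have h5 : (n : ℝ) ^ (k + 2) / 2 ^ (k + 2) * n = (n : ℝ) ^ (k + 2) * (n / 2 ^ (k + 2)) := by ring
    have h6 : 4 * ((k : ℝ) + 4) * ((n : ℝ) ^ (k + 2) * r) = (n : ℝ) ^ (k + 2) * (4 * (k + 4) * r) := by ring
    rw [h5, h6] at h4
    have h7 := lt_of_mul_lt_mul_left h4 hnk.le
    rw [div_lt_iff₀ (by positivity)] at h7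
    linarith
  have hneg1 : (negN τ : ℝ) ≤ L * n := by
    have h1 : (negN τ : ℝ) ≤ 3 * β := by exact_mod_cast hneg
    rw [hL]; linarith
  obtain ⟨t, ht⟩ := negN_even hτ
  have htr : (negN τ : ℝ) = 2 * t := by rw [ht]; push_cast; ring
  have hb := cc_bounds (k := k) (by omega) hn4 t hτ ht
  rw [hV] at hb
  -- the sign
  have hsign : κ = 1 ∨ (κ = -1 ∧ Even (k + 4)) := by
    rcases hκ with h | h
    · exact Or.inl h
    · right
      refine ⟨h, ?_⟩
      by_contra hodd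
      rw [Nat.not_even_iff_odd] at hodd
      have h1 := cc_compl (l := k + 4) (by omega) hn4 hodd hσ
      have h2 : cc (k + 4) τ = cc (k + 4) (fun x y => -σ x y) := by
        rw [hccτ, h]
        congr 1
        funext x y
        ring
      rw [← h2, hV] at h1
      have h3 : (2 * ((k + 4 : ℕ) : ℝ)) * ((x : ℝ) + (cc (k + 4) τ : ℤ)) = ((n.descFactorial (k + 4) : ℕ) : ℝ) := by
        exact_mod_cast h1
      have h4 : ((cc (k + 4) τ : ℤ) : ℝ) ≤ t * (n : ℝ) ^ (k + 2) := by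
        have h5 : ((cc (k + 4) τ : ℤ) : ℝ) ≤ t * (((n - 2).descFactorial (k + 2) : ℕ) : ℝ) := by
          exact_mod_cast hb.2
        refine h5.trans (mul_le_mul_of_nonneg_left ?_ (by positivity))
        have h6 : (n - 2).descFactorial (k + 2) ≤ n ^ (k + 2) :=
          (Nat.descFactorial_le_pow _ _).trans (Nat.pow_le_pow_left (by omega) _)
        exact_mod_cast h6
      have h5 := desc_lower (l := k + 4) (m := n) (by omega) (by omega)
      have h6 : (t : ℝ) ≤ L / 2 * n := by linarith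
      have h7 : (x : ℝ) + (cc (k + 4) τ : ℤ) ≤ (L / 2 + 1) * n * (n : ℝ) ^ (k + 2) := by
        calc (x : ℝ) + (cc (k + 4) τ : ℤ) ≤ (n : ℝ) ^ (k + 2) * n + (L / 2 * n) * (n : ℝ) ^ (k + 2) := by
              refine add_le_add (hx1.trans (mul_le_mul_of_nonneg_left hrn hnk.le))
                (h4.trans (mul_le_mul_of_nonneg_right h6 hnk.le))
          _ = _ := by ring
      have h8 : ((n : ℝ) / 2) ^ (k + 4) = (n : ℝ) ^ (k + 2) * (n * n / 2 ^ (k + 4)) := by
        rw [div_pow]; ring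
      have h9 : (n : ℝ) ^ (k + 2) * (n * n / 2 ^ (k + 4))
          ≤ (n : ℝ) ^ (k + 2) * (2 * (k + 4) * ((L / 2 + 1) * n)) := by
        rw [← h8]
        refine h5.trans ?_
        rw [← h3]
        push_cast
        have := mul_le_mul_of_nonneg_left h7 (by positivity : (0 : ℝ) ≤ 2 * ((k : ℝ) + 4))
        linarith
      have h10 := le_of_mul_le_mul_left h9 hnk
      rw [div_le_iff₀ (by positivity)] at h10
      have h11 : (n : ℝ) * n ≤ n * (2 ^ (k + 5) * (k + 4) * (L / 2 + 1)) := by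
        refine h10.trans (le_of_eq ?_)
        rw [pow_succ (2 : ℝ) (k + 4)]; ring
      have h12 := le_of_mul_le_mul_left h11 hn0
      have h13 : (0 : ℝ) < 2 ^ (k + 5) * (k + 4) := by positivity
      nlinarith
  have hccx : cc (k + 4) τ = x := by
    rw [hccτ]
    rcases hsign with h | ⟨h, he⟩
    · rw [h]; simp [hxdef]
    · rw [h, cc_neg_even he]
  rw [hccx] at hb
  refine ⟨κ, ρ, t, hsign, hρ, ht, ?_, hb.1, hb.2⟩
  -- the size of `t`
  have hm := many_one (k := k) hτ hn4 hdeg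
  rw [hccx, hV] at hm
  have hm' : (negN τ : ℝ) * ((((n - 4).descFactorial k : ℕ) : ℝ)
      * (((n : ℝ) - 1) * (n - 3) - 4 * (k + 1) * negN τ)) ≤ 8 * x := by exact_mod_cast hm
  have hF : ((n : ℝ) / 2) ^ k ≤ (((n - 4).descFactorial k : ℕ) : ℝ) := by
    have h1 := Nat.pow_sub_le_descFactorial (n - 4) k
    have h2 : (((n - 4 + 1 - k : ℕ) : ℝ)) ^ k ≤ (((n - 4).descFactorial k : ℕ) : ℝ) := by exact_mod_cast h1
    refine le_trans (pow_le_pow_left₀ (by positivity) ?_ k) h2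
    have h3 : n ≤ 2 * (n - 4 + 1 - k) := by omega
    have h4 : (n : ℝ) ≤ 2 * ((n - 4 + 1 - k : ℕ) : ℝ) := by exact_mod_cast h3
    linarith
  have hquad : (n : ℝ) * n / 2 ≤ ((n : ℝ) - 1) * (n - 3) - 4 * (k + 1) * negN τ := by
    have h1 : 4 * ((k : ℝ) + 1) * negN τ ≤ 4 * (k + 1) * (L * n) :=
      mul_le_mul_of_nonneg_left hneg1 (by positivity)
    have h2 : (8 + 8 * ((k : ℝ) + 1) * L) * n ≤ n * n := by
      refine mul_le_mul_of_nonneg_right ?_ hn0.le
      linarith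
    nlinarith
  have ht1 : (t : ℝ) ≤ L' * r := by
    have h1 : (negN τ : ℝ) * (((n : ℝ) / 2) ^ k * (n * n / 2)) ≤ 8 * x := by
      refine le_trans (mul_le_mul_of_nonneg_left ?_ (by positivity)) hm'
      exact mul_le_mul hF hquad (by positivity) (by positivity)
    have h2 : (negN τ : ℝ) * (((n : ℝ) / 2) ^ k * (n * n / 2))
        = (n : ℝ) ^ (k + 2) * (negN τ / (2 * 2 ^ k)) := by
      rw [div_pow]; ring
    rw [h2] at h1
    have h3 : (n : ℝ) ^ (k + 2) * (negN τ / (2 * 2 ^ k)) ≤ (n : ℝ) ^ (k + 2) * (8 * r) := by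
      refine h1.trans ?_
      calc 8 * (x : ℝ) ≤ 8 * ((n : ℝ) ^ (k + 2) * r) := by linarith
        _ = _ := by ring
    have h4 := le_of_mul_le_mul_left h3 hnk
    rw [div_le_iff₀ (by positivity), htr] at h4
    rw [hL']
    linarith
  have hA : (1 - ε / 4) * (n : ℝ) ^ (k + 1) ≤ (((n - 3).descFactorial (k + 1) : ℕ) : ℝ) := by
    have h1 := Nat.pow_sub_le_descFactorial (n - 3) (k + 1)
    have h2 : (((n - 3 + 1 - (k + 1) : ℕ) : ℝ)) ^ (k + 1) ≤ (((n - 3).descFactorial (k + 1) : ℕ) : ℝ) := by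
      exact_mod_cast h1
    refine le_trans ?_ h2
    have h3 : ((n - 3 + 1 - (k + 1) : ℕ) : ℝ) = n * (1 - (k + 3) / n) := by
      have h4 : n - 3 + 1 - (k + 1) = n - (k + 3) := by omega
      rw [h4, Nat.cast_sub (by omega)]
      push_cast
      field_simp
    rw [h3, mul_pow, mul_comm]
    refine mul_le_mul_of_nonneg_left ?_ (by positivity)
    have h4 := one_add_mul_le_pow (a := -(((k : ℝ) + 3) / n)) (by
      have : ((k : ℝ) + 3) / n ≤ 1 := by
        rw [div_le_one hn0]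
        exact_mod_cast (by omega : k + 3 ≤ n)
      linarith) (k + 1)
    have h5 : 1 + ((k + 1 : ℕ) : ℝ) * -(((k : ℝ) + 3) / n) ≤ (1 - ((k : ℝ) + 3) / n) ^ (k + 1) := by
      refine h4.trans (le_of_eq ?_)
      congr 1
    refine le_trans ?_ h5
    have h6 : ((k + 1 : ℕ) : ℝ) * (((k : ℝ) + 3) / n) ≤ ε / 4 := by
      rw [mul_div_assoc', div_le_iff₀ hn0]
      push_cast
      linarith
    linarith
  have hlow : (t : ℝ) * ((n : ℝ) - 1 - t) * (((n - 3).descFactorial (k + 1) : ℕ) : ℝ) ≤ x := by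
    exact_mod_cast hb.1
  have hnt : (1 - ε / 4) * n ≤ (n : ℝ) - 1 - t := by linarith
  have h1 : (t : ℝ) * ((1 - ε / 4) * n) * ((1 - ε / 4) * (n : ℝ) ^ (k + 1))
      ≤ (1 - ε) * ((n : ℝ) ^ (k + 2) * r) := by
    refine le_trans ?_ (hlow.trans hx)
    refine mul_le_mul (mul_le_mul_of_nonneg_left hnt (by positivity)) hA ?_ ?_
    · have : 0 ≤ 1 - ε / 4 := by linarith
      positivity
    · have : 0 ≤ (n : ℝ) - 1 - t := by
        refine le_trans ?_ hnt
        have : 0 ≤ 1 - ε / 4 := by linarith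
        positivity
      positivity
  have h2 : (n : ℝ) ^ (k + 2) * (t * (1 - ε / 4) ^ 2) ≤ (n : ℝ) ^ (k + 2) * ((1 - ε) * r) := by
    calc (n : ℝ) ^ (k + 2) * (t * (1 - ε / 4) ^ 2)
        = (t : ℝ) * ((1 - ε / 4) * n) * ((1 - ε / 4) * (n : ℝ) ^ (k + 1)) := by ring
      _ ≤ (1 - ε) * ((n : ℝ) ^ (k + 2) * r) := h1
      _ = _ := by ring
  have h3 := le_of_mul_le_mul_left h2 hnk
  have h4 : 1 - ε ≤ (1 - ε / 4) ^ 4 := by
    have := one_add_mul_le_pow (a := -(ε / 4)) (by linarith) 4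
    have e : (1 + -(ε / 4)) = 1 - ε / 4 := by ring
    rw [e] at this
    push_cast at this
    linarith
  have h5 : 0 < (1 - ε / 4) ^ 2 := by
    have : 0 < 1 - ε / 4 := by linarith
    positivity
  have h6 : (t * (1 - ε / 4) ^ 2) ^ 2 ≤ ((1 - ε) * r) ^ 2 := by
    refine pow_le_pow_left₀ (by positivity) h3 2
  have h7 : (1 - ε) * (t : ℝ) ^ 2 ≤ (1 - ε) * ((1 - ε) * n) := by
    calc (1 - ε) * (t : ℝ) ^ 2 ≤ (1 - ε / 4) ^ 4 * (t : ℝ) ^ 2 :=
          mul_le_mul_of_nonneg_right h4 (by positivity)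
      _ = (t * (1 - ε / 4) ^ 2) ^ 2 := by ring
      _ ≤ ((1 - ε) * r) ^ 2 := h6
      _ = (1 - ε) * ((1 - ε) * (r * r)) := by ring
      _ = _ := by rw [hrr]
  exact le_of_mul_le_mul_left h7 (by linarith)

end MP_90430c
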