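import Mathlib
import Pool.Agent.Lib.MP_90430c_co.LowFinal

/-! The lower end of `S(n,l)`. -/

open Finset Filter

set_option linter.unusedSectionVars false

namespace MP_90430c

/-- The number of negative edges. -/
noncomputable def negEdges (n : ℕ) (τ : Sym2 (Fin n) → ℤˣ) : ℕ :=
  Set.ncard {e : Sym2 (Fin n) | ¬ e.IsDiag ∧ τ e = -1}

/-- `τ` arises from `σ` by switching and, if `l` is even, possibly by negation. -/
def SwEq (n l : ℕ) (σ τ : Sym2 (Fin n) → ℤˣ) : Prop :=
  ∃ (κ : ℤˣ) (ρ : Fin n → ℤˣ), (κ = 1 ∨ Even l) ∧ ∀ x y, τ s(x, y) = κ * ρ x * ρ y * σ s(x, y)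

/-- The number of negative circles if the negative edges form a star with `t` edges. -/
def lowA (n l t : ℕ) : ℕ := t * (n - 1 - t) * (n - 3).descFactorial (l - 3)

/-- `t` times the number of circles through a given edge. -/
def lowB (n l t : ℕ) : ℕ := t * (n - 2).descFactorial (l - 2)

section

variable {V : Type*} [Fintype V] [DecidableEq V]

/-- The signature whose negative edges join `c` to `L`. -/
def star (c : V) (L : Finset V) (x y : V) : ℤ := if (x = c ∧ y ∈ L) ∨ (y = c ∧ x ∈ L) then -1 else 1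

lemma isSig_star (c : V) (L : Finset V) : IsSig (star c L) := by
  refine ⟨fun x y => ?_, fun x y => ?_⟩
  · unfold star; exact if_congr or_comm rfl rfl
  · unfold star; split_ifs <;> simp

lemma star_empty (c : V) : star c ∅ = fun _ _ => (1 : ℤ) := by
  funext x y; simp [star]

lemma flip_star {c y : V} {L : Finset V} (hc : c ∉ insert y L) (hy : y ∉ L) :
    flip (star c (insert y L)) c y = star c L := by
  rw [Finset.mem_insert, not_or] at hc
  funext u v
  unfold flip ed star
  by_cases h : (u = c ∧ v = y) ∨ (u = y ∧ v = c)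
  · rw [if_pos h]
    rcases h with ⟨rfl, rfl⟩ | ⟨rfl, rfl⟩
    · rw [if_pos (Or.inl ⟨rfl, Finset.mem_insert_self _ _⟩), if_neg]
      · norm_num
      · rintro (⟨_, h⟩ | ⟨_, h⟩)
        · exact hy h
        · exact hc.2 h
    · rw [if_pos (Or.inr ⟨rfl, Finset.mem_insert_self _ _⟩), if_neg]
      · norm_num
      · rintro (⟨h, _⟩ | ⟨_, h⟩)
        · exact hc.1 h.symm
        · exact hy h
  · rw [if_neg h, mul_one]
    refine if_congr ?_ rfl rfl
    rw [not_or] at h
    constructor
    · rintro (⟨h1, h2⟩ | ⟨h1, h2⟩)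
      · rw [Finset.mem_insert] at h2
        rcases h2 with h2 | h2
        · exact absurd ⟨h1, h2⟩ h.1
        · exact Or.inl ⟨h1, h2⟩
      · rw [Finset.mem_insert] at h2
        rcases h2 with h2 | h2
        · exact absurd ⟨h2, h1⟩ h.2
        · exact Or.inr ⟨h1, h2⟩
    · rintro (⟨h1, h2⟩ | ⟨h1, h2⟩)
      · exact Or.inl ⟨h1, Finset.mem_insert_of_mem h2⟩
      · exact Or.inr ⟨h1, Finset.mem_insert_of_mem h2⟩

lemma cc_star {k : ℕ} (hn : k + 4 ≤ Fintype.card V) (c : V) (L : Finset V) (hc : c ∉ L) :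
    cc (k + 4) (star c L) = (L.card : ℤ) * ((Fintype.card V : ℤ) - 1 - L.card)
      * (((Fintype.card V - 3).descFactorial (k + 1) : ℕ) : ℤ) := by
  induction L using Finset.induction_on with
  | empty =>
    rw [star_empty, cc_zero' isSig_one (by omega) hn]
    · simp
    · unfold negN
      rw [Finset.card_eq_zero, Finset.filter_eq_empty_iff]
      rintro p _ ⟨_, h⟩
      norm_num at h
  | insert y L hy ih =>
    have hc' := hc
    rw [Finset.mem_insert, not_or] at hc'
    have h1 := ih hc'.2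
    have hneg : star c (insert y L) c y = -1 := by
      unfold star; rw [if_pos (Or.inl ⟨rfl, Finset.mem_insert_self _ _⟩)]
    have h2 := cc_flip_eq (k := k) (isSig_star c (insert y L)) hn hc'.1 hneg
    rw [flip_star hc hy, h1] at h2
    have h3 : ∀ g ∈ av (k + 2) {c, y}, WW (star c (insert y L)) c y g
        = 1 - 2 * (if g (Fin.last (k + 1)) ∈ L then (1 : ℤ) else 0) := by
      intro g hg
      rw [mem_av] at hg
      have hgc : ∀ i, g i ≠ c ∧ g i ≠ y := by
        intro i
        have := hg.2 i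
        simpa [Finset.mem_insert, Finset.mem_singleton, not_or] using this
      unfold WW
      have e1 : star c (insert y L) y (g 0) = 1 := by
        unfold star
        rw [if_neg]
        rintro (⟨h, _⟩ | ⟨h, _⟩)
        · exact hc'.1 h.symm
        · exact (hgc 0).1 h
      have e2 : hp (star c (insert y L)) g = 1 := by
        unfold hp
        refine Finset.prod_eq_one fun i _ => ?_
        unfold star
        rw [if_neg]
        rintro (⟨h, _⟩ | ⟨h, _⟩)
        · exact (hgc _).1 h
        · exact (hgc _).1 h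
      have e3 : star c (insert y L) (g (Fin.last (k + 1))) c
          = 1 - 2 * (if g (Fin.last (k + 1)) ∈ L then (1 : ℤ) else 0) := by
        unfold star
        by_cases h : g (Fin.last (k + 1)) ∈ L
        · rw [if_pos (Or.inr ⟨rfl, Finset.mem_insert_of_mem h⟩), if_pos h]; norm_num
        · rw [if_neg h, if_neg]
          · norm_num
          · rintro (⟨h', _⟩ | ⟨_, h'⟩)
            · exact (hgc _).1 h'
            · rw [Finset.mem_insert] at h'
              rcases h' with h' | h'
              · exact (hgc _).2 h'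
              · exact h h'
      rw [e1, e2, e3]
      ring
    rw [Finset.sum_congr rfl h3, Finset.sum_sub_distrib, ← Finset.mul_sum,
      count_one (k + 1) ({c, y} : Finset V) (Fin.last (k + 1)) (fun v => v ∈ L),
      Finset.sum_const, nsmul_eq_mul, mul_one, card_av, card_compl_two hc'.1,
      show Fintype.card V - 2 - 1 = Fintype.card V - 3 by omega] at h2
    have h4 : (({c, y} : Finset V)ᶜ.filter fun v => v ∈ L) = L := by
      ext v
      simp only [Finset.mem_filter, Finset.mem_compl, Finset.mem_insert, Finset.mem_singleton, not_or]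
      constructor
      · exact fun h => h.2
      · intro h
        exact ⟨⟨fun h' => hc'.2 (h' ▸ h), fun h' => hy (h' ▸ h)⟩, h⟩
    rw [h4] at h2
    have hA : (((Fintype.card V - 2).descFactorial (k + 2) : ℕ) : ℤ)
        = ((Fintype.card V : ℤ) - 2) * (((Fintype.card V - 3).descFactorial (k + 1) : ℕ) : ℤ) := by
      obtain ⟨c, hc⟩ : ∃ c, Fintype.card V = c + 3 := ⟨Fintype.card V - 3, by omega⟩
      rw [hc]
      have e1 : c + 3 - 2 = c + 1 := by omega
      have e2 : c + 3 - 3 = c := by omega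
      rw [e1, e2, Nat.succ_descFactorial_succ]
      push_cast
      ring
    rw [hA] at h2
    rw [Finset.card_insert_of_notMem hy]
    push_cast
    linear_combination h2

end

/-- The matrix of a signature. -/
def mat {n : ℕ} (τ : Sym2 (Fin n) → ℤˣ) (x y : Fin n) : ℤ := ((τ s(x, y) : ℤˣ) : ℤ)

lemma isSig_mat {n : ℕ} (τ : Sym2 (Fin n) → ℤˣ) : IsSig (mat τ) := by
  refine ⟨fun x y => by unfold mat; rw [Sym2.eq_swap], fun x y => ?_⟩
  unfold mat
  rcases Int.units_eq_one_or (τ s(x, y)) with h | h <;> rw [h] <;> simp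

lemma negCircles_eq {n l : ℕ} [NeZero l] (hl : 3 ≤ l) (hn : l ≤ n) (τ : Sym2 (Fin n) → ℤˣ) :
    ((negCircles n l τ : ℕ) : ℤ) = cc l (mat τ) := by
  have hl0 : (4 * (l : ℤ)) ≠ 0 := by
    have : (l : ℤ) ≠ 0 := by exact_mod_cast (by omega : l ≠ 0)
    positivity
  have h1 := cc_spec hl (by rw [Fintype.card_fin]; exact hn) (isSig_mat τ)
  have h2 := circStmt n l hl τ
  rw [Fintype.card_fin] at h1
  refine mul_left_cancel₀ hl0 ?_
  rw [h1]
  exact h2

lemma negN_mat {n : ℕ} (τ : Sym2 (Fin n) → ℤˣ) : negN (mat τ) = 2 * negEdges n τ := by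
  classical
  set G : SimpleGraph (Fin n) := SimpleGraph.mk (fun x y => x ≠ y ∧ τ s(x, y) = -1)
    (by constructor; intro x y h; exact ⟨h.1.symm, by rw [Sym2.eq_swap]; exact h.2⟩)
    (by constructor; intro x h; exact h.1 rfl) with hG
  have hadj : ∀ x y, G.Adj x y ↔ (x ≠ y ∧ τ s(x, y) = -1) := fun x y => Iff.rfl
  have h1 := G.sum_degrees_eq_twice_card_edges
  have h2 : negN (mat τ) = ∑ x : Fin n, G.degree x := by
    unfold negN
    rw [Finset.card_filter, Fintype.sum_prod_type]
    refine Finset.sum_congr rfl fun x _ => ?_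
    rw [← Finset.card_filter, ← SimpleGraph.card_neighborFinset_eq_degree]
    congr 1
    ext y
    rw [SimpleGraph.mem_neighborFinset, hadj]
    simp only [Finset.mem_filter, Finset.mem_univ, true_and]
    refine and_congr_right fun _ => ?_
    unfold mat
    rcases Int.units_eq_one_or (τ s(x, y)) with h | h <;> rw [h] <;> decide
  rw [h2, h1]
  congr 1
  unfold negEdges
  rw [← Set.ncard_coe_finset, SimpleGraph.coe_edgeFinset]
  congr 1
  ext e
  refine Sym2.inductionOn e fun x y => ?_
  rw [SimpleGraph.mem_edgeSet, hadj]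
  simp only [Set.mem_ofPred_eq, Sym2.mk_isDiag_iff]

theorem low_end (l : ℕ) (hl : 4 ≤ l) (ε : ℝ) (hε : 0 < ε) (hε1 : ε < 1) : ∃ n₀ : ℕ, ∀ n : ℕ, n₀ ≤ n →
    (∀ t : ℕ, t < n → lowA n l t ∈ SS n l) ∧
    ∀ σ : Sym2 (Fin n) → ℤˣ, (negCircles n l σ : ℝ) ≤ (1 - ε) * (n : ℝ) ^ ((l : ℝ) - 3 / 2) →
      ∃ (t : ℕ) (τ : Sym2 (Fin n) → ℤˣ), SwEq n l σ τ ∧ negEdges n τ = t ∧
        (t : ℝ) ^ 2 ≤ (1 - ε) * n ∧ lowA n l t ≤ negCircles n l σ ∧ negCircles n l σ ≤ lowB n l t ∧
        (lowB n l t : ℝ) + ε / 2 * n * ((n - 3).descFactorial (l - 3) : ℕ) ≤ lowA n l (t + 1) := by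
  obtain ⟨k, rfl⟩ : ∃ k, l = k + 4 := ⟨l - 4, by omega⟩
  obtain ⟨n₀, hn₀⟩ := eventually_atTop.1 ((low_range k hε hε1).and
    ((ev_sqrt 1 2 (by positivity : 0 < ε / 2)).and (eventually_ge_atTop (k + 4))))
  refine ⟨n₀, fun n hn => ?_⟩
  obtain ⟨hlow, h2, h3⟩ := hn₀ n hn
  have hn0 : (0 : ℝ) < n := by exact_mod_cast (by omega : 0 < n)
  have e1 : k + 4 - 3 = k + 1 := by omega
  have e2 : k + 4 - 2 = k + 2 := by omega
  constructor
  · intro t ht
    rw [mem_SS (by omega) h3]
    have h4 : 0 < n := by omega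
    set c : Fin n := ⟨0, h4⟩ with hc
    obtain ⟨L, hL1, hL2⟩ := Finset.exists_subset_card_eq (s := (univ.erase c : Finset (Fin n))) (n := t)
      (by rw [Finset.card_erase_of_mem (Finset.mem_univ _), Finset.card_univ, Fintype.card_fin]; omega)
    refine ⟨star c L, isSig_star c L, ?_⟩
    have hcL : c ∉ L := fun h => by
      have := hL1 h
      simp at this
    have h5 := cc_star (k := k) (by rw [Fintype.card_fin]; exact h3) c L hcL
    rw [Fintype.card_fin, hL2] at h5
    rw [h5]
    unfold lowA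
    rw [e1]
    push_cast
    rw [Nat.cast_sub (by omega), Nat.cast_sub (by omega)]
    push_cast
    ring
  · intro σ hσ
    have hc := negCircles_eq (l := k + 4) (by omega) h3 σ
    have hpow : (n : ℝ) ^ (((k + 4 : ℕ) : ℝ) - 3 / 2) = (n : ℝ) ^ (k + 2) * √(n : ℝ) := by
      rw [rpow_half (l := k + 4) (by omega) (by omega), e2]
    rw [hpow] at hσ
    obtain ⟨κ, ρ, t, hκ, hρ, ht, ht2, hlo, hup⟩ := hlow (Fin n) (Fintype.card_fin n) (mat σ)
      (isSig_mat σ) (by rw [← hc]; exact_mod_cast hσ)
    have hκ' : κ = 1 ∨ κ = -1 := by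
      rcases hκ with h | h
      · exact Or.inl h
      · exact Or.inr h.1
    -- units
    set κu : ℤˣ := if κ = 1 then 1 else -1 with hκu
    set ρu : Fin n → ℤˣ := fun v => if ρ v = 1 then 1 else -1 with hρu
    have hκc : ((κu : ℤˣ) : ℤ) = κ := by
      rw [hκu]
      rcases hκ' with h | h <;> rw [h] <;> norm_num
    have hρc : ∀ v, ((ρu v : ℤˣ) : ℤ) = ρ v := by
      intro v
      rw [hρu]
      dsimp only
      rcases hρ v with h | h <;> rw [h] <;> norm_num
    set τ : Sym2 (Fin n) → ℤˣ := Sym2.lift ⟨fun x y => κu * ρu x * ρu y * σ s(x, y), fun x y => by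
      beta_reduce
      rw [Sym2.eq_swap, mul_right_comm κu (ρu x) (ρu y)]⟩ with hτ
    have hτv : ∀ x y, τ s(x, y) = κu * ρu x * ρu y * σ s(x, y) := fun x y => by
      rw [hτ, Sym2.lift_mk]
    have hmat : mat τ = sw ρ fun x y => κ * mat σ x y := by
      funext x y
      unfold mat sw
      rw [hτv]
      push_cast
      rw [hκc, hρc, hρc]
      ring
    have hne : negEdges n τ = t := by
      have h4 := negN_mat τ
      rw [hmat, ht] at h4
      omega
    refine ⟨t, τ, ⟨κu, ρu, ?_, hτv⟩, hne, ht2, ?_, ?_, ?_⟩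
    · rcases hκ with h | h
      · left
        rw [hκu, if_pos h]
      · exact Or.inr h.2
    · have htn : t + 1 ≤ n := by
        have h4 : (t : ℝ) ^ 2 < n := by
          have : (1 - ε) * n < 1 * n := mul_lt_mul_of_pos_right (by linarith) hn0
          linarith
        have h5 : t ^ 2 < n := by exact_mod_cast h4
        nlinarith
      rw [← hc] at hlo
      unfold lowA
      rw [e1]
      have h4 : ((t * (n - 1 - t) * (n - 3).descFactorial (k + 1) : ℕ) : ℤ) ≤ negCircles n (k + 4) σ := by
        refine le_trans (le_of_eq ?_) hlo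
        push_cast
        rw [Nat.cast_sub (by omega), Nat.cast_sub (by omega)]
        push_cast
        ring
      exact_mod_cast h4
    · rw [← hc] at hup
      unfold lowB
      rw [e2]
      exact_mod_cast hup
    · unfold lowA lowB
      rw [e1, e2]
      have hsq : √(n : ℝ) * √(n : ℝ) = n := Real.mul_self_sqrt hn0.le
      have ht3 : (t : ℝ) ≤ √(n : ℝ) := by
        apply Real.le_sqrt_of_sq_le
        have : (1 - ε) * n ≤ 1 * n := mul_le_mul_of_nonneg_right (by linarith) hn0.le
        linarith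
      have ht4 : t + 2 ≤ n := by
        have h4 : (t : ℝ) + 2 ≤ n := by
          have : ε / 2 * n ≤ 1 * n := mul_le_mul_of_nonneg_right (by linarith) hn0.le
          linarith
        exact_mod_cast h4
      have hA : (((n - 2).descFactorial (k + 2) : ℕ) : ℝ)
          = ((n : ℝ) - 2) * (((n - 3).descFactorial (k + 1) : ℕ) : ℝ) := by
        obtain ⟨c, hc⟩ : ∃ c, n = c + 3 := ⟨n - 3, by omega⟩
        rw [hc]
        have e1 : c + 3 - 2 = c + 1 := by omega
        have e2 : c + 3 - 3 = c := by omega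
        rw [e1, e2, Nat.succ_descFactorial_succ]
        push_cast
        ring
      push_cast
      rw [hA, Nat.cast_sub (by omega), Nat.cast_sub (by omega)]
      push_cast
      have h5 : (t : ℝ) * ((n : ℝ) - 2) + ε / 2 * n ≤ (t + 1) * ((n : ℝ) - 1 - (t + 1)) := by
        nlinarith
      calc (t : ℝ) * (((n : ℝ) - 2) * (((n - 3).descFactorial (k + 1) : ℕ) : ℝ))
            + ε / 2 * n * (((n - 3).descFactorial (k + 1) : ℕ) : ℝ)
          = ((t : ℝ) * ((n : ℝ) - 2) + ε / 2 * n) * (((n - 3).descFactorial (k + 1) : ℕ) : ℝ) := by ring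
        _ ≤ _ := mul_le_mul_of_nonneg_right h5 (by positivity)

end MP_90430c
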