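import Mathlib

/-! The top end of `S(n,l)` for even `l`, part A: traces of words in a symmetric matrix and
diagonal matrices of signs. -/

open Finset Matrix

set_option linter.unusedSectionVars false

namespace MP_90430c

namespace Top

variable {V : Type*} [Fintype V] [DecidableEq V]

/-- The diagonal matrix of a sign vector. -/
noncomputable def dg (d : V → ℤˣ) : Matrix V V ℝ := Matrix.diagonal fun v => ((d v : ℤ) : ℝ)

/-- The product of the matrices `d A`, `d` in the word `w`. -/
noncomputable def Mw (A : Matrix V V ℝ) (w : List (V → ℤˣ)) : Matrix V V ℝ :=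
  (w.map fun d => dg d * A).prod

/-- The word `A d₁ A d₂ ... A`. -/
noncomputable def Nw (A : Matrix V V ℝ) (w : List (V → ℤˣ)) : Matrix V V ℝ := A * Mw A w

/-- The sum of the squares of the entries. -/
noncomputable def fro (X : Matrix V V ℝ) : ℝ := ∑ a, ∑ b, X a b ^ 2

lemma fro_nonneg (X : Matrix V V ℝ) : 0 ≤ fro X :=
  Finset.sum_nonneg fun _ _ => Finset.sum_nonneg fun _ _ => sq_nonneg _

lemma fro_eq (X : Matrix V V ℝ) : fro X = (X * Xᵀ).trace := by
  unfold fro Matrix.trace
  refine Finset.sum_congr rfl fun a _ => ?_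
  rw [Matrix.diag_apply, Matrix.mul_apply]
  refine Finset.sum_congr rfl fun b _ => ?_
  rw [Matrix.transpose_apply, sq]

lemma fro_transpose (X : Matrix V V ℝ) : fro Xᵀ = fro X := by
  unfold fro
  rw [Finset.sum_comm]
  rfl

lemma sgn_sq (u : ℤˣ) : ((u : ℤ) : ℝ) ^ 2 = 1 := by
  rcases Int.units_eq_one_or u with h | h <;> rw [h] <;> simp

lemma sgn_mul_self (u : ℤˣ) : ((u : ℤ) : ℝ) * ((u : ℤ) : ℝ) = 1 := by
  rw [← sq]; exact sgn_sq u

lemma dg_one : dg (1 : V → ℤˣ) = 1 := by
  unfold dg
  simp

lemma dg_transpose (d : V → ℤˣ) : (dg d)ᵀ = dg d := by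
  unfold dg
  exact Matrix.diagonal_transpose _

lemma Mw_nil (A : Matrix V V ℝ) : Mw A [] = 1 := rfl

lemma Mw_cons (A : Matrix V V ℝ) (d : V → ℤˣ) (w : List (V → ℤˣ)) :
    Mw A (d :: w) = dg d * Nw A w := by
  unfold Nw Mw
  rw [List.map_cons, List.prod_cons, Matrix.mul_assoc]

lemma Mw_append (A : Matrix V V ℝ) (u w : List (V → ℤˣ)) : Mw A (u ++ w) = Mw A u * Mw A w := by
  unfold Mw
  rw [List.map_append, List.prod_append]

lemma Nw_concat (A : Matrix V V ℝ) (w : List (V → ℤˣ)) (d : V → ℤˣ) :
    Nw A (w ++ [d]) = Nw A w * (dg d * A) := by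
  unfold Nw
  rw [Mw_append, ← Matrix.mul_assoc]
  congr 1
  unfold Mw
  simp

lemma Mw_one (A : Matrix V V ℝ) (m : ℕ) : Mw A (List.replicate m 1) = A ^ m := by
  unfold Mw
  rw [List.map_replicate, List.prod_replicate, dg_one, Matrix.one_mul]

lemma Nw_transpose {A : Matrix V V ℝ} (hA : Aᵀ = A) (w : List (V → ℤˣ)) :
    (Nw A w)ᵀ = Nw A w.reverse := by
  induction w with
  | nil => simp [Nw, Mw_nil, hA]
  | cons d w ih =>
    have h1 : Nw A (d :: w) = A * (dg d * Nw A w) := by
      unfold Nw
      rw [Mw_cons]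
      rfl
    rw [h1, Matrix.transpose_mul, Matrix.transpose_mul, ih, dg_transpose, hA, List.reverse_cons,
      Nw_concat, Matrix.mul_assoc]

lemma fro_Nw {A : Matrix V V ℝ} (hA : Aᵀ = A) (x : List (V → ℤˣ)) :
    fro (Nw A x) = (Mw A ((1 :: x) ++ (1 :: x.reverse))).trace := by
  rw [fro_eq, Nw_transpose hA, Mw_append, Mw_cons, Mw_cons, dg_one, Matrix.one_mul, Matrix.one_mul]

lemma cs (d c : V → ℤˣ) (X Y : Matrix V V ℝ) :
    ((dg d * X * (dg c * Y)).trace) ^ 2 ≤ fro X * fro Y := by
  have h1 : (dg d * X * (dg c * Y)).trace =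
      ∑ p : V × V, (((d p.1 : ℤ) : ℝ) * X p.1 p.2) * (((c p.2 : ℤ) : ℝ) * Y p.2 p.1) := by
    rw [Fintype.sum_prod_type]
    unfold Matrix.trace
    refine Finset.sum_congr rfl fun a _ => ?_
    rw [Matrix.diag_apply, Matrix.mul_apply]
    refine Finset.sum_congr rfl fun b _ => ?_
    unfold dg
    rw [Matrix.diagonal_mul, Matrix.diagonal_mul]
  have h2 : fro X = ∑ p : V × V, (((d p.1 : ℤ) : ℝ) * X p.1 p.2) ^ 2 := by
    rw [Fintype.sum_prod_type]
    unfold fro
    refine Finset.sum_congr rfl fun a _ => Finset.sum_congr rfl fun b _ => ?_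
    rw [mul_pow, sgn_sq, one_mul]
  have h3 : fro Y = ∑ p : V × V, (((c p.2 : ℤ) : ℝ) * Y p.2 p.1) ^ 2 := by
    rw [← fro_transpose, Fintype.sum_prod_type]
    unfold fro
    refine Finset.sum_congr rfl fun a _ => Finset.sum_congr rfl fun b _ => ?_
    rw [mul_pow, sgn_sq, one_mul, Matrix.transpose_apply]
  rw [h1, h2, h3]
  exact Finset.sum_mul_sq_le_sq_mul_sq _ _ _

/-- The number of letters different from the identity. -/
noncomputable def nid (w : List (V → ℤˣ)) : ℕ := w.countP (fun d => decide (d ≠ 1))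

lemma nid_append (u w : List (V → ℤˣ)) : nid (u ++ w) = nid u + nid w := by
  unfold nid
  rw [List.countP_append]

lemma nid_reverse (u : List (V → ℤˣ)) : nid u.reverse = nid u := by
  unfold nid
  rw [List.countP_reverse]

lemma nid_one_cons (u : List (V → ℤˣ)) : nid (1 :: u) = nid u := by
  unfold nid
  rw [List.countP_cons]
  simp

lemma nid_cons_le (d : V → ℤˣ) (u : List (V → ℤˣ)) : nid u ≤ nid (d :: u) := by
  unfold nid
  rw [List.countP_cons]
  omega

lemma nid_cons_ne {d : V → ℤˣ} (hd : d ≠ 1) (u : List (V → ℤˣ)) : nid (d :: u) = nid u + 1 := by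
  unfold nid
  rw [List.countP_cons]
  simp [hd]

lemma eq_replicate_of_nid {w : List (V → ℤˣ)} (h : nid w = 0) : w = List.replicate w.length 1 := by
  rw [List.eq_replicate_iff]
  refine ⟨rfl, fun d hd => ?_⟩
  unfold nid at h
  rw [List.countP_eq_zero] at h
  have := h d hd
  simpa using this

/-- The chessboard estimate. -/
theorem chess {A : Matrix V V ℝ} (hA : Aᵀ = A) {m : ℕ} (hm : 1 ≤ m) (w : List (V → ℤˣ))
    (hw : w.length = 2 * m) : |(Mw A w).trace| ≤ (A ^ (2 * m)).trace := by
  set L : Set (List (V → ℤˣ)) := {w | w.length = 2 * m} with hL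
  have hfin : L.Finite := List.finite_length_eq (V → ℤˣ) (2 * m)
  obtain ⟨w0, hw0L, hw0⟩ := Set.exists_max_image L (fun w => |(Mw A w).trace|) hfin ⟨w, hw⟩
  set F := |(Mw A w0).trace| with hF
  set L' : Set (List (V → ℤˣ)) := {w | w ∈ L ∧ |(Mw A w).trace| = F} with hL'
  have hfin' : L'.Finite := hfin.subset fun w hw => hw.1
  obtain ⟨v, hvL, hv⟩ := Set.exists_min_image L' nid hfin' ⟨w0, hw0L, rfl⟩
  have hF0 : 0 ≤ F := abs_nonneg _
  have hTnn : 0 ≤ (A ^ (2 * m)).trace := by
    have : A ^ (2 * m) = A ^ m * (A ^ m)ᵀ := by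
      rw [Matrix.transpose_pow, hA, ← pow_add, two_mul]
    rw [this, ← fro_eq]
    exact fro_nonneg _
  refine (hw0 w hw).trans ?_
  rcases hF0.eq_or_lt with hF1 | hF1
  · rw [← hF1]; exact hTnn
  -- the minimiser has no letter different from the identity
  have hnid : nid v = 0 := by
    by_contra hne
    have hpos : 0 < v.countP (fun d => decide (d ≠ 1)) := Nat.pos_of_ne_zero hne
    rw [List.countP_pos_iff] at hpos
    obtain ⟨d, hdv, hd⟩ := hpos
    have hd1 : d ≠ 1 := by simpa using hd
    obtain ⟨s, t, hst⟩ := List.append_of_mem hdv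
    have hlen : (t ++ s).length = 2 * m - 1 := by
      have := hvL.1
      rw [hL, Set.mem_ofPred_eq, hst] at this
      simp only [List.length_append, List.length_cons] at this ⊢
      omega
    obtain ⟨x, c, y, hxy, hx, hy⟩ : ∃ (x : List (V → ℤˣ)) (c : V → ℤˣ) (y : List (V → ℤˣ)),
        t ++ s = x ++ c :: y ∧ x.length = m - 1 ∧ y.length = m - 1 := by
      have h1 : (List.drop (m - 1) (t ++ s)).length = m := by
        rw [List.length_drop, hlen]
        omega
      rcases hdr : List.drop (m - 1) (t ++ s) with _ | ⟨c, y⟩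
      · rw [hdr] at h1
        simp at h1
        omega
      · refine ⟨List.take (m - 1) (t ++ s), c, y, ?_, ?_, ?_⟩
        · rw [← hdr, List.take_append_drop]
        · rw [List.length_take, hlen]
          omega
        · rw [hdr] at h1
          simp at h1
          omega
    have htr : (Mw A v).trace = (dg d * Nw A x * (dg c * Nw A y)).trace := by
      rw [hst, Mw_append, Matrix.trace_mul_comm, ← Mw_append]
      have : d :: t ++ s = (d :: x) ++ (c :: y) := by
        rw [List.cons_append, List.cons_append, hxy]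
      rw [this, Mw_append, Mw_cons, Mw_cons]
    have hcs := cs d c (Nw A x) (Nw A y)
    rw [← htr, ← sq_abs, hvL.2] at hcs
    have hxL : (1 :: x) ++ (1 :: x.reverse) ∈ L := by
      show ((1 :: x) ++ (1 :: x.reverse)).length = 2 * m
      simp only [List.length_append, List.length_cons, List.length_reverse]
      omega
    have hyL : (1 :: y) ++ (1 :: y.reverse) ∈ L := by
      show ((1 :: y) ++ (1 :: y.reverse)).length = 2 * m
      simp only [List.length_append, List.length_cons, List.length_reverse]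
      omega
    have hx1 := hw0 _ hxL
    have hy1 := hw0 _ hyL
    have ex : |(Mw A ((1 :: x) ++ (1 :: x.reverse))).trace| = fro (Nw A x) := by
      rw [← fro_Nw hA, abs_of_nonneg (fro_nonneg _)]
    have ey : |(Mw A ((1 :: y) ++ (1 :: y.reverse))).trace| = fro (Nw A y) := by
      rw [← fro_Nw hA, abs_of_nonneg (fro_nonneg _)]
    rw [ex] at hx1
    rw [ey] at hy1
    have hx2 : fro (Nw A x) = F := by
      refine le_antisymm hx1 ?_
      by_contra hcon
      push Not at hcon
      have : fro (Nw A x) * fro (Nw A y) < F * F :=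
        mul_lt_mul_of_lt_of_le_of_nonneg_of_pos hcon hy1 (fro_nonneg _) hF1
      nlinarith
    have hy2 : fro (Nw A y) = F := by
      refine le_antisymm hy1 ?_
      by_contra hcon
      push Not at hcon
      have : fro (Nw A x) * fro (Nw A y) < F * F := by
        rw [hx2]
        exact mul_lt_mul_of_pos_left hcon hF1
      nlinarith
    have hx3 := hv _ ⟨hxL, by rw [ex, hx2]⟩
    have hy3 := hv _ ⟨hyL, by rw [ey, hy2]⟩
    rw [nid_append, nid_one_cons, nid_one_cons, nid_reverse] at hx3 hy3
    have hv3 : nid v = nid t + nid s + 1 := by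
      rw [hst, nid_append, nid_cons_ne hd1]
      ring
    have h5 : nid t + nid s = nid x + nid (c :: y) := by
      rw [← nid_append, hxy, nid_append]
    have h6 := nid_cons_le c y
    omega
  have hv1 : (Mw A v) = A ^ (2 * m) := by
    rw [eq_replicate_of_nid hnid, Mw_one]
    congr 1
    exact hvL.1
  rw [← hvL.2, hv1, abs_of_nonneg hTnn]

/-- The sum of squares of the entries of an open word. -/
theorem fro_le {A : Matrix V V ℝ} (hA : Aᵀ = A) (x : List (V → ℤˣ)) :
    fro (Nw A x) ≤ (A ^ (2 * (x.length + 1))).trace := by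
  rw [fro_Nw hA]
  refine (le_abs_self _).trans (chess hA (by omega) _ ?_)
  simp only [List.length_append, List.length_cons, List.length_reverse]
  omega

end Top

end MP_90430c
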