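import Pool.Agent.Lib.MP_90430c_co.TopA

/-! The top end of `S(n,l)` for even `l`, part B: sums over closed sequences with two equal
terms. -/

open Finset Matrix

set_option linter.unusedSectionVars false

namespace MP_90430c

namespace Top

variable {V : Type*} [Fintype V] [DecidableEq V]

/-- Products along a sequence with end points. -/
noncomputable def pq : (m : ℕ) → (Fin (m + 1) → Matrix V V ℝ) → V → (Fin m → V) → V → ℝ
  | 0, B, x, _, y => B 0 x y
  | m + 1, B, x, f, y => B 0 x (f 0) * pq m (fun i => B i.succ) (f 0) (fun i => f i.succ) y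

lemma sum_pq (m : ℕ) (B : Fin (m + 1) → Matrix V V ℝ) (x y : V) :
    ∑ f : Fin m → V, pq m B x f y = (List.ofFn B).prod x y := by
  induction m generalizing x with
  | zero =>
    simp [pq]
  | succ m ih =>
    rw [List.ofFn_succ, List.prod_cons, Matrix.mul_apply,
      ← (Fin.consEquiv fun _ : Fin (m + 1) => V).sum_comp, Fintype.sum_prod_type]
    refine Finset.sum_congr rfl fun z _ => ?_
    rw [← ih (fun i => B i.succ) z, Finset.mul_sum]
    refine Finset.sum_congr rfl fun f _ => ?_
    rfl

lemma prod_eq_pq (m : ℕ) (B : Fin (m + 1) → Matrix V V ℝ) (f : Fin (m + 1) → V) (y : V) :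
    (∏ i : Fin m, B i.castSucc (f i.castSucc) (f i.succ)) * B (Fin.last m) (f (Fin.last m)) y =
      pq m B (f 0) (fun i => f i.succ) y := by
  induction m with
  | zero =>
    simp [pq]
  | succ m ih =>
    rw [Fin.prod_univ_succ, mul_assoc]
    have := ih (fun i => B i.succ) (fun i => f i.succ)
    rw [pq, ← this]
    rfl

lemma closed_eq_pq (m : ℕ) (B : Fin (m + 1) → Matrix V V ℝ) (f : Fin (m + 1) → V) :
    ∏ i, B i (f i) (f (i + 1)) = pq m B (f 0) (fun i => f i.succ) (f 0) := by
  rw [← prod_eq_pq, Fin.prod_univ_castSucc]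
  congr 1
  · refine Finset.prod_congr rfl fun i _ => ?_
    rw [Fin.coeSucc_eq_succ]
  · rw [Fin.last_add_one]

/-- The trace of a product of matrices as a sum over closed sequences. -/
lemma sum_closed (m : ℕ) (B : Fin (m + 1) → Matrix V V ℝ) :
    ∑ f : Fin (m + 1) → V, ∏ i, B i (f i) (f (i + 1)) = (List.ofFn B).prod.trace := by
  rw [← (Fin.consEquiv fun _ : Fin (m + 1) => V).sum_comp, Fintype.sum_prod_type, Matrix.trace]
  refine Finset.sum_congr rfl fun z _ => ?_
  rw [Matrix.diag_apply, ← sum_pq]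
  refine Finset.sum_congr rfl fun f _ => ?_
  rw [closed_eq_pq]
  rfl

/-- The product of the entries along a closed sequence. -/
noncomputable def ca (l : ℕ) [NeZero l] (A : Matrix V V ℝ) (f : Fin l → V) : ℝ :=
  ∏ i, A (f i) (f (i + 1))

/-- The product of signs. -/
noncomputable def sd (l : ℕ) (D : Fin l → V → ℤˣ) (f : Fin l → V) : ℝ :=
  ∏ i, ((D i (f i) : ℤ) : ℝ)

lemma abs_sd (l : ℕ) (D : Fin l → V → ℤˣ) (f : Fin l → V) : |sd l D f| = 1 := by
  unfold sd
  rw [Finset.abs_prod]
  refine Finset.prod_eq_one fun i _ => ?_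
  rcases Int.units_eq_one_or (D i (f i)) with h | h <;> rw [h] <;> simp

lemma sum_ca_sd (m : ℕ) (A : Matrix V V ℝ) (D : Fin (m + 1) → V → ℤˣ) :
    ∑ f : Fin (m + 1) → V, ca (m + 1) A f * sd (m + 1) D f = (Mw A (List.ofFn D)).trace := by
  have h := sum_closed m (fun i => dg (D i) * A)
  have e : (List.ofFn fun i => dg (D i) * A).prod = Mw A (List.ofFn D) := by
    unfold Mw
    rw [List.map_ofFn]
    rfl
  rw [e] at h
  rw [← h]
  refine Finset.sum_congr rfl fun f _ => ?_
  unfold ca sd
  rw [← Finset.prod_mul_distrib]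
  refine Finset.prod_congr rfl fun i _ => ?_
  unfold dg
  rw [Matrix.diagonal_mul, mul_comm]

/-! ### Averages over sign vectors -/

/-- Averages over all sign vectors. -/
noncomputable def av (g : (V → ℤˣ) → ℝ) : ℝ := (∑ η : V → ℤˣ, g η) / Fintype.card (V → ℤˣ)

lemma card_pos' : (0 : ℝ) < Fintype.card (V → ℤˣ) := by
  exact_mod_cast Fintype.card_pos

lemma av_const (c : ℝ) : av (V := V) (fun _ => c) = c := by
  unfold av
  rw [Finset.sum_const, Finset.card_univ, nsmul_eq_mul, mul_comm, mul_div_assoc,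
    div_self card_pos'.ne', mul_one]

lemma av_add (g h : (V → ℤˣ) → ℝ) : av (fun η => g η + h η) = av g + av h := by
  unfold av
  rw [Finset.sum_add_distrib, add_div]

lemma av_mul (c : ℝ) (g : (V → ℤˣ) → ℝ) : av (fun η => c * g η) = c * av g := by
  unfold av
  rw [← Finset.mul_sum, mul_div_assoc]

lemma av_sum {ι : Type*} (s : Finset ι) (g : ι → (V → ℤˣ) → ℝ) :
    av (fun η => ∑ i ∈ s, g i η) = ∑ i ∈ s, av (g i) := by
  unfold av
  rw [Finset.sum_comm, Finset.sum_div]

lemma av_mono {g h : (V → ℤˣ) → ℝ} (hgh : ∀ η, g η ≤ h η) : av g ≤ av h := by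
  unfold av
  exact div_le_div_of_nonneg_right (Finset.sum_le_sum fun η _ => hgh η) card_pos'.le

lemma abs_av_le {g h : (V → ℤˣ) → ℝ} (hgh : ∀ η, |g η| ≤ h η) : |av g| ≤ av h := by
  rw [abs_le]
  constructor
  · have h1 : av (fun η => -h η) = -av h := by
      have := av_mul (V := V) (-1) h
      simpa using this
    rw [← h1]
    exact av_mono fun η => (abs_le.1 (hgh η)).1
  · exact av_mono fun η => (abs_le.1 (hgh η)).2

/-- Orthogonality. -/
lemma av_two (x y : V) :
    av (fun η => ((η x : ℤ) : ℝ) * ((η y : ℤ) : ℝ)) = if x = y then 1 else 0 := by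
  by_cases h : x = y
  · subst h
    rw [if_pos rfl]
    have : (fun η : V → ℤˣ => ((η x : ℤ) : ℝ) * ((η x : ℤ) : ℝ)) = fun _ => 1 := by
      funext η
      exact sgn_mul_self _
    rw [this]
    exact av_const 1
  · rw [if_neg h]
    unfold av
    rw [div_eq_zero_iff]
    left
    refine Finset.sum_ninvolution (fun η => Function.update η x (-η x)) ?_ ?_ ?_ ?_
    · intro η
      rw [Function.update_self, Function.update_of_ne (fun h' => h h'.symm)]
      push_cast
      ring
    · intro η _ h1
      have h2 := congrFun h1 x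
      rw [Function.update_self] at h2
      rcases Int.units_eq_one_or (η x) with h3 | h3 <;> rw [h3] at h2 <;> exact absurd h2 (by decide)
    · intro η
      exact Finset.mem_univ _
    · intro η
      funext z
      by_cases hz : z = x
      · subst hz
        simp
      · simp [Function.update_of_ne hz]

/-! ### The main estimate -/

/-- Inserting a random sign vector at the last letter of an open word. -/
lemma av_fro {A : Matrix V V ℝ} (hA : Aᵀ = A) {N : ℝ} (hN : ∀ x, (A * A) x x ≤ N)
    (R : Matrix V V ℝ) (e : V → ℤˣ) :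
    av (fun η : V → ℤˣ => fro (R * (dg (e * η) * A))) ≤ N * fro R := by
  have h1 : ∀ η : V → ℤˣ, fro (R * (dg (e * η) * A)) =
      ∑ a, ∑ z, ∑ z', (R a z * ((e z : ℤ) : ℝ) * (R a z' * ((e z' : ℤ) : ℝ)) * (A * A) z z') *
        (((η z : ℤ) : ℝ) * ((η z' : ℤ) : ℝ)) := by
    intro η
    unfold fro
    refine Finset.sum_congr rfl fun a _ => ?_
    have h2 : ∀ b, (R * (dg (e * η) * A)) a b =
        ∑ z, R a z * (((e z : ℤ) : ℝ) * ((η z : ℤ) : ℝ) * A z b) := by
      intro b
      rw [Matrix.mul_apply]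
      refine Finset.sum_congr rfl fun z _ => ?_
      unfold dg
      rw [Matrix.diagonal_mul]
      congr 2
      simp
    simp only [h2, sq, Finset.sum_mul_sum]
    rw [Finset.sum_comm]
    refine Finset.sum_congr rfl fun z _ => ?_
    rw [Finset.sum_comm]
    refine Finset.sum_congr rfl fun z' _ => ?_
    have h3 : (A * A) z z' = ∑ b, A z b * A z' b := by
      rw [Matrix.mul_apply]
      refine Finset.sum_congr rfl fun b _ => ?_
      have : A b z' = A z' b := by
        have := congrFun (congrFun hA z') b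
        rw [Matrix.transpose_apply] at this
        exact this
      rw [this]
    rw [h3, Finset.mul_sum, Finset.sum_mul]
    refine Finset.sum_congr rfl fun b _ => ?_
    ring
  have h4 : av (fun η : V → ℤˣ => fro (R * (dg (e * η) * A))) =
      ∑ a, ∑ z, R a z ^ 2 * (A * A) z z := by
    simp only [h1]
    rw [av_sum]
    refine Finset.sum_congr rfl fun a _ => ?_
    rw [av_sum]
    refine Finset.sum_congr rfl fun z _ => ?_
    rw [av_sum]
    have h5 : ∀ z', av (fun η : V → ℤˣ =>
        (R a z * ((e z : ℤ) : ℝ) * (R a z' * ((e z' : ℤ) : ℝ)) * (A * A) z z') *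
        (((η z : ℤ) : ℝ) * ((η z' : ℤ) : ℝ))) =
        if z = z' then (R a z * ((e z : ℤ) : ℝ) * (R a z' * ((e z' : ℤ) : ℝ)) * (A * A) z z')
          else 0 := by
      intro z'
      rw [av_mul, av_two]
      split_ifs <;> simp
    simp only [h5]
    rw [Finset.sum_ite_eq, if_pos (Finset.mem_univ _)]
    have := sgn_sq (e z)
    calc R a z * ((e z : ℤ) : ℝ) * (R a z * ((e z : ℤ) : ℝ)) * (A * A) z z
        = R a z ^ 2 * ((e z : ℤ) : ℝ) ^ 2 * (A * A) z z := by ring
      _ = _ := by rw [this, mul_one]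
  rw [h4]
  unfold fro
  rw [Finset.mul_sum]
  refine Finset.sum_le_sum fun a _ => ?_
  rw [Finset.mul_sum]
  refine Finset.sum_le_sum fun z _ => ?_
  rw [mul_comm]
  exact mul_le_mul_of_nonneg_right (hN z) (sq_nonneg _)

lemma trace_nonneg' {A : Matrix V V ℝ} (hA : Aᵀ = A) (m : ℕ) : 0 ≤ (A ^ (2 * m)).trace := by
  have : A ^ (2 * m) = A ^ m * (A ^ m)ᵀ := by
    rw [Matrix.transpose_pow, hA, ← pow_add, two_mul]
  rw [this, ← fro_eq]
  exact fro_nonneg _

/-- The estimate for words: a random sign vector at the last position and at one of the interior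
positions of the first half. -/
lemma word_bound {A : Matrix V V ℝ} (hA : Aᵀ = A) {N : ℝ} (hN : ∀ x, (A * A) x x ≤ N)
    (hN0 : 0 ≤ N) (k : ℕ) (d c e : V → ℤˣ) (x : (V → ℤˣ) → List (V → ℤˣ)) (y : List (V → ℤˣ))
    (hx : ∀ η, (x η).length = k + 1) (hy : y.length = k) {lam : ℝ} (hlam : 0 < lam) :
    |av (fun η : V → ℤˣ => (Mw A ((d :: x η) ++ (c :: (y ++ [e * η])))).trace)| ≤
      (lam * (A ^ (2 * (k + 2))).trace + N / lam * (A ^ (2 * (k + 1))).trace) / 2 := by
  have h1 : ∀ η : V → ℤˣ, |(Mw A ((d :: x η) ++ (c :: (y ++ [e * η])))).trace| ≤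
      (lam * (A ^ (2 * (k + 2))).trace + 1 / lam * fro (Nw A y * (dg (e * η) * A))) / 2 := by
    intro η
    rw [Mw_append, Mw_cons, Mw_cons, Nw_concat]
    have h2 := cs d c (Nw A (x η)) (Nw A y * (dg (e * η) * A))
    have h3 := fro_le hA (x η)
    rw [hx η] at h3
    have h4 := fro_nonneg (Nw A (x η))
    have h5 := fro_nonneg (Nw A y * (dg (e * η) * A))
    set t := (dg d * Nw A (x η) * (dg c * (Nw A y * (dg (e * η) * A)))).trace with ht
    set p := fro (Nw A (x η)) with hp
    set q := fro (Nw A y * (dg (e * η) * A)) with hq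
    have h6 : |t| ≤ (lam * p + 1 / lam * q) / 2 := by
      apply abs_le_of_sq_le_sq
      · have h7 : ((lam * p + 1 / lam * q) / 2) ^ 2 - p * q = ((lam * p - 1 / lam * q) / 2) ^ 2 := by
          field_simp
          ring
        nlinarith [sq_nonneg ((lam * p - 1 / lam * q) / 2)]
      · positivity
    refine h6.trans ?_
    have h8 : lam * p ≤ lam * (A ^ (2 * (k + 2))).trace :=
      mul_le_mul_of_nonneg_left h3 hlam.le
    linarith
  refine (abs_av_le h1).trans ?_
  have h2 : av (fun η : V → ℤˣ =>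
      (lam * (A ^ (2 * (k + 2))).trace + 1 / lam * fro (Nw A y * (dg (e * η) * A))) / 2) =
      (lam * (A ^ (2 * (k + 2))).trace +
        1 / lam * av (fun η : V → ℤˣ => fro (Nw A y * (dg (e * η) * A)))) / 2 := by
    have h3 : (fun η : V → ℤˣ =>
      (lam * (A ^ (2 * (k + 2))).trace + 1 / lam * fro (Nw A y * (dg (e * η) * A))) / 2) =
      fun η => (lam * (A ^ (2 * (k + 2))).trace / 2) +
        (1 / lam / 2) * fro (Nw A y * (dg (e * η) * A)) := by
      funext η
      ring
    rw [h3, av_add, av_const, av_mul]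
    ring
  rw [h2]
  have h4 := av_fro hA hN (Nw A y) e
  have h5 := fro_le hA y
  rw [hy] at h5
  have h6 : 1 / lam * av (fun η : V → ℤˣ => fro (Nw A y * (dg (e * η) * A))) ≤
      N / lam * (A ^ (2 * (k + 1))).trace := by
    calc 1 / lam * av (fun η : V → ℤˣ => fro (Nw A y * (dg (e * η) * A)))
        ≤ 1 / lam * (N * (A ^ (2 * (k + 1))).trace) := by
          refine mul_le_mul_of_nonneg_left (h4.trans (mul_le_mul_of_nonneg_left h5 hN0)) ?_
          positivity
      _ = _ := by ring
  linarith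

end Top

end MP_90430c
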